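import Mathlib
import Pool.Agent.Lib.MP_f60e8a_al.Stmts

/-!
# Definitions for the general nilpotent case: nilpotent exponential and logarithm, Lie lattices,
algebras given by structure constants
-/

open scoped BigOperators

namespace Pool.Agent.MPf60e8aN

/-! ## Nilpotent subspaces of associative algebras -/

/-- A multiplicatively closed `ℚ`-subspace in which all products of `N` elements vanish. -/
structure NilSub (A : Type*) [Ring A] [Algebra ℚ A] (N : ℕ) where
  S : Submodule ℚ A
  mul_mem : ∀ x ∈ S, ∀ y ∈ S, x * y ∈ S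
  nil : ∀ l : List A, (∀ x ∈ l, x ∈ S) → N ≤ l.length → l.prod = 0

/-- The logarithm of a unipotent element. -/
noncomputable def lg {A : Type*} [Ring A] [Algebra ℚ A] (y : A) : A :=
  ∑ i ∈ Finset.range (nilpotencyClass (y - 1)), ((-1 : ℚ) ^ (i + 1) / i) • (y - 1) ^ i

/-- The set of units which are exponentials of elements of `I`. -/
def ExpSet {A : Type*} [Ring A] [Algebra ℚ A] (I : Set A) : Set Aˣ :=
  {u | ∃ x ∈ I, (u : A) = IsNilpotent.exp x}

/-- `M` is a common denominator for the Baker-Campbell-Hausdorff formula in nilpotency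
order `N`. -/
def BchConst (N M : ℕ) : Prop :=
  0 < M ∧ ∀ (A : Type) [Ring A] [Algebra ℚ A] (𝔞 : NilSub A N) (u v : A),
    u ∈ 𝔞.S → v ∈ 𝔞.S → ∀ E : AddSubgroup A, u * v - v * u ∈ E →
    (∀ e ∈ E, u * e - e * u ∈ E) → (∀ e ∈ E, v * e - e * v ∈ E) →
    ∃ w ∈ 𝔞.S, M • w ∈ E ∧
      IsNilpotent.exp u * IsNilpotent.exp v = IsNilpotent.exp (u + v + w)

/-- A Lie lattice: an additive subgroup of the nilpotent part with brackets divisible
by `M`. -/
structure LieLattice {A : Type*} [Ring A] [Algebra ℚ A] {N : ℕ} (𝔞 : NilSub A N) (M : ℕ)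
    (L : AddSubgroup A) : Prop where
  le : ∀ x ∈ L, x ∈ 𝔞.S
  br : ∀ x ∈ L, ∀ y ∈ L, ∃ z ∈ L, x * y - y * x = M • z

/-- An ideal of a Lie lattice, in the sense of the divided bracket. -/
structure LatIdeal {A : Type*} [Ring A] [Algebra ℚ A] (M : ℕ) (L I : AddSubgroup A) : Prop where
  le : I ≤ L
  br : ∀ x ∈ I, ∀ y ∈ L, ∃ z ∈ I, x * y - y * x = M • z

/-! ## Algebras with integral structure constants -/

/-- A (non-associative) algebra structure on `ℤ^h`, by structure constants. -/
structure Alg (h : ℕ) where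
  c : Fin h → Fin h → Fin h → ℤ

namespace Alg

variable {h : ℕ} (L : Alg h)

/-- The product of two vectors over a commutative ring. -/
def mul {R : Type*} [CommRing R] (x y : Fin h → R) : Fin h → R :=
  fun k => ∑ i, ∑ j, (L.c i j k : R) * x i * y j

/-- Two-sided ideals (as submodules). -/
def IsIdeal {R : Type*} [CommRing R] (J : Submodule R (Fin h → R)) : Prop :=
  ∀ x ∈ J, ∀ y, L.mul x y ∈ J ∧ L.mul y x ∈ J

/-- The least `d` such that the ideals of codimension at most `d` of the complexified algebra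
intersect in `0`. -/
noncomputable def dnum : ℕ :=
  sInf {d : ℕ | sInf {J : Submodule ℂ (Fin h → ℂ) | L.IsIdeal J ∧
    Module.finrank ℂ ((Fin h → ℂ) ⧸ J) ≤ d} = ⊥}

/-- A prime `p` is good (for dimension `d`) if the algebra mod `p` has finitely many ideals of
codimension at most `d` with intersection `0`. -/
def GoodP (d p : ℕ) : Prop :=
  ∃ (r : ℕ) (π : Fin r → ((Fin h → ZMod p) →ₗ[ZMod p] (Fin d → ZMod p))),
    (∀ j, L.IsIdeal (LinearMap.ker (π j))) ∧ ∀ x, (∀ j, π j x = 0) → x = 0

end Alg

/-- The algebra `L` describes the divided bracket of the lattice `Λ` in the basis `e`. -/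
def Describes {A : Type*} [Ring A] [Algebra ℚ A] (M : ℕ) {Λ : AddSubgroup A} {h : ℕ}
    (e : Module.Basis (Fin h) ℤ Λ) (L : Alg h) : Prop :=
  ∀ i j, (e i : A) * (e j : A) - (e j : A) * (e i : A) = M • ∑ k, L.c i j k • (e k : A)

/-! ## Unipotent matrices -/

/-- Strictly upper triangular matrices. -/
def upperNil (N : ℕ) : NilSub (Matrix (Fin N) (Fin N) ℚ) N where
  S := { carrier := {x | ∀ i j, j ≤ i → x i j = 0}
         zero_mem' := fun i j _ => rfl
         add_mem' := fun {x y} hx hy i j hij => by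
           rw [Matrix.add_apply, hx i j hij, hy i j hij, add_zero]
         smul_mem' := fun c x hx i j hij => by
           rw [Matrix.smul_apply, hx i j hij, smul_zero] }
  mul_mem := fun x hx y hy i j hij => by
    rw [Matrix.mul_apply]
    refine Finset.sum_eq_zero fun k _ => ?_
    rcases le_or_gt k i with hk | hk
    · rw [hx i k hk, zero_mul]
    · rw [hy k j (hij.trans hk.le), mul_zero]
  nil := fun l hl hlen => by
    have key : ∀ l : List (Matrix (Fin N) (Fin N) ℚ),
        (∀ x ∈ l, ∀ i j : Fin N, j ≤ i → x i j = 0) →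
        ∀ i j : Fin N, (j : ℕ) < i + l.length → l.prod i j = 0 := by
      intro l
      induction l with
      | nil =>
        intro _ i j hij
        rw [List.prod_nil, Matrix.one_apply, if_neg]
        rintro rfl
        simp at hij
      | cons x l ih =>
        intro h i j hij
        rw [List.prod_cons, Matrix.mul_apply]
        refine Finset.sum_eq_zero fun k _ => ?_
        rcases le_or_gt k i with hk | hk
        · rw [h x List.mem_cons_self i k hk, zero_mul]
        · rw [ih (fun y hy => h y (List.mem_cons_of_mem _ hy)) k j, mul_zero]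
          have : (i : ℕ) < k := hk
          rw [List.length_cons] at hij
          omega
    ext i j
    rw [key l hl i j (by have := j.2; omega), Matrix.zero_apply]

theorem mem_upperNil {N : ℕ} {x : Matrix (Fin N) (Fin N) ℚ} :
    x ∈ (upperNil N).S ↔ ∀ i j, j ≤ i → x i j = 0 := Iff.rfl

/-- A homomorphism to rational matrices with unipotent upper triangular values. -/
def IsUnipotent {G : Type*} [Group G] {N : ℕ} (φ : G →* (Matrix (Fin N) (Fin N) ℚ)ˣ) : Prop :=
  ∀ g, ((φ g : Matrix (Fin N) (Fin N) ℚ) - 1) ∈ (upperNil N).S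

/-- The complex span of the logarithms of the matrices `φ g`. -/
noncomputable def logSpan {G : Type*} [Group G] {N : ℕ}
    (φ : G →* (Matrix (Fin N) (Fin N) ℚ)ˣ) : Submodule ℂ (Matrix (Fin N) (Fin N) ℂ) :=
  Submodule.span ℂ (Set.range fun g =>
    (lg (φ g : Matrix (Fin N) (Fin N) ℚ)).map (algebraMap ℚ ℂ))

/-- The least `d` such that the Lie ideals of codimension at most `d` of the complex Lie algebra
`logSpan φ` intersect in `0`. -/
noncomputable def malcevNumber {G : Type*} [Group G] {N : ℕ}
    (φ : G →* (Matrix (Fin N) (Fin N) ℚ)ˣ) : ℕ :=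
  sInf {d : ℕ | sInf {J : Submodule ℂ (Matrix (Fin N) (Fin N) ℂ) | J ≤ logSpan φ ∧
    (∀ x ∈ J, ∀ y ∈ logSpan φ, x * y - y * x ∈ J) ∧
    Module.finrank ℂ (logSpan φ) ≤ Module.finrank ℂ J + d} = ⊥}

end Pool.Agent.MPf60e8aN
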