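import Mathlib
import Pool.Agent.Lib.MP_f60e8a_al.N.NDefs

/-!
# MP_f60e8a_al, part N, module EXPLOG: nilpotent exponential and logarithm
-/

open scoped BigOperators commutatorElement

namespace Pool.Agent.MPf60e8aN

open Pool.Agent.MPf60e8a (wordLen sepIndex RF PosDensity)

namespace ExpLogAux

/-! ### power series -/

/-- the geometric series -/
noncomputable def geo : PowerSeries ℚ := PowerSeries.mk fun n => algebraMap ℚ ℚ ((-1 : ℚ) ^ n)

theorem geo_mul : geo * (1 + PowerSeries.X) = 1 := by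
  unfold geo
  ext n
  rw [mul_add, mul_one, map_add]
  cases n with
  | zero => simp
  | succ n =>
    rw [PowerSeries.coeff_succ_mul_X]
    simp [pow_succ, PowerSeries.coeff_one]

theorem log_subst_exp : (PowerSeries.log ℚ).subst (PowerSeries.exp ℚ - 1) = PowerSeries.X := by
  have hs : PowerSeries.HasSubst (PowerSeries.exp ℚ - 1) := PowerSeries.HasSubst.exp_sub_one
  apply PowerSeries.derivative.ext
  · rw [PowerSeries.derivative_subst hs, PowerSeries.deriv_log, map_sub, PowerSeries.derivative_exp,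
      PowerSeries.derivative_X, PowerSeries.derivative_one, sub_zero]
    have h := congrArg (PowerSeries.substAlgHom hs) geo_mul
    rw [map_mul, map_add, map_one, PowerSeries.substAlgHom_X, add_sub_cancel,
      PowerSeries.coe_substAlgHom] at h
    exact h
  · rw [PowerSeries.constantCoeff_X]
    exact PowerSeries.constantCoeff_subst_eq_zero (by
      rw [map_sub, map_one]
      have := PowerSeries.constantCoeff_exp (A := ℚ)
      rw [PowerSeries.constantCoeff_eq] at this
      rw [this, sub_self]) _ PowerSeries.constantCoeff_log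

theorem exp_subst_log : (PowerSeries.exp ℚ).subst (PowerSeries.log ℚ) = 1 + PowerSeries.X := by
  have hs : PowerSeries.HasSubst (PowerSeries.log ℚ) := PowerSeries.HasSubst.log
  set F := (PowerSeries.exp ℚ).subst (PowerSeries.log ℚ) with hF
  have hd : PowerSeries.derivative ℚ F = F * geo := by
    rw [hF, PowerSeries.derivative_subst hs, PowerSeries.derivative_exp, PowerSeries.deriv_log]
    rfl
  have hg : PowerSeries.derivative ℚ geo * (1 + PowerSeries.X) = - geo := by
    have h := congrArg (PowerSeries.derivative ℚ) geo_mul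
    rw [Derivation.leibniz, map_add, PowerSeries.derivative_X, PowerSeries.derivative_one,
      zero_add, smul_eq_mul, smul_eq_mul, mul_one] at h
    linear_combination h
  have hgg : PowerSeries.derivative ℚ geo = - geo * geo := by
    linear_combination geo * hg - (PowerSeries.derivative ℚ geo) * geo_mul
  have h1 : F * geo = 1 := by
    apply PowerSeries.derivative.ext
    · rw [Derivation.leibniz, smul_eq_mul, smul_eq_mul, hd, hgg, PowerSeries.derivative_one]
      ring
    · rw [map_mul, map_one]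
      have h2 : PowerSeries.constantCoeff F = 1 := by
        have h3 : F = 1 + (PowerSeries.exp ℚ - 1).subst (PowerSeries.log ℚ) := by
          rw [hF, ← PowerSeries.coe_substAlgHom hs, map_sub, map_one]
          ring
        rw [h3, map_add, map_one]
        have h4 := PowerSeries.constantCoeff_subst_eq_zero (a := PowerSeries.log ℚ) (by
          have := PowerSeries.constantCoeff_log (A := ℚ)
          rwa [PowerSeries.constantCoeff_eq] at this) (PowerSeries.exp ℚ - 1) (by simp)
        rw [PowerSeries.constantCoeff_eq, h4, add_zero]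
      rw [h2, one_mul]
      unfold geo
      simp
  linear_combination (1 + PowerSeries.X) * h1 - F * geo_mul

/-! ### truncations -/

open Polynomial

theorem dvd_sub_trunc (k : ℕ) (f : PowerSeries ℚ) :
    (PowerSeries.X : PowerSeries ℚ) ^ k ∣ f - (PowerSeries.trunc k f : ℚ[X]) := by
  rw [PowerSeries.X_pow_dvd_iff]
  intro m hm
  rw [map_sub, Polynomial.coeff_coe, PowerSeries.coeff_trunc, if_pos hm, sub_self]

theorem dvd_comp (k : ℕ) (f g : PowerSeries ℚ) (hg : PowerSeries.constantCoeff g = 0)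
    (q : ℚ[X]) (hq : (PowerSeries.X : PowerSeries ℚ) ^ k ∣ g - q) :
    (PowerSeries.X : PowerSeries ℚ) ^ k ∣
      f.subst g - (((PowerSeries.trunc k f).comp q : ℚ[X]) : PowerSeries ℚ) := by
  have hs : PowerSeries.HasSubst g := PowerSeries.HasSubst.of_constantCoeff_zero' hg
  obtain ⟨f1, hf1⟩ := dvd_sub_trunc k f
  set p := PowerSeries.trunc k f with hp
  have h1 : f.subst g = (Polynomial.aeval g p) + g ^ k * f1.subst g := by
    have h2 : f = (p : PowerSeries ℚ) + PowerSeries.X ^ k * f1 := by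
      rw [← hf1]
      ring
    have h3 := congrArg (PowerSeries.substAlgHom hs) h2
    rw [map_add, map_mul, map_pow, PowerSeries.substAlgHom_X, PowerSeries.substAlgHom_coe,
      PowerSeries.coe_substAlgHom] at h3
    exact h3
  have h4 : ((p.comp q : ℚ[X]) : PowerSeries ℚ) = Polynomial.aeval (q : PowerSeries ℚ) p := by
    have e : ∀ r : ℚ[X], (r : PowerSeries ℚ) = Polynomial.coeToPowerSeries.algHom ℚ r := by
      intro r
      simp
    rw [e, e, Polynomial.aeval_algHom_apply, Polynomial.comp_eq_aeval]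
  have h5 : g - q ∣ Polynomial.aeval g p - Polynomial.aeval (q : PowerSeries ℚ) p := by
    have := Polynomial.sub_dvd_eval_sub g (q : PowerSeries ℚ) (p.map (algebraMap ℚ _))
    rwa [Polynomial.eval_map_algebraMap, Polynomial.eval_map_algebraMap] at this
  have h6 : (PowerSeries.X : PowerSeries ℚ) ^ k ∣ g ^ k :=
    pow_dvd_pow_of_dvd (PowerSeries.X_dvd_iff.2 hg) k
  rw [h1, h4]
  have h7 : Polynomial.aeval g p + g ^ k * f1.subst g - Polynomial.aeval (q : PowerSeries ℚ) p =
      (Polynomial.aeval g p - Polynomial.aeval (q : PowerSeries ℚ) p) + g ^ k * f1.subst g := by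
    ring
  rw [h7]
  exact dvd_add (hq.trans h5) (h6.mul_right _)

theorem aeval_congr {A : Type*} [Ring A] [Algebra ℚ A] {a : A} {k : ℕ} (ha : a ^ k = 0)
    {p q : ℚ[X]} (h : (PowerSeries.X : PowerSeries ℚ) ^ k ∣ (p : PowerSeries ℚ) - q) :
    Polynomial.aeval a p = Polynomial.aeval a q := by
  have h1 : (X : ℚ[X]) ^ k ∣ p - q := by
    rw [Polynomial.X_pow_dvd_iff]
    rw [PowerSeries.X_pow_dvd_iff] at h
    intro d hd
    have := h d hd
    rwa [map_sub, Polynomial.coeff_coe, Polynomial.coeff_coe, ← Polynomial.coeff_sub] at this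
  obtain ⟨r, hr⟩ := h1
  have h2 := congrArg (Polynomial.aeval a) hr
  rw [map_sub, map_mul, map_pow, Polynomial.aeval_X, ha, zero_mul, sub_eq_zero] at h2
  exact h2

section

variable {A : Type*} [Ring A] [Algebra ℚ A]

theorem aeval_trunc (a : A) (k : ℕ) (f : PowerSeries ℚ) :
    Polynomial.aeval a (PowerSeries.trunc k f) =
      ∑ i ∈ Finset.range k, (PowerSeries.coeff i f) • a ^ i := by
  cases k with
  | zero => simp
  | succ k =>
    rw [Polynomial.aeval_eq_sum_range' (PowerSeries.natDegree_trunc_lt f k)]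
    refine Finset.sum_congr rfl fun i hi => ?_
    rw [PowerSeries.coeff_trunc, if_pos (Finset.mem_range.1 hi)]

theorem exp_eq_aeval {a : A} {k : ℕ} (ha : a ^ k = 0) :
    IsNilpotent.exp a = Polynomial.aeval a (PowerSeries.trunc k (PowerSeries.exp ℚ)) := by
  rw [IsNilpotent.exp_eq_sum ha, aeval_trunc]
  refine Finset.sum_congr rfl fun i _ => ?_
  rw [PowerSeries.coeff_exp]
  simp

theorem lg_eq_sum {y : A} {k : ℕ} (h : (y - 1) ^ k = 0) :
    lg y = ∑ i ∈ Finset.range k, ((-1 : ℚ) ^ (i + 1) / i) • (y - 1) ^ i := by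
  unfold lg
  have h₁ : ∑ i ∈ Finset.range k, ((-1 : ℚ) ^ (i + 1) / i) • (y - 1) ^ i =
      ∑ i ∈ Finset.range (nilpotencyClass (y - 1)), ((-1 : ℚ) ^ (i + 1) / i) • (y - 1) ^ i +
        ∑ i ∈ Finset.Ico (nilpotencyClass (y - 1)) k, ((-1 : ℚ) ^ (i + 1) / i) • (y - 1) ^ i :=
    (Finset.sum_range_add_sum_Ico _ (csInf_le' h)).symm
  rw [h₁, Finset.sum_eq_zero (s := Finset.Ico _ _), add_zero]
  intro i hi
  rw [pow_eq_zero_of_le (Finset.mem_Ico.1 hi).1 (pow_nilpotencyClass ⟨k, h⟩), smul_zero]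

theorem lg_eq_aeval {y : A} {k : ℕ} (h : (y - 1) ^ k = 0) :
    lg y = Polynomial.aeval (y - 1) (PowerSeries.trunc k (PowerSeries.log ℚ)) := by
  rw [lg_eq_sum h, aeval_trunc]
  refine Finset.sum_congr rfl fun i _ => ?_
  rw [PowerSeries.coeff_log]
  split_ifs with h0
  · subst h0
    simp
  · simp

theorem aeval_pow_zero {a : A} {k : ℕ} (ha : a ^ k = 0) {p : ℚ[X]} (hp : p.coeff 0 = 0) :
    (Polynomial.aeval a p) ^ k = 0 := by
  obtain ⟨r, hr⟩ := Polynomial.X_dvd_iff.2 hp
  rw [← map_pow, hr, mul_pow, map_mul, map_pow, Polynomial.aeval_X, ha, zero_mul]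

end

end ExpLogAux

open ExpLogAux

theorem lg_exp {A : Type*} [Ring A] [Algebra ℚ A] {x : A} (hx : IsNilpotent x) :
    lg (IsNilpotent.exp x) = x := by
  obtain ⟨n, hn⟩ := hx
  obtain ⟨k, hk0, hk⟩ : ∃ k, k ≠ 0 ∧ x ^ k = 0 := ⟨n + 1, by omega, by rw [pow_succ, hn, zero_mul]⟩
  set E := PowerSeries.trunc k (PowerSeries.exp ℚ) - 1 with hE
  have h1 : IsNilpotent.exp x - 1 = Polynomial.aeval x E := by
    rw [exp_eq_aeval hk, hE, map_sub, map_one]
  have hE0 : E.coeff 0 = 0 := by
    rw [hE, Polynomial.coeff_sub, PowerSeries.coeff_trunc, if_pos (by omega)]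
    simp
  have h2 : (IsNilpotent.exp x - 1) ^ k = 0 := by
    rw [h1]
    exact aeval_pow_zero hk hE0
  rw [lg_eq_aeval h2, h1, ← Polynomial.aeval_comp]
  have h3 := dvd_comp k (PowerSeries.log ℚ) (PowerSeries.exp ℚ - 1) (by simp) E (by
    have := dvd_sub_trunc k (PowerSeries.exp ℚ)
    have e : PowerSeries.exp ℚ - 1 - (E : PowerSeries ℚ) =
        PowerSeries.exp ℚ - (PowerSeries.trunc k (PowerSeries.exp ℚ) : Polynomial ℚ) := by
      rw [hE, Polynomial.coe_sub, Polynomial.coe_one]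
      ring
    rw [e]
    exact this)
  rw [log_subst_exp] at h3
  have h4 : (PowerSeries.X : PowerSeries ℚ) ^ k ∣ ((Polynomial.X : Polynomial ℚ) : PowerSeries ℚ) -
      (((PowerSeries.trunc k (PowerSeries.log ℚ)).comp E : Polynomial ℚ) : PowerSeries ℚ) := by
    rwa [Polynomial.coe_X]
  rw [← aeval_congr hk h4, Polynomial.aeval_X]

theorem exp_lg {A : Type*} [Ring A] [Algebra ℚ A] {y : A} (hy : IsNilpotent (y - 1)) :
    IsNilpotent.exp (lg y) = y := by
  obtain ⟨n, hn⟩ := hy
  obtain ⟨k, hk0, hk⟩ : ∃ k, k ≠ 0 ∧ (y - 1) ^ k = 0 :=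
    ⟨n + 1, by omega, by rw [pow_succ, hn, zero_mul]⟩
  set L := PowerSeries.trunc k (PowerSeries.log ℚ) with hL
  have h1 : lg y = Polynomial.aeval (y - 1) L := lg_eq_aeval hk
  have hL0 : L.coeff 0 = 0 := by
    rw [hL, PowerSeries.coeff_trunc, if_pos (by omega)]
    simp
  have h2 : (lg y) ^ k = 0 := by
    rw [h1]
    exact aeval_pow_zero hk hL0
  rw [exp_eq_aeval h2, h1, ← Polynomial.aeval_comp]
  have h3 := dvd_comp k (PowerSeries.exp ℚ) (PowerSeries.log ℚ) (by simp) L
    (dvd_sub_trunc k (PowerSeries.log ℚ))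
  have e : (1 + PowerSeries.X : PowerSeries ℚ) = ((1 + Polynomial.X : Polynomial ℚ) :
      PowerSeries ℚ) := by
    rw [Polynomial.coe_add, Polynomial.coe_one, Polynomial.coe_X]
  rw [exp_subst_log, e] at h3
  rw [← aeval_congr hk h3, map_add, map_one, Polynomial.aeval_X]
  abel

theorem ExpLogAux.pow_zero_of_mem {A : Type*} [Ring A] [Algebra ℚ A] {N : ℕ} (𝔞 : NilSub A N)
    {x : A} (hx : x ∈ 𝔞.S) : x ^ N = 0 := by
  have := 𝔞.nil (List.replicate N x) (fun y hy => by
    rw [List.mem_replicate] at hy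
    rw [hy.2]
    exact hx) (by rw [List.length_replicate])
  rwa [List.prod_replicate] at this

theorem ExpLogAux.pow_mem {A : Type*} [Ring A] [Algebra ℚ A] {N : ℕ} (𝔞 : NilSub A N)
    {x : A} (hx : x ∈ 𝔞.S) (i : ℕ) : x ^ (i + 1) ∈ 𝔞.S := by
  induction i with
  | zero => simpa using hx
  | succ i ih =>
    rw [pow_succ]
    exact 𝔞.mul_mem _ ih _ hx

theorem NilSub.isNilpotent {A : Type*} [Ring A] [Algebra ℚ A] {N : ℕ} (𝔞 : NilSub A N) {x : A}
    (hx : x ∈ 𝔞.S) : IsNilpotent x := ⟨N, ExpLogAux.pow_zero_of_mem 𝔞 hx⟩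

theorem NilSub.exp_sub_one_mem {A : Type*} [Ring A] [Algebra ℚ A] {N : ℕ} (𝔞 : NilSub A N)
    {x : A} (hx : x ∈ 𝔞.S) : IsNilpotent.exp x - 1 ∈ 𝔞.S := by
  have h : x ^ (N + 1) = 0 := by rw [pow_succ, ExpLogAux.pow_zero_of_mem 𝔞 hx, zero_mul]
  rw [IsNilpotent.exp_eq_sum h, Finset.sum_range_succ']
  simp only [Nat.factorial_zero, Nat.cast_one, inv_one, pow_zero, one_smul, add_sub_cancel_right]
  exact 𝔞.S.sum_mem fun i _ => 𝔞.S.smul_mem _ (ExpLogAux.pow_mem 𝔞 hx i)

theorem NilSub.lg_mem {A : Type*} [Ring A] [Algebra ℚ A] {N : ℕ} (𝔞 : NilSub A N)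
    {y : A} (hy : y - 1 ∈ 𝔞.S) : lg y ∈ 𝔞.S := by
  have h : (y - 1) ^ (N + 1) = 0 := by rw [pow_succ, ExpLogAux.pow_zero_of_mem 𝔞 hy, zero_mul]
  rw [lg_eq_sum h, Finset.sum_range_succ']
  simp only [Nat.cast_zero, div_zero, zero_smul, add_zero]
  exact 𝔞.S.sum_mem fun i _ => 𝔞.S.smul_mem _ (ExpLogAux.pow_mem 𝔞 hy i)

theorem exp_nsmul {A : Type*} [Ring A] [Algebra ℚ A] {x : A} (hx : IsNilpotent x) (n : ℕ) :
    IsNilpotent.exp (n • x) = IsNilpotent.exp x ^ n := by
  induction n with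
  | zero => rw [zero_smul, IsNilpotent.exp_zero, pow_zero]
  | succ n ih =>
    rw [succ_nsmul, IsNilpotent.exp_add_of_commute, ih, pow_succ]
    · exact Commute.smul_left rfl n
    · obtain ⟨k, hk⟩ := hx
      exact ⟨k, by rw [smul_pow, hk, smul_zero]⟩
    · exact hx

theorem ExpLogAux.exp_mulLeft {A : Type*} [Ring A] [Algebra ℚ A] {x : A} (hx : IsNilpotent x)
    (y : A) : IsNilpotent.exp (LinearMap.mulLeft ℚ x) y = IsNilpotent.exp x * y := by
  obtain ⟨k, hk⟩ := hx
  have h : (LinearMap.mulLeft ℚ x) ^ k = 0 := by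
    rw [LinearMap.pow_mulLeft, hk, LinearMap.mulLeft_zero_eq_zero]
  rw [IsNilpotent.exp_eq_sum h, IsNilpotent.exp_eq_sum hk, LinearMap.sum_apply, Finset.sum_mul]
  refine Finset.sum_congr rfl fun i _ => ?_
  rw [LinearMap.smul_apply, LinearMap.pow_mulLeft, LinearMap.mulLeft_apply, smul_mul_assoc]

theorem ExpLogAux.exp_mulRight {A : Type*} [Ring A] [Algebra ℚ A] {x : A} (hx : IsNilpotent x)
    (y : A) : IsNilpotent.exp (LinearMap.mulRight ℚ x) y = y * IsNilpotent.exp x := by
  obtain ⟨k, hk⟩ := hx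
  have h : (LinearMap.mulRight ℚ x) ^ k = 0 := by
    rw [LinearMap.pow_mulRight, hk, LinearMap.mulRight_zero_eq_zero]
  rw [IsNilpotent.exp_eq_sum h, IsNilpotent.exp_eq_sum hk, LinearMap.sum_apply, Finset.mul_sum]
  refine Finset.sum_congr rfl fun i _ => ?_
  rw [LinearMap.smul_apply, LinearMap.pow_mulRight, LinearMap.mulRight_apply, mul_smul_comm]

/-- Conjugation by an exponential. -/
theorem exp_conj {A : Type*} [Ring A] [Algebra ℚ A] {N : ℕ} (𝔞 : NilSub A N) {x y : A}
    (hx : x ∈ 𝔞.S) (hy : y ∈ 𝔞.S) :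
    IsNilpotent.exp x * y * IsNilpotent.exp (-x) =
      ∑ i ∈ Finset.range N, ((i.factorial : ℚ)⁻¹) • ((fun z => x * z - z * x)^[i] y) := by
  have hx0 := 𝔞.isNilpotent hx
  have hxN := ExpLogAux.pow_zero_of_mem 𝔞 hx
  have hxN' : (-x) ^ N = 0 := ExpLogAux.pow_zero_of_mem 𝔞 (𝔞.S.neg_mem hx)
  set L : Module.End ℚ A := LinearMap.mulLeft ℚ x with hL
  set R : Module.End ℚ A := LinearMap.mulRight ℚ (-x) with hR
  have hcomm : Commute L R := LinearMap.commute_mulLeft_right (R := ℚ) x (-x)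
  have hLn : L ^ N = 0 := by
    rw [hL, LinearMap.pow_mulLeft, hxN, LinearMap.mulLeft_zero_eq_zero]
  have hRn : R ^ N = 0 := by
    rw [hR, LinearMap.pow_mulRight, hxN', LinearMap.mulRight_zero_eq_zero]
  have h1 : IsNilpotent.exp (L + R) y = IsNilpotent.exp x * y * IsNilpotent.exp (-x) := by
    rw [IsNilpotent.exp_add_of_commute hcomm ⟨N, hLn⟩ ⟨N, hRn⟩, Module.End.mul_apply,
      ExpLogAux.exp_mulRight hx0.neg, ExpLogAux.exp_mulLeft hx0, mul_assoc]
  have hD : ⇑(L + R) = fun z => x * z - z * x := by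
    funext z
    rw [LinearMap.add_apply, hL, hR, LinearMap.mulLeft_apply, LinearMap.mulRight_apply, mul_neg,
      sub_eq_add_neg]
  have hnil : IsNilpotent (L + R) := hcomm.isNilpotent_add ⟨N, hLn⟩ ⟨N, hRn⟩
  have hzero : ((L + R) ^ N) • y = 0 := by
    rw [hcomm.add_pow, Module.End.smul_def, LinearMap.sum_apply]
    refine Finset.sum_eq_zero fun j hj => ?_
    rw [Finset.mem_range] at hj
    rw [← Nat.cast_comm, Module.End.mul_apply, Module.End.mul_apply]
    have e : (L ^ j) ((R ^ (N - j)) y) = 0 := by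
      rw [hL, hR, LinearMap.pow_mulLeft, LinearMap.pow_mulRight, LinearMap.mulLeft_apply,
        LinearMap.mulRight_apply]
      have := 𝔞.nil (List.replicate j x ++ (y :: List.replicate (N - j) (-x))) (fun z hz => by
        rw [List.mem_append, List.mem_cons, List.mem_replicate, List.mem_replicate] at hz
        rcases hz with ⟨_, rfl⟩ | rfl | ⟨_, rfl⟩
        · exact hx
        · exact hy
        · exact 𝔞.S.neg_mem hx) (by
          rw [List.length_append, List.length_cons, List.length_replicate, List.length_replicate]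
          omega)
      rwa [List.prod_append, List.prod_cons, List.prod_replicate, List.prod_replicate] at this
    rw [e, map_zero]
  rw [← h1, ← Module.End.smul_def, IsNilpotent.exp_smul_eq_sum hzero hnil]
  refine Finset.sum_congr rfl fun i _ => ?_
  rw [Module.End.smul_def, Module.End.pow_apply, hD]

end Pool.Agent.MPf60e8aN
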