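import Mathlib
import Pool.Agent.Lib.MP_f60e8a_al.N.NDefs
import Pool.Agent.Lib.MP_f60e8a_al.N.ExpLog

/-!
# Baker-Campbell-Hausdorff with universal denominators
-/

open scoped BigOperators commutatorElement
open Pool.Agent.MPf60e8a (wordLen sepIndex RF PosDensity)

namespace Pool.Agent.MPf60e8aN

namespace Bch


open Finset

section deriv
variable {B : Type*} [Ring B] [Algebra ℚ B]

/-- `ad z` as a linear map. -/
noncomputable def adz (z : B) : Module.End ℚ B := LinearMap.mulLeft ℚ z - LinearMap.mulRight ℚ z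

theorem adz_apply (z y : B) : adz z y = z * y - y * z := rfl

/-- `y zⁿ = ∑ C(n,k) (-1)^k z^(n-k) (ad z)^k y`. -/
theorem mul_pow_eq (z y : B) (n : ℕ) : y * z ^ n =
    ∑ k ∈ range (n + 1), ((-1 : ℚ) ^ k * (n.choose k : ℚ)) • (z ^ (n - k) * (adz z ^ k) y) := by
  have hc : Commute ((-1 : ℚ) • (adz z)) (LinearMap.mulLeft ℚ z) := by
    have := LinearMap.commute_mulLeft_right (R := ℚ) z z
    exact Commute.smul_left ((Commute.refl _).sub_left this.symm) _
  have h1 : LinearMap.mulRight ℚ z = (-1 : ℚ) • (adz z) + LinearMap.mulLeft ℚ z := by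
    ext x
    change x * z = (-1 : ℚ) • (z * x - x * z) + z * x
    rw [neg_one_smul]; abel
  have h2 : y * z ^ n = (LinearMap.mulRight ℚ z ^ n) y := by
    rw [LinearMap.pow_mulRight]; rfl
  rw [h2, h1, hc.add_pow, LinearMap.sum_apply]
  refine sum_congr rfl fun k _ => ?_
  rw [(hc.pow_pow k (n - k)).eq, smul_pow, LinearMap.pow_mulLeft]
  have h3 : ((n.choose k : ℕ) : Module.End ℚ B) y = (n.choose k : ℚ) • y := by
    rw [Module.End.natCast_apply, Nat.cast_smul_eq_nsmul]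
  rw [Module.End.mul_apply, h3, Module.End.mul_apply, LinearMap.smul_apply, map_smul, map_smul,
    LinearMap.mulLeft_apply, mul_smul_comm, smul_smul]

/-- `D(z^(n+1))` for a derivation. -/
theorem deriv_pow (D : B →+ B) (hD : ∀ x y, D (x * y) = D x * y + x * D y) (z : B) (n : ℕ) :
    D (z ^ (n + 1)) = ∑ k ∈ range (n + 1),
      ((-1 : ℚ) ^ k * ((n + 1).choose (k + 1) : ℚ)) • (z ^ (n - k) * (adz z ^ k) (D z)) := by
  induction n with
  | zero => simp
  | succ n ih =>
    rw [pow_succ' z (n + 1), hD, ih, mul_pow_eq z (D z) (n + 1), mul_sum]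
    have h1 : ∀ k ∈ range (n + 1), z * (((-1 : ℚ) ^ k * ((n + 1).choose (k + 1) : ℚ)) •
        (z ^ (n - k) * (adz z ^ k) (D z))) =
        ((-1 : ℚ) ^ k * ((n + 1).choose (k + 1) : ℚ)) •
        (z ^ (n + 1 - k) * (adz z ^ k) (D z)) := by
      intro k hk
      rw [mem_range] at hk
      rw [mul_smul_comm, ← mul_assoc, ← pow_succ', show n - k + 1 = n + 1 - k by omega]
    rw [sum_congr rfl h1]
    have h2 : ∑ k ∈ range (n + 1), ((-1 : ℚ) ^ k * ((n + 1).choose (k + 1) : ℚ)) •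
        (z ^ (n + 1 - k) * (adz z ^ k) (D z)) =
        ∑ k ∈ range (n + 1 + 1), ((-1 : ℚ) ^ k * ((n + 1).choose (k + 1) : ℚ)) •
        (z ^ (n + 1 - k) * (adz z ^ k) (D z)) := by
      rw [sum_range_succ _ (n + 1)]
      simp
    rw [h2, ← sum_add_distrib]
    refine sum_congr rfl fun k _ => ?_
    rw [← add_smul, ← mul_add, Nat.choose_succ_succ (n + 1) k]
    push_cast
    rfl

/-- The derivative of the exponential. -/
theorem deriv_exp (D : B →+ B) (hD : ∀ x y, D (x * y) = D x * y + x * D y) {z : B} {N : ℕ}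
    (hz : z ^ N = 0) (hT : ∀ k, 2 * N ≤ k → (adz z ^ k) (D z) = 0) :
    D (IsNilpotent.exp z) = IsNilpotent.exp z *
      ∑ k ∈ range (3 * N), ((-1 : ℚ) ^ k / ((k + 1).factorial : ℚ)) • (adz z ^ k) (D z) := by
  have hz3 : z ^ (3 * N + 1) = 0 := pow_eq_zero_of_le (by omega) hz
  have hD1 : D 1 = 0 := by
    have := hD 1 1
    simp at this
    exact this
  have hsm : ∀ (q : ℚ) (x : B), D (q • x) = q • D x := fun q x => map_rat_smul D q x
  have h1 : D (IsNilpotent.exp z) = ∑ n ∈ range (3 * N),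
      (((n + 1).factorial : ℚ)⁻¹) • D (z ^ (n + 1)) := by
    rw [IsNilpotent.exp_eq_sum hz3, map_sum, sum_range_succ']
    simp only [hsm, pow_zero, hD1, smul_zero, add_zero]
  rw [h1]
  obtain ⟨F, hF⟩ : ∃ F : ℕ → ℕ → B, ∀ k m, F k m = ((-1 : ℚ) ^ k / ((k + 1).factorial : ℚ)) •
      (((m.factorial : ℚ)⁻¹ • z ^ m) * (adz z ^ k) (D z)) := ⟨_, fun _ _ => rfl⟩
  have h2 : ∀ n ∈ range (3 * N), (((n + 1).factorial : ℚ)⁻¹) • D (z ^ (n + 1)) =
      ∑ k ∈ range (n + 1), F k (n - k) := by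
    intro n _
    rw [deriv_pow D hD, smul_sum]
    refine sum_congr rfl fun k hk => ?_
    rw [mem_range] at hk
    rw [hF, smul_mul_assoc, smul_smul, smul_smul]
    congr 1
    have h3 := Nat.choose_mul_factorial_mul_factorial (show k + 1 ≤ n + 1 by omega)
    rw [show n + 1 - (k + 1) = n - k by omega] at h3
    have h4 : ((n + 1).choose (k + 1) : ℚ) * ((k + 1).factorial : ℚ) * ((n - k).factorial : ℚ) =
        ((n + 1).factorial : ℚ) := by exact_mod_cast h3
    have h5 : ((n + 1).choose (k + 1) : ℚ) ≠ 0 := by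
      have := Nat.choose_pos (show k + 1 ≤ n + 1 by omega)
      positivity
    have h6 : ((k + 1).factorial : ℚ) ≠ 0 := by positivity
    have h7 : ((n - k).factorial : ℚ) ≠ 0 := by positivity
    rw [← h4]
    field_simp
  rw [sum_congr rfl h2, Finset.sum_range_diag_flip, mul_sum]
  refine sum_congr rfl fun k hk => ?_
  rw [mem_range] at hk
  simp only [hF]
  rw [mul_smul_comm]
  rcases le_or_gt (2 * N) k with h | h
  · simp only [hT k h, mul_zero, smul_zero, sum_const_zero]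
  · rw [← smul_sum, ← sum_mul, ← IsNilpotent.exp_eq_sum (pow_eq_zero_of_le (by omega) hz)]

end deriv

/-! ### Filtration by the number of factors -/

section filt
variable {A : Type*} [Ring A] [Algebra ℚ A] {N : ℕ}

/-- The span of the products of at least `max k 1` elements. -/
def Fil (𝔞 : NilSub A N) (k : ℕ) : Submodule ℚ A :=
  Submodule.span ℚ {x | ∃ l : List A, (∀ y ∈ l, y ∈ 𝔞.S) ∧ k ≤ l.length ∧ 1 ≤ l.length ∧
    l.prod = x}

theorem list_prod_mem (𝔞 : NilSub A N) (l : List A) (hl : ∀ y ∈ l, y ∈ 𝔞.S)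
    (h1 : 1 ≤ l.length) : l.prod ∈ 𝔞.S := by
  induction l with
  | nil => simp at h1
  | cons x l ih =>
    rcases l with _ | ⟨y, l⟩
    · simpa using hl x (by simp)
    · rw [List.prod_cons]
      exact 𝔞.mul_mem _ (hl x (by simp)) _
        (ih (fun z hz => hl z (List.mem_cons_of_mem _ hz)) (by simp))

theorem Fil_le (𝔞 : NilSub A N) (k : ℕ) : Fil 𝔞 k ≤ 𝔞.S := by
  refine Submodule.span_le.2 ?_
  rintro x ⟨l, hl, -, h1, rfl⟩
  exact list_prod_mem 𝔞 l hl h1

theorem Fil_anti (𝔞 : NilSub A N) {k m : ℕ} (h : k ≤ m) : Fil 𝔞 m ≤ Fil 𝔞 k := by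
  refine Submodule.span_mono ?_
  rintro x ⟨l, hl, h0, h1, rfl⟩
  exact ⟨l, hl, h.trans h0, h1, rfl⟩

theorem mem_Fil_one (𝔞 : NilSub A N) {x : A} (hx : x ∈ 𝔞.S) : x ∈ Fil 𝔞 1 :=
  Submodule.subset_span ⟨[x], by simpa using hx, by simp, by simp, by simp⟩

theorem mem_Fil_zero (𝔞 : NilSub A N) {x : A} (hx : x ∈ 𝔞.S) : x ∈ Fil 𝔞 0 :=
  Fil_anti 𝔞 zero_le_one (mem_Fil_one 𝔞 hx)

theorem Fil_bot (𝔞 : NilSub A N) {k : ℕ} (h : N ≤ k) : Fil 𝔞 k = ⊥ := by
  rw [eq_bot_iff]
  refine Submodule.span_le.2 ?_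
  rintro x ⟨l, hl, h0, h1, rfl⟩
  simpa using 𝔞.nil l hl (h.trans h0)

theorem Fil_mul (𝔞 : NilSub A N) {j k : ℕ} {x y : A} (hx : x ∈ Fil 𝔞 j) (hy : y ∈ Fil 𝔞 k) :
    x * y ∈ Fil 𝔞 (j + k) := by
  have h := Submodule.mul_mem_mul hx hy
  rw [Fil, Fil, Submodule.span_mul_span] at h
  refine Submodule.span_mono ?_ h
  rintro z ⟨_, ⟨l, hl, h0, h1, rfl⟩, _, ⟨m, hm, k0, k1, rfl⟩, rfl⟩
  refine ⟨l ++ m, ?_, ?_, ?_, by simp⟩
  · intro y hy
    rcases List.mem_append.1 hy with h | h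
    · exact hl y h
    · exact hm y h
  · rw [List.length_append]; omega
  · rw [List.length_append]; omega

open Polynomial

/-- Polynomials whose coefficients have weight at least the degree and at least `a`. -/
def Wt (𝔞 : NilSub A N) (a : ℕ) : Submodule ℚ A[X] where
  carrier := {p | ∀ i, p.coeff i ∈ Fil 𝔞 (max i a)}
  zero_mem' := fun i => by simp
  add_mem' := fun {p q} hp hq i => by
    rw [coeff_add]; exact Submodule.add_mem _ (hp i) (hq i)
  smul_mem' := fun c p hp i => by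
    rw [coeff_smul]; exact Submodule.smul_mem _ _ (hp i)

theorem mem_Wt {𝔞 : NilSub A N} {a : ℕ} {p : A[X]} :
    p ∈ Wt 𝔞 a ↔ ∀ i, p.coeff i ∈ Fil 𝔞 (max i a) := Iff.rfl

theorem Wt_anti (𝔞 : NilSub A N) {k m : ℕ} (h : k ≤ m) : Wt 𝔞 m ≤ Wt 𝔞 k := by
  intro p hp i
  exact Fil_anti 𝔞 (max_le_max le_rfl h) (hp i)

theorem Wt_mul (𝔞 : NilSub A N) {j k : ℕ} {p q : A[X]} (hp : p ∈ Wt 𝔞 j) (hq : q ∈ Wt 𝔞 k) :
    p * q ∈ Wt 𝔞 (j + k) := by
  intro i
  rw [coeff_mul]
  refine Submodule.sum_mem _ fun ab hab => ?_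
  have hab' := Finset.HasAntidiagonal.mem_antidiagonal.1 hab
  refine Fil_anti 𝔞 ?_ (Fil_mul 𝔞 (hp ab.1) (hq ab.2))
  omega

theorem Wt_bot (𝔞 : NilSub A N) {k : ℕ} (h : N ≤ k) {p : A[X]} (hp : p ∈ Wt 𝔞 k) : p = 0 := by
  ext i
  have := hp i
  rw [Fil_bot 𝔞 (h.trans (le_max_right _ _))] at this
  simpa using this

/-- The nilpotent subspace of the polynomial ring. -/
def polyNil (𝔞 : NilSub A N) (hN : 1 ≤ N) : NilSub A[X] N where
  S := Wt 𝔞 1
  mul_mem := fun x hx y hy => Wt_anti 𝔞 (by omega) (Wt_mul 𝔞 hx hy)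
  nil := fun l hl hlen => by
    have key : ∀ l : List A[X], (∀ x ∈ l, x ∈ Wt 𝔞 1) → 1 ≤ l.length →
        l.prod ∈ Wt 𝔞 l.length := by
      intro l
      induction l with
      | nil => intro _ h; simp at h
      | cons x l ih =>
        intro hl _
        rcases l with _ | ⟨y, l⟩
        · simpa using hl x (by simp)
        · rw [List.prod_cons, List.length_cons, add_comm]
          exact Wt_mul 𝔞 (hl x (by simp))
            (ih (fun z hz => hl z (List.mem_cons_of_mem _ hz)) (by simp))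
    exact Wt_bot 𝔞 hlen (key l hl (hN.trans hlen))

theorem Wt_derivative (𝔞 : NilSub A N) {p : A[X]} (hp : p ∈ Wt 𝔞 1) :
    derivative p ∈ Wt 𝔞 1 := by
  intro i
  rw [coeff_derivative]
  have h1 := Fil_anti 𝔞 (show max i 1 ≤ max (i + 1) 1 by omega) (hp (i + 1))
  have h2 : p.coeff (i + 1) * ((i : A) + 1) = ((i : ℚ) + 1) • p.coeff (i + 1) := by
    rw [mul_add, add_smul, one_smul, mul_one, ← nsmul_eq_mul', Nat.cast_smul_eq_nsmul]
  rw [h2]
  exact Submodule.smul_mem _ _ h1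

theorem C_mem (𝔞 : NilSub A N) {x : A} (hx : x ∈ 𝔞.S) : C x ∈ Wt 𝔞 1 := by
  intro i
  rw [coeff_C]
  split_ifs with h
  · subst h; simpa using mem_Fil_one 𝔞 hx
  · exact Submodule.zero_mem _

theorem XC_mem (𝔞 : NilSub A N) {x : A} (hx : x ∈ 𝔞.S) : X * C x ∈ Wt 𝔞 1 := by
  intro i
  rcases i with _ | i
  · simp
  · rw [coeff_X_mul, coeff_C]
    split_ifs with h
    · subst h; simpa using mem_Fil_one 𝔞 hx
    · exact Submodule.zero_mem _


/-! ### The differential equation -/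

/-- The truncated series of `(1 - exp(-w))/w`. -/
noncomputable def psi (K : ℕ) : ℚ[X] :=
  ∑ k ∈ Finset.range K, C ((-1 : ℚ) ^ k / ((k + 1).factorial : ℚ)) * X ^ k

theorem psi_coeff_zero {K : ℕ} (hK : 0 < K) : (psi K).coeff 0 = 1 := by
  obtain ⟨K, rfl⟩ := Nat.exists_eq_succ_of_ne_zero hK.ne'
  rw [psi, Finset.sum_range_succ']
  simp

/-- The inverse series. -/
theorem exists_beta (N : ℕ) (hN : 1 ≤ N) : ∃ a b : ℚ[X], a * psi (3 * N) + b * X ^ (2 * N) = 1 ∧
    a.coeff 0 = 1 := by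
  have h1 : IsCoprime (psi (3 * N)) (X : ℚ[X]) := by
    rw [isCoprime_comm, irreducible_X.coprime_iff_not_dvd, X_dvd_iff,
      psi_coeff_zero (by omega)]
    exact one_ne_zero
  obtain ⟨a, b, hab⟩ := h1.pow_right (n := 2 * N)
  refine ⟨a, b, hab, ?_⟩
  have h2 := congrArg (fun p : ℚ[X] => p.coeff 0) hab
  simp only [coeff_add, mul_coeff_zero, psi_coeff_zero (show 0 < 3 * N by omega), mul_one,
    coeff_one_zero] at h2
  rw [coeff_X_pow, if_neg (by omega), mul_zero, add_zero] at h2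
  exact h2

theorem adz_pow_zero {B : Type*} [Ring B] [Algebra ℚ B] {z : B} {N : ℕ} (hz : z ^ N = 0) {k : ℕ}
    (hk : 2 * N ≤ k) : adz z ^ k = 0 := by
  have h1 : (LinearMap.mulLeft ℚ z) ^ N = 0 := by
    rw [LinearMap.pow_mulLeft, hz, LinearMap.mulLeft_zero_eq_zero]
  have h2 : (LinearMap.mulRight ℚ z) ^ N = 0 := by
    rw [LinearMap.pow_mulRight, hz, LinearMap.mulRight_zero_eq_zero]
  have h3 : (-(LinearMap.mulRight ℚ z : Module.End ℚ B)) ^ N = 0 := by
    have := neg_pow (LinearMap.mulRight ℚ z : Module.End ℚ B) N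
    rw [h2, mul_zero] at this
    exact this
  have hc : Commute (LinearMap.mulLeft ℚ z) (-LinearMap.mulRight ℚ z) :=
    (LinearMap.commute_mulLeft_right (R := ℚ) z z).neg_right
  rw [adz, sub_eq_add_neg]
  exact hc.add_pow_eq_zero_of_add_le_succ_of_pow_eq_zero h1 h3 (by omega)

/-- The solution of the differential equation. -/
theorem exists_solution (hN : 1 ≤ N) (𝔞 : NilSub A N) {a b : ℚ[X]}
    (hab : a * psi (3 * N) + b * X ^ (2 * N) = 1) {u v : A} (hu : u ∈ 𝔞.S) (hv : v ∈ 𝔞.S) :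
    ∃ z ∈ Wt 𝔞 1, IsNilpotent.exp z = C (IsNilpotent.exp u) * IsNilpotent.exp (X * C v) ∧
      z.coeff 0 = u ∧ derivative z = (aeval (adz z) a) (C v) := by
  have hu1 : IsNilpotent u := 𝔞.isNilpotent hu
  have hCu := (polyNil 𝔞 hN).exp_sub_one_mem (C_mem 𝔞 hu)
  have hXv := (polyNil 𝔞 hN).exp_sub_one_mem (XC_mem 𝔞 hv)
  have hXvn : IsNilpotent (X * C v) := (polyNil 𝔞 hN).isNilpotent (XC_mem 𝔞 hv)
  have hexpC : IsNilpotent.exp (C u) = C (IsNilpotent.exp u) := (IsNilpotent.map_exp hu1 C).symm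
  have hU : IsNilpotent.exp (C u) * IsNilpotent.exp (X * C v) - 1 ∈ (polyNil 𝔞 hN).S := by
    have : IsNilpotent.exp (C u) * IsNilpotent.exp (X * C v) - 1 =
        (IsNilpotent.exp (C u) - 1) * (IsNilpotent.exp (X * C v) - 1) +
        (IsNilpotent.exp (C u) - 1) + (IsNilpotent.exp (X * C v) - 1) := by noncomm_ring
    rw [this]
    exact Submodule.add_mem _ (Submodule.add_mem _ ((polyNil 𝔞 hN).mul_mem _ hCu _ hXv) hCu) hXv
  obtain ⟨z, hz⟩ : ∃ z, z = lg (IsNilpotent.exp (C u) * IsNilpotent.exp (X * C v)) := ⟨_, rfl⟩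
  have hzS : z ∈ (polyNil 𝔞 hN).S := hz ▸ (polyNil 𝔞 hN).lg_mem hU
  have hze : IsNilpotent.exp z = IsNilpotent.exp (C u) * IsNilpotent.exp (X * C v) := by
    rw [hz]; exact exp_lg ((polyNil 𝔞 hN).isNilpotent hU)
  have hzn : IsNilpotent z := (polyNil 𝔞 hN).isNilpotent hzS
  have hzN : z ^ N = 0 := by
    have := (polyNil 𝔞 hN).nil (List.replicate N z)
      (fun x hx => by rw [List.eq_of_mem_replicate hx]; exact hzS) (by simp)
    simpa using this
  have hXvN : (X * C v) ^ N = 0 := by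
    have := (polyNil 𝔞 hN).nil (List.replicate N (X * C v))
      (fun x hx => by rw [List.eq_of_mem_replicate hx]; exact XC_mem 𝔞 hv) (by simp)
    simpa using this
  refine ⟨z, hzS, by rw [hze, hexpC], ?_, ?_⟩
  · -- constant coefficient
    have h1 := congrArg (constantCoeff : A[X] →+* A) hze
    rw [hexpC, map_mul, IsNilpotent.map_exp hzn (constantCoeff : A[X] →+* A),
      IsNilpotent.map_exp hXvn (constantCoeff : A[X] →+* A)] at h1
    simp only [constantCoeff_apply, coeff_C_zero, mul_coeff_zero, coeff_X_zero, zero_mul,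
      IsNilpotent.exp_zero, mul_one] at h1
    have hz0 : IsNilpotent (z.coeff 0) := hzn.map (constantCoeff : A[X] →+* A)
    rw [← lg_exp hz0, h1, lg_exp hu1]
  · -- derivative
    have hD : ∀ x y : A[X], (derivative : A[X] →ₗ[A] A[X]).toAddMonoidHom (x * y) =
        (derivative : A[X] →ₗ[A] A[X]).toAddMonoidHom x * y +
        x * (derivative : A[X] →ₗ[A] A[X]).toAddMonoidHom y := fun x y => derivative_mul
    have hD1 := deriv_exp (derivative : A[X] →ₗ[A] A[X]).toAddMonoidHom hD hzN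
      (fun k hk => by rw [adz_pow_zero hzN hk]; rfl)
    have hD2 := deriv_exp (derivative : A[X] →ₗ[A] A[X]).toAddMonoidHom hD hXvN
      (fun k hk => by rw [adz_pow_zero hXvN hk]; rfl)
    simp only [LinearMap.toAddMonoidHom_coe] at hD1 hD2
    have hdX : derivative (X * C v) = C v := by
      rw [derivative_mul, derivative_X, derivative_C, one_mul, mul_zero, add_zero]
    have hadX : adz (X * C v) (C v) = 0 := by
      rw [adz_apply, ← mul_assoc (C v) X (C v), ← X_mul, sub_self]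
    rw [hdX] at hD2
    have hD3 : derivative (IsNilpotent.exp (X * C v)) = IsNilpotent.exp (X * C v) * C v := by
      rw [hD2]
      congr 1
      obtain ⟨K, hK⟩ := Nat.exists_eq_succ_of_ne_zero (show 3 * N ≠ 0 by omega)
      rw [hK, Finset.sum_range_succ']
      rw [Finset.sum_eq_zero]
      · simp
      · intro k _
        have h0 : (adz (X * C v) ^ (k + 1)) (C v) = 0 := by
          rw [pow_succ, Module.End.mul_apply, hadX, map_zero]
        rw [h0, smul_zero]
    have hD4 : derivative (IsNilpotent.exp z) = IsNilpotent.exp z * C v := by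
      rw [hze, hexpC, derivative_mul, derivative_C, zero_mul, zero_add, hD3, mul_assoc]
    rw [hD4] at hD1
    have hD5 : C v = (aeval (adz z) (psi (3 * N))) (derivative z) := by
      have := (IsNilpotent.isUnit_exp hzn).mul_left_cancel hD1
      rw [this, psi, map_sum, LinearMap.sum_apply]
      refine Finset.sum_congr rfl fun k _ => ?_
      rw [map_mul, aeval_C, map_pow, aeval_X, Module.End.mul_apply, Module.algebraMap_end_apply]
    have hD6 := congrArg (fun p : ℚ[X] => (aeval (adz z) p) (derivative z)) hab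
    simp only [map_add, map_mul, map_pow, aeval_X, adz_pow_zero hzN le_rfl, mul_zero, add_zero,
      Module.End.mul_apply, map_one, Module.End.one_apply] at hD6
    rw [← hD5] at hD6
    exact hD6.symm


/-! ### Denominators -/

theorem exists_den (a : ℚ[X]) : ∃ d : ℕ, 0 < d ∧ ∀ k, ∃ m : ℤ, (d : ℚ) * a.coeff k = m := by
  refine ⟨∏ k ∈ Finset.range (a.natDegree + 1), (a.coeff k).den,
    Finset.prod_pos fun k _ => (a.coeff k).den_pos, fun k => ?_⟩
  by_cases hk : k ∈ Finset.range (a.natDegree + 1)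
  · obtain ⟨c, hc⟩ := Finset.dvd_prod_of_mem (fun k => (a.coeff k).den) hk
    refine ⟨c * (a.coeff k).num, ?_⟩
    rw [hc]
    push_cast
    have h1 : ((a.coeff k).den : ℚ) * a.coeff k = (a.coeff k).num := by
      rw [mul_comm]; exact Rat.mul_den_eq_num _
    rw [← h1]
    ring
  · have h1 : a.coeff k = 0 := by
      apply coeff_eq_zero_of_natDegree_lt
      simpa using hk
    exact ⟨0, by rw [h1]; simp⟩

/-- The sequence of denominators. -/
def Qs (d n : ℕ) : ℕ → ℕ
  | 0 => 1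
  | i + 1 => (i + 1) * d * Qs d n i ^ (n + 1)

theorem Qs_pos {d : ℕ} (hd : 0 < d) (n i : ℕ) : 0 < Qs d n i := by
  induction i with
  | zero => exact Nat.one_pos
  | succ i ih => rw [Qs]; positivity

omit [Algebra ℚ A] in
theorem comm_smul_left {m : ℕ} (x y : A) : (m • x) * y - y * (m • x) = m • (x * y - y * x) := by
  rw [smul_mul_assoc, mul_smul_comm, smul_sub]

omit [Algebra ℚ A] in
theorem comm_smul_right {m : ℕ} (x y : A) : x * (m • y) - (m • y) * x = m • (x * y - y * x) := by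
  rw [smul_mul_assoc, mul_smul_comm, smul_sub]

omit [Algebra ℚ A] in
/-- Coefficients of `ad z p`. -/
theorem coeff_adz_mul (r p : A[X]) (j : ℕ) : (r * p - p * r).coeff j =
    ∑ ab ∈ Finset.HasAntidiagonal.antidiagonal j, (r.coeff ab.1 * p.coeff ab.2 -
      p.coeff ab.2 * r.coeff ab.1) := by
  rw [coeff_sub, coeff_mul, coeff_mul, Finset.sum_sub_distrib]
  congr 1
  rw [← Finset.Nat.sum_antidiagonal_swap]
  rfl

omit [Algebra ℚ A] in
theorem coeff_adz_X (v : A) (p : A[X]) (j : ℕ) : (X * C v * p - p * (X * C v)).coeff (j + 1) =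
    v * p.coeff j - p.coeff j * v := by
  rw [← mul_assoc p X (C v), ← X_mul, mul_assoc, mul_assoc, coeff_sub, coeff_X_mul, coeff_X_mul,
    coeff_C_mul, coeff_mul_C]

omit [Algebra ℚ A] in
theorem coeff_adz_X_zero (v : A) (p : A[X]) : (X * C v * p - p * (X * C v)).coeff 0 = 0 := by
  rw [← mul_assoc p X (C v), ← X_mul, mul_assoc, mul_assoc, coeff_sub, mul_coeff_zero,
    mul_coeff_zero X (p * C v), coeff_X_zero, zero_mul, zero_mul, sub_zero]

theorem step_ad {E : AddSubgroup A} {u v : A} (hu : ∀ e ∈ E, u * e - e * u ∈ E)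
    (hv : ∀ e ∈ E, v * e - e * v ∈ E) (hE : ∀ e ∈ E, ∀ f ∈ E, e * f - f * e ∈ E)
    {r p : A[X]} {Q q i : ℕ} (hr : ∀ j ≤ i, Q • r.coeff j ∈ E) (hp : ∀ j ≤ i, q • p.coeff j ∈ E) :
    ∀ j ≤ i, (Q * q) • (adz (C u + X * C v + r) p).coeff j ∈ E := by
  intro j hj
  have e1 : adz (C u + X * C v + r) p = (C u * p - p * C u) + (X * C v * p - p * (X * C v)) +
      (r * p - p * r) := by
    rw [adz_apply]; noncomm_ring
  rw [e1, coeff_add, coeff_add, smul_add, smul_add]
  refine E.add_mem (E.add_mem ?_ ?_) ?_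
  · rw [coeff_sub, coeff_C_mul, coeff_mul_C, mul_smul, ← comm_smul_right]
    exact E.nsmul_mem (hu _ (hp j hj)) Q
  · rcases j with _ | j
    · rw [coeff_adz_X_zero, smul_zero]; exact E.zero_mem
    · rw [coeff_adz_X, mul_smul, ← comm_smul_right]
      exact E.nsmul_mem (hv _ (hp j (by omega))) Q
  · rw [coeff_adz_mul, Finset.smul_sum]
    refine AddSubgroup.sum_mem _ fun ab hab => ?_
    have hab' := Finset.HasAntidiagonal.mem_antidiagonal.1 hab
    rw [mul_smul, ← comm_smul_right, ← comm_smul_left]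
    exact hE _ (hr _ (by omega)) _ (hp _ (by omega))

theorem base_ad {E : AddSubgroup A} {u v : A} (hv : ∀ e ∈ E, v * e - e * v ∈ E)
    (huv : u * v - v * u ∈ E) {r : A[X]} {Q i : ℕ} (hr : ∀ j ≤ i, Q • r.coeff j ∈ E) :
    ∀ j ≤ i, Q • (adz (C u + X * C v + r) (C v)).coeff j ∈ E := by
  intro j hj
  have e1 : adz (C u + X * C v + r) (C v) = C (u * v - v * u) + (X * C v * C v - C v * (X * C v)) +
      (r * C v - C v * r) := by
    rw [adz_apply, C_sub, C_mul, C_mul]; noncomm_ring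
  rw [e1, coeff_add, coeff_add, smul_add, smul_add]
  refine E.add_mem (E.add_mem ?_ ?_) ?_
  · rw [coeff_C]
    split_ifs
    · exact E.nsmul_mem huv Q
    · rw [smul_zero]; exact E.zero_mem
  · rw [← mul_assoc (C v) X (C v), ← X_mul, sub_self, coeff_zero, smul_zero]
    exact E.zero_mem
  · rw [coeff_sub, coeff_mul_C, coeff_C_mul, ← neg_sub, smul_neg, ← comm_smul_right]
    exact E.neg_mem (hv _ (hr j hj))

theorem denominators {E : AddSubgroup A} {u v : A} (hu : ∀ e ∈ E, u * e - e * u ∈ E)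
    (hv : ∀ e ∈ E, v * e - e * v ∈ E) (hE : ∀ e ∈ E, ∀ f ∈ E, e * f - f * e ∈ E)
    (huv : u * v - v * u ∈ E) {a : ℚ[X]} (ha : a.coeff 0 = 1) {d : ℕ}
    (hda : ∀ k, ∃ m : ℤ, (d : ℚ) * a.coeff k = m) {z : A[X]} (hz : z.coeff 0 = u)
    (hder : derivative z = (aeval (adz z) a) (C v)) (i : ℕ) :
    ∀ j ≤ i, Qs d a.natDegree i • (z - C u - X * C v).coeff j ∈ E := by
  obtain ⟨r, hr⟩ : ∃ r, r = z - C u - X * C v := ⟨_, rfl⟩
  have hzr : z = C u + X * C v + r := by rw [hr]; abel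
  rw [← hr]
  induction i with
  | zero =>
    intro j hj
    obtain rfl : j = 0 := by omega
    rw [hr, coeff_sub, coeff_sub, hz, coeff_C_zero, mul_coeff_zero, coeff_X_zero, zero_mul,
      sub_self, sub_zero, smul_zero]
    exact E.zero_mem
  | succ i ih =>
    obtain ⟨Q, hQ⟩ : ∃ Q, Q = Qs d a.natDegree i := ⟨_, rfl⟩
    rw [← hQ] at ih
    have hQ' : Qs d a.natDegree (i + 1) = (i + 1) * d * Q ^ (a.natDegree + 1) := by
      rw [Qs, hQ]
    have hT : ∀ k, ∀ j ≤ i, Q ^ (k + 1) • ((adz z ^ (k + 1)) (C v)).coeff j ∈ E := by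
      intro k
      induction k with
      | zero =>
        rw [zero_add, pow_one, pow_one, hzr]
        exact base_ad hv huv ih
      | succ k ihk =>
        rw [pow_succ' Q, pow_succ' (adz z) (k + 1), Module.End.mul_apply]
        have := step_ad hu hv hE ih ihk
        rw [← hzr] at this
        exact this
    intro j hj
    rcases Nat.lt_or_ge i j with h | h
    · obtain rfl : j = i + 1 := by omega
      have h1 : derivative r = ∑ k ∈ Finset.range a.natDegree,
          a.coeff (k + 1) • (adz z ^ (k + 1)) (C v) := by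
        rw [hr, derivative_sub, derivative_sub, derivative_C, derivative_mul, derivative_X,
          derivative_C, one_mul, mul_zero, add_zero, sub_zero, hder, aeval_eq_sum_range,
          LinearMap.sum_apply, Finset.sum_range_succ', ha, one_smul, pow_zero,
          Module.End.one_apply, add_sub_cancel_right]
        rfl
      have h2 := congrArg (fun p : A[X] => p.coeff i) h1
      simp only [coeff_derivative, finsetSum_coeff, coeff_smul] at h2
      have h3 : ((i + 1) : ℕ) • r.coeff (i + 1) = ∑ k ∈ Finset.range a.natDegree,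
          a.coeff (k + 1) • ((adz z ^ (k + 1)) (C v)).coeff i := by
        rw [← h2, nsmul_eq_mul']
        push_cast
        rfl
      rw [hQ', show (i + 1) * d * Q ^ (a.natDegree + 1) = (Q ^ (a.natDegree + 1) * d) * (i + 1) by
        ring, mul_smul, h3, mul_smul, Finset.smul_sum, Finset.smul_sum]
      refine AddSubgroup.sum_mem _ fun k hk => ?_
      rw [Finset.mem_range] at hk
      obtain ⟨m, hm⟩ := hda (k + 1)
      have h4 : d • a.coeff (k + 1) • ((adz z ^ (k + 1)) (C v)).coeff i =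
          m • ((adz z ^ (k + 1)) (C v)).coeff i := by
        rw [← Nat.cast_smul_eq_nsmul ℚ, smul_smul, hm, Int.cast_smul_eq_zsmul]
      rw [h4, smul_comm]
      refine E.zsmul_mem ?_ m
      rw [show a.natDegree + 1 = (a.natDegree - k) + (k + 1) by omega, pow_add, mul_smul]
      exact E.nsmul_mem (hT k i le_rfl) _
    · rw [hQ', show (i + 1) * d * Q ^ (a.natDegree + 1) = ((i + 1) * d * Q ^ a.natDegree) * Q by
        ring, mul_smul]
      exact E.nsmul_mem (ih j h) _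

end filt

/-- The case of a Lie subring `E`. -/
theorem main_case {N : ℕ} (hN : 1 ≤ N) : ∃ M : ℕ, 0 < M ∧
    ∀ (A : Type) [Ring A] [Algebra ℚ A] (𝔞 : NilSub A N) (u v : A),
    u ∈ 𝔞.S → v ∈ 𝔞.S → ∀ E : AddSubgroup A, u * v - v * u ∈ E →
    (∀ e ∈ E, u * e - e * u ∈ E) → (∀ e ∈ E, v * e - e * v ∈ E) →
    (∀ e ∈ E, ∀ f ∈ E, e * f - f * e ∈ E) →
    ∃ w ∈ 𝔞.S, M • w ∈ E ∧
      IsNilpotent.exp u * IsNilpotent.exp v = IsNilpotent.exp (u + v + w) := by
  obtain ⟨a, b, hab, ha0⟩ := exists_beta N hN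
  obtain ⟨d, hd, hda⟩ := exists_den a
  refine ⟨Qs d a.natDegree N, Qs_pos hd _ _, ?_⟩
  intro A _ _ 𝔞 u v hu hv E huv hEu hEv hEE
  obtain ⟨z, hzS, hze, hz0, hzd⟩ := exists_solution hN 𝔞 hab hu hv
  have hden := denominators hEu hEv hEE huv ha0 hda hz0 hzd N
  obtain ⟨r, hr⟩ : ∃ r, r = z - Polynomial.C u - Polynomial.X * Polynomial.C v := ⟨_, rfl⟩
  rw [← hr] at hden
  have hrS : r ∈ Wt 𝔞 1 := by
    rw [hr]
    exact Submodule.sub_mem _ (Submodule.sub_mem _ hzS (C_mem 𝔞 hu)) (XC_mem 𝔞 hv)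
  have hrdeg : r.natDegree < N + 1 := by
    rw [Nat.lt_succ_iff, Polynomial.natDegree_le_iff_coeff_eq_zero]
    intro k hk
    have := hrS k
    rw [Fil_bot 𝔞 (by omega)] at this
    exact (Submodule.mem_bot ℚ).1 this
  have hw : r.eval 1 = ∑ i ∈ Finset.range (N + 1), r.coeff i := by
    rw [Polynomial.eval_eq_sum_range' hrdeg]
    simp
  refine ⟨r.eval 1, ?_, ?_, ?_⟩
  · rw [hw]
    exact Submodule.sum_mem _ fun i _ => Fil_le 𝔞 _ (hrS i)
  · rw [hw, Finset.smul_sum]
    refine AddSubgroup.sum_mem _ fun i hi => hden i ?_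
    rw [Finset.mem_range] at hi
    omega
  · -- evaluate at `1`
    let ev : Polynomial A →+* A :=
      Polynomial.eval₂RingHom' (RingHom.id A) 1 (fun a => Commute.one_right _)
    have hev : ∀ p : Polynomial A, ev p = p.eval 1 := fun p => rfl
    have hzn : IsNilpotent z := (polyNil 𝔞 hN).isNilpotent hzS
    have hXvn : IsNilpotent (Polynomial.X * Polynomial.C v) :=
      (polyNil 𝔞 hN).isNilpotent (XC_mem 𝔞 hv)
    have h1 := congrArg ev hze
    rw [map_mul, IsNilpotent.map_exp hzn ev, IsNilpotent.map_exp hXvn ev, map_mul] at h1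
    simp only [hev, Polynomial.eval_C, Polynomial.eval_X, one_mul] at h1
    rw [← h1]
    congr 1
    have h2 : z = Polynomial.C u + Polynomial.X * Polynomial.C v + r := by rw [hr]; abel
    have h3 : z.eval 1 = ev z := rfl
    rw [h3, h2, map_add, map_add, map_mul]
    simp only [hev, Polynomial.eval_C, Polynomial.eval_X, one_mul]

theorem pos_case {N : ℕ} (hN : 1 ≤ N) : ∃ M : ℕ, BchConst N M := by
  obtain ⟨M, hM, h⟩ := main_case hN
  refine ⟨M, hM, ?_⟩
  intro A _ _ 𝔞 u v hu hv E huv hEu hEv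
  let E' : AddSubgroup A :=
    { carrier := {x | x ∈ E ∧ x ∈ 𝔞.S ∧ ∀ e ∈ E, x * e - e * x ∈ E}
      zero_mem' := ⟨E.zero_mem, 𝔞.S.zero_mem, fun e _ => by
        rw [zero_mul, mul_zero, sub_zero]; exact E.zero_mem⟩
      add_mem' := fun {x y} hx hy => ⟨E.add_mem hx.1 hy.1, 𝔞.S.add_mem hx.2.1 hy.2.1,
        fun e he => by
          have := E.add_mem (hx.2.2 e he) (hy.2.2 e he)
          have e1 : (x + y) * e - e * (x + y) = (x * e - e * x) + (y * e - e * y) := by
            noncomm_ring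
          rwa [e1]⟩
      neg_mem' := fun {x} hx => ⟨E.neg_mem hx.1, 𝔞.S.neg_mem hx.2.1, fun e he => by
        have := E.neg_mem (hx.2.2 e he)
        have e1 : (-x) * e - e * (-x) = -(x * e - e * x) := by noncomm_ring
        rwa [e1]⟩ }
  have hS : ∀ x ∈ 𝔞.S, ∀ y ∈ 𝔞.S, x * y - y * x ∈ 𝔞.S := fun x hx y hy =>
    𝔞.S.sub_mem (𝔞.mul_mem x hx y hy) (𝔞.mul_mem y hy x hx)
  have jac : ∀ x y e : A, (x * y - y * x) * e - e * (x * y - y * x) =
      (x * (y * e - e * y) - (y * e - e * y) * x) -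
      (y * (x * e - e * x) - (x * e - e * x) * y) := by
    intro x y e; noncomm_ring
  obtain ⟨w, hw, hwE, hexp⟩ := h A 𝔞 u v hu hv E'
    ⟨huv, hS u hu v hv, fun e he => by
      rw [jac]; exact E.sub_mem (hEu _ (hEv e he)) (hEv _ (hEu e he))⟩
    (fun x hx => ⟨hEu x hx.1, hS u hu x hx.2.1, fun e he => by
      rw [jac]; exact E.sub_mem (hEu _ (hx.2.2 e he)) (hx.2.2 _ (hEu e he))⟩)
    (fun x hx => ⟨hEv x hx.1, hS v hv x hx.2.1, fun e he => by
      rw [jac]; exact E.sub_mem (hEv _ (hx.2.2 e he)) (hx.2.2 _ (hEv e he))⟩)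
    (fun x hx y hy => ⟨hx.2.2 y hy.1, hS x hx.2.1 y hy.2.1, fun e he => by
      rw [jac]; exact E.sub_mem (hx.2.2 _ (hy.2.2 e he)) (hy.2.2 _ (hx.2.2 e he))⟩)
  exact ⟨w, hw, hwE.1, hexp⟩

end Bch

theorem exists_bchConst (N : ℕ) : ∃ M : ℕ, BchConst N M := by
  rcases Nat.eq_zero_or_pos N with rfl | hN
  · obtain ⟨M, hM, h⟩ := Bch.pos_case (N := 1) le_rfl
    refine ⟨M, hM, ?_⟩
    intro A _ _ 𝔞 u v hu hv E huv hEu hEv
    exact h A ⟨𝔞.S, 𝔞.mul_mem, fun l hl _ => 𝔞.nil l hl (Nat.zero_le _)⟩ u v hu hv E huv hEu hEv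
  · exact Bch.pos_case hN

end Pool.Agent.MPf60e8aN
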