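import Mathlib
import Pool.Agent.Lib.MP_f60e8a_al.N.NDefs
import Pool.Agent.Lib.MP_f60e8a_al.N.ExpLog

/-!
# Commutators of exponentials
-/

open scoped BigOperators commutatorElement

namespace Pool.Agent.MPf60e8aN

namespace CommExp

section sat

variable {A : Type} [Ring A]

/-- The saturation of an additive subgroup with respect to the powers of `K`. -/
def sat (K : ℕ) (F : AddSubgroup A) : AddSubgroup A where
  carrier := {a | ∃ j : ℕ, (K ^ j) • a ∈ F}
  zero_mem' := ⟨0, by simp⟩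
  add_mem' := by
    rintro a b ⟨i, hi⟩ ⟨j, hj⟩
    refine ⟨i + j, ?_⟩
    rw [smul_add]
    refine F.add_mem ?_ ?_
    · rw [pow_add, mul_comm, mul_smul]
      exact F.nsmul_mem hi _
    · rw [pow_add, mul_smul]
      exact F.nsmul_mem hj _
  neg_mem' := by
    rintro a ⟨i, hi⟩
    exact ⟨i, by rw [smul_neg]; exact F.neg_mem hi⟩

lemma mem_sat {K : ℕ} {F : AddSubgroup A} {a : A} : a ∈ sat K F ↔ ∃ j : ℕ, (K ^ j) • a ∈ F :=
  Iff.rfl

lemma le_sat {K : ℕ} {F : AddSubgroup A} {a : A} (h : a ∈ F) : a ∈ sat K F :=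
  ⟨0, by simpa using h⟩

lemma sat_div {K : ℕ} {F : AddSubgroup A} {n : ℕ} (hn : n ∣ K) {a : A} (h : n • a ∈ sat K F) :
    a ∈ sat K F := by
  obtain ⟨j, hj⟩ := h
  obtain ⟨m, hm⟩ := hn
  refine ⟨j + 1, ?_⟩
  have h1 : (K ^ (j + 1)) • a = m • ((K ^ j) • (n • a)) := by
    rw [smul_smul, smul_smul, pow_succ]
    congr 1
    rw [hm]
    ring
  rw [h1]
  exact F.nsmul_mem hj m

lemma sat_br {K : ℕ} {F : AddSubgroup A} {x : A} (h : ∀ e ∈ F, x * e - e * x ∈ F) :
    ∀ e ∈ sat K F, x * e - e * x ∈ sat K F := by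
  rintro e ⟨j, hj⟩
  refine ⟨j, ?_⟩
  have := h _ hj
  rwa [mul_smul_comm, smul_mul_assoc, ← smul_sub] at this

/-- Stability under a commutator. -/
lemma br_br {E : AddSubgroup A} {x y : A} (hx : ∀ e ∈ E, x * e - e * x ∈ E)
    (hy : ∀ e ∈ E, y * e - e * y ∈ E) :
    ∀ e ∈ E, (x * y - y * x) * e - e * (x * y - y * x) ∈ E := by
  intro e he
  have h1 := hx _ (hy e he)
  have h2 := hy _ (hx e he)
  have h3 : (x * y - y * x) * e - e * (x * y - y * x) =
      (x * (y * e - e * y) - (y * e - e * y) * x) - (y * (x * e - e * x) - (x * e - e * x) * y) := by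
    noncomm_ring
  rw [h3]
  exact E.sub_mem h1 h2

end sat

section exp

variable {A : Type} [Ring A] [Algebra ℚ A]

lemma exp_conj_exp {g g' y : A} (h : g' * g = 1) (h' : g * g' = 1) (hy : IsNilpotent y) :
    g * IsNilpotent.exp y * g' = IsNilpotent.exp (g * y * g') := by
  have hpow : ∀ i : ℕ, (g * y * g') ^ i = g * y ^ i * g' := by
    intro i
    induction i with
    | zero => simp [h']
    | succ i ih =>
      rw [pow_succ', ih, pow_succ']
      have : g * y * g' * (g * y ^ i * g') = g * y * (g' * g) * y ^ i * g' := by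
        noncomm_ring
      rw [this, h]
      noncomm_ring
  obtain ⟨k, hk⟩ := hy
  rw [IsNilpotent.exp_eq_sum hk, IsNilpotent.exp_eq_sum (k := k) (by rw [hpow, hk]; simp),
    Finset.mul_sum, Finset.sum_mul]
  refine Finset.sum_congr rfl fun i _ => ?_
  rw [hpow, mul_smul_comm, smul_mul_assoc]

end exp

end CommExp

open CommExp in
/-- The commutator of two exponentials. -/
theorem exists_comm {A : Type} [Ring A] [Algebra ℚ A] {N M : ℕ} (𝔞 : NilSub A N)
    (hM : BchConst N M) (u v : A) (hu : u ∈ 𝔞.S)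
    (hv : v ∈ 𝔞.S) (F : AddSubgroup A)
    (h1 : u * (u * v - v * u) - (u * v - v * u) * u ∈ F)
    (h2 : v * (u * v - v * u) - (u * v - v * u) * v ∈ F)
    (h3 : ∀ e ∈ F, u * e - e * u ∈ F) (h4 : ∀ e ∈ F, v * e - e * v ∈ F) :
    ∃ w ∈ 𝔞.S, (∃ j : ℕ, ((N.factorial * M) ^ j) • w ∈ F) ∧
      IsNilpotent.exp u * IsNilpotent.exp v * IsNilpotent.exp (-u) * IsNilpotent.exp (-v) =
        IsNilpotent.exp (u * v - v * u + w) := by
  obtain ⟨K, hK⟩ : ∃ K : ℕ, K = N.factorial * M := ⟨_, rfl⟩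
  obtain ⟨E, hE⟩ : ∃ E : AddSubgroup A, E = sat K F := ⟨_, rfl⟩
  obtain ⟨c, hc⟩ : ∃ c : A, c = u * v - v * u := ⟨_, rfl⟩
  rw [← hK]
  rw [← hc] at h1 h2 ⊢
  have hcS : c ∈ 𝔞.S := by
    rw [hc]
    exact 𝔞.S.sub_mem (𝔞.mul_mem _ hu _ hv) (𝔞.mul_mem _ hv _ hu)
  have hFE : ∀ {a : A}, a ∈ F → a ∈ E := fun h => by rw [hE]; exact le_sat h
  have e3 : ∀ e ∈ E, u * e - e * u ∈ E := by rw [hE]; exact sat_br h3
  have e4 : ∀ e ∈ E, v * e - e * v ∈ E := by rw [hE]; exact sat_br h4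
  have e5 : ∀ e ∈ E, c * e - e * c ∈ E := by rw [hc]; exact br_br e3 e4
  -- division by factorials
  have hdiv : ∀ (k : ℕ), k ≤ N → ∀ e ∈ E, ((k.factorial : ℚ)⁻¹) • e ∈ E := by
    intro k hk e he
    rw [hE] at he ⊢
    refine sat_div (n := k.factorial) ?_ ?_
    · rw [hK]
      exact (Nat.factorial_dvd_factorial hk).mul_right M
    · have h5 : k.factorial • (((k.factorial : ℚ)⁻¹) • e) = e := by
        rw [← Nat.cast_smul_eq_nsmul ℚ, smul_smul, mul_inv_cancel₀, one_smul]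
        exact_mod_cast k.factorial_ne_zero
      rwa [h5]
  -- the iterated brackets
  obtain ⟨X, hX⟩ : ∃ X : ℕ → A, X = fun k => (fun z => u * z - z * u)^[k] v := ⟨_, rfl⟩
  have hXs : ∀ k, X (k + 1) = u * X k - X k * u := by
    intro k
    rw [hX]
    exact Function.iterate_succ_apply' _ _ _
  have hX0 : X 0 = v := by rw [hX]; rfl
  have hX1 : X 1 = c := by rw [hXs, hX0, hc]
  have hXS : ∀ k, X k ∈ 𝔞.S := by
    intro k
    induction k with
    | zero => rw [hX0]; exact hv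
    | succ k ih =>
      rw [hXs]
      exact 𝔞.S.sub_mem (𝔞.mul_mem _ hu _ ih) (𝔞.mul_mem _ ih _ hu)
  have hXF : ∀ k, X (k + 2) ∈ E := by
    intro k
    induction k with
    | zero =>
      rw [hXs, hX1]
      exact hFE h1
    | succ k ih =>
      rw [hXs]
      exact e3 _ ih
  have hXad : ∀ k, ∀ e ∈ E, X k * e - e * X k ∈ E := by
    intro k
    induction k with
    | zero => rw [hX0]; exact e4
    | succ k ih =>
      rw [hXs]
      exact br_br e3 ih
  -- the tail of the conjugation series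
  obtain ⟨f, hf⟩ : ∃ f : A, f = ∑ i ∈ Finset.range (N - 2), (((i + 2).factorial : ℚ)⁻¹) •
      X (i + 2) := ⟨_, rfl⟩
  have hfE : f ∈ E := by
    rw [hf]
    refine E.sum_mem fun i hi => hdiv _ ?_ _ (hXF i)
    have := Finset.mem_range.mp hi
    omega
  have hfS : f ∈ 𝔞.S := by
    rw [hf]
    exact 𝔞.S.sum_mem fun i _ => 𝔞.S.smul_mem _ (hXS _)
  have hfad : ∀ e ∈ E, f * e - e * f ∈ E := by
    intro e he
    rw [hf, Finset.sum_mul, Finset.mul_sum, ← Finset.sum_sub_distrib]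
    refine E.sum_mem fun i hi => ?_
    rw [smul_mul_assoc, mul_smul_comm, ← smul_sub]
    refine hdiv _ ?_ _ (hXad _ e he)
    have := Finset.mem_range.mp hi
    omega
  have hconj : IsNilpotent.exp u * v * IsNilpotent.exp (-u) = v + c + f := by
    rw [exp_conj 𝔞 hu hv]
    have h5 : ∑ i ∈ Finset.range N, ((i.factorial : ℚ)⁻¹) •
        ((fun z => u * z - z * u)^[i] v) = ∑ i ∈ Finset.range N, ((i.factorial : ℚ)⁻¹) • X i := by
      rw [hX]
    rw [h5]
    rcases lt_or_ge N 2 with hN | hN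
    · have hz : ∀ x ∈ 𝔞.S, x = 0 := by
        intro x hx
        have := 𝔞.nil [x] (by simpa using hx) (by simp; omega)
        simpa using this
      rw [hz v hv, hz c hcS, hz f hfS, add_zero, add_zero]
      exact Finset.sum_eq_zero fun i _ => by rw [hz _ (hXS i), smul_zero]
    · obtain ⟨n, rfl⟩ : ∃ n, N = n + 2 := ⟨N - 2, by omega⟩
      rw [Finset.sum_range_succ', Finset.sum_range_succ', hf, hX0]
      simp only [zero_add, Nat.factorial_zero, Nat.factorial_one, Nat.cast_one, inv_one, one_smul,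
        hX1, Nat.add_sub_cancel]
      abel
  -- application of the Baker-Campbell-Hausdorff formula
  have hv'S : v + c + f ∈ 𝔞.S := 𝔞.S.add_mem (𝔞.S.add_mem hv hcS) hfS
  obtain ⟨w', hw'S, hw'E, hw'⟩ := hM.2 A 𝔞 (v + c + f) (-v) hv'S (𝔞.S.neg_mem hv) E (by
      have h5 : (v + c + f) * -v - -v * (v + c + f) = (v * c - c * v) + (v * f - f * v) := by
        noncomm_ring
      rw [h5]
      exact E.add_mem (hFE h2) (e4 f hfE)) (by
      intro e he
      have h5 : (v + c + f) * e - e * (v + c + f) =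
          (v * e - e * v) + (c * e - e * c) + (f * e - e * f) := by
        noncomm_ring
      rw [h5]
      exact E.add_mem (E.add_mem (e4 e he) (e5 e he)) (hfad e he)) (by
      intro e he
      have h5 : -v * e - e * -v = -(v * e - e * v) := by
        noncomm_ring
      rw [h5]
      exact E.neg_mem (e4 e he))
  have hw'E' : w' ∈ E := by
    rw [hE] at hw'E ⊢
    exact sat_div (by rw [hK]; exact Dvd.intro_left _ rfl) hw'E
  refine ⟨f + w', 𝔞.S.add_mem hfS hw'S, ?_, ?_⟩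
  · have := E.add_mem hfE hw'E'
    rw [hE] at this
    exact this
  · have hnu := 𝔞.isNilpotent hu
    rw [exp_conj_exp (IsNilpotent.exp_neg_mul_exp_self hnu) (IsNilpotent.exp_mul_exp_neg_self hnu)
      (𝔞.isNilpotent hv), hconj, hw']
    congr 1
    abel

end Pool.Agent.MPf60e8aN
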