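import Mathlib
import Pool.Agent.Lib.MP_f60e8a_al.N.NDefs
import Pool.Agent.Lib.MP_f60e8a_al.N.ExpLog
import Pool.Agent.Lib.MP_f60e8a_al.N.Comm

/-!
# Kernels of homomorphisms from `exp L` to `p`-groups are exponentials of ideals
-/

open scoped BigOperators commutatorElement

namespace Pool.Agent.MPf60e8aN

open Pool.Agent.MPf60e8a (wordLen sepIndex RF PosDensity)

variable {A : Type} [Ring A] [Algebra ℚ A]

set_option linter.unusedSectionVars false

namespace Cv

/-! ### Iterated brackets -/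

/-- Left-normed brackets `[x, y_1, …, y_i]` with `x ∈ I` and `y_j ∈ L`. -/
inductive Br (L : AddSubgroup A) (I : Set A) : ℕ → A → Prop
  | base {x : A} (hx : x ∈ I) : Br L I 0 x
  | step {i : ℕ} {m y : A} (hm : Br L I i m) (hy : y ∈ L) : Br L I (i + 1) (m * y - y * m)

/-- The additive span of the brackets of length at least `i`. -/
def J (L : AddSubgroup A) (I : Set A) (i : ℕ) : AddSubgroup A :=
  AddSubgroup.closure {m | ∃ j, i ≤ j ∧ Br L I j m}

variable {L : AddSubgroup A} {I : Set A}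

theorem J_anti {i j : ℕ} (h : i ≤ j) : J L I j ≤ J L I i :=
  AddSubgroup.closure_mono fun _ ⟨k, hk, hm⟩ => ⟨k, h.trans hk, hm⟩

theorem br_mem_J {i : ℕ} {a : A} (ha : a ∈ J L I i) {y : A} (hy : y ∈ L) :
    a * y - y * a ∈ J L I (i + 1) := by
  induction ha using AddSubgroup.closure_induction with
  | mem m hm =>
    obtain ⟨j, hj, hm⟩ := hm
    exact AddSubgroup.subset_closure ⟨j + 1, by omega, Br.step hm hy⟩
  | zero => simp
  | add a b _ _ ha hb =>
    have : (a + b) * y - y * (a + b) = (a * y - y * a) + (b * y - y * b) := by noncomm_ring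
    rw [this]
    exact add_mem ha hb
  | neg a _ ha =>
    have : (-a) * y - y * (-a) = -(a * y - y * a) := by noncomm_ring
    rw [this]
    exact neg_mem ha

theorem Br.mem {N M : ℕ} {𝔞 : NilSub A N} (hL : LieLattice 𝔞 M L) (hI : I ⊆ L) {i : ℕ} {m : A}
    (hm : Br L I i m) : m ∈ L := by
  induction hm with
  | base hx => exact hI hx
  | step _ hy ih =>
    obtain ⟨z, hz, h⟩ := hL.br _ ih _ hy
    rw [h]
    exact nsmul_mem hz M

theorem J_le {N M : ℕ} {𝔞 : NilSub A N} (hL : LieLattice 𝔞 M L) (hI : I ⊆ L) (i : ℕ) :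
    J L I i ≤ L := by
  unfold J
  rw [AddSubgroup.closure_le]
  rintro m ⟨j, _, hm⟩
  exact hm.mem hL hI

/-- All products with enough factors around `a` vanish. -/
def Van {N : ℕ} (𝔞 : NilSub A N) (j : ℕ) (a : A) : Prop :=
  ∀ l l' : List A, (∀ x ∈ l, x ∈ 𝔞.S) → (∀ x ∈ l', x ∈ 𝔞.S) → N ≤ l.length + l'.length + j →
    l.prod * a * l'.prod = 0

theorem Br.van {N M : ℕ} {𝔞 : NilSub A N} (hL : LieLattice 𝔞 M L) (hI : I ⊆ L) {i : ℕ} {m : A}
    (hm : Br L I i m) : Van 𝔞 (i + 1) m := by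
  induction hm with
  | @base x hx =>
    intro l l' hl hl' hlen
    have h := 𝔞.nil (l ++ x :: l') (by
      intro z hz
      rcases List.mem_append.mp hz with hz | hz
      · exact hl z hz
      · rcases List.mem_cons.mp hz with rfl | hz
        · exact hL.le _ (hI hx)
        · exact hl' z hz) (by
      rw [List.length_append, List.length_cons]
      omega)
    rw [List.prod_append, List.prod_cons, ← mul_assoc] at h
    exact h
  | @step i m y _ hy ih =>
    intro l l' hl hl' hlen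
    have hy' : y ∈ 𝔞.S := hL.le _ hy
    have h1 := ih l (y :: l') hl (by
      intro z hz
      rcases List.mem_cons.mp hz with rfl | hz
      · exact hy'
      · exact hl' z hz) (by rw [List.length_cons]; omega)
    have h2 := ih (l ++ [y]) l' (by
      intro z hz
      rcases List.mem_append.mp hz with hz | hz
      · exact hl z hz
      · rw [List.mem_singleton] at hz
        rw [hz]
        exact hy') hl' (by rw [List.length_append, List.length_singleton]; omega)
    rw [List.prod_cons] at h1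
    rw [List.prod_append, List.prod_singleton] at h2
    have : l.prod * (m * y - y * m) * l'.prod =
        l.prod * m * (y * l'.prod) - l.prod * y * m * l'.prod := by noncomm_ring
    rw [this, h1, h2, sub_zero]

theorem J_eq_bot {N M : ℕ} {𝔞 : NilSub A N} (hL : LieLattice 𝔞 M L) (hI : I ⊆ L) {i : ℕ}
    (hi : N ≤ i) : J L I i = ⊥ := by
  unfold J
  rw [AddSubgroup.closure_eq_bot_iff]
  rintro m ⟨j, hj, hm⟩
  have h := hm.van hL hI [] [] (by simp) (by simp) (by simp; omega)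
  simpa using h

/-! ### Divisible closures -/

/-- The elements with a multiple by a power of `c` in `F`. -/
def Hat (c : ℕ) (F : AddSubgroup A) : AddSubgroup A where
  carrier := {e | ∃ j : ℕ, (c ^ j) • e ∈ F}
  zero_mem' := ⟨0, by simp⟩
  add_mem' := by
    rintro a b ⟨i, hi⟩ ⟨j, hj⟩
    refine ⟨i + j, ?_⟩
    have : (c ^ (i + j)) • (a + b) = (c ^ j) • ((c ^ i) • a) + (c ^ i) • ((c ^ j) • b) := by
      rw [smul_smul, smul_smul, ← pow_add, ← pow_add, add_comm j i, smul_add]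
    rw [this]
    exact add_mem (nsmul_mem hi _) (nsmul_mem hj _)
  neg_mem' := by
    rintro a ⟨i, hi⟩
    refine ⟨i, ?_⟩
    rw [smul_neg]
    exact neg_mem hi

theorem mem_Hat {c : ℕ} {F : AddSubgroup A} {e : A} : e ∈ Hat c F ↔ ∃ j : ℕ, (c ^ j) • e ∈ F :=
  Iff.rfl

theorem le_Hat (c : ℕ) (F : AddSubgroup A) : F ≤ Hat c F := fun e he => ⟨0, by simpa using he⟩

theorem Hat_mono (c : ℕ) {F F' : AddSubgroup A} (h : F ≤ F') : Hat c F ≤ Hat c F' :=
  fun _ ⟨j, hj⟩ => ⟨j, h hj⟩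

theorem Hat_br {c : ℕ} {F F' : AddSubgroup A} {y : A} (h : ∀ e ∈ F, e * y - y * e ∈ F') {e : A}
    (he : e ∈ Hat c F) : e * y - y * e ∈ Hat c F' := by
  obtain ⟨j, hj⟩ := he
  refine ⟨j, ?_⟩
  have h1 := h _ hj
  have : (c ^ j) • (e * y - y * e) = ((c ^ j) • e) * y - y * ((c ^ j) • e) := by
    rw [smul_sub, smul_mul_assoc, mul_smul_comm]
  rw [this]
  exact h1

theorem of_pow_smul_mem_Hat {c : ℕ} {F : AddSubgroup A} {e : A} (j : ℕ)
    (he : (c ^ j) • e ∈ Hat c F) : e ∈ Hat c F := by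
  obtain ⟨i, hi⟩ := he
  refine ⟨i + j, ?_⟩
  rwa [smul_smul, ← pow_add] at hi

theorem of_smul_mem_Hat {n M : ℕ} {F : AddSubgroup A} {e : A}
    (he : M • e ∈ Hat (n * M) F) : e ∈ Hat (n * M) F := by
  apply of_pow_smul_mem_Hat 1
  rw [pow_one, mul_smul]
  exact nsmul_mem he n

/-! ### The function `x ↦ f (exp x)` -/

open Classical in
/-- The element `exp x` of the group. -/
noncomputable def E (Γ : Subgroup Aˣ) (x : A) : Γ :=
  if h : ∃ u : Γ, ((u : Aˣ) : A) = IsNilpotent.exp x then h.choose else 1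

section

variable {N M : ℕ} {𝔞 : NilSub A N} (hM : BchConst N M) (hL : LieLattice 𝔞 M L)
  {Γ : Subgroup Aˣ} (hΓ : (Γ : Set Aˣ) = ExpSet (L : Set A))
  {P : Type*} [Group P] (f : Γ →* P)

include hL in
theorem isNil {x : A} (hx : x ∈ L) : IsNilpotent x := 𝔞.isNilpotent (hL.le _ hx)

include hL hΓ in
theorem E_spec {x : A} (hx : x ∈ L) : ((E Γ x : Aˣ) : A) = IsNilpotent.exp x := by
  have h : ∃ u : Γ, ((u : Aˣ) : A) = IsNilpotent.exp x := by
    let w : Aˣ := ⟨IsNilpotent.exp x, IsNilpotent.exp (-x),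
      IsNilpotent.exp_mul_exp_neg_self (isNil hL hx), IsNilpotent.exp_neg_mul_exp_self (isNil hL hx)⟩
    have hw : w ∈ (Γ : Set Aˣ) := by
      rw [hΓ]
      exact ⟨x, hx, rfl⟩
    exact ⟨⟨w, hw⟩, rfl⟩
  rw [E, dif_pos h]
  exact h.choose_spec

include hL hΓ in
theorem E_of_exp {z : A} (hz : z ∈ 𝔞.S) {u : Γ} (hu : ((u : Aˣ) : A) = IsNilpotent.exp z) :
    z ∈ L ∧ E Γ z = u := by
  have h1 : (u : Aˣ) ∈ ExpSet (L : Set A) := by
    rw [← hΓ]
    exact u.2
  obtain ⟨x, hx, hux⟩ := h1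
  have h2 : x = z := by
    rw [← lg_exp (isNil hL hx), ← lg_exp (𝔞.isNilpotent hz), ← hux, ← hu]
  rw [← h2]
  refine ⟨hx, Subtype.ext (Units.ext ?_)⟩
  rw [E_spec hL hΓ hx, hux]

include hL hΓ in
theorem E_mul {x y z : A} (hx : x ∈ L) (hy : y ∈ L) (hz : z ∈ 𝔞.S)
    (h : IsNilpotent.exp x * IsNilpotent.exp y = IsNilpotent.exp z) :
    z ∈ L ∧ E Γ z = E Γ x * E Γ y := by
  apply E_of_exp hL hΓ hz
  rw [← h, Subgroup.coe_mul, Units.val_mul, E_spec hL hΓ hx, E_spec hL hΓ hy]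

include hL hΓ in
theorem E_zero : E Γ (0 : A) = 1 := by
  refine (E_of_exp hL hΓ (zero_mem _) ?_).2
  rw [IsNilpotent.exp_zero]
  rfl

include hL hΓ in
theorem E_neg {x : A} (hx : x ∈ L) : E Γ (-x) = (E Γ x)⁻¹ := by
  have h := (E_mul (Γ := Γ) hL hΓ hx (neg_mem hx) (zero_mem _) (by
    rw [IsNilpotent.exp_mul_exp_neg_self (isNil hL hx), IsNilpotent.exp_zero])).2
  rw [E_zero hL hΓ] at h
  exact (inv_eq_of_mul_eq_one_right h.symm).symm

include hL hΓ in
theorem E_nsmul {x : A} (hx : x ∈ L) (n : ℕ) : E Γ (n • x) = E Γ x ^ n := by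
  refine (E_of_exp hL hΓ (hL.le _ (nsmul_mem hx n)) ?_).2
  rw [exp_nsmul (isNil hL hx), Subgroup.coe_pow, Units.val_pow_eq_pow_val, E_spec hL hΓ hx]

/-- A subgroup of `A` that is stable under brackets with `L`, divisible by `c`, and killed by
`f ∘ exp`. -/
structure Good (L : AddSubgroup A) (M n : ℕ) (f : Γ →* P) (H : AddSubgroup A) : Prop where
  st : ∀ e ∈ H, ∀ y ∈ L, e * y - y * e ∈ H
  div : ∀ (e : A) (j : ℕ), ((n * M) ^ j) • e ∈ H → e ∈ H
  ker : ∀ a ∈ L, a ∈ H → f (E Γ a) = 1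

theorem Good.st' {n : ℕ} {f : Γ →* P} {H : AddSubgroup A} (hH : Good L M n f H) {e : A}
    (he : e ∈ H) {y : A} (hy : y ∈ L) : y * e - e * y ∈ H := by
  have h := neg_mem (hH.st e he y hy)
  rwa [neg_sub] at h

theorem Good.divM {n : ℕ} {f : Γ →* P} {H : AddSubgroup A} (hH : Good L M n f H) {e : A}
    (he : M • e ∈ H) : e ∈ H := by
  apply hH.div e 1
  rw [pow_one, mul_smul]
  exact nsmul_mem he n

include hM hL hΓ in
theorem f_add_right {n : ℕ} {H : AddSubgroup A} (hH : Good L M n f H) {x w : A} (hx : x ∈ L)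
    (hw : w ∈ L) (hwH : w ∈ H) : f (E Γ (x + w)) = f (E Γ x) := by
  have h1 : (-x) * (x + w) - (x + w) * (-x) ∈ H := by
    have : (-x) * (x + w) - (x + w) * (-x) = w * x - x * w := by noncomm_ring
    rw [this]
    exact hH.st _ hwH _ hx
  obtain ⟨w', hw'S, hw', hexp⟩ := hM.2 A 𝔞 (-x) (x + w) (hL.le _ (neg_mem hx))
    (hL.le _ (add_mem hx hw)) H h1 (fun e he => hH.st' he (neg_mem hx))
    (fun e he => hH.st' he (add_mem hx hw))
  have h2 : -x + (x + w) + w' = w + w' := by abel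
  rw [h2] at hexp
  have h3 := E_mul (Γ := Γ) hL hΓ (neg_mem hx) (add_mem hx hw) (add_mem (hL.le _ hw) hw'S) hexp
  have h4 := hH.ker _ h3.1 (add_mem hwH (hH.divM hw'))
  rw [h3.2, map_mul, E_neg hL hΓ hx, map_inv] at h4
  exact (inv_mul_eq_one.mp h4).symm

include hM hL hΓ in
theorem f_add {n : ℕ} {H : AddSubgroup A} (hH : Good L M n f H) {a b : A} (ha : a ∈ L)
    (hb : b ∈ L) (hab : a * b - b * a ∈ H) : f (E Γ (a + b)) = f (E Γ a) * f (E Γ b) := by
  obtain ⟨w, hwS, hw, hexp⟩ := hM.2 A 𝔞 a b (hL.le _ ha) (hL.le _ hb) H hab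
    (fun e he => hH.st' he ha) (fun e he => hH.st' he hb)
  have h3 := E_mul (Γ := Γ) hL hΓ ha hb (add_mem (hL.le _ (add_mem ha hb)) hwS) hexp
  have hwL : w ∈ L := by
    have h := sub_mem h3.1 (add_mem ha hb)
    rwa [add_sub_cancel_left] at h
  rw [← map_mul, ← h3.2]
  exact (f_add_right hM hL hΓ f hH (add_mem ha hb) hwL (hH.divM hw)).symm

include hM hL hΓ in
theorem f_comm {a y : A} (ha : a ∈ L) (hy : y ∈ L)
    (hfa : f (E Γ a) = 1) (F : AddSubgroup A)
    (h1 : a * (a * y - y * a) - (a * y - y * a) * a ∈ F)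
    (h2 : y * (a * y - y * a) - (a * y - y * a) * y ∈ F)
    (h3 : ∀ e ∈ F, a * e - e * a ∈ F) (h4 : ∀ e ∈ F, y * e - e * y ∈ F) :
    ∃ w : A, (∃ j : ℕ, ((N.factorial * M) ^ j) • w ∈ F) ∧ (a * y - y * a) + w ∈ L ∧
      f (E Γ ((a * y - y * a) + w)) = 1 := by
  obtain ⟨w, hwS, hw, hexp⟩ := exists_comm 𝔞 hM a y (hL.le _ ha) (hL.le _ hy) F h1 h2 h3 h4
  have hayS : a * y - y * a ∈ 𝔞.S :=
    sub_mem (𝔞.mul_mem _ (hL.le _ ha) _ (hL.le _ hy)) (𝔞.mul_mem _ (hL.le _ hy) _ (hL.le _ ha))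
  have h5 := E_of_exp (Γ := Γ) hL hΓ (u := E Γ a * E Γ y * E Γ (-a) * E Γ (-y))
    (add_mem hayS hwS) (by
      rw [← hexp]
      simp only [Subgroup.coe_mul, Units.val_mul]
      rw [E_spec hL hΓ ha, E_spec hL hΓ hy, E_spec hL hΓ (neg_mem ha),
        E_spec hL hΓ (neg_mem hy)])
  refine ⟨w, hw, h5.1, ?_⟩
  rw [h5.2, map_mul, map_mul, map_mul, E_neg hL hΓ ha, E_neg hL hΓ hy, map_inv, map_inv, hfa]
  simp

/-- The elements of `L` killed by `f ∘ exp`. -/
def Ker (L : AddSubgroup A) (f : Γ →* P) : Set A := {x | x ∈ L ∧ f (E Γ x) = 1}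

theorem Ker_subset (f : Γ →* P) : Ker L f ⊆ L := fun _ h => h.1

include hM hL hΓ in
/-- Iterated commutators. -/
theorem gen {i : ℕ} {m : A} (hm : Br L (Ker L f) i m) :
    ∃ w ∈ Hat (N.factorial * M) (J L (Ker L f) (i + 1)), m + w ∈ L ∧ f (E Γ (m + w)) = 1 := by
  induction hm with
  | @base x hx => exact ⟨0, zero_mem _, by rw [add_zero]; exact hx.1, by rw [add_zero]; exact hx.2⟩
  | @step i m y hm hy ih =>
    obtain ⟨w, hw, hmw, hf⟩ := ih
    set c := N.factorial * M with hc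
    have hst : ∀ k, ∀ z ∈ L, ∀ e ∈ Hat c (J L (Ker L f) k),
        e * z - z * e ∈ Hat c (J L (Ker L f) (k + 1)) := by
      intro k z hz e he
      exact Hat_br (fun e he => br_mem_J he hz) he
    have hst' : ∀ k, ∀ z ∈ L, ∀ e ∈ Hat c (J L (Ker L f) k),
        z * e - e * z ∈ Hat c (J L (Ker L f) (k + 1)) := by
      intro k z hz e he
      have h := neg_mem (hst k z hz e he)
      rwa [neg_sub] at h
    have hmy : m * y - y * m ∈ J L (Ker L f) (i + 1) :=
      AddSubgroup.subset_closure ⟨i + 1, le_rfl, Br.step hm hy⟩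
    have hwy : w * y - y * w ∈ Hat c (J L (Ker L f) (i + 2)) := hst _ y hy w hw
    have hay : (m + w) * y - y * (m + w) ∈ Hat c (J L (Ker L f) (i + 1)) := by
      have h : (m + w) * y - y * (m + w) = (m * y - y * m) + (w * y - y * w) := by noncomm_ring
      rw [h]
      exact add_mem (le_Hat _ _ hmy) (Hat_mono _ (J_anti (by omega)) hwy)
    have hmono : Hat c (J L (Ker L f) (i + 2 + 1)) ≤ Hat c (J L (Ker L f) (i + 2)) :=
      Hat_mono _ (J_anti (by omega))
    obtain ⟨w', hw', hL', hf'⟩ := f_comm hM hL hΓ f hmw hy hf (Hat c (J L (Ker L f) (i + 2)))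
      (hst' _ _ hmw _ hay) (hst' _ _ hy _ hay)
      (fun e he => hmono (hst' _ _ hmw _ he)) (fun e he => hmono (hst' _ _ hy _ he))
    have h1 : (m + w) * y - y * (m + w) + w' = (m * y - y * m) + ((w * y - y * w) + w') := by
      noncomm_ring
    rw [h1] at hL' hf'
    obtain ⟨j, hj⟩ := hw'
    exact ⟨_, add_mem hwy (of_pow_smul_mem_Hat j hj), hL', hf'⟩

include hM hL hΓ in
theorem good_all [Finite P] {p : ℕ} (hp : p.Prime) (hpN : N < p) (hpM : ¬ p ∣ M)
    (hP : IsPGroup p P) (n : ℕ) : ∀ i, N ≤ i + n →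
    Good L M N.factorial f (Hat (N.factorial * M) (J L (Ker L f) i)) := by
  have hst : ∀ k, ∀ e ∈ Hat (N.factorial * M) (J L (Ker L f) k), ∀ z ∈ L,
      e * z - z * e ∈ Hat (N.factorial * M) (J L (Ker L f) k) := by
    intro k e he z hz
    exact Hat_mono _ (J_anti (Nat.le_succ k)) (Hat_br (fun e he => br_mem_J he hz) he)
  have hpos : 0 < N.factorial * M := Nat.mul_pos N.factorial_pos hM.1
  have hcop : ¬ p ∣ N.factorial * M := by
    intro h
    rcases (hp.dvd_mul).mp h with h | h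
    · exact absurd ((hp.dvd_factorial).mp h) (by omega)
    · exact hpM h
  -- removing multiples by powers of `N! M`
  have hred : ∀ (a : A) (j : ℕ), a ∈ L → f (E Γ (((N.factorial * M) ^ j) • a)) = 1 →
      f (E Γ a) = 1 := by
    intro a j ha h
    rw [E_nsmul hL hΓ ha, map_pow] at h
    have h1 := orderOf_dvd_of_pow_eq_one h
    have : Fact p.Prime := ⟨hp⟩
    obtain ⟨k, hk⟩ := (IsPGroup.iff_orderOf.mp hP) (f (E Γ a))
    rw [hk] at h1
    rcases Nat.eq_zero_or_pos k with rfl | hk0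
    · rw [pow_zero] at hk
      exact orderOf_eq_one_iff.mp hk
    · exact absurd (hp.dvd_of_dvd_pow ((dvd_pow_self p hk0.ne').trans h1)) hcop
  induction n with
  | zero =>
    intro i hi
    refine ⟨hst i, fun e j he => of_pow_smul_mem_Hat j he, fun a haL ha => ?_⟩
    obtain ⟨j, hj⟩ := ha
    rw [J_eq_bot hL (Ker_subset f) (by omega), AddSubgroup.mem_bot] at hj
    apply hred a j haL
    rw [hj, E_zero hL hΓ, map_one]
  | succ n ih =>
    intro i hi
    have hG := ih (i + 1) (by omega)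
    refine ⟨hst i, fun e j he => of_pow_smul_mem_Hat j he, fun a haL ha => ?_⟩
    obtain ⟨j, hj⟩ := ha
    apply hred a j haL
    generalize (N.factorial * M) ^ j • a = b at hj
    have hJL := J_le hL (Ker_subset f) i
    induction hj using AddSubgroup.closure_induction with
    | mem m hm =>
      obtain ⟨k, hk, hm⟩ := hm
      obtain ⟨w, hw, hmw, hf⟩ := gen hM hL hΓ f hm
      have hmL := hm.mem hL (Ker_subset f)
      have hwL : w ∈ L := by
        have h := sub_mem hmw hmL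
        rwa [add_sub_cancel_left] at h
      rw [← hf]
      exact (f_add_right hM hL hΓ f hG hmL hwL (Hat_mono _ (J_anti (by omega)) hw)).symm
    | zero => rw [E_zero hL hΓ, map_one]
    | add x y hx hy hfx hfy =>
      have hxL : x ∈ L := hJL hx
      have hyL : y ∈ L := hJL hy
      rw [f_add hM hL hΓ f hG hxL hyL (le_Hat _ _ (br_mem_J hx hyL)), hfx, hfy, one_mul]
    | neg x hx hfx =>
      rw [E_neg hL hΓ (hJL hx), map_inv, hfx, inv_one]

end

end Cv

/-- Kernels of homomorphisms from `exp L` to `p`-groups, `p` large, are exponentials of ideals. -/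
theorem conv {N M : ℕ} (𝔞 : NilSub A N) (hM : BchConst N M) {L : AddSubgroup A}
    (hL : LieLattice 𝔞 M L) (Γ : Subgroup Aˣ) (hΓ : (Γ : Set Aˣ) = ExpSet (L : Set A))
    {p : ℕ} (hp : p.Prime) (hpN : N < p) (hpM : ¬ p ∣ M) {P : Type*} [Group P] [Finite P]
    (hP : IsPGroup p P) (f : Γ →* P) (hf : Function.Surjective f) :
    ∃ I : AddSubgroup A, LatIdeal M L I ∧
      (∀ x ∈ L, ∀ u : Γ, ((u : Aˣ) : A) = IsNilpotent.exp x → (f u = 1 ↔ x ∈ I)) ∧
      I.relIndex L = Nat.card P := by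
  classical
  have hG := Cv.good_all hM hL hΓ f hp hpN hpM hP N 0 (by omega)
  set I : AddSubgroup A := Cv.J L (Cv.Ker L f) 0 with hI
  have hIL : I ≤ L := Cv.J_le hL (Cv.Ker_subset f) 0
  have hmem : ∀ x ∈ L, (f (Cv.E Γ x) = 1 ↔ x ∈ I) := by
    intro x hx
    constructor
    · intro h
      exact AddSubgroup.subset_closure ⟨0, le_rfl, Cv.Br.base ⟨hx, h⟩⟩
    · intro h
      exact hG.ker x hx (Cv.le_Hat _ _ h)
  have hHat : ∀ x ∈ L, x ∈ Cv.Hat (N.factorial * M) I → x ∈ I :=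
    fun x hx h => (hmem x hx).mp (hG.ker x hx h)
  -- the fibres
  have hfib : ∀ x ∈ L, ∀ y ∈ L, (f (Cv.E Γ x) = f (Cv.E Γ y) ↔ -x + y ∈ I) := by
    intro x hx y hy
    constructor
    · intro h
      set u : Γ := (Cv.E Γ x)⁻¹ * Cv.E Γ y with hu
      have hu1 : (u : Aˣ) ∈ ExpSet (L : Set A) := by
        rw [← hΓ]
        exact u.2
      obtain ⟨z, hz, huz⟩ := hu1
      have h2 := Cv.E_of_exp hL hΓ (hL.le _ hz) huz
      have hfz : f (Cv.E Γ z) = 1 := by
        rw [h2.2, hu, map_mul, map_inv, h, inv_mul_cancel]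
      have hzI : z ∈ I := (hmem z hz).mp hfz
      have hxz : x * z - z * x ∈ Cv.Hat (N.factorial * M) I :=
        hG.st' (Cv.le_Hat _ _ hzI) hx
      obtain ⟨w, hwS, hw, hexp⟩ := hM.2 A 𝔞 x z (hL.le _ hx) (hL.le _ hz)
        (Cv.Hat (N.factorial * M) I) hxz (fun e he => hG.st' he hx) (fun e he => hG.st' he hz)
      have hexp2 : IsNilpotent.exp x * IsNilpotent.exp z = IsNilpotent.exp y := by
        rw [← Cv.E_spec hL hΓ hx, ← huz, ← Cv.E_spec hL hΓ hy, ← Units.val_mul,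
          ← Subgroup.coe_mul, hu, mul_inv_cancel_left]
      have h3 : x + z + w = y := by
        have h4 : x + z + w ∈ 𝔞.S := add_mem (hL.le _ (add_mem hx hz)) hwS
        rw [← lg_exp (𝔞.isNilpotent h4), ← hexp, hexp2, lg_exp (Cv.isNil hL hy)]
      have hwL : w ∈ L := by
        have h5 := sub_mem hy (add_mem hx hz)
        rwa [← h3, add_sub_cancel_left] at h5
      have hwI : w ∈ I := hHat w hwL (hG.divM hw)
      have h6 : -x + y = z + w := by
        rw [← h3]
        abel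
      rw [h6]
      exact add_mem hzI hwI
    · intro h
      have h1 := Cv.f_add_right hM hL hΓ f hG hx (hIL h) (Cv.le_Hat _ _ h)
      rw [← h1]
      congr 2
      abel
  refine ⟨I, ⟨hIL, ?_⟩, ?_, ?_⟩
  · intro x hx y hy
    obtain ⟨z, hz, h⟩ := hL.br x (hIL hx) y hy
    refine ⟨z, ?_, h⟩
    apply hHat z hz
    apply hG.divM
    rw [← h]
    exact hG.st _ (Cv.le_Hat _ _ hx) _ hy
  · intro x hx u hu
    rw [← hmem x hx, (Cv.E_of_exp hL hΓ (hL.le _ hx) hu).2]
  · -- the index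
    rw [AddSubgroup.relIndex, AddSubgroup.index]
    refine Nat.card_congr (Equiv.ofBijective
      (Quotient.lift (s := QuotientAddGroup.leftRel (I.addSubgroupOf L))
        (fun x : L => f (Cv.E Γ (x : A))) ?_) ⟨?_, ?_⟩)
    · intro x y hxy
      have h := QuotientAddGroup.leftRel_apply.mp hxy
      rw [AddSubgroup.mem_addSubgroupOf] at h
      exact (hfib _ x.2 _ y.2).mpr h
    · rintro ⟨x⟩ ⟨y⟩ h
      apply Quotient.sound
      apply QuotientAddGroup.leftRel_apply.mpr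
      rw [AddSubgroup.mem_addSubgroupOf]
      exact (hfib _ x.2 _ y.2).mp h
    · intro q
      obtain ⟨u, rfl⟩ := hf q
      have hu1 : (u : Aˣ) ∈ ExpSet (L : Set A) := by
        rw [← hΓ]
        exact u.2
      obtain ⟨z, hz, huz⟩ := hu1
      refine ⟨Quotient.mk _ ⟨z, hz⟩, ?_⟩
      change f (Cv.E Γ z) = f u
      rw [(Cv.E_of_exp hL hΓ (hL.le _ hz) huz).2]

end Pool.Agent.MPf60e8aN
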