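import Mathlib
import Pool.Agent.Lib.MP_f60e8a_al.N.NDefs

/-!
# Lie lattices and groups
-/

open scoped BigOperators commutatorElement

namespace Pool.Agent.MPf60e8aN

open Pool.Agent.MPf60e8a (wordLen sepIndex RF PosDensity)

variable {A : Type} [Ring A] [Algebra ℚ A]

namespace Corr

lemma nsmul_cancel {M : ℕ} (hM : 0 < M) {x y : A} (h : M • x = M • y) : x = y := by
  have h1 : (M : ℚ) • x = (M : ℚ) • y := by
    rw [Nat.cast_smul_eq_nsmul, Nat.cast_smul_eq_nsmul, h]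
  have h2 : (M : ℚ) ≠ 0 := by exact_mod_cast hM.ne'
  have h3 := congrArg (fun z => (M : ℚ)⁻¹ • z) h1
  simpa [smul_smul, inv_mul_cancel₀ h2] using h3

/-- The additive subgroup `M I`. -/
def scaled (M : ℕ) (I : AddSubgroup A) : AddSubgroup A where
  carrier := {e | ∃ z ∈ I, e = M • z}
  zero_mem' := ⟨0, I.zero_mem, by simp⟩
  add_mem' := by
    rintro _ _ ⟨x, hx, rfl⟩ ⟨y, hy, rfl⟩
    exact ⟨x + y, I.add_mem hx hy, by rw [smul_add]⟩
  neg_mem' := by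
    rintro _ ⟨x, hx, rfl⟩
    exact ⟨-x, I.neg_mem hx, by rw [smul_neg]⟩

omit [Algebra ℚ A] in
lemma mem_scaled {M : ℕ} {I : AddSubgroup A} {e : A} : e ∈ scaled M I ↔ ∃ z ∈ I, e = M • z := Iff.rfl

lemma latIdeal_self {N M : ℕ} {𝔞 : NilSub A N} {L : AddSubgroup A} (hL : LieLattice 𝔞 M L) :
    LatIdeal M L L := ⟨le_rfl, hL.br⟩

lemma lieLattice_ideal {N M : ℕ} {𝔞 : NilSub A N} {L I : AddSubgroup A} (hL : LieLattice 𝔞 M L)
    (hI : LatIdeal M L I) : LieLattice 𝔞 M I :=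
  ⟨fun x hx => hL.le x (hI.le hx), fun x hx y hy => hI.br x hx y (hI.le hy)⟩

lemma bch {N M : ℕ} (𝔞 : NilSub A N) (hM : BchConst N M) {L I : AddSubgroup A}
    (hL : LieLattice 𝔞 M L) (hI : LatIdeal M L I) {a b : A} (ha : a ∈ L) (hb : b ∈ L)
    (hab : ∃ z ∈ I, a * b - b * a = M • z) :
    ∃ w ∈ I, IsNilpotent.exp a * IsNilpotent.exp b = IsNilpotent.exp (a + b + w) := by
  have key : ∀ c ∈ L, ∀ e ∈ scaled M I, c * e - e * c ∈ scaled M I := by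
    rintro c hc _ ⟨z, hz, rfl⟩
    obtain ⟨z', hz', h⟩ := hI.br z hz c hc
    refine ⟨M • (-z'), I.nsmul_mem (I.neg_mem hz') M, ?_⟩
    rw [mul_smul_comm, smul_mul_assoc, ← smul_sub, smul_neg, ← h]
    congr 1
    abel
  obtain ⟨w, _, hwE, hw⟩ := hM.2 A 𝔞 a b (hL.le a ha) (hL.le b hb) (scaled M I) hab
    (key a ha) (key b hb)
  obtain ⟨z, hz, hwz⟩ := hwE
  have : w = z := nsmul_cancel hM.1 hwz
  subst this
  exact ⟨w, hz, hw⟩

lemma nilp {N : ℕ} (𝔞 : NilSub A N) {x : A} (hx : x ∈ 𝔞.S) : ∀ k, N ≤ k → x ^ k = 0 := by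
  intro k hk
  have := 𝔞.nil (List.replicate k x) (by
    intro y hy
    rw [List.eq_of_mem_replicate hy]
    exact hx) (by simpa using hk)
  simpa using this

lemma isNilpotent {N : ℕ} (𝔞 : NilSub A N) {x : A} (hx : x ∈ 𝔞.S) : IsNilpotent x :=
  ⟨N, nilp 𝔞 hx N le_rfl⟩

/-- Span of the products of at least `k` elements. -/
def P {N : ℕ} (𝔞 : NilSub A N) (k : ℕ) : Submodule ℚ A :=
  Submodule.span ℚ {a | ∃ l : List A, (∀ x ∈ l, x ∈ 𝔞.S) ∧ k ≤ l.length ∧ l.prod = a}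

lemma P_top {N : ℕ} (𝔞 : NilSub A N) {a : A} (ha : a ∈ P 𝔞 N) : a = 0 := by
  have : P 𝔞 N ≤ ⊥ := by
    refine Submodule.span_le.2 ?_
    rintro _ ⟨l, hl, hk, rfl⟩
    rw [𝔞.nil l hl hk]
    exact Submodule.zero_mem _
  exact (Submodule.mem_bot ℚ).1 (this ha)

lemma P_left {N : ℕ} (𝔞 : NilSub A N) {k : ℕ} {x a : A} (hx : x ∈ 𝔞.S) (ha : a ∈ P 𝔞 k) :
    x * a ∈ P 𝔞 (k + 1) := by
  induction ha using Submodule.span_induction with
  | mem a h =>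
    obtain ⟨l, hl, hk, rfl⟩ := h
    refine Submodule.subset_span ⟨x :: l, ?_, by simpa using hk, by simp⟩
    intro y hy
    rcases List.mem_cons.1 hy with rfl | hy
    · exact hx
    · exact hl y hy
  | zero => simp
  | add a b _ _ iha ihb => rw [mul_add]; exact Submodule.add_mem _ iha ihb
  | smul c a _ ih => rw [mul_smul_comm]; exact Submodule.smul_mem _ c ih

lemma P_right {N : ℕ} (𝔞 : NilSub A N) {k : ℕ} {x a : A} (hx : x ∈ 𝔞.S) (ha : a ∈ P 𝔞 k) :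
    a * x ∈ P 𝔞 (k + 1) := by
  induction ha using Submodule.span_induction with
  | mem a h =>
    obtain ⟨l, hl, hk, rfl⟩ := h
    refine Submodule.subset_span ⟨l ++ [x], ?_, by simpa using hk, by simp⟩
    intro y hy
    rcases List.mem_append.1 hy with hy | hy
    · exact hl y hy
    · rw [List.mem_singleton.1 hy]; exact hx
  | zero => simp
  | add a b _ _ iha ihb => rw [add_mul]; exact Submodule.add_mem _ iha ihb
  | smul c a _ ih => rw [smul_mul_assoc]; exact Submodule.smul_mem _ c ih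

lemma P_mono {N : ℕ} (𝔞 : NilSub A N) {k m : ℕ} (h : k ≤ m) : P 𝔞 m ≤ P 𝔞 k := by
  refine Submodule.span_mono ?_
  rintro _ ⟨l, hl, hk, rfl⟩
  exact ⟨l, hl, h.trans hk, rfl⟩

lemma P_pow {N : ℕ} (𝔞 : NilSub A N) {k : ℕ} {x a : A} (hx : x ∈ 𝔞.S) (ha : a ∈ P 𝔞 k) (i : ℕ) :
    a * x ^ i ∈ P 𝔞 (k + i) := by
  induction i with
  | zero => simpa using ha
  | succ i ih =>
    rw [pow_succ, ← mul_assoc]
    exact P_right 𝔞 hx ih

lemma P_pow_sub {N : ℕ} (𝔞 : NilSub A N) {k : ℕ} {x y : A} (hx : x ∈ 𝔞.S) (hy : y ∈ 𝔞.S)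
    (hd : y - x ∈ P 𝔞 k) (i : ℕ) : y ^ (i + 1) - x ^ (i + 1) ∈ P 𝔞 (k + i) := by
  induction i with
  | zero => simpa using hd
  | succ i ih =>
    have : y ^ (i + 1 + 1) - x ^ (i + 1 + 1) =
        y * (y ^ (i + 1) - x ^ (i + 1)) + (y - x) * x ^ (i + 1) := by
      rw [pow_succ' y (i + 1), pow_succ' x (i + 1)]
      noncomm_ring
    rw [this]
    exact Submodule.add_mem _ (P_left 𝔞 hy ih) (P_pow 𝔞 hx hd (i + 1))

lemma exp_step {N : ℕ} (𝔞 : NilSub A N) {k : ℕ} {x y : A} (hx : x ∈ 𝔞.S) (hy : y ∈ 𝔞.S)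
    (h : IsNilpotent.exp x = IsNilpotent.exp y) (hd : y - x ∈ P 𝔞 k) : y - x ∈ P 𝔞 (k + 1) := by
  rw [IsNilpotent.exp_eq_sum (nilp 𝔞 hx (N + 2) (by omega)),
    IsNilpotent.exp_eq_sum (nilp 𝔞 hy (N + 2) (by omega))] at h
  rw [Finset.sum_range_succ', Finset.sum_range_succ', Finset.sum_range_succ',
    Finset.sum_range_succ'] at h
  simp only [zero_add, pow_one, pow_zero, Nat.factorial_one, Nat.factorial_zero, Nat.cast_one,
    inv_one, one_smul] at h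
  have h1 : y - x = - ∑ i ∈ Finset.range N,
      (((i + 1 + 1).factorial : ℚ)⁻¹ • (y ^ (i + 1 + 1) - x ^ (i + 1 + 1))) := by
    simp only [smul_sub, Finset.sum_sub_distrib]
    have h2 := sub_eq_zero.2 h
    rw [← sub_eq_zero]
    rw [← neg_eq_zero] at h2
    rw [← h2]
    abel
  rw [h1]
  refine Submodule.neg_mem _ (Submodule.sum_mem _ fun i _ => Submodule.smul_mem _ _ ?_)
  exact P_mono 𝔞 (by omega) (P_pow_sub 𝔞 hx hy hd (i + 1))

theorem exp_inj {N : ℕ} (𝔞 : NilSub A N) {x y : A} (hx : x ∈ 𝔞.S) (hy : y ∈ 𝔞.S)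
    (h : IsNilpotent.exp x = IsNilpotent.exp y) : x = y := by
  have key : ∀ k, y - x ∈ P 𝔞 (k + 1) := by
    intro k
    induction k with
    | zero =>
      exact Submodule.subset_span ⟨[y - x], by simpa using 𝔞.S.sub_mem hy hx, by simp, by simp⟩
    | succ k ih => exact exp_step 𝔞 hx hy h ih
  exact (sub_eq_zero.1 (P_top 𝔞 (P_mono 𝔞 (Nat.le_succ N) (key N)))).symm

end Corr

theorem corr_group {N M : ℕ} (𝔞 : NilSub A N) (hM : BchConst N M) {L : AddSubgroup A}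
    (hL : LieLattice 𝔞 M L) : ∃ Γ : Subgroup Aˣ, (Γ : Set Aˣ) = ExpSet (L : Set A) := by
  refine ⟨{ carrier := ExpSet (L : Set A), mul_mem' := ?_, one_mem' := ?_, inv_mem' := ?_ }, rfl⟩
  · rintro u v ⟨x, hx, hu⟩ ⟨y, hy, hv⟩
    obtain ⟨w, hw, h⟩ := Corr.bch 𝔞 hM hL (Corr.latIdeal_self hL) hx hy (hL.br x hx y hy)
    exact ⟨x + y + w, L.add_mem (L.add_mem hx hy) hw, by rw [Units.val_mul, hu, hv, h]⟩
  · exact ⟨0, L.zero_mem, by simp⟩
  · rintro u ⟨x, hx, hu⟩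
    refine ⟨-x, L.neg_mem hx, ?_⟩
    have h1 := IsNilpotent.exp_mul_exp_neg_self (Corr.isNilpotent 𝔞 (hL.le x hx))
    rw [← hu] at h1
    exact Units.inv_eq_of_mul_eq_one_right h1

theorem corr_ideal {N M : ℕ} (𝔞 : NilSub A N) (hM : BchConst N M) {L I : AddSubgroup A}
    (hL : LieLattice 𝔞 M L) (hI : LatIdeal M L I) :
    ∃ Γ : Subgroup Aˣ, (Γ : Set Aˣ) = ExpSet (I : Set A) ∧
      (∀ u ∈ ExpSet (L : Set A), ∀ v ∈ Γ, u * v * u⁻¹ ∈ Γ) ∧
      ∀ x ∈ L, ∀ y ∈ L, ∀ u v : Aˣ, (u : A) = IsNilpotent.exp x → (v : A) = IsNilpotent.exp y →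
        (u⁻¹ * v ∈ Γ ↔ y - x ∈ I) := by
  obtain ⟨Γ, hΓ⟩ := corr_group 𝔞 hM (Corr.lieLattice_ideal hL hI)
  have hmem : ∀ u : Aˣ, u ∈ Γ ↔ ∃ x ∈ I, (u : A) = IsNilpotent.exp x := by
    intro u
    rw [← SetLike.mem_coe, hΓ]
    rfl
  have hinv : ∀ u : Aˣ, ∀ x ∈ L, (u : A) = IsNilpotent.exp x →
      ((u⁻¹ : Aˣ) : A) = IsNilpotent.exp (-x) := by
    intro u x hx hu
    have h1 := IsNilpotent.exp_mul_exp_neg_self (Corr.isNilpotent 𝔞 (hL.le x hx))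
    rw [← hu] at h1
    exact Units.inv_eq_of_mul_eq_one_right h1
  have hbr' : ∀ x ∈ L, ∀ i ∈ I, ∃ z ∈ I, x * i - i * x = M • z := by
    intro x hx i hi
    obtain ⟨z, hz, h⟩ := hI.br i hi x hx
    exact ⟨-z, I.neg_mem hz, by rw [smul_neg, ← h]; abel⟩
  refine ⟨Γ, hΓ, ?_, ?_⟩
  · rintro u ⟨x, hx, hu⟩ v hv
    obtain ⟨i, hi, hv⟩ := (hmem v).1 hv
    obtain ⟨w, hw, h1⟩ := Corr.bch 𝔞 hM hL hI hx (hI.le hi) (hbr' x hx i hi)
    have hiw : i + w ∈ I := I.add_mem hi hw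
    have hbr : ∃ z ∈ I, (x + i + w) * (-x) - (-x) * (x + i + w) = M • z := by
      obtain ⟨z, hz, h⟩ := hbr' x hx (i + w) hiw
      exact ⟨z, hz, by rw [← h]; noncomm_ring⟩
    have hL' : x + i + w ∈ L := by
      rw [add_assoc]; exact L.add_mem hx (hI.le hiw)
    obtain ⟨w', hw', h2⟩ := Corr.bch 𝔞 hM hL hI hL' (L.neg_mem hx) hbr
    refine (hmem _).2 ⟨i + w + w', I.add_mem hiw hw', ?_⟩
    rw [Units.val_mul, Units.val_mul, hinv u x hx hu, hu, hv, h1, h2]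
    congr 1
    abel
  · intro x hx y hy u v hu hv
    rw [hmem]
    constructor
    · rintro ⟨i, hi, h⟩
      obtain ⟨w, hw, h1⟩ := Corr.bch 𝔞 hM hL hI hx (hI.le hi) (hbr' x hx i hi)
      have h2 : (v : A) = IsNilpotent.exp (x + i + w) := by
        rw [← h1, ← hu, ← h, ← Units.val_mul]
        simp
      have h3 : y = x + i + w := by
        refine Corr.exp_inj 𝔞 (hL.le y hy) (hL.le _ ?_) (hv.symm.trans h2)
        rw [add_assoc]; exact L.add_mem hx (hI.le (I.add_mem hi hw))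
      rw [h3]
      have : x + i + w - x = i + w := by abel
      rw [this]
      exact I.add_mem hi hw
    · intro hi
      have hbr : ∃ z ∈ I, (-x) * y - y * (-x) = M • z := by
        obtain ⟨z, hz, h⟩ := hI.br (y - x) hi x hx
        exact ⟨z, hz, by rw [← h]; noncomm_ring⟩
      obtain ⟨w, hw, h1⟩ := Corr.bch 𝔞 hM hL hI (L.neg_mem hx) hy hbr
      refine ⟨y - x + w, I.add_mem hi hw, ?_⟩
      rw [Units.val_mul, hinv u x hx hu, hv, h1]
      congr 1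
      abel

end Pool.Agent.MPf60e8aN
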