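import Mathlib
import Pool.Agent.Lib.MP_f60e8a_al.N.NDefs

set_option autoImplicit false

/-!
# An integral vector contained in all ideals of small codimension
-/

open scoped BigOperators

namespace Pool.Agent.MPf60e8aN

namespace DescN

/-! ## Galois descent for a set of row vectors -/

section Descent

variable {k : ℕ}

/-- A vector over the base field orthogonal to a Galois stable set of row vectors. -/
theorem exists_base (K Kb : Type) [Field K] [CharZero K] [Field Kb] [Algebra K Kb]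
    [IsAlgClosed Kb] [Algebra.IsAlgebraic K Kb] (P : Set (Fin k → Kb))
    (hP : ∀ ψ : Kb ≃ₐ[K] Kb, ∀ x ∈ P, (fun t => ψ (x t)) ∈ P)
    (u : Fin k → Kb) (hu0 : u ≠ 0) (hu : ∀ x ∈ P, ∑ t, x t * u t = 0) :
    ∃ z : Fin k → K, z ≠ 0 ∧ ∀ x ∈ P, ∑ t, x t * algebraMap K Kb (z t) = 0 := by
  classical
  obtain ⟨t₀, ht₀⟩ : ∃ t₀, u t₀ ≠ 0 := by
    by_contra hcon
    push Not at hcon
    exact hu0 (funext hcon)
  let w : Fin k → Kb := fun t => u t / u t₀
  have hw0 : w t₀ = 1 := div_self ht₀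
  have hw : ∀ x ∈ P, ∑ t, x t * w t = 0 := by
    intro x hx
    have h2 : ∑ t, x t * w t = (∑ t, x t * u t) / u t₀ := by
      rw [Finset.sum_div]
      refine Finset.sum_congr rfl fun t _ => ?_
      rw [mul_div_assoc]
    rw [h2, hu x hx, zero_div]
  let L : IntermediateField K Kb := IntermediateField.adjoin K (Set.range w)
  have hfin : FiniteDimensional K L := by
    have : Finite (Set.range w) := Set.finite_range w
    exact IntermediateField.finiteDimensional_adjoin fun x _ =>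
      Algebra.IsIntegral.isIntegral x
  let w' : Fin k → L := fun t => ⟨w t, IntermediateField.subset_adjoin K _ ⟨t, rfl⟩⟩
  refine ⟨fun t => Algebra.trace K L (w' t), ?_, ?_⟩
  · intro hz
    have h1 := congrFun hz t₀
    have h2 : w' t₀ = 1 := Subtype.ext hw0
    simp only [h2, Pi.zero_apply] at h1
    rw [← map_one (algebraMap K L), Algebra.trace_algebraMap] at h1
    have h3 : 0 < Module.finrank K L := Module.finrank_pos
    rw [nsmul_one] at h1
    have h5 : Module.finrank K L = 0 := by exact_mod_cast h1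
    omega
  · intro x hx
    have h1 : ∀ t, algebraMap K Kb (Algebra.trace K L (w' t)) =
        ∑ σ : L →ₐ[K] Kb, σ (w' t) := fun t => trace_eq_sum_embeddings Kb
    simp only [h1, Finset.mul_sum]
    rw [Finset.sum_comm]
    refine Finset.sum_eq_zero fun σ _ => ?_
    obtain ⟨φ, hφ⟩ := IsAlgClosed.surjective_domRestrict_of_isAlgebraic
      (K := K) (L := L) (M := Kb) (E := Kb) σ
    have hbij : Function.Bijective φ := Algebra.IsAlgebraic.algHom_bijective φ
    let ψ : Kb ≃ₐ[K] Kb := AlgEquiv.ofBijective φ hbij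
    have h2 : ∀ t, σ (w' t) = φ (w t) := by
      intro t
      rw [← hφ]
      rfl
    have h3 : ∀ t, x t = φ (ψ.symm (x t)) := fun t => (ψ.apply_symm_apply (x t)).symm
    have h4 : ∑ t, x t * σ (w' t) = φ (∑ t, ψ.symm (x t) * w t) := by
      rw [map_sum]
      refine Finset.sum_congr rfl fun t _ => ?_
      rw [map_mul, ← h3, h2]
    rw [h4, hw _ (hP ψ.symm x hx), map_zero]

/-- Clearing denominators. -/
theorem exists_int (Qb : Type) [Field Qb] [Algebra ℚ Qb] (P : Set (Fin k → Qb))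
    (z : Fin k → ℚ) (hz0 : z ≠ 0)
    (hz : ∀ x ∈ P, ∑ t, x t * algebraMap ℚ Qb (z t) = 0) :
    ∃ z : Fin k → ℤ, z ≠ 0 ∧ ∀ x ∈ P, ∑ t, x t * (z t : Qb) = 0 := by
  let N : ℕ := ∏ t, (z t).den
  have hN : N ≠ 0 := Finset.prod_ne_zero_iff.mpr fun t _ => (z t).den_nz
  have hint : ∀ t, ∃ n : ℤ, (n : ℚ) = N * z t := by
    intro t
    obtain ⟨c, hc⟩ := Finset.dvd_prod_of_mem (fun t => (z t).den) (Finset.mem_univ t)
    refine ⟨c * (z t).num, ?_⟩
    have h1 : (N : ℚ) = (z t).den * c := by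
      have : N = (z t).den * c := hc
      rw [this]
      push_cast
      ring
    rw [h1]
    push_cast
    have h2 : ((z t).den : ℚ) * z t = (z t).num := by
      rw [mul_comm]
      exact Rat.mul_den_eq_num (z t)
    linear_combination -(c : ℚ) * h2
  choose n hn using hint
  refine ⟨n, ?_, ?_⟩
  · intro h0
    apply hz0
    funext t
    have h1 := hn t
    rw [h0] at h1
    simp only [Pi.zero_apply, Int.cast_zero] at h1
    have hN' : (N : ℚ) ≠ 0 := by exact_mod_cast hN
    exact (mul_eq_zero.mp h1.symm).resolve_left hN'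
  · intro x hx
    have h1 := hz x hx
    have h2 : ∀ t, (n t : Qb) = (N : Qb) * algebraMap ℚ Qb (z t) := by
      intro t
      have := congrArg (algebraMap ℚ Qb) (hn t)
      rwa [map_intCast, map_mul, map_natCast] at this
    have h3 : ∑ t, x t * (n t : Qb) = (N : Qb) * ∑ t, x t * algebraMap ℚ Qb (z t) := by
      rw [Finset.mul_sum]
      refine Finset.sum_congr rfl fun t _ => ?_
      rw [h2]
      ring
    rw [h3, h1, mul_zero]

end Descent

/-! ## Ideals given by matrices -/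

/-- Matrices which describe an ideal of codimension at most `d`. -/
structure Data {h : ℕ} (𝔏 : Alg h) (d : ℕ) (R : Type) [CommRing R] where
  p : Fin d → Fin h → R
  A : Fin h → Fin d → Fin d → R
  B : Fin h → Fin d → Fin d → R
  hA : ∀ i j t, ∑ k, (𝔏.c j i k : R) * p t k = ∑ s, A i t s * p s j
  hB : ∀ i j t, ∑ k, (𝔏.c i j k : R) * p t k = ∑ s, B i t s * p s j

variable {h d : ℕ} {𝔏 : Alg h}

/-- Change of rings. -/
def Data.map {R S : Type} [CommRing R] [CommRing S] (φ : R →+* S) (D : Data 𝔏 d R) :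
    Data 𝔏 d S where
  p t k := φ (D.p t k)
  A i t s := φ (D.A i t s)
  B i t s := φ (D.B i t s)
  hA i j t := by
    have := congrArg φ (D.hA i j t)
    simpa only [map_sum, map_mul, map_intCast] using this
  hB i j t := by
    have := congrArg φ (D.hB i j t)
    simpa only [map_sum, map_mul, map_intCast] using this

/-- The ideal. -/
def Data.ker {F : Type} [CommRing F] (D : Data 𝔏 d F) : Submodule F (Fin h → F) :=
  LinearMap.ker (Matrix.mulVecLin (Matrix.of D.p))

theorem Data.mem_ker {F : Type} [CommRing F] (D : Data 𝔏 d F) {x : Fin h → F} :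
    x ∈ D.ker ↔ ∀ t, ∑ k, D.p t k * x k = 0 := by
  rw [Data.ker, LinearMap.mem_ker, funext_iff]
  rfl

theorem Data.isIdeal_ker {F : Type} [CommRing F] (D : Data 𝔏 d F) : 𝔏.IsIdeal D.ker := by
  intro x hx y
  rw [D.mem_ker] at hx
  constructor
  · rw [D.mem_ker]
    intro t
    have h1 : ∑ k, D.p t k * 𝔏.mul x y k =
        ∑ j, y j * ∑ i, x i * ∑ k, (𝔏.c i j k : F) * D.p t k := by
      simp only [Alg.mul, Finset.mul_sum]
      rw [Finset.sum_comm]
      rw [Finset.sum_congr rfl fun i _ => Finset.sum_comm]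
      rw [Finset.sum_comm]
      refine Finset.sum_congr rfl fun j _ => Finset.sum_congr rfl fun i _ =>
        Finset.sum_congr rfl fun k _ => ?_
      ring
    rw [h1]
    refine Finset.sum_eq_zero fun j _ => ?_
    have h2 : ∑ i, x i * ∑ k, (𝔏.c i j k : F) * D.p t k =
        ∑ s, D.A j t s * ∑ i, D.p s i * x i := by
      simp only [D.hA, Finset.mul_sum]
      rw [Finset.sum_comm]
      refine Finset.sum_congr rfl fun s _ => Finset.sum_congr rfl fun i _ => ?_
      ring
    rw [h2, Finset.sum_eq_zero, mul_zero]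
    intro s _
    rw [hx s, mul_zero]
  · rw [D.mem_ker]
    intro t
    have h1 : ∑ k, D.p t k * 𝔏.mul y x k =
        ∑ i, y i * ∑ j, x j * ∑ k, (𝔏.c i j k : F) * D.p t k := by
      simp only [Alg.mul, Finset.mul_sum]
      rw [Finset.sum_comm]
      rw [Finset.sum_congr rfl fun i _ => Finset.sum_comm]
      refine Finset.sum_congr rfl fun j _ => Finset.sum_congr rfl fun i _ =>
        Finset.sum_congr rfl fun k _ => ?_
      ring
    rw [h1]
    refine Finset.sum_eq_zero fun i _ => ?_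
    have h2 : ∑ j, x j * ∑ k, (𝔏.c i j k : F) * D.p t k =
        ∑ s, D.B i t s * ∑ j, D.p s j * x j := by
      simp only [D.hB, Finset.mul_sum]
      rw [Finset.sum_comm]
      refine Finset.sum_congr rfl fun s _ => Finset.sum_congr rfl fun i _ => ?_
      ring
    rw [h2, Finset.sum_eq_zero, mul_zero]
    intro s _
    rw [hx s, mul_zero]

theorem Data.codim_ker {F : Type} [Field F] (D : Data 𝔏 d F) :
    Module.finrank F ((Fin h → F) ⧸ D.ker) ≤ d := by
  rw [Data.ker, LinearEquiv.finrank_eq (LinearMap.quotKerEquivRange _)]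
  calc _ ≤ Module.finrank F (Fin d → F) := Submodule.finrank_le _
    _ = d := by simp

/-- Every ideal of codimension at most `d` is of this form. -/
theorem exists_data {F : Type} [Field F] {J : Submodule F (Fin h → F)} (hJ : 𝔏.IsIdeal J)
    (hd : Module.finrank F ((Fin h → F) ⧸ J) ≤ d) : ∃ D : Data 𝔏 d F, D.ker = J := by
  classical
  have hle : Module.finrank F ((Fin h → F) ⧸ J) ≤ Module.finrank F (Fin d → F) := by
    simpa using hd
  obtain ⟨ι, hι⟩ := finrank_le_iff_exists_linearMap.mp hle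
  obtain ⟨q, hq⟩ := ι.exists_leftInverse_of_injective (LinearMap.ker_eq_bot.mpr hι)
  have hq' : ∀ v, q (ι v) = v := fun v => LinearMap.congr_fun hq v
  let π : (Fin h → F) →ₗ[F] (Fin d → F) := ι ∘ₗ J.mkQ
  let e : Fin h → (Fin h → F) := fun i => Pi.single i 1
  -- multiplications as linear maps
  let Rm : Fin h → ((Fin h → F) →ₗ[F] (Fin h → F)) := fun i =>
    { toFun := fun x => 𝔏.mul x (e i)
      map_add' := fun x y => by
        funext k
        simp only [Alg.mul, Pi.add_apply, mul_add, add_mul, Finset.sum_add_distrib]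
      map_smul' := fun c x => by
        funext k
        simp only [Alg.mul, Pi.smul_apply, smul_eq_mul, RingHom.id_apply, Finset.mul_sum]
        refine Finset.sum_congr rfl fun i _ => Finset.sum_congr rfl fun j _ => ?_
        ring }
  let Lm : Fin h → ((Fin h → F) →ₗ[F] (Fin h → F)) := fun i =>
    { toFun := fun x => 𝔏.mul (e i) x
      map_add' := fun x y => by
        funext k
        simp only [Alg.mul, Pi.add_apply, mul_add, Finset.sum_add_distrib]
      map_smul' := fun c x => by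
        funext k
        simp only [Alg.mul, Pi.smul_apply, smul_eq_mul, RingHom.id_apply, Finset.mul_sum]
        refine Finset.sum_congr rfl fun i _ => Finset.sum_congr rfl fun j _ => ?_
        ring }
  have hRm : ∀ i, J ≤ J.comap (Rm i) := fun i x hx => (hJ x hx (e i)).1
  have hLm : ∀ i, J ≤ J.comap (Lm i) := fun i x hx => (hJ x hx (e i)).2
  let Am : Fin h → ((Fin d → F) →ₗ[F] (Fin d → F)) := fun i =>
    ι ∘ₗ (J.mapQ J (Rm i) (hRm i)) ∘ₗ q
  let Bm : Fin h → ((Fin d → F) →ₗ[F] (Fin d → F)) := fun i =>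
    ι ∘ₗ (J.mapQ J (Lm i) (hLm i)) ∘ₗ q
  have hAm : ∀ i x, Am i (π x) = π (Rm i x) := by
    intro i x
    simp only [Am, π, LinearMap.comp_apply, hq', Submodule.mkQ_apply, Submodule.mapQ_apply]
  have hBm : ∀ i x, Bm i (π x) = π (Lm i x) := by
    intro i x
    simp only [Bm, π, LinearMap.comp_apply, hq', Submodule.mkQ_apply, Submodule.mapQ_apply]
  have hexp : ∀ x : Fin h → F, ∀ t, π x t = ∑ k, π (e k) t * x k := by
    intro x t
    have h1 : x = ∑ k, x k • e k := by
      funext j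
      simp [e, Finset.sum_apply, Pi.single_apply]
    conv_lhs => rw [h1]
    rw [map_sum, Finset.sum_apply]
    refine Finset.sum_congr rfl fun k _ => ?_
    rw [map_smul, Pi.smul_apply, smul_eq_mul, mul_comm]
  have hexp2 : ∀ (T : (Fin d → F) →ₗ[F] (Fin d → F)) (v : Fin d → F) (t : Fin d),
      T v t = ∑ s, T (Pi.single s 1) t * v s := by
    intro T v t
    have h1 : v = ∑ s, v s • (Pi.single s 1 : Fin d → F) := by
      funext j
      simp [Finset.sum_apply, Pi.single_apply]
    conv_lhs => rw [h1]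
    rw [map_sum, Finset.sum_apply]
    refine Finset.sum_congr rfl fun k _ => ?_
    rw [map_smul, Pi.smul_apply, smul_eq_mul, mul_comm]
  have hmul : ∀ i j k, 𝔏.mul (e i) (e j) k = (𝔏.c i j k : F) := by
    intro i j k
    simp [Alg.mul, e, Pi.single_apply]
  refine ⟨⟨fun t k => π (e k) t, fun i t s => Am i (Pi.single s 1) t,
    fun i t s => Bm i (Pi.single s 1) t, ?_, ?_⟩, ?_⟩
  · intro i j t
    rw [← hexp2 (Am i) (π (e j)) t, hAm, hexp]
    refine Finset.sum_congr rfl fun k _ => ?_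
    have : Rm i (e j) k = (𝔏.c j i k : F) := hmul j i k
    rw [this, mul_comm]
  · intro i j t
    rw [← hexp2 (Bm i) (π (e j)) t, hBm, hexp]
    refine Finset.sum_congr rfl fun k _ => ?_
    have : Lm i (e j) k = (𝔏.c i j k : F) := hmul i j k
    rw [this, mul_comm]
  · ext x
    rw [Data.mem_ker]
    simp only [← hexp]
    constructor
    · intro hx
      have h1 : π x = 0 := funext hx
      have h2 : J.mkQ x = 0 := hι (by rw [map_zero]; exact h1)
      exact (Submodule.Quotient.mk_eq_zero J).mp h2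
    · intro hx t
      have h2 : J.mkQ x = 0 := (Submodule.Quotient.mk_eq_zero J).mpr hx
      have h1 : π x = 0 := by
        simp only [π, LinearMap.comp_apply, h2, map_zero]
      rw [h1]
      rfl

/-- From the complex numbers to a subfield. -/
theorem exists_sub (Qb : Type) [Field Qb] [Algebra Qb ℂ]
    (hne : sInf {J : Submodule ℂ (Fin h → ℂ) | 𝔏.IsIdeal J ∧
      Module.finrank ℂ ((Fin h → ℂ) ⧸ J) ≤ d} ≠ ⊥) :
    ∃ u : Fin h → Qb, u ≠ 0 ∧ ∀ (D : Data 𝔏 d Qb) (t : Fin d), ∑ k, D.p t k * u k = 0 := by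
  obtain ⟨w, hw, hw0⟩ := Submodule.exists_mem_ne_zero_of_ne_bot hne
  obtain ⟨k₀, hk₀⟩ : ∃ k₀, w k₀ ≠ 0 := by
    by_contra hcon
    push Not at hcon
    exact hw0 (funext hcon)
  obtain ⟨g, hg⟩ := (LinearMap.toSpanSingleton Qb ℂ (w k₀)).exists_leftInverse_of_injective
    (LinearMap.ker_toSpanSingleton Qb hk₀)
  refine ⟨fun k => g (w k), ?_, ?_⟩
  · intro h0
    have h1 := congrFun h0 k₀
    have h2 := LinearMap.congr_fun hg 1
    simp only [LinearMap.comp_apply, LinearMap.toSpanSingleton_apply, one_smul,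
      LinearMap.id_apply] at h2
    simp only [Pi.zero_apply] at h1
    rw [h1] at h2
    exact zero_ne_one h2
  · intro D t
    have h1 : w ∈ (D.map (algebraMap Qb ℂ)).ker := by
      rw [Submodule.mem_sInf] at hw
      exact hw _ ⟨Data.isIdeal_ker _, Data.codim_ker _⟩
    rw [Data.mem_ker] at h1
    have h2 := congrArg g (h1 t)
    rw [map_sum, map_zero] at h2
    rw [← h2]
    refine Finset.sum_congr rfl fun k _ => ?_
    show _ = g (algebraMap Qb ℂ (D.p t k) * w k)
    rw [← Algebra.smul_def, map_smul, smul_eq_mul]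

/-- Specialisation. -/
theorem specialise (Qb : Type) [Field Qb] [Algebra ℚ Qb] [IsAlgClosed Qb]
    {z : Fin h → ℤ} (hz : ∀ (D : Data 𝔏 d Qb) (t : Fin d), ∑ k, D.p t k * (z k : Qb) = 0)
    (F : Type) [Field F] [CharZero F] (D : Data 𝔏 d F) (t₀ : Fin d) :
    ∑ k, D.p t₀ k * (z k : F) = 0 := by
  classical
  by_contra hs
  obtain ⟨s, hsdef⟩ : ∃ s : F, s = ∑ k, D.p t₀ k * (z k : F) := ⟨_, rfl⟩
  rw [← hsdef] at hs
  let E : Set F := (Set.range fun q : Fin d × Fin h => D.p q.1 q.2) ∪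
    (Set.range fun q : Fin h × Fin d × Fin d => D.A q.1 q.2.1 q.2.2) ∪
    (Set.range fun q : Fin h × Fin d × Fin d => D.B q.1 q.2.1 q.2.2) ∪ {s⁻¹}
  have hE : E.Finite := (((Set.finite_range _).union (Set.finite_range _)).union
    (Set.finite_range _)).union (Set.finite_singleton _)
  obtain ⟨A, hA⟩ : ∃ A : Subalgebra ℚ F, A = Algebra.adjoin ℚ E := ⟨_, rfl⟩
  have hfg : Algebra.FiniteType ℚ A := by
    rw [← Subalgebra.fg_iff_finiteType, hA]
    exact Subalgebra.fg_def.mpr ⟨_, hE, rfl⟩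
  have hsub : ∀ x ∈ E, x ∈ A := fun x hx => by
    rw [hA]
    exact Algebra.subset_adjoin hx
  have hp : ∀ t k, D.p t k ∈ A := fun t k => hsub _ (Or.inl (Or.inl (Or.inl ⟨(t, k), rfl⟩)))
  have hAA : ∀ i t s, D.A i t s ∈ A := fun i t s =>
    hsub _ (Or.inl (Or.inl (Or.inr ⟨(i, t, s), rfl⟩)))
  have hBB : ∀ i t s, D.B i t s ∈ A := fun i t s => hsub _ (Or.inl (Or.inr ⟨(i, t, s), rfl⟩))
  have hsA : s⁻¹ ∈ A := hsub _ (Or.inr rfl)
  let DA : Data 𝔏 d A :=
    { p := fun t k => ⟨D.p t k, hp t k⟩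
      A := fun i t s => ⟨D.A i t s, hAA i t s⟩
      B := fun i t s => ⟨D.B i t s, hBB i t s⟩
      hA := fun i j t => by
        apply Subtype.ext
        have := D.hA i j t
        push_cast
        exact this
      hB := fun i j t => by
        apply Subtype.ext
        have := D.hB i j t
        push_cast
        exact this }
  let sA : A := ∑ k, DA.p t₀ k * (z k : A)
  let uA : A := ⟨s⁻¹, hsA⟩
  have hus : sA * uA = 1 := by
    apply Subtype.ext
    have : ((sA : A) : F) = s := by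
      rw [hsdef]
      simp [sA, DA]
    rw [MulMemClass.coe_mul, this]
    exact mul_inv_cancel₀ hs
  obtain ⟨M, hM⟩ := Ideal.exists_maximal A
  let _ : Field (A ⧸ M) := Ideal.Quotient.field M
  have : Algebra.FiniteType ℚ (A ⧸ M) := inferInstance
  have : Module.Finite ℚ (A ⧸ M) := finite_of_finite_type_of_isJacobsonRing ℚ (A ⧸ M)
  have : Algebra.IsAlgebraic ℚ (A ⧸ M) := inferInstance
  let ψ : (A ⧸ M) →ₐ[ℚ] Qb := IsAlgClosed.lift
  let φ : A →+* Qb := ψ.toRingHom.comp (Ideal.Quotient.mk M)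
  have h2 := hz (DA.map φ) t₀
  have h3 : φ sA = 0 := by
    rw [← h2]
    simp only [sA, map_sum, map_mul, map_intCast]
    rfl
  have h4 := congrArg φ hus
  rw [map_mul, h3, zero_mul, map_one] at h4
  exact zero_ne_one h4

end DescN

open DescN in
theorem exists_zN {h : ℕ} (𝔏 : Alg h) (hd : 0 < 𝔏.dnum) :
    ∃ z : Fin h → ℤ, z ≠ 0 ∧ ∀ (F : Type) [Field F] [CharZero F]
      (J : Submodule F (Fin h → F)), 𝔏.IsIdeal J →
      Module.finrank F ((Fin h → F) ⧸ J) < 𝔏.dnum → (fun i => (z i : F)) ∈ J := by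
  have hlt : 𝔏.dnum - 1 < 𝔏.dnum := by omega
  have h1 := Nat.notMem_of_lt_sInf hlt
  have h2 : sInf {J : Submodule ℂ (Fin h → ℂ) | 𝔏.IsIdeal J ∧
      Module.finrank ℂ ((Fin h → ℂ) ⧸ J) ≤ 𝔏.dnum - 1} ≠ ⊥ := h1
  obtain ⟨Qb, i1, i2, i3, i4⟩ : ∃ (Qb : Type) (_ : Field Qb) (_ : Algebra ℚ Qb)
      (_ : IsAlgClosed Qb), Algebra.IsAlgebraic ℚ Qb :=
    ⟨AlgebraicClosure ℚ, inferInstance, AlgebraicClosure.instAlgebra ℚ, inferInstance,
      AlgebraicClosure.isAlgebraic ℚ⟩
  let emb : Qb →+* ℂ := (IsAlgClosed.lift (R := ℚ) (S := Qb) (M := ℂ)).toRingHom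
  let _ : Algebra Qb ℂ := emb.toAlgebra
  obtain ⟨u, hu0, hu⟩ := exists_sub Qb h2
  let P : Set (Fin h → Qb) := {x | ∃ (D : Data 𝔏 (𝔏.dnum - 1) Qb) (t : Fin (𝔏.dnum - 1)),
    x = D.p t}
  have hP : ∀ ψ : Qb ≃ₐ[ℚ] Qb, ∀ x ∈ P, (fun t => ψ (x t)) ∈ P := by
    rintro ψ x ⟨D, t, rfl⟩
    exact ⟨D.map (ψ : Qb ≃+* Qb).toRingHom, t, rfl⟩
  obtain ⟨z₀, hz₀, hz₀'⟩ := exists_base ℚ Qb P hP u hu0 (by
    rintro x ⟨D, t, rfl⟩
    exact hu D t)
  obtain ⟨z, hz0, hz⟩ := exists_int Qb P z₀ hz₀ hz₀'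
  refine ⟨z, hz0, fun F _ _ J hJ hc => ?_⟩
  obtain ⟨D, rfl⟩ := exists_data (d := 𝔏.dnum - 1) hJ (by omega)
  rw [Data.mem_ker]
  intro t
  exact specialise Qb (fun D t => hz _ ⟨D, t, rfl⟩) F D t

end Pool.Agent.MPf60e8aN
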