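import Mathlib
import Pool.Agent.Lib.MP_f60e8a_al.N.NDefs

/-!
# Triangularization of unipotent actions
-/

open scoped BigOperators commutatorElement

namespace Pool.Agent.MPf60e8aN

open Pool.Agent.MPf60e8a (wordLen sepIndex RF PosDensity)

namespace EmbT

variable {G : Type*} [Group G] {V : Type*} [AddCommGroup V] [Module ℚ V]

/-- If all products of `n` elements `ρ g - 1` vanish, every proper subspace `W` can be enlarged
by a vector `v` with `(ρ g - 1) v ∈ W` for all `g`. -/
lemma exists_next (ρ : G →* (Module.End ℚ V)ˣ) (n : ℕ)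
    (h : ∀ l : List G, l.length = n → (l.map fun g => ((ρ g : Module.End ℚ V) - 1)).prod = 0)
    (W : Submodule ℚ V) (hW : W ≠ ⊤) :
    ∃ v : V, v ∉ W ∧ ∀ g, ((ρ g : Module.End ℚ V) - 1) v ∈ W := by
  classical
  obtain ⟨v0, hv0⟩ : ∃ v0, v0 ∉ W := by
    by_contra hcon
    push Not at hcon
    exact hW (eq_top_iff.mpr fun v _ => hcon v)
  have hex : ∃ k, ∀ l : List G, l.length = k →
      (l.map fun g => ((ρ g : Module.End ℚ V) - 1)).prod v0 ∈ W := by
    refine ⟨n, fun l hl => ?_⟩
    rw [h l hl]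
    simp
  obtain ⟨k, hk, hmin⟩ : ∃ k, (∀ l : List G, l.length = k →
      (l.map fun g => ((ρ g : Module.End ℚ V) - 1)).prod v0 ∈ W) ∧ ∀ m < k, ¬ (∀ l : List G,
      l.length = m → (l.map fun g => ((ρ g : Module.End ℚ V) - 1)).prod v0 ∈ W) :=
    ⟨Nat.find hex, Nat.find_spec hex, fun m hm => Nat.find_min hex hm⟩
  rcases Nat.eq_zero_or_pos k with rfl | hkpos
  · exact absurd (by simpa using hk [] rfl) hv0
  · have h1 := hmin (k - 1) (by omega)
    push Not at h1
    obtain ⟨l, hl, hlW⟩ := h1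
    refine ⟨(l.map fun g => ((ρ g : Module.End ℚ V) - 1)).prod v0, hlW, fun g => ?_⟩
    have h2 := hk (g :: l) (by rw [List.length_cons]; omega)
    rw [List.map_cons, List.prod_cons] at h2
    exact h2

/-- Adapted linearly independent families of every length up to the dimension. -/
lemma exists_family [FiniteDimensional ℚ V] (ρ : G →* (Module.End ℚ V)ˣ) (n : ℕ)
    (h : ∀ l : List G, l.length = n → (l.map fun g => ((ρ g : Module.End ℚ V) - 1)).prod = 0) :
    ∀ m : ℕ, m ≤ Module.finrank ℚ V → ∃ b : Fin m → V, LinearIndependent ℚ b ∧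
      ∀ g j, ((ρ g : Module.End ℚ V) - 1) (b j) ∈ Submodule.span ℚ (b '' {i | i < j}) := by
  intro m
  induction m with
  | zero =>
    intro _
    exact ⟨fun i => i.elim0, linearIndependent_empty_type, fun g j => j.elim0⟩
  | succ m ih =>
    intro hm
    obtain ⟨b, hb, htri⟩ := ih (by omega)
    have hW : Submodule.span ℚ (Set.range b) ≠ ⊤ := by
      intro htop
      have h1 : Module.finrank ℚ (Submodule.span ℚ (Set.range b)) = m := by
        rw [finrank_span_eq_card hb, Fintype.card_fin]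
      rw [htop, finrank_top] at h1
      omega
    obtain ⟨v, hv, hvW⟩ := exists_next ρ n h _ hW
    refine ⟨Fin.snoc b v, linearIndependent_finSnoc.mpr ⟨hb, hv⟩, ?_⟩
    intro g j
    refine Fin.lastCases ?_ (fun j => ?_) j
    · rw [Fin.snoc_last]
      refine Submodule.span_mono ?_ (hvW g)
      rintro _ ⟨i, rfl⟩
      exact ⟨i.castSucc, Fin.castSucc_lt_last i, by rw [Fin.snoc_castSucc]⟩
    · rw [Fin.snoc_castSucc]
      refine Submodule.span_mono ?_ (htri g j)
      rintro _ ⟨i, hi, rfl⟩
      exact ⟨i.castSucc, Fin.castSucc_lt_castSucc_iff.mpr hi, by rw [Fin.snoc_castSucc]⟩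

end EmbT

theorem exists_triangular {G : Type*} [Group G] {V : Type*} [AddCommGroup V] [Module ℚ V]
    [FiniteDimensional ℚ V] (ρ : G →* (Module.End ℚ V)ˣ) (n : ℕ)
    (h : ∀ l : List G, l.length = n → (l.map fun g => ((ρ g : Module.End ℚ V) - 1)).prod = 0) :
    ∃ (N : ℕ) (φ : G →* (Matrix (Fin N) (Fin N) ℚ)ˣ), IsUnipotent φ ∧ φ.ker = ρ.ker := by
  classical
  obtain ⟨b, hb, htri⟩ := EmbT.exists_family ρ n h (Module.finrank ℚ V) le_rfl
  let B : Module.Basis (Fin (Module.finrank ℚ V)) ℚ V :=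
    basisOfLinearIndependentOfCardEqFinrank' b hb (by rw [Fintype.card_fin])
  have hB : ⇑B = b := coe_basisOfLinearIndependentOfCardEqFinrank' b hb (by rw [Fintype.card_fin])
  let e := LinearMap.toMatrixAlgEquiv B
  let ψ : Module.End ℚ V →* Matrix (Fin (Module.finrank ℚ V)) (Fin (Module.finrank ℚ V)) ℚ :=
    (e : Module.End ℚ V →* _)
  refine ⟨Module.finrank ℚ V, (Units.map ψ).comp ρ, ?_, ?_⟩
  · intro g
    rw [mem_upperNil]
    intro i j hij
    have h1 : (((Units.map ψ).comp ρ g : (Matrix (Fin (Module.finrank ℚ V))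
        (Fin (Module.finrank ℚ V)) ℚ)ˣ) : Matrix (Fin (Module.finrank ℚ V))
        (Fin (Module.finrank ℚ V)) ℚ) - 1 = e ((ρ g : Module.End ℚ V) - 1) := by
      rw [map_sub, map_one]
      rfl
    rw [h1]
    show LinearMap.toMatrixAlgEquiv B _ i j = 0
    rw [LinearMap.toMatrixAlgEquiv_apply]
    have h2 := htri g j
    rw [← hB, Module.Basis.mem_span_image] at h2
    by_contra hne
    have h3 : i ∈ (B.repr (((ρ g : Module.End ℚ V) - 1) (B j))).support :=
      Finsupp.mem_support_iff.mpr hne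
    have h4 := h2 h3
    exact absurd h4 (not_lt.mpr hij)
  · ext g
    rw [MonoidHom.mem_ker, MonoidHom.mem_ker]
    constructor
    · intro hg
      have hinj : Function.Injective (Units.map ψ) := Units.map_injective e.injective
      apply hinj
      rw [map_one]
      exact hg
    · intro hg
      rw [MonoidHom.comp_apply, hg, map_one]

end Pool.Agent.MPf60e8aN
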