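import Mathlib
import Pool.Agent.Lib.MP_f60e8a_al.N.NDefs
import Pool.Agent.Lib.MP_f60e8a_al.N.EmbT

/-!
# Extension of a unipotent representation along a surjection to the integers
-/

open scoped BigOperators commutatorElement

namespace Pool.Agent.MPf60e8aN

open Pool.Agent.MPf60e8a (wordLen sepIndex RF PosDensity)

/-- `G` has a unipotent rational representation with finite kernel. -/
def HasRep (G : Type*) [Group G] : Prop :=
  ∃ (N : ℕ) (φ : G →* (Matrix (Fin N) (Fin N) ℚ)ˣ), IsUnipotent φ ∧ Finite φ.ker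

namespace EmbAAux

/-! ### The weight filtration of the group algebra -/

section filtration

variable {G : Type*} [Group G] (H : Subgroup G)

/-- The element `h - 1` of the group algebra. -/
noncomputable def dd (h : H) : MonoidAlgebra ℚ H := MonoidAlgebra.of ℚ H h - 1

/-- Products of elements `h_i - 1` of total weight at least `j`. -/
def gens (j : ℕ) : Set (MonoidAlgebra ℚ H) :=
  {x | ∃ l : List (H × ℕ),
    (∀ p ∈ l, ((p.1 : H) : G) ∈ (⊤ : Subgroup G).lowerCentralSeries p.2) ∧
    j ≤ (l.map (fun p => p.2 + 1)).sum ∧ x = (l.map (fun p => dd H p.1)).prod}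

/-- The weight filtration. -/
noncomputable def E (j : ℕ) : Submodule ℚ (MonoidAlgebra ℚ H) := Submodule.span ℚ (gens H j)

theorem E_anti {i j : ℕ} (h : i ≤ j) : E H j ≤ E H i := by
  apply Submodule.span_mono
  rintro x ⟨l, hl, hj, rfl⟩
  exact ⟨l, hl, h.trans hj, rfl⟩

theorem list_mem (l : List (H × ℕ))
    (hl : ∀ p ∈ l, ((p.1 : H) : G) ∈ (⊤ : Subgroup G).lowerCentralSeries p.2) :
    (l.map (fun p => dd H p.1)).prod ∈ E H (l.map (fun p => p.2 + 1)).sum :=
  Submodule.subset_span ⟨l, hl, le_rfl, rfl⟩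

theorem dd_mem {h : H} {w : ℕ} (hw : (h : G) ∈ (⊤ : Subgroup G).lowerCentralSeries w) :
    dd H h ∈ E H (w + 1) := by
  have := list_mem H [(h, w)] (by simpa using hw)
  simpa using this

theorem dd_mem_one (h : H) : dd H h ∈ E H 1 :=
  dd_mem H (w := 0) (Subgroup.mem_top _)

theorem one_mem : (1 : MonoidAlgebra ℚ H) ∈ E H 0 := by
  have := list_mem H [] (by simp)
  simpa using this

theorem of_mem (h : H) : MonoidAlgebra.of ℚ H h ∈ E H 0 := by
  have h1 : MonoidAlgebra.of ℚ H h = dd H h + 1 := by simp [dd]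
  rw [h1]
  exact (E H 0).add_mem (E_anti H (Nat.zero_le 1) (dd_mem_one H h)) (one_mem H)

theorem E_zero (x : MonoidAlgebra ℚ H) : x ∈ E H 0 := by
  induction x using MonoidAlgebra.induction_on with
  | of m => exact of_mem H m
  | add x y hx hy => exact (E H 0).add_mem hx hy
  | smul r x hx => exact (E H 0).smul_mem r hx

theorem mul_mem {i j : ℕ} {x y : MonoidAlgebra ℚ H} (hx : x ∈ E H i) (hy : y ∈ E H j) :
    x * y ∈ E H (i + j) := by
  have h := Submodule.mul_mem_mul hx hy
  unfold E at h
  rw [Submodule.span_mul_span] at h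
  refine Submodule.span_le.mpr ?_ h
  rintro z hz
  obtain ⟨a, ⟨l, hl, hi, rfl⟩, b, ⟨l', hl', hj, rfl⟩, rfl⟩ := Set.mem_mul.mp hz
  refine Submodule.subset_span ⟨l ++ l', ?_, ?_, ?_⟩
  · intro p hp
    rcases List.mem_append.mp hp with hp | hp
    · exact hl p hp
    · exact hl' p hp
  · rw [List.map_append, List.sum_append]
    omega
  · rw [List.map_append, List.prod_append]

theorem mul_mem_left {i : ℕ} {x y : MonoidAlgebra ℚ H} (hx : x ∈ E H i) : x * y ∈ E H i := by
  have := mul_mem H hx (E_zero H y)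
  simpa using this

theorem mul_mem_right {i : ℕ} {x y : MonoidAlgebra ℚ H} (hy : y ∈ E H i) : x * y ∈ E H i := by
  have := mul_mem H (E_zero H x) hy
  simpa using this

variable [H.Normal]

/-- Conjugation on the group algebra. -/
noncomputable def cj (g : G) : MonoidAlgebra ℚ H →ₐ[ℚ] MonoidAlgebra ℚ H :=
  MonoidAlgebra.lift ℚ (MonoidAlgebra ℚ H) H
    ((MonoidAlgebra.of ℚ H).comp (MulAut.conjNormal g : MulAut H).toMonoidHom)

theorem cj_of (g : G) (h : H) :
    cj H g (MonoidAlgebra.of ℚ H h) = MonoidAlgebra.of ℚ H (MulAut.conjNormal g h) := by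
  unfold cj
  rw [MonoidAlgebra.lift_of]
  rfl

theorem cj_dd (g : G) {h : H} {w : ℕ} (hw : (h : G) ∈ (⊤ : Subgroup G).lowerCentralSeries w) :
    cj H g (dd H h) - dd H h ∈ E H (w + 2) := by
  have h1 : cj H g (dd H h) - dd H h
      = dd H (MulAut.conjNormal g h * h⁻¹) * MonoidAlgebra.of ℚ H h := by
    unfold dd
    rw [map_sub, map_one, cj_of, sub_mul, ← map_mul, inv_mul_cancel_right, one_mul]
    abel
  rw [h1]
  apply mul_mem_left
  apply dd_mem
  have h2 : ((MulAut.conjNormal g h * h⁻¹ : H) : G) = ⁅(h : G), g⁆⁻¹ := by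
    rw [Subgroup.coe_mul, MulAut.conjNormal_apply, Subgroup.coe_inv, commutatorElement_def]
    group
  rw [h2]
  exact inv_mem (Subgroup.commutator_mem_commutator hw (Subgroup.mem_top g))

theorem cj_list (g : G) (l : List (H × ℕ))
    (hl : ∀ p ∈ l, ((p.1 : H) : G) ∈ (⊤ : Subgroup G).lowerCentralSeries p.2) :
    cj H g (l.map (fun p => dd H p.1)).prod - (l.map (fun p => dd H p.1)).prod
      ∈ E H ((l.map (fun p => p.2 + 1)).sum + 1) := by
  induction l with
  | nil =>
    simp only [List.map_nil, List.prod_nil, map_one, sub_self]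
    exact Submodule.zero_mem _
  | cons p l ih =>
    have hl' : ∀ q ∈ l, ((q.1 : H) : G) ∈ (⊤ : Subgroup G).lowerCentralSeries q.2 :=
      fun q hq => hl q (List.mem_cons_of_mem _ hq)
    have hp := hl p List.mem_cons_self
    have ih' := ih hl'
    have hP := list_mem H l hl'
    simp only [List.map_cons, List.prod_cons, List.sum_cons, map_mul]
    set P := (l.map (fun p => dd H p.1)).prod with hPdef
    set s := (l.map (fun p => p.2 + 1)).sum with hs
    have hcP : cj H g P ∈ E H s := by
      have h3 : cj H g P = (cj H g P - P) + P := by abel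
      rw [h3]
      exact (E H s).add_mem (E_anti H (Nat.le_succ s) ih') hP
    have h4 : cj H g (dd H p.1) * cj H g P - dd H p.1 * P
        = (cj H g (dd H p.1) - dd H p.1) * cj H g P + dd H p.1 * (cj H g P - P) := by
      noncomm_ring
    rw [h4]
    refine (E H _).add_mem ?_ ?_
    · refine E_anti H ?_ (mul_mem H (cj_dd H g hp) hcP)
      omega
    · refine E_anti H ?_ (mul_mem H (dd_mem H hp) ih')
      omega

theorem cj_sub_mem (g : G) {j : ℕ} {v : MonoidAlgebra ℚ H} (hv : v ∈ E H j) :
    cj H g v - v ∈ E H (j + 1) := by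
  unfold E at hv
  induction hv using Submodule.span_induction with
  | mem x hx =>
    obtain ⟨l, hl, hj, rfl⟩ := hx
    exact E_anti H (by omega) (cj_list H g l hl)
  | zero => simp
  | add x y _ _ hx hy =>
    have h5 : cj H g (x + y) - (x + y) = (cj H g x - x) + (cj H g y - y) := by
      rw [map_add]; abel
    rw [h5]
    exact (E H _).add_mem hx hy
  | smul r x _ hx =>
    have h5 : cj H g (r • x) - (r • x) = r • (cj H g x - x) := by
      rw [map_smul, smul_sub]
    rw [h5]
    exact (E H _).smul_mem r hx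

end filtration

/-- Linear maps on the group algebra are determined by group elements. -/
theorem lin_ext {H V : Type*} [Monoid H] [AddCommGroup V] [Module ℚ V]
    {f g : MonoidAlgebra ℚ H →ₗ[ℚ] V}
    (h : ∀ x, f (MonoidAlgebra.of ℚ H x) = g (MonoidAlgebra.of ℚ H x)) : f = g := by
  refine LinearMap.ext fun v => ?_
  induction v using MonoidAlgebra.induction_on with
  | of m => exact h m
  | add x y hx hy => rw [map_add, map_add, hx, hy]
  | smul r x hx => rw [map_smul, map_smul, hx]

/-! ### A representation of the whole group -/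

section rep

variable {G : Type*} [Group G] (τ : G →* Multiplicative ℤ) (t : G)

/-- The exponent of an element. -/
def kk (g : G) : ℤ := Multiplicative.toAdd (τ g)

theorem kk_mul (g h : G) : kk τ (g * h) = kk τ g + kk τ h := by
  simp [kk]

theorem kk_one : kk τ 1 = 0 := by simp [kk]

variable (ht : τ t = Multiplicative.ofAdd 1)

include ht in
theorem tau_zpow (k : ℤ) : τ (t ^ k) = Multiplicative.ofAdd k := by
  rw [map_zpow, ht, ← ofAdd_zsmul, smul_eq_mul, mul_one]

include ht in
theorem hh_mem (g : G) : g * (t ^ kk τ g)⁻¹ ∈ τ.ker := by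
  rw [MonoidHom.mem_ker, map_mul, map_inv, tau_zpow τ t ht]
  simp [kk]

/-- The component in the kernel. -/
def hh (g : G) : τ.ker := ⟨g * (t ^ kk τ g)⁻¹, hh_mem τ t ht g⟩

/-- The action of `G` on the group algebra of the kernel. -/
noncomputable def rho0 (g : G) : MonoidAlgebra ℚ τ.ker →ₗ[ℚ] MonoidAlgebra ℚ τ.ker :=
  (LinearMap.mulLeft ℚ (MonoidAlgebra.of ℚ τ.ker (hh τ t ht g))) ∘ₗ
    (cj τ.ker (t ^ kk τ g)).toLinearMap

theorem rho0_apply (g : G) (v : MonoidAlgebra ℚ τ.ker) :
    rho0 τ t ht g v = MonoidAlgebra.of ℚ τ.ker (hh τ t ht g) * cj τ.ker (t ^ kk τ g) v := rfl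

theorem rho0_of (g : G) (x : τ.ker) : rho0 τ t ht g (MonoidAlgebra.of ℚ τ.ker x)
    = MonoidAlgebra.of ℚ τ.ker (hh τ t ht g * MulAut.conjNormal (t ^ kk τ g) x) := by
  rw [rho0_apply, cj_of, ← map_mul]

theorem rho0_one : rho0 τ t ht 1 = LinearMap.id := by
  apply lin_ext
  intro x
  rw [rho0_of, LinearMap.id_apply]
  congr 1
  apply Subtype.ext
  rw [Subgroup.coe_mul, MulAut.conjNormal_apply]
  simp [hh, kk_one]

theorem rho0_mul (g h : G) : rho0 τ t ht (g * h) = rho0 τ t ht g ∘ₗ rho0 τ t ht h := by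
  apply lin_ext
  intro x
  rw [LinearMap.comp_apply, rho0_of, rho0_of, rho0_of]
  congr 1
  apply Subtype.ext
  simp only [Subgroup.coe_mul, MulAut.conjNormal_apply, hh, kk_mul, zpow_add]
  group

theorem rho0_sub_mem (g : G) {j : ℕ} {v : MonoidAlgebra ℚ τ.ker} (hv : v ∈ E τ.ker j) :
    rho0 τ t ht g v - v ∈ E τ.ker (j + 1) := by
  have h1 := cj_sub_mem τ.ker (t ^ kk τ g) hv
  have hc : cj τ.ker (t ^ kk τ g) v ∈ E τ.ker j := by
    have h3 : cj τ.ker (t ^ kk τ g) v = (cj τ.ker (t ^ kk τ g) v - v) + v := by abel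
    rw [h3]
    exact (E _ j).add_mem (E_anti _ (Nat.le_succ j) h1) hv
  have h2 : rho0 τ t ht g v - v = dd τ.ker (hh τ t ht g) * cj τ.ker (t ^ kk τ g) v
      + (cj τ.ker (t ^ kk τ g) v - v) := by
    rw [rho0_apply, dd]
    noncomm_ring
  rw [h2]
  refine (E _ _).add_mem ?_ h1
  have h4 := mul_mem τ.ker (dd_mem_one τ.ker (hh τ t ht g)) hc
  rwa [add_comm 1 j] at h4

theorem rho0_mem (g : G) {j : ℕ} {v : MonoidAlgebra ℚ τ.ker} (hv : v ∈ E τ.ker j) :
    rho0 τ t ht g v ∈ E τ.ker j := by
  have h3 : rho0 τ t ht g v = (rho0 τ t ht g v - v) + v := by abel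
  rw [h3]
  exact (E _ j).add_mem (E_anti _ (Nat.le_succ j) (rho0_sub_mem τ t ht g hv)) hv

/-- The quotient representation. -/
noncomputable def rho (m : ℕ) (g : G) : (MonoidAlgebra ℚ τ.ker ⧸ E τ.ker m) →ₗ[ℚ]
    (MonoidAlgebra ℚ τ.ker ⧸ E τ.ker m) :=
  (E τ.ker m).mapQ (E τ.ker m) (rho0 τ t ht g) (fun _ hv => rho0_mem τ t ht g hv)

theorem rho_mk (m : ℕ) (g : G) (v : MonoidAlgebra ℚ τ.ker) :
    rho τ t ht m g ((E τ.ker m).mkQ v) = (E τ.ker m).mkQ (rho0 τ t ht g v) := rfl

/-- The block recording the exponent. -/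
noncomputable def blk (g : G) : (ℚ × ℚ) →ₗ[ℚ] (ℚ × ℚ) :=
  LinearMap.prod (LinearMap.fst ℚ ℚ ℚ + (kk τ g : ℚ) • LinearMap.snd ℚ ℚ ℚ)
    (LinearMap.snd ℚ ℚ ℚ)

theorem blk_apply (g : G) (u : ℚ × ℚ) : blk τ g u = (u.1 + (kk τ g : ℚ) * u.2, u.2) := rfl

/-- The representation. -/
noncomputable def rep (m : ℕ) : G →* Module.End ℚ
    ((MonoidAlgebra ℚ τ.ker ⧸ E τ.ker m) × (ℚ × ℚ)) where
  toFun g := LinearMap.prodMap (rho τ t ht m g) (blk τ g)
  map_one' := by
    refine LinearMap.ext fun w => ?_
    obtain ⟨v, hv⟩ := (E τ.ker m).mkQ_surjective w.1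
    refine Prod.ext ?_ ?_
    · rw [LinearMap.prodMap_apply, ← hv, rho_mk, rho0_one]
      exact hv
    · rw [LinearMap.prodMap_apply, blk_apply, kk_one]
      simp
  map_mul' g h := by
    refine LinearMap.ext fun w => ?_
    obtain ⟨v, hv⟩ := (E τ.ker m).mkQ_surjective w.1
    refine Prod.ext ?_ ?_
    · show rho τ t ht m (g * h) w.1 = rho τ t ht m g (rho τ t ht m h w.1)
      rw [← hv, rho_mk, rho_mk, rho_mk, rho0_mul, LinearMap.comp_apply]
    · show blk τ (g * h) w.2 = blk τ g (blk τ h w.2)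
      rw [blk_apply, blk_apply, blk_apply, kk_mul]
      refine Prod.ext ?_ rfl
      push_cast
      ring

theorem rep_apply (m : ℕ) (g : G) (w : (MonoidAlgebra ℚ τ.ker ⧸ E τ.ker m) × (ℚ × ℚ)) :
    rep τ t ht m g w = (rho τ t ht m g w.1, blk τ g w.2) := rfl

/-- The filtration of the block. -/
def UF : ℕ → Submodule ℚ (ℚ × ℚ)
  | 0 => ⊤
  | 1 => LinearMap.ker (LinearMap.snd ℚ ℚ ℚ)
  | _ => ⊥

theorem blk_sub_mem (g : G) (j : ℕ) {u : ℚ × ℚ} (hu : u ∈ UF j) : blk τ g u - u ∈ UF (j + 1) := by
  match j, hu with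
  | 0, _ =>
    show (blk τ g u - u).2 = 0
    rw [blk_apply]
    simp
  | 1, hu =>
    have hu' : u.2 = 0 := hu
    show blk τ g u - u = 0
    rw [blk_apply, hu', mul_zero, add_zero]
    refine Prod.ext ?_ ?_ <;> simp [hu']
  | j + 2, hu =>
    have hu' : u = 0 := hu
    show blk τ g u - u = 0
    rw [hu', map_zero, sub_zero]

/-- The filtration of the representation space. -/
noncomputable def FF (m j : ℕ) :
    Submodule ℚ ((MonoidAlgebra ℚ τ.ker ⧸ E τ.ker m) × (ℚ × ℚ)) :=
  ((E τ.ker j).map (E τ.ker m).mkQ).prod (UF j)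

theorem rep_sub_mem (m : ℕ) (g : G) (j : ℕ)
    {w : (MonoidAlgebra ℚ τ.ker ⧸ E τ.ker m) × (ℚ × ℚ)} (hw : w ∈ FF τ m j) :
    (rep τ t ht m g - 1) w ∈ FF τ m (j + 1) := by
  obtain ⟨hw1, hw2⟩ := Submodule.mem_prod.mp hw
  obtain ⟨v, hv, hvw⟩ := Submodule.mem_map.mp hw1
  refine Submodule.mem_prod.mpr ⟨?_, ?_⟩
  · refine Submodule.mem_map.mpr ⟨rho0 τ t ht g v - v, rho0_sub_mem τ t ht g hv, ?_⟩
    rw [map_sub, ← rho_mk, hvw]
    rfl
  · exact blk_sub_mem τ g j hw2

theorem rep_list_mem (m : ℕ) (l : List G) :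
    ∀ (j : ℕ) (w : (MonoidAlgebra ℚ τ.ker ⧸ E τ.ker m) × (ℚ × ℚ)), w ∈ FF τ m j →
      (l.map fun g => (rep τ t ht m g - 1)).prod w ∈ FF τ m (j + l.length) := by
  induction l with
  | nil =>
    intro j w hw
    simpa using hw
  | cons g l ih =>
    intro j w hw
    rw [List.map_cons, List.prod_cons, Module.End.mul_apply, List.length_cons]
    have h1 := rep_sub_mem τ t ht m g (j + l.length) (ih j w hw)
    rwa [add_assoc] at h1

theorem rep_list_zero (m : ℕ) (l : List G) (hl : l.length = m + 2) :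
    (l.map fun g => (rep τ t ht m g - 1)).prod = 0 := by
  refine LinearMap.ext fun w => ?_
  have hw : w ∈ FF τ m 0 := by
    refine Submodule.mem_prod.mpr ⟨?_, Submodule.mem_top⟩
    obtain ⟨v, hv⟩ := (E τ.ker m).mkQ_surjective w.1
    exact Submodule.mem_map.mpr ⟨v, E_zero _ v, hv⟩
  have h1 := rep_list_mem τ t ht m l 0 w hw
  rw [zero_add, hl] at h1
  obtain ⟨h2, h3⟩ := Submodule.mem_prod.mp h1
  refine Prod.ext ?_ ?_
  · obtain ⟨v, hv, hvw⟩ := Submodule.mem_map.mp h2
    rw [← hvw]
    have h4 : v ∈ E τ.ker m := E_anti _ (by omega) hv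
    rw [Submodule.mkQ_apply, (Submodule.Quotient.mk_eq_zero _).mpr h4]
    rfl
  · exact h3

end rep

/-! ### Finite dimension -/

theorem finite_quotient {G : Type*} [Group G] (H : Subgroup G) (hFG : Group.FG H) (m : ℕ) :
    Module.Finite ℚ (MonoidAlgebra ℚ H ⧸ E H m) := by
  obtain ⟨S, hS⟩ := (Group.fg_iff_monoid_fg.mp hFG).fg_top
  set W : Submodule ℚ (MonoidAlgebra ℚ H) := Submodule.span ℚ
    ((fun l : List S => (l.map (fun s => dd H s.1)).prod) '' {l | l.length < m}) with hW
  have hWfg : W.FG := by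
    apply Submodule.fg_span
    exact (List.finite_length_lt S m).image _
  have key : ∀ h : H, ∀ v ∈ W ⊔ E H m, MonoidAlgebra.of ℚ H h * v ∈ W ⊔ E H m := by
    intro h
    have hh : h ∈ Submonoid.closure (S : Set H) := by rw [hS]; exact Submonoid.mem_top h
    induction hh using Submonoid.closure_induction with
    | mem s hs =>
      intro v hv
      obtain ⟨a, ha, b, hb, rfl⟩ := Submodule.mem_sup.mp hv
      rw [mul_add]
      refine Submodule.add_mem _ ?_ (Submodule.mem_sup_right (mul_mem_right H hb))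
      have h1 : MonoidAlgebra.of ℚ H s * a = dd H s * a + a := by
        rw [dd]; noncomm_ring
      rw [h1]
      refine Submodule.add_mem _ ?_ (Submodule.mem_sup_left ha)
      rw [hW] at ha
      clear h1 hv
      induction ha using Submodule.span_induction with
      | mem x hx =>
        obtain ⟨l, hl, rfl⟩ := hx
        have hl' : l.length < m := hl
        have h2 : dd H s * (l.map (fun s => dd H s.1)).prod
            = (((⟨s, hs⟩ : S) :: l).map (fun s => dd H s.1)).prod := by
          rw [List.map_cons, List.prod_cons]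
        show dd H s * (l.map (fun s => dd H s.1)).prod ∈ W ⊔ E H m
        rw [h2]
        rcases Nat.lt_or_ge (l.length + 1) m with h3 | h3
        · apply Submodule.mem_sup_left
          rw [hW]
          exact Submodule.subset_span ⟨(⟨s, hs⟩ : S) :: l, by simpa using h3, rfl⟩
        · apply Submodule.mem_sup_right
          refine Submodule.subset_span ⟨((⟨s, hs⟩ : S) :: l).map (fun s => (s.1, 0)), ?_, ?_, ?_⟩
          · intro p hp
            obtain ⟨q, -, rfl⟩ := List.mem_map.mp hp
            exact Subgroup.mem_top _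
          · rw [List.map_map]
            have h5 : ((fun p : H × ℕ => p.2 + 1) ∘ fun s : S => ((s.1 : H), 0))
                = fun _ => 1 := by
              funext s; rfl
            rw [h5, List.map_const', List.sum_replicate]
            simp only [List.length_cons, smul_eq_mul, mul_one]
            omega
          · rw [List.map_map]
            rfl
      | zero => rw [mul_zero]; exact Submodule.zero_mem _
      | add x y _ _ hx hy =>
        rw [mul_add]
        exact Submodule.add_mem _ hx hy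
      | smul r x _ hx =>
        rw [mul_smul_comm]
        exact Submodule.smul_mem _ r hx
    | one =>
      intro v hv
      rw [map_one, one_mul]
      exact hv
    | mul x y _ _ hx hy =>
      intro v hv
      rw [map_mul, mul_assoc]
      exact hx _ (hy v hv)
  have htop : W ⊔ E H m = ⊤ := by
    rw [eq_top_iff]
    intro v _
    have hone : (1 : MonoidAlgebra ℚ H) ∈ W ⊔ E H m := by
      rcases Nat.eq_zero_or_pos m with hm | hm
      · subst hm
        exact Submodule.mem_sup_right (E_zero H 1)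
      · apply Submodule.mem_sup_left
        rw [hW]
        exact Submodule.subset_span ⟨[], hm, rfl⟩
    induction v using MonoidAlgebra.induction_on with
    | of x =>
      have := key x 1 hone
      rwa [mul_one] at this
    | add x y hx hy => exact Submodule.add_mem _ (hx Submodule.mem_top) (hy Submodule.mem_top)
    | smul r x hx => exact Submodule.smul_mem _ r (hx Submodule.mem_top)
  refine ⟨?_⟩
  have h6 : (⊤ : Submodule ℚ (MonoidAlgebra ℚ H ⧸ E H m)) = W.map (E H m).mkQ := by
    rw [← Submodule.range_mkQ (E H m), LinearMap.range_eq_map, ← htop, Submodule.map_sup,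
      sup_eq_left]
    have h7 : (E H m).map (E H m).mkQ = ⊥ := by simp
    rw [h7]
    exact bot_le
  rw [h6]
  exact hWfg.map _

/-! ### Elements of large weight are killed by unipotent representations -/

theorem lift_eq_zero {G : Type*} [Group G] (H : Subgroup G) {N c : ℕ}
    (hc : (⊤ : Subgroup G).lowerCentralSeries c = ⊥)
    (φ : H →* (Matrix (Fin N) (Fin N) ℚ)ˣ) (hφ : IsUnipotent φ) {x : MonoidAlgebra ℚ H}
    (hx : x ∈ E H ((c + 1) * N)) :
    MonoidAlgebra.lift ℚ (Matrix (Fin N) (Fin N) ℚ) H ((Units.coeHom _).comp φ) x = 0 := by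
  unfold E at hx
  induction hx using Submodule.span_induction with
  | mem x hx =>
    obtain ⟨l, hl, hj, rfl⟩ := hx
    by_cases hbig : ∃ p ∈ l, p.1 = 1
    · obtain ⟨p, hp, hp1⟩ := hbig
      have h1 : (l.map (fun p => dd H p.1)).prod = 0 := by
        apply List.prod_eq_zero
        refine List.mem_map.mpr ⟨p, hp, ?_⟩
        rw [hp1, dd, map_one, sub_self]
      rw [h1, map_zero]
    · push Not at hbig
      have h2 : ∀ p ∈ l, p.2 + 1 ≤ c + 1 := by
        intro p hp
        by_contra hcon
        push Not at hcon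
        have h3 : ((p.1 : H) : G) ∈ (⊤ : Subgroup G).lowerCentralSeries c :=
          (⊤ : Subgroup G).lowerCentralSeries_antitone (by omega) (hl p hp)
        rw [hc, Subgroup.mem_bot] at h3
        exact hbig p hp (Subtype.ext h3)
      have h4 : (l.map (fun p => p.2 + 1)).sum ≤ l.length * (c + 1) := by
        have := List.sum_le_card_nsmul (l.map (fun p : H × ℕ => p.2 + 1)) (c + 1) (by
          intro x hx
          obtain ⟨p, hp, rfl⟩ := List.mem_map.mp hx
          exact h2 p hp)
        simpa using this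
      have h5 : N ≤ l.length := by
        by_contra hcon
        push Not at hcon
        have h6 : l.length * (c + 1) < (c + 1) * N := by
          rw [mul_comm]
          exact Nat.mul_lt_mul_of_pos_left hcon (Nat.succ_pos c)
        omega
      rw [map_list_prod, List.map_map]
      apply (upperNil N).nil
      · intro y hy
        obtain ⟨p, hp, rfl⟩ := List.mem_map.mp hy
        have h7 : (MonoidAlgebra.lift ℚ (Matrix (Fin N) (Fin N) ℚ) H
            ((Units.coeHom _).comp φ)) (dd H p.1) = (φ p.1 : Matrix (Fin N) (Fin N) ℚ) - 1 := by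
          rw [dd, map_sub, map_one, MonoidAlgebra.lift_of]
          rfl
        show (MonoidAlgebra.lift ℚ (Matrix (Fin N) (Fin N) ℚ) H
            ((Units.coeHom _).comp φ)) (dd H p.1) ∈ (upperNil N).S
        rw [h7]
        exact hφ p.1
      · rw [List.length_map]
        exact h5
  | zero => exact map_zero _
  | add x y _ _ hx hy => rw [map_add, hx, hy, add_zero]
  | smul r x _ hx => rw [map_smul, hx, smul_zero]

end EmbAAux

open EmbAAux in
theorem embed_step {G : Type*} [Group G] [Group.IsNilpotent G] (τ : G →* Multiplicative ℤ)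
    (hτ : Function.Surjective τ) (hFG : Group.FG τ.ker) (h : HasRep τ.ker) : HasRep G := by
  obtain ⟨N, φ, hφ, hfin⟩ := h
  obtain ⟨t, ht⟩ := hτ (Multiplicative.ofAdd 1)
  have hc := Subgroup.lowerCentralSeries_nilpotencyClass (G := G)
  set c := Group.nilpotencyClass G with hcdef
  set m := (c + 1) * N with hm
  have hV : Module.Finite ℚ (MonoidAlgebra ℚ τ.ker ⧸ E τ.ker m) := finite_quotient τ.ker hFG m
  obtain ⟨N', ψ, hψ, hker⟩ := exists_triangular (rep τ t ht m).toHomUnits (m + 2) (by
    intro l hl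
    have h1 := rep_list_zero τ t ht m l hl
    rw [← h1]
    rfl)
  refine ⟨N', ψ, hψ, ?_⟩
  rw [hker]
  have hsub : (((rep τ t ht m).toHomUnits.ker : Subgroup G) : Set G)
      ⊆ (Subtype.val : τ.ker → G) '' (φ.ker : Set τ.ker) := by
    intro g hg
    have hg1 : (rep τ t ht m).toHomUnits g = 1 := hg
    have hg2 : rep τ t ht m g = 1 := by
      have := congrArg Units.val hg1
      simpa using this
    -- the exponent vanishes
    have hk : kk τ g = 0 := by
      have h2 := congrArg (fun f => (f (0, (0, 1))).2.1) hg2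
      simp only [rep_apply, blk_apply] at h2
      simpa using h2
    have hgker : g ∈ τ.ker := by
      rw [MonoidHom.mem_ker]
      exact Multiplicative.toAdd.injective (by simpa [kk] using hk)
    refine ⟨⟨g, hgker⟩, ?_, rfl⟩
    -- the group element is congruent to one
    have h3 : (E τ.ker m).mkQ (rho0 τ t ht g 1) = (E τ.ker m).mkQ 1 := by
      have h4 := congrArg (fun f => (f ((E τ.ker m).mkQ 1, (0, 0))).1) hg2
      simp only [rep_apply] at h4
      rw [← rho_mk]
      exact h4
    have h5 : rho0 τ t ht g 1 = MonoidAlgebra.of ℚ τ.ker ⟨g, hgker⟩ := by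
      rw [rho0_apply, map_one, mul_one]
      congr 1
      apply Subtype.ext
      simp [hh, hk]
    rw [h5] at h3
    have h6 : MonoidAlgebra.of ℚ τ.ker ⟨g, hgker⟩ - 1 ∈ E τ.ker m := by
      rw [← Submodule.Quotient.mk_eq_zero, Submodule.Quotient.mk_sub, sub_eq_zero]
      exact h3
    have h7 := lift_eq_zero τ.ker hc φ hφ h6
    rw [map_sub, map_one, MonoidAlgebra.lift_of, sub_eq_zero] at h7
    show φ ⟨g, hgker⟩ = 1
    exact Units.ext h7
  exact ((Set.toFinite (φ.ker : Set τ.ker)).image _).subset hsub |>.to_subtype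

end Pool.Agent.MPf60e8aN
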