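import Mathlib
import Pool.Agent.Lib.MP_f60e8a_al.N.NDefs

/-!
# An induction principle for finitely generated nilpotent groups
-/

open scoped BigOperators commutatorElement

namespace Pool.Agent.MPf60e8aN

open Pool.Agent.MPf60e8a (wordLen sepIndex RF PosDensity)

namespace EmbB

/-! ## Cyclic series -/

section

variable {G : Type*} [Group G]

/-- `H` is normal in `K` with cyclic quotient. -/
structure Step (H K : Subgroup G) : Prop where
  le : H ≤ K
  ex : ∃ (n : ℕ) (φ : K →* Multiplicative (ZMod n)), ∀ x : K, φ x = 1 ↔ (x : G) ∈ H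

theorem Step.gen {H K : Subgroup G} (h : Step H K) :
    ∃ g ∈ K, ∀ x ∈ K, ∃ m : ℤ, x * g ^ m ∈ H := by
  obtain ⟨n, φ, hφ⟩ := h.ex
  have hc : IsCyclic φ.range := inferInstance
  obtain ⟨⟨y, g, rfl⟩, hy⟩ := hc.exists_generator
  refine ⟨g, g.2, fun x hx => ?_⟩
  obtain ⟨m, hm⟩ := Subgroup.mem_zpowers_iff.mp (hy ⟨φ ⟨x, hx⟩, ⟨x, hx⟩, rfl⟩)
  refine ⟨-m, ?_⟩
  have h1 : φ (⟨x, hx⟩ * g ^ (-m)) = 1 := by
    have h2 := congrArg Subtype.val hm
    simp only [SubgroupClass.coe_zpow] at h2
    rw [map_mul, map_zpow, ← h2, ← zpow_add, add_neg_cancel, zpow_zero]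
  have h3 := (hφ _).mp h1
  simpa using h3

/-- A subgroup with a series of `r` cyclic factors. -/
inductive Cyc : ℕ → Subgroup G → Prop
  | bot : Cyc 0 ⊥
  | step {r : ℕ} {H K : Subgroup G} : Cyc r H → Step H K → Cyc (r + 1) K

theorem Step.comap {L : Type*} [Group L] (f : L →* G) {H K : Subgroup G} (h : Step H K) :
    Step (H.comap f) (K.comap f) := by
  obtain ⟨n, φ, hφ⟩ := h.ex
  refine ⟨Subgroup.comap_mono h.le, n, φ.comp (f.subgroupComap K), fun x => ?_⟩
  rw [MonoidHom.comp_apply, hφ]
  rfl

theorem Cyc.comap {L : Type*} [Group L] (f : L →* G) (hf : Function.Injective f) {r : ℕ}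
    {K : Subgroup G} (h : Cyc r K) : Cyc r (K.comap f) := by
  induction h with
  | bot =>
    rw [MonoidHom.comap_bot, (MonoidHom.ker_eq_bot_iff f).mpr hf]
    exact Cyc.bot
  | step _ h2 ih => exact Cyc.step ih (h2.comap f)

theorem Cyc.fg {r : ℕ} {K : Subgroup G} (h : Cyc r K) : K.FG := by
  induction h with
  | bot => exact Subgroup.FG.bot
  | step _ h2 ih =>
    rename_i r H K _
    obtain ⟨g, hg, hgen⟩ := h2.gen
    have h3 : K = H ⊔ Subgroup.zpowers g := by
      apply le_antisymm
      · intro x hx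
        obtain ⟨m, hm⟩ := hgen x hx
        have h4 : x = (x * g ^ m) * g ^ (-m) := by
          rw [mul_assoc, ← zpow_add, add_neg_cancel, zpow_zero, mul_one]
        rw [h4]
        exact mul_mem (Subgroup.mem_sup_left hm)
          (Subgroup.mem_sup_right (Subgroup.zpow_mem _ (Subgroup.mem_zpowers g) _))
      · exact sup_le h2.le (Subgroup.zpowers_le.mpr hg)
    rw [h3]
    refine ih.sup ?_
    rw [Subgroup.zpowers_eq_closure]
    exact ⟨{g}, by simp⟩

theorem Cyc.ker {r : ℕ} {K : Subgroup G} (h : Cyc r K) (τ : G →* Multiplicative ℤ)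
    (hτ : ∃ x ∈ K, τ x ≠ 1) : ∃ r', r = r' + 1 ∧ Cyc r' (K ⊓ τ.ker) := by
  induction h with
  | bot =>
    obtain ⟨x, hx, hx'⟩ := hτ
    rw [Subgroup.mem_bot] at hx
    subst hx
    exact absurd (map_one τ) hx'
  | step h1 h2 ih =>
    rename_i r H K
    by_cases hH : ∃ x ∈ H, τ x ≠ 1
    · obtain ⟨r', rfl, hr'⟩ := ih hH
      refine ⟨r' + 1, rfl, Cyc.step hr' ?_⟩
      obtain ⟨n, φ, hφ⟩ := h2.ex
      refine ⟨inf_le_inf_right _ h2.le, n, φ.comp (Subgroup.inclusion inf_le_left), fun x => ?_⟩
      rw [MonoidHom.comp_apply, hφ]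
      constructor
      · intro hx
        exact ⟨hx, x.2.2⟩
      · intro hx
        exact hx.1
    · push Not at hH
      refine ⟨r, rfl, ?_⟩
      obtain ⟨g, hg, hgen⟩ := h2.gen
      have hτg : τ g ≠ 1 := by
        intro h3
        obtain ⟨x, hx, hx'⟩ := hτ
        obtain ⟨m, hm⟩ := hgen x hx
        have h4 := hH _ hm
        rw [map_mul, map_zpow, h3, one_zpow, mul_one] at h4
        exact hx' h4
      have h5 : K ⊓ τ.ker = H := by
        apply le_antisymm
        · rintro x ⟨hx, hx'⟩
          obtain ⟨m, hm⟩ := hgen x hx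
          have h4 := hH _ hm
          rw [map_mul, map_zpow, (MonoidHom.mem_ker).mp hx', one_mul] at h4
          have h6 : m = 0 := by
            by_contra hm0
            apply hτg
            have h7 : m * Multiplicative.toAdd (τ g) = 0 := by
              have := congrArg Multiplicative.toAdd h4
              simpa using this
            rcases mul_eq_zero.mp h7 with h8 | h8
            · exact absurd h8 hm0
            · exact Multiplicative.toAdd.injective h8
          rw [h6, zpow_zero, mul_one] at hm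
          exact hm
        · intro x hx
          exact ⟨h2.le hx, (MonoidHom.mem_ker).mpr (hH x hx)⟩
      rw [h5]
      exact h1

theorem step_of_normal {H K : Subgroup G} [H.Normal] (hle : H ≤ K) (g : G) (hg : g ∈ K)
    (hgen : ∀ x ∈ K, ∃ m : ℤ, x * g ^ m ∈ H) : Step H K := by
  have hcyc : IsCyclic (K ⧸ H.subgroupOf K) := by
    refine ⟨⟨QuotientGroup.mk ⟨g, hg⟩, ?_⟩⟩
    intro y
    induction y using QuotientGroup.induction_on with
    | H x =>
      obtain ⟨m, hm⟩ := hgen x x.2
      refine ⟨-m, ?_⟩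
      simp only
      rw [← QuotientGroup.mk_zpow, QuotientGroup.eq, Subgroup.mem_subgroupOf]
      have h1 : (((⟨g, hg⟩ : K) ^ (-m))⁻¹ * x : K) = (⟨g, hg⟩ : K) ^ m * x := by
        rw [zpow_neg, inv_inv]
      rw [h1]
      simp only [Subgroup.coe_mul, SubgroupClass.coe_zpow]
      have h2 : g ^ m * (x : G) = g ^ m * (x * g ^ m) * (g ^ m)⁻¹ := by
        rw [mul_assoc, mul_assoc, mul_inv_cancel, mul_one]
      rw [h2]
      exact Subgroup.Normal.conj_mem inferInstance _ hm _
  refine ⟨hle, Nat.card (K ⧸ H.subgroupOf K),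
    ((zmodCyclicMulEquiv hcyc).symm.toMonoidHom).comp (QuotientGroup.mk' _), fun x => ?_⟩
  rw [MonoidHom.comp_apply]
  change (zmodCyclicMulEquiv hcyc).symm _ = 1 ↔ _
  rw [MulEquiv.map_eq_one_iff, QuotientGroup.mk'_apply, QuotientGroup.eq_one_iff,
    Subgroup.mem_subgroupOf]

end

/-! ## Finitely generated nilpotent groups have cyclic series -/

section

variable {G : Type*} [Group G]

theorem normal_of_between (j : ℕ) {Q : Subgroup G}
    (h1 : (⊤ : Subgroup G).lowerCentralSeries (j + 1) ≤ Q)
    (h2 : Q ≤ (⊤ : Subgroup G).lowerCentralSeries j) : Q.Normal := by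
  refine ⟨fun h hh g => ?_⟩
  have h3 : ⁅h, g⁆ ∈ Q := h1 (Subgroup.commutator_mem_commutator (h2 hh) (Subgroup.mem_top g))
  have h4 : g * h * g⁻¹ = ⁅h, g⁆⁻¹ * h := by
    rw [commutatorElement_inv, commutatorElement_def]
    group
  rw [h4]
  exact mul_mem (inv_mem h3) hh

theorem exists_gens (S : Finset G) (hS : Subgroup.closure (S : Set G) = ⊤) (i : ℕ) :
    ∃ X : Finset G, (∀ x ∈ X, x ∈ (⊤ : Subgroup G).lowerCentralSeries i) ∧
      (⊤ : Subgroup G).lowerCentralSeries i ≤
        Subgroup.closure (X : Set G) ⊔ (⊤ : Subgroup G).lowerCentralSeries (i + 1) := by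
  classical
  induction i with
  | zero =>
    refine ⟨S, fun x _ => Subgroup.mem_top x, ?_⟩
    rw [hS]
    simp
  | succ i ih =>
    obtain ⟨X, hX, hXi⟩ := ih
    let X' : Finset G := (X ×ˢ S).image fun q => ⁅q.1, q.2⁆
    have hX' : ∀ x ∈ X', x ∈ (⊤ : Subgroup G).lowerCentralSeries (i + 1) := by
      intro x hx
      obtain ⟨q, hq, rfl⟩ := Finset.mem_image.mp hx
      exact Subgroup.commutator_mem_commutator (hX _ (Finset.mem_product.mp hq).1)
        (Subgroup.mem_top _)
    refine ⟨X', hX', ?_⟩
    let Q : Subgroup G :=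
      Subgroup.closure (X' : Set G) ⊔ (⊤ : Subgroup G).lowerCentralSeries (i + 1 + 1)
    have hQ1 : (⊤ : Subgroup G).lowerCentralSeries (i + 1 + 1) ≤ Q := le_sup_right
    have hQ2 : Q ≤ (⊤ : Subgroup G).lowerCentralSeries (i + 1) :=
      sup_le ((Subgroup.closure_le _).mpr hX')
        (Subgroup.lowerCentralSeries_antitone _ (Nat.le_succ _))
    have hQn : Q.Normal := normal_of_between (i + 1) hQ1 hQ2
    have hcomm : ∀ a g : G, ⁅a, g⁆ ∈ Q → (a : G ⧸ Q) * g = g * a := by
      intro a g h
      rw [← QuotientGroup.mk_mul, ← QuotientGroup.mk_mul, eq_comm, QuotientGroup.eq]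
      have h1 : (g * a)⁻¹ * (a * g) = (g * a)⁻¹ * ⁅a, g⁆ * ((g * a)⁻¹)⁻¹ := by
        rw [commutatorElement_def]
        group
      rw [h1]
      exact hQn.conj_mem _ h _
    have hcomm' : ∀ a g : G, (a : G ⧸ Q) * g = g * a → ⁅a, g⁆ ∈ Q := by
      intro a g h
      rw [← QuotientGroup.eq_one_iff]
      have h1 : ((⁅a, g⁆ : G) : G ⧸ Q) = ⁅(a : G ⧸ Q), (g : G ⧸ Q)⁆ := rfl
      rw [h1, commutatorElement_eq_one_iff_mul_comm]
      exact h
    have hcen : ∀ x ∈ X, (x : G ⧸ Q) ∈ Subgroup.center (G ⧸ Q) := by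
      intro x hx
      have h1 : (⊤ : Subgroup G) ≤
          (Subgroup.centralizer {(x : G ⧸ Q)}).comap (QuotientGroup.mk' Q) := by
        rw [← hS, Subgroup.closure_le]
        intro s hs
        rw [SetLike.mem_coe, Subgroup.mem_comap, Subgroup.mem_centralizer_singleton_iff]
        exact (hcomm x s (Subgroup.mem_sup_left (Subgroup.subset_closure
          (Finset.mem_coe.mpr (Finset.mem_image.mpr
            ⟨(x, s), Finset.mem_product.mpr ⟨hx, hs⟩, rfl⟩))))).symm
      rw [Subgroup.mem_center_iff]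
      intro y
      induction y using QuotientGroup.induction_on with
      | H g =>
        have h2 := h1 (Subgroup.mem_top g)
        rw [Subgroup.mem_comap, Subgroup.mem_centralizer_singleton_iff] at h2
        exact h2
    have hC : (⊤ : Subgroup G).lowerCentralSeries i ≤
        (Subgroup.center (G ⧸ Q)).comap (QuotientGroup.mk' Q) := by
      refine hXi.trans (sup_le ?_ ?_)
      · rw [Subgroup.closure_le]
        intro x hx
        exact hcen x hx
      · intro a ha
        rw [Subgroup.mem_comap, Subgroup.mem_center_iff]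
        intro y
        induction y using QuotientGroup.induction_on with
        | H g =>
          exact (hcomm a g
            (hQ1 (Subgroup.commutator_mem_commutator ha (Subgroup.mem_top g)))).symm
    change ⁅(⊤ : Subgroup G).lowerCentralSeries i, ⊤⁆ ≤ Q
    rw [Subgroup.commutator_le]
    intro a ha g _
    have h1 := hC ha
    rw [Subgroup.mem_comap, Subgroup.mem_center_iff] at h1
    exact hcomm' a g (h1 g).symm

theorem cyc_sup (j : ℕ) {r : ℕ} (hr : Cyc r ((⊤ : Subgroup G).lowerCentralSeries (j + 1)))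
    (X : Finset G) (hX : ∀ x ∈ X, x ∈ (⊤ : Subgroup G).lowerCentralSeries j) :
    ∃ r', Cyc r' (Subgroup.closure (X : Set G) ⊔
      (⊤ : Subgroup G).lowerCentralSeries (j + 1)) := by
  classical
  induction X using Finset.induction_on with
  | empty => exact ⟨r, by simpa using hr⟩
  | insert x X _ ih =>
    obtain ⟨r', hr'⟩ := ih fun y hy => hX y (Finset.mem_insert_of_mem hy)
    refine ⟨r' + 1, Cyc.step hr' ?_⟩
    set H : Subgroup G := Subgroup.closure (X : Set G) ⊔
      (⊤ : Subgroup G).lowerCentralSeries (j + 1) with hH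
    have hHn : H.Normal := normal_of_between j le_sup_right
      (sup_le ((Subgroup.closure_le _).mpr fun y hy => hX y (Finset.mem_insert_of_mem hy))
        (Subgroup.lowerCentralSeries_antitone _ (Nat.le_succ _)))
    have hK : Subgroup.closure ((insert x X : Finset G) : Set G) ⊔
        (⊤ : Subgroup G).lowerCentralSeries (j + 1) = H ⊔ Subgroup.zpowers x := by
      rw [Finset.coe_insert, Set.insert_eq, Subgroup.closure_union, hH,
        Subgroup.zpowers_eq_closure]
      ac_rfl
    rw [hK]
    refine step_of_normal le_sup_left x (Subgroup.mem_sup_right (Subgroup.mem_zpowers x))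
      fun y hy => ?_
    rw [Subgroup.mem_sup_of_normal_left] at hy
    obtain ⟨h, hh, z, hz, rfl⟩ := hy
    obtain ⟨m, rfl⟩ := Subgroup.mem_zpowers_iff.mp hz
    refine ⟨-m, ?_⟩
    rw [mul_assoc, ← zpow_add, add_neg_cancel, zpow_zero, mul_one]
    exact hh

theorem exists_cyc [Group.FG G] [hG : Group.IsNilpotent G] :
    ∃ r, Cyc r (⊤ : Subgroup G) := by
  obtain ⟨S, hS⟩ := (Group.fg_def).mp ‹Group.FG G›
  obtain ⟨n, hn⟩ := Subgroup.nilpotent_iff_lowerCentralSeries.mp hG
  have key : ∀ k ≤ n, ∃ r, Cyc r ((⊤ : Subgroup G).lowerCentralSeries (n - k)) := by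
    intro k
    induction k with
    | zero =>
      intro _
      rw [Nat.sub_zero, hn]
      exact ⟨0, Cyc.bot⟩
    | succ k ih =>
      intro hk
      obtain ⟨r, hr⟩ := ih (by omega)
      obtain ⟨j, hj⟩ : ∃ j, n - (k + 1) = j := ⟨_, rfl⟩
      have hj' : n - k = j + 1 := by omega
      rw [hj'] at hr
      rw [hj]
      obtain ⟨X, hX, hXi⟩ := exists_gens S hS j
      obtain ⟨r', hr'⟩ := cyc_sup j hr X hX
      refine ⟨r', ?_⟩
      have h1 : (⊤ : Subgroup G).lowerCentralSeries j = Subgroup.closure (X : Set G) ⊔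
          (⊤ : Subgroup G).lowerCentralSeries (j + 1) :=
        le_antisymm hXi (sup_le ((Subgroup.closure_le _).mpr hX)
          (Subgroup.lowerCentralSeries_antitone _ (Nat.le_succ _)))
      rw [h1]
      exact hr'
  obtain ⟨r, hr⟩ := key n le_rfl
  rw [Nat.sub_self] at hr
  exact ⟨r, hr⟩

end

/-! ## Homomorphisms to the integers -/

theorem finite_of_abelianization.{u} (G : Type u) [Group G] [Group.IsNilpotent G] :
    Finite (Abelianization G) → Finite G := by
  refine Group.nilpotent_center_quotient_ind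
    (P := fun G [Group G] [Group.IsNilpotent G] => Finite (Abelianization G) → Finite G) G ?_ ?_
  · intro G _ _ _
    infer_instance
  · intro G _ _ ih hfin
    have h1 : Finite (Abelianization (G ⧸ Subgroup.center G)) := by
      refine Finite.of_surjective
        (Abelianization.map (QuotientGroup.mk' (Subgroup.center G))) ?_
      intro y
      obtain ⟨y, rfl⟩ := QuotientGroup.mk_surjective y
      obtain ⟨x, rfl⟩ := QuotientGroup.mk_surjective y
      exact ⟨Abelianization.of x, rfl⟩
    have h2 : Finite (G ⧸ Subgroup.center G) := ih h1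
    have h3 : Finite (commutatorSet G) := by
      have h4 : commutatorSet G ⊆ Set.range
          (fun q : (G ⧸ Subgroup.center G) × (G ⧸ Subgroup.center G) => ⁅q.1.out, q.2.out⁆) := by
        rintro x ⟨a, b, rfl⟩
        refine ⟨(QuotientGroup.mk a, QuotientGroup.mk b), ?_⟩
        obtain ⟨z, hz⟩ := QuotientGroup.mk_out_eq_mul (Subgroup.center G) a
        obtain ⟨w, hw⟩ := QuotientGroup.mk_out_eq_mul (Subgroup.center G) b
        simp only
        rw [hz, hw]
        have hz' := Subgroup.mem_center_iff.mp z.2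
        have hw' := Subgroup.mem_center_iff.mp w.2
        rw [commutatorElement_def, commutatorElement_def]
        have e1 : a * (z : G) * (b * w) = (z : G) * w * (a * b) := by
          rw [hz' a, mul_assoc, mul_assoc]
          congr 1
          rw [← mul_assoc, hw' (a * b)]
        have e2 : (a * (z : G))⁻¹ * (b * w)⁻¹ = (a⁻¹ * b⁻¹) * ((z : G) * w)⁻¹ := by
          rw [← mul_inv_rev, ← mul_inv_rev, ← mul_inv_rev]
          congr 1
          rw [hz' a, hw' b, mul_assoc, ← mul_assoc b, hz' b]
          rw [mul_assoc, ← mul_assoc, ← mul_assoc, hz' w]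
          simp only [mul_assoc]
        calc a * (z : G) * (b * w) * (a * (z : G))⁻¹ * (b * w)⁻¹
            = (a * (z : G) * (b * w)) * ((a * (z : G))⁻¹ * (b * w)⁻¹) := by
              rw [mul_assoc (a * (z : G) * (b * w))]
          _ = ((z : G) * w * (a * b)) * ((a⁻¹ * b⁻¹) * ((z : G) * w)⁻¹) := by rw [e1, e2]
          _ = ((z : G) * w) * (a * b * a⁻¹ * b⁻¹) * ((z : G) * w)⁻¹ := by
              simp only [mul_assoc]
          _ = a * b * a⁻¹ * b⁻¹ := by
              have hc : (z : G) * w ∈ Subgroup.center G := mul_mem z.2 w.2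
              rw [← Subgroup.mem_center_iff.mp hc, mul_assoc, mul_inv_cancel, mul_one]
      exact Set.Finite.subset (Set.finite_range _) h4
    have h5 : Finite (commutator G) := inferInstance
    have h6 : Finite (G ⧸ commutator G) := hfin
    exact Finite.of_equiv _ (Subgroup.groupEquivQuotientProdSubgroup (s := commutator G)).symm

theorem exists_surj {G : Type*} [Group G] [Group.FG G] [Group.IsNilpotent G]
    (hinf : ¬ Finite G) : ∃ τ : G →* Multiplicative ℤ, Function.Surjective τ := by
  have hfg : Group.FG (Abelianization G) :=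
    Group.fg_of_surjective (f := Abelianization.of) (QuotientGroup.mk_surjective)
  obtain ⟨ι, j, _, _, p, hp, e, ⟨f⟩⟩ :=
    CommGroup.equiv_free_prod_prod_multiplicative_zmod (Abelianization G)
  rcases isEmpty_or_nonempty j with hj | ⟨⟨j₀⟩⟩
  · exfalso
    apply hinf
    apply finite_of_abelianization
    have h1 : ∀ i, NeZero (p i ^ e i) := fun i => ⟨pow_ne_zero _ (hp i).ne_zero⟩
    have h2 : ∀ i, Finite (Multiplicative (ZMod (p i ^ e i))) := fun i =>
      Finite.of_equiv (ZMod (p i ^ e i)) Multiplicative.ofAdd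
    exact Finite.of_equiv _ f.symm.toEquiv
  · refine ⟨(Pi.evalMonoidHom (fun _ : j => Multiplicative ℤ) j₀).comp
      ((MonoidHom.fst _ _).comp (f.toMonoidHom.comp Abelianization.of)), ?_⟩
    intro y
    obtain ⟨x, hx⟩ := QuotientGroup.mk_surjective (f.symm (fun _ => y, 1))
    refine ⟨x, ?_⟩
    have h1 : f (Abelianization.of x) = (fun _ => y, 1) := by
      have : Abelianization.of x = f.symm (fun _ => y, 1) := hx
      rw [this, MulEquiv.apply_symm_apply]
    change (f (Abelianization.of x)).1 j₀ = y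
    rw [h1]

theorem cyc_induction.{u} (P : ∀ (G : Type u) [Group G], Prop)
    (h0 : ∀ (G : Type u) [Group G] [Finite G], P G)
    (h1 : ∀ (G : Type u) [Group G] [Group.IsNilpotent G] [Group.FG G]
      (τ : G →* Multiplicative ℤ), Function.Surjective τ → Group.FG τ.ker → P τ.ker → P G)
    (r : ℕ) : ∀ (G : Type u) [Group G] [Group.IsNilpotent G], Cyc r (⊤ : Subgroup G) → P G := by
  induction r with
  | zero =>
    intro G _ _ h
    have h2 : (⊤ : Subgroup G) = ⊥ := by
      generalize hK : (⊤ : Subgroup G) = K at h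
      generalize hr : 0 = r at h
      cases h with
      | bot => rfl
      | step _ _ => omega
    have h3 : Subsingleton G := Subgroup.subsingleton_iff.mp (subsingleton_of_bot_eq_top h2.symm)
    exact h0 G
  | succ r ih =>
    intro G _ _ h
    by_cases hfin : Finite G
    · exact h0 G
    · have hfg : Group.FG G := Group.fg_def.mpr h.fg
      obtain ⟨τ, hτ⟩ := exists_surj hfin
      obtain ⟨x, hx⟩ := hτ (Multiplicative.ofAdd 1)
      obtain ⟨r', hr', hker⟩ := h.ker τ ⟨x, Subgroup.mem_top x, by
        rw [hx]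
        intro h4
        have := congrArg Multiplicative.toAdd h4
        simp at this⟩
      have hrr : r' = r := by omega
      subst hrr
      rw [top_inf_eq] at hker
      have h5 := hker.comap τ.ker.subtype τ.ker.subtype_injective
      have h6 : τ.ker.comap τ.ker.subtype = ⊤ := by
        ext y
        simp
      rw [h6] at h5
      exact h1 G τ hτ ((Group.fg_iff_subgroup_fg _).mpr hker.fg) (ih τ.ker h5)

end EmbB

/-- Induction principle for finitely generated nilpotent groups. -/
theorem nilpotent_induction.{u} (P : ∀ (G : Type u) [Group G], Prop)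
    (h0 : ∀ (G : Type u) [Group G] [Finite G], P G)
    (h1 : ∀ (G : Type u) [Group G] [Group.IsNilpotent G] [Group.FG G]
      (τ : G →* Multiplicative ℤ), Function.Surjective τ → Group.FG τ.ker → P τ.ker → P G)
    (G : Type u) [Group G] [Group.FG G] [Group.IsNilpotent G] : P G := by
  obtain ⟨r, hr⟩ := EmbB.exists_cyc (G := G)
  exact EmbB.cyc_induction P h0 h1 r G hr

end Pool.Agent.MPf60e8aN
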