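import Mathlib
import Pool.Agent.Lib.MP_f60e8a_al.N.NDefs

/-!
# Good primes for an algebra with integral structure constants (module GOODN)
-/

open scoped BigOperators commutatorElement

namespace Pool.Agent.MPf60e8aN

open Pool.Agent.MPf60e8a (wordLen sepIndex RF PosDensity)

namespace GoodN

open Classical in
/-- Positive lower density is monotone in the set of primes. -/
theorem posDensity_mono {g₁ g₂ : ℕ → Prop} (h : ∀ p, p.Prime → g₁ p → g₂ p)
    (h₁ : PosDensity g₁) : PosDensity g₂ := by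
  obtain ⟨c, x₀, hc, hx⟩ := h₁
  refine ⟨c, x₀, hc, fun x hx₀ => (hx x hx₀).trans ?_⟩
  refine Finset.sum_le_sum_of_subset_of_nonneg ?_ ?_
  · intro p hp
    rw [Finset.mem_filter] at hp ⊢
    exact ⟨hp.1, hp.2.1, h p hp.2.1 hp.2.2⟩
  · intro p _ _
    exact Real.log_natCast_nonneg p

/-- matrix of right multiplication by the `i`-th basis vector -/
def rmat {h : ℕ} (L : Alg h) (R : Type*) [CommRing R] (i : Fin h) : Matrix (Fin h) (Fin h) R :=
  Matrix.of fun k a => (L.c a i k : R)

/-- matrix of left multiplication by the `i`-th basis vector -/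
def lmat {h : ℕ} (L : Alg h) (R : Type*) [CommRing R] (i : Fin h) : Matrix (Fin h) (Fin h) R :=
  Matrix.of fun k a => (L.c i a k : R)

theorem mul_eq_rmat {h : ℕ} (L : Alg h) {R : Type*} [CommRing R] (x y : Fin h → R) :
    L.mul x y = ∑ i, y i • (rmat L R i).mulVec x := by
  funext k
  simp only [Alg.mul, rmat, Finset.sum_apply, Pi.smul_apply, smul_eq_mul, Matrix.mulVec,
    dotProduct, Matrix.of_apply, Finset.mul_sum]
  rw [Finset.sum_comm]
  refine Finset.sum_congr rfl fun i _ => Finset.sum_congr rfl fun j _ => ?_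
  ring

theorem mul_eq_lmat {h : ℕ} (L : Alg h) {R : Type*} [CommRing R] (x y : Fin h → R) :
    L.mul y x = ∑ i, y i • (lmat L R i).mulVec x := by
  funext k
  simp only [Alg.mul, lmat, Finset.sum_apply, Pi.smul_apply, smul_eq_mul, Matrix.mulVec,
    dotProduct, Matrix.of_apply, Finset.mul_sum]
  refine Finset.sum_congr rfl fun i _ => Finset.sum_congr rfl fun j _ => ?_
  ring

theorem mul_single {h : ℕ} (L : Alg h) {R : Type*} [CommRing R] (x : Fin h → R) (i : Fin h) :
    L.mul x (Pi.single i 1) = (rmat L R i).mulVec x := by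
  rw [mul_eq_rmat, Finset.sum_eq_single i]
  · rw [Pi.single_eq_same, one_smul]
  · intro j _ hj
    rw [Pi.single_eq_of_ne hj, zero_smul]
  · intro hi
    exact absurd (Finset.mem_univ _) hi

theorem single_mul {h : ℕ} (L : Alg h) {R : Type*} [CommRing R] (x : Fin h → R) (i : Fin h) :
    L.mul (Pi.single i 1) x = (lmat L R i).mulVec x := by
  rw [mul_eq_lmat, Finset.sum_eq_single i]
  · rw [Pi.single_eq_same, one_smul]
  · intro j _ hj
    rw [Pi.single_eq_of_ne hj, zero_smul]
  · intro hi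
    exact absurd (Finset.mem_univ _) hi

/-- factorisation through a linear map with smaller kernel -/
theorem exists_factor {V W U : Type*} [AddCommGroup V] [Module ℂ V] [AddCommGroup W] [Module ℂ W]
    [AddCommGroup U] [Module ℂ U] (f : V →ₗ[ℂ] W) (g : V →ₗ[ℂ] U)
    (h : LinearMap.ker f ≤ LinearMap.ker g) : ∃ k : W →ₗ[ℂ] U, g = k ∘ₗ f := by
  obtain ⟨s, hs⟩ := LinearMap.exists_rightInverse_of_surjective f.rangeRestrict
    (LinearMap.range_rangeRestrict f)
  obtain ⟨s', hs'⟩ := LinearMap.exists_extend s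
  refine ⟨g ∘ₗ s', ?_⟩
  ext x
  have h1 : s' (f x) = s (f.rangeRestrict x) := by
    rw [← hs']
    rfl
  have h2 : f.rangeRestrict (s (f.rangeRestrict x)) = f.rangeRestrict x :=
    LinearMap.congr_fun hs (f.rangeRestrict x)
  have h3 : f (s' (f x)) = f x := by
    rw [h1]
    exact congrArg Subtype.val h2
  have h4 : s' (f x) - x ∈ LinearMap.ker f := by
    rw [LinearMap.mem_ker, map_sub, h3, sub_self]
  have h5 := h h4
  rw [LinearMap.mem_ker, map_sub, sub_eq_zero] at h5
  exact h5.symm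

theorem toMatrix'_mvl {h d : ℕ} (P : Matrix (Fin d) (Fin h) ℂ) :
    LinearMap.toMatrix' P.mulVecLin = P := LinearMap.toMatrix'_toLin' P

theorem exists_factor_matrix {h d e : ℕ} (P : Matrix (Fin d) (Fin h) ℂ)
    (Q : Matrix (Fin e) (Fin h) ℂ) (hPQ : ∀ x, P.mulVec x = 0 → Q.mulVec x = 0) :
    ∃ A : Matrix (Fin e) (Fin d) ℂ, Q = A * P := by
  obtain ⟨k, hk⟩ := exists_factor P.mulVecLin Q.mulVecLin (by
    intro x hx
    rw [LinearMap.mem_ker, Matrix.mulVecLin_apply] at hx ⊢
    exact hPQ x hx)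
  refine ⟨LinearMap.toMatrix' k, ?_⟩
  have h1 : LinearMap.toMatrix' Q.mulVecLin = LinearMap.toMatrix' (k ∘ₗ P.mulVecLin) := by
    rw [← hk]
  rw [LinearMap.toMatrix'_comp, toMatrix'_mvl, toMatrix'_mvl] at h1
  exact h1

/-- finitely many ideals of small codimension with zero intersection -/
theorem exists_finset {h : ℕ} (S : Set (Submodule ℂ (Fin h → ℂ))) (hS : sInf S = ⊥) :
    ∃ t : Finset (Submodule ℂ (Fin h → ℂ)), (∀ J ∈ t, J ∈ S) ∧ t.inf id = ⊥ := by
  classical
  by_contra hcon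
  push Not at hcon
  have key : ∀ n : ℕ, ∀ t : Finset (Submodule ℂ (Fin h → ℂ)), (∀ J ∈ t, J ∈ S) →
      Module.finrank ℂ (t.inf id : Submodule ℂ (Fin h → ℂ)) = n → False := by
    intro n
    induction n using Nat.strong_induction_on with
    | _ n ih =>
      intro t ht hn
      have hne := hcon t ht
      obtain ⟨x, hx, hx0⟩ := Submodule.exists_mem_ne_zero_of_ne_bot hne
      have hxS : x ∉ sInf S := by
        rw [hS]
        exact hx0
      rw [Submodule.mem_sInf] at hxS
      push Not at hxS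
      obtain ⟨J, hJ, hxJ⟩ := hxS
      have hlt : (insert J t).inf id < t.inf id := by
        rw [Finset.inf_insert, id_eq]
        refine lt_of_le_of_ne inf_le_right ?_
        intro he
        apply hxJ
        have : x ∈ J ⊓ t.inf id := by
          rw [he]
          exact hx
        exact this.1
      have hr := Submodule.finrank_lt_finrank_of_lt hlt
      refine ih _ (hn ▸ hr) (insert J t) ?_ rfl
      intro K hK
      rcases Finset.mem_insert.mp hK with rfl | hK
      · exact hJ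
      · exact ht K hK
  exact key _ ∅ (by simp) rfl

/-- a matrix with prescribed kernel -/
theorem exists_kernel_matrix {h d : ℕ} (J : Submodule ℂ (Fin h → ℂ))
    (hJ : Module.finrank ℂ ((Fin h → ℂ) ⧸ J) ≤ d) :
    ∃ P : Matrix (Fin d) (Fin h) ℂ, ∀ x, P.mulVec x = 0 ↔ x ∈ J := by
  let b := Module.finBasis ℂ ((Fin h → ℂ) ⧸ J)
  let f : (Fin h → ℂ) →ₗ[ℂ] (Fin d → ℂ) :=
    LinearMap.pi fun i => if hi : i.val < Module.finrank ℂ ((Fin h → ℂ) ⧸ J) then
      (b.coord ⟨i.val, hi⟩) ∘ₗ J.mkQ else 0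
  refine ⟨LinearMap.toMatrix' f, fun x => ?_⟩
  have h1 : (LinearMap.toMatrix' f).mulVec x = f x := by
    rw [← Matrix.toLin'_apply, Matrix.toLin'_toMatrix']
  rw [h1]
  constructor
  · intro hx
    rw [← Submodule.Quotient.mk_eq_zero]
    apply b.ext_elem
    intro i
    have hi : i.val < d := lt_of_lt_of_le i.isLt hJ
    have h2 := congrFun hx ⟨i.val, hi⟩
    simp only [f, LinearMap.pi_apply, Pi.zero_apply] at h2
    rw [dif_pos i.isLt] at h2
    rw [map_zero]
    exact h2
  · intro hx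
    funext i
    simp only [f, LinearMap.pi_apply, Pi.zero_apply]
    split_ifs with hi
    · rw [LinearMap.comp_apply, Submodule.mkQ_apply, (Submodule.Quotient.mk_eq_zero J).2 hx,
        map_zero]
    · rfl

/-- the algebraic identities that make the kernels ideals -/
theorem isIdeal_of_matrices {h d : ℕ} (L : Alg h) {R : Type*} [CommRing R]
    (P : Matrix (Fin d) (Fin h) R) (A B : Fin h → Matrix (Fin d) (Fin d) R)
    (hA : ∀ i, P * rmat L R i = A i * P) (hB : ∀ i, P * lmat L R i = B i * P) :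
    L.IsIdeal (LinearMap.ker P.mulVecLin) := by
  intro x hx y
  rw [LinearMap.mem_ker, Matrix.mulVecLin_apply] at hx
  constructor
  · rw [LinearMap.mem_ker, mul_eq_rmat, map_sum]
    refine Finset.sum_eq_zero fun i _ => ?_
    rw [map_smul, Matrix.mulVecLin_apply, Matrix.mulVec_mulVec, hA, ← Matrix.mulVec_mulVec, hx,
      Matrix.mulVec_zero, smul_zero]
  · rw [LinearMap.mem_ker, mul_eq_lmat, map_sum]
    refine Finset.sum_eq_zero fun i _ => ?_
    rw [map_smul, Matrix.mulVecLin_apply, Matrix.mulVec_mulVec, hB, ← Matrix.mulVec_mulVec, hx,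
      Matrix.mulVec_zero, smul_zero]

theorem dnum_spec {h : ℕ} (L : Alg h) :
    sInf {J : Submodule ℂ (Fin h → ℂ) | L.IsIdeal J ∧
      Module.finrank ℂ ((Fin h → ℂ) ⧸ J) ≤ L.dnum} = ⊥ := by
  have hne : {d : ℕ | sInf {J : Submodule ℂ (Fin h → ℂ) | L.IsIdeal J ∧
    Module.finrank ℂ ((Fin h → ℂ) ⧸ J) ≤ d} = ⊥}.Nonempty := by
    refine ⟨Module.finrank ℂ ((Fin h → ℂ) ⧸ (⊥ : Submodule ℂ (Fin h → ℂ))), ?_⟩
    rw [Set.mem_ofPred_eq, eq_bot_iff]
    refine sInf_le ⟨?_, le_rfl⟩
    intro x hx y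
    rw [Submodule.mem_bot] at hx
    subst hx
    constructor
    · rw [Submodule.mem_bot]
      funext k
      simp [Alg.mul]
    · rw [Submodule.mem_bot]
      funext k
      simp [Alg.mul]
  exact Nat.sInf_mem hne

end GoodN

open GoodN

theorem good_densityN
    (hR : ∀ (R : Type) [CommRing R] [Algebra.FiniteType ℤ R], Nonempty (R →+* ℂ) →
      PosDensity (fun p => Nonempty (R →+* ZMod p)))
    {h : ℕ} (𝔏 : Alg h) : PosDensity (𝔏.GoodP 𝔏.dnum) := by
  classical
  obtain ⟨t, htS, ht⟩ := exists_finset _ (dnum_spec 𝔏)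
  set d := 𝔏.dnum with hd
  let r := t.card
  let e : Fin r ≃ t := t.equivFin.symm
  let J : Fin r → Submodule ℂ (Fin h → ℂ) := fun j => (e j).1
  have hJ : ∀ j, 𝔏.IsIdeal (J j) ∧ Module.finrank ℂ ((Fin h → ℂ) ⧸ J j) ≤ d :=
    fun j => htS _ (e j).2
  have hJinf : ∀ x, (∀ j, x ∈ J j) → x = 0 := by
    intro x hx
    have : x ∈ t.inf id := by
      rw [Submodule.mem_finsetInf]
      intro K hK
      have := hx (e.symm ⟨K, hK⟩)
      simpa [J] using this
    rw [ht] at this
    exact this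
  choose P hP using fun j => exists_kernel_matrix (J j) (hJ j).2
  have hA : ∀ j i, ∃ A : Matrix (Fin d) (Fin d) ℂ, P j * rmat 𝔏 ℂ i = A * P j := by
    intro j i
    refine exists_factor_matrix (P j) (P j * rmat 𝔏 ℂ i) ?_
    intro x hx
    rw [← Matrix.mulVec_mulVec, ← mul_single, hP]
    exact ((hJ j).1 x ((hP j x).1 hx) _).1
  have hB : ∀ j i, ∃ A : Matrix (Fin d) (Fin d) ℂ, P j * lmat 𝔏 ℂ i = A * P j := by
    intro j i
    refine exists_factor_matrix (P j) (P j * lmat 𝔏 ℂ i) ?_
    intro x hx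
    rw [← Matrix.mulVec_mulVec, ← single_mul, hP]
    exact ((hJ j).1 x ((hP j x).1 hx) _).2
  choose A hA using hA
  choose B hB using hB
  -- joint left inverse
  have hβ : ∃ β : Fin r → Matrix (Fin h) (Fin d) ℂ, ∑ j, β j * P j = 1 := by
    obtain ⟨k, hk⟩ := exists_factor (LinearMap.pi fun j : Fin r => (P j).mulVecLin)
      (LinearMap.id : (Fin h → ℂ) →ₗ[ℂ] (Fin h → ℂ)) (by
        intro x hx
        rw [LinearMap.mem_ker] at hx ⊢
        refine hJinf x fun j => (hP j x).1 ?_
        exact congrFun hx j)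
    refine ⟨fun j => LinearMap.toMatrix' (k ∘ₗ LinearMap.single ℂ (fun _ : Fin r => Fin d → ℂ) j),
      ?_⟩
    have h1 : (LinearMap.id : (Fin h → ℂ) →ₗ[ℂ] (Fin h → ℂ)) =
        ∑ j, (k ∘ₗ LinearMap.single ℂ (fun _ : Fin r => Fin d → ℂ) j) ∘ₗ (P j).mulVecLin := by
      conv_lhs => rw [hk]
      refine LinearMap.ext fun x => ?_
      simp only [LinearMap.comp_apply, LinearMap.sum_apply, LinearMap.coe_single]
      rw [← map_sum]
      refine congrArg k ?_
      funext j
      rw [Finset.sum_apply, Finset.sum_eq_single j]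
      · rw [Pi.single_eq_same]
        rfl
      · intro j' _ hj'
        rw [Pi.single_eq_of_ne hj'.symm]
      · intro hj'
        exact absurd (Finset.mem_univ _) hj'
    have h2 := congrArg LinearMap.toMatrix' h1
    rw [LinearMap.toMatrix'_id, map_sum] at h2
    rw [h2]
    refine Finset.sum_congr rfl fun j _ => ?_
    rw [LinearMap.toMatrix'_comp, toMatrix'_mvl]
  obtain ⟨β, hβ⟩ := hβ
  let gens : Finset ℂ :=
    (Finset.univ.image fun q : Fin r × Fin d × Fin h => P q.1 q.2.1 q.2.2) ∪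
    (Finset.univ.image fun q : Fin r × Fin h × Fin d × Fin d => A q.1 q.2.1 q.2.2.1 q.2.2.2) ∪
    (Finset.univ.image fun q : Fin r × Fin h × Fin d × Fin d => B q.1 q.2.1 q.2.2.1 q.2.2.2) ∪
    (Finset.univ.image fun q : Fin r × Fin h × Fin d => β q.1 q.2.1 q.2.2)
  let R : Subalgebra ℤ ℂ := Algebra.adjoin ℤ (gens : Set ℂ)
  have : Algebra.FiniteType ℤ R := R.fg_iff_finiteType.mp (Subalgebra.fg_adjoin_finset gens)
  refine posDensity_mono ?_ (hR R ⟨R.val.toRingHom⟩)
  rintro p hp ⟨φ⟩
  have hPm : ∀ j a b, P j a b ∈ R := fun j a b => Algebra.subset_adjoin (by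
    simp only [gens, Finset.coe_union, Finset.coe_image, Finset.coe_univ, Set.image_univ]
    exact Or.inl (Or.inl (Or.inl ⟨(j, a, b), rfl⟩)))
  have hAm : ∀ j i a b, A j i a b ∈ R := fun j i a b => Algebra.subset_adjoin (by
    simp only [gens, Finset.coe_union, Finset.coe_image, Finset.coe_univ, Set.image_univ]
    exact Or.inl (Or.inl (Or.inr ⟨(j, i, a, b), rfl⟩)))
  have hBm : ∀ j i a b, B j i a b ∈ R := fun j i a b => Algebra.subset_adjoin (by
    simp only [gens, Finset.coe_union, Finset.coe_image, Finset.coe_univ, Set.image_univ]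
    exact Or.inl (Or.inr ⟨(j, i, a, b), rfl⟩))
  have hβm : ∀ j a b, β j a b ∈ R := fun j a b => Algebra.subset_adjoin (by
    simp only [gens, Finset.coe_union, Finset.coe_image, Finset.coe_univ, Set.image_univ]
    exact Or.inr ⟨(j, a, b), rfl⟩)
  let P' : Fin r → Matrix (Fin d) (Fin h) R := fun j => Matrix.of fun a b => ⟨P j a b, hPm j a b⟩
  let A' : Fin r → Fin h → Matrix (Fin d) (Fin d) R :=
    fun j i => Matrix.of fun a b => ⟨A j i a b, hAm j i a b⟩
  let B' : Fin r → Fin h → Matrix (Fin d) (Fin d) R :=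
    fun j i => Matrix.of fun a b => ⟨B j i a b, hBm j i a b⟩
  let β' : Fin r → Matrix (Fin h) (Fin d) R := fun j => Matrix.of fun a b => ⟨β j a b, hβm j a b⟩
  have hinj : Function.Injective (fun M : Matrix (Fin d) (Fin h) R =>
      M.map (R.val.toRingHom : R →+* ℂ)) := by
    intro M N hMN
    ext a b
    exact congrFun (congrFun hMN a) b
  have hinj2 : Function.Injective (fun M : Matrix (Fin h) (Fin h) R =>
      M.map (R.val.toRingHom : R →+* ℂ)) := by
    intro M N hMN
    ext a b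
    exact congrFun (congrFun hMN a) b
  have hrm : ∀ i, (rmat 𝔏 R i).map (R.val.toRingHom : R →+* ℂ) = rmat 𝔏 ℂ i := by
    intro i
    ext a b
    simp [rmat]
  have hlm : ∀ i, (lmat 𝔏 R i).map (R.val.toRingHom : R →+* ℂ) = lmat 𝔏 ℂ i := by
    intro i
    ext a b
    simp [lmat]
  have hA' : ∀ j i, P' j * rmat 𝔏 R i = A' j i * P' j := by
    intro j i
    apply hinj
    show (P' j * rmat 𝔏 R i).map _ = (A' j i * P' j).map _
    rw [Matrix.map_mul, Matrix.map_mul, hrm]
    exact hA j i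
  have hB' : ∀ j i, P' j * lmat 𝔏 R i = B' j i * P' j := by
    intro j i
    apply hinj
    show (P' j * lmat 𝔏 R i).map _ = (B' j i * P' j).map _
    rw [Matrix.map_mul, Matrix.map_mul, hlm]
    exact hB j i
  have hβ' : ∑ j, β' j * P' j = 1 := by
    apply hinj2
    show (R.val.toRingHom : R →+* ℂ).mapMatrix (∑ j, β' j * P' j) =
      (R.val.toRingHom : R →+* ℂ).mapMatrix 1
    rw [map_sum, map_one, ← hβ]
    refine Finset.sum_congr rfl fun j _ => ?_
    rw [RingHom.mapMatrix_apply, Matrix.map_mul]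
    rfl
  -- push to ZMod p
  have hrp : ∀ i, (rmat 𝔏 R i).map φ = rmat 𝔏 (ZMod p) i := by
    intro i
    ext a b
    simp [rmat]
  have hlp : ∀ i, (lmat 𝔏 R i).map φ = lmat 𝔏 (ZMod p) i := by
    intro i
    ext a b
    simp [lmat]
  refine ⟨r, fun j => ((P' j).map φ).mulVecLin, ?_, ?_⟩
  · intro j
    refine isIdeal_of_matrices 𝔏 _ (fun i => (A' j i).map φ) (fun i => (B' j i).map φ) ?_ ?_
    · intro i
      rw [← hrp, ← Matrix.map_mul, hA', Matrix.map_mul]
    · intro i
      rw [← hlp, ← Matrix.map_mul, hB', Matrix.map_mul]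
  · intro x hx
    have h1 : (∑ j, (β' j).map φ * (P' j).map φ) = 1 := by
      have h2 := congrArg (φ.mapMatrix) hβ'
      rw [map_sum, map_one] at h2
      rw [← h2]
      refine Finset.sum_congr rfl fun j _ => ?_
      rw [RingHom.mapMatrix_apply, Matrix.map_mul]
    have h3 : x = (∑ j, (β' j).map φ * (P' j).map φ).mulVec x := by
      rw [h1, Matrix.one_mulVec]
    rw [h3, Matrix.sum_mulVec]
    refine Finset.sum_eq_zero fun j _ => ?_
    rw [← Matrix.mulVec_mulVec]
    have h4 := hx j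
    rw [Matrix.mulVecLin_apply] at h4
    rw [h4, Matrix.mulVec_zero]

end Pool.Agent.MPf60e8aN
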