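import Mathlib
import Pool.Agent.Lib.MP_f60e8a_al.N.NDefs
import Pool.Agent.Lib.MP_f60e8a_al.N.ExpLog

/-!
# Polynomial growth of the logarithmic coordinates
-/

open scoped BigOperators commutatorElement

namespace Pool.Agent.MPf60e8aN

open Pool.Agent.MPf60e8a (wordLen sepIndex RF PosDensity)

namespace GrowthAux

lemma pb_mono {C C' n n' : ℕ} (h : C ≤ C') (h' : n ≤ n') :
    (C : ℚ) * (1 + n) ^ C ≤ (C' : ℚ) * (1 + n') ^ C' := by
  have h1 : C * (1 + n) ^ C ≤ C' * (1 + n') ^ C' :=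
    Nat.mul_le_mul h ((Nat.pow_le_pow_left (by omega) C).trans
      (Nat.pow_le_pow_right (by omega) h))
  exact_mod_cast h1

theorem growth_aux {A : Type} [Ring A] [Algebra ℚ A] {G : Type*} [Group G] {N : ℕ}
    (𝔞 : NilSub A N) (φ : G →* Aˣ) (hφ : ∀ g, ((φ g : A) - 1) ∈ 𝔞.S) (T : Finset G) (m : ℕ) :
    ∀ l : List A, (∀ x ∈ l, x ∈ 𝔞.S) → N ≤ l.length + m → ∀ ℓ : A →ₗ[ℚ] ℚ,
      ∃ C : ℕ, ∀ w : List G, (∀ x ∈ w, x ∈ T) →
        |ℓ (l.prod * (φ w.prod : A))| ≤ (C : ℚ) * (1 + w.length) ^ C := by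
  induction m with
  | zero =>
    intro l hl hN ℓ
    refine ⟨0, fun w _ => ?_⟩
    rw [𝔞.nil l hl (by omega)]
    simp
  | succ m ih =>
    intro l hl hN ℓ
    have hl' : ∀ t : G, ∀ x ∈ l ++ [(φ t : A) - 1], x ∈ 𝔞.S := by
      intro t x hx
      rw [List.mem_append, List.mem_singleton] at hx
      rcases hx with hx | rfl
      · exact hl x hx
      · exact hφ t
    have h0 := fun t : G => ih (l ++ [(φ t : A) - 1]) (hl' t)
      (by rw [List.length_append, List.length_singleton]; omega) ℓ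
    choose Cf hCf using h0
    obtain ⟨C', hC'⟩ : ∃ C' : ℕ, C' = ∑ t ∈ T, Cf t := ⟨_, rfl⟩
    have hle : ∀ t ∈ T, Cf t ≤ C' := fun t ht => by
      rw [hC']
      exact Finset.single_le_sum (f := Cf) (fun _ _ => Nat.zero_le _) ht
    obtain ⟨D, hD⟩ : ∃ D : ℕ, |ℓ l.prod| ≤ D := ⟨⌈|ℓ l.prod|⌉₊, Nat.le_ceil _⟩
    have key : ∀ w : List G, (∀ x ∈ w, x ∈ T) →
        |ℓ (l.prod * (φ w.prod : A))| ≤ D + w.length * (C' * (1 + w.length) ^ C') := by
      intro w
      induction w with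
      | nil =>
        intro _
        simpa using hD
      | cons t w ihw =>
        intro hw
        have h1 := ihw fun x hx => hw x (List.mem_cons_of_mem _ hx)
        have h2 := hCf t w fun x hx => hw x (List.mem_cons_of_mem _ hx)
        have h3 : l.prod * (φ (t :: w).prod : A) = l.prod * (φ w.prod : A) +
            (l ++ [(φ t : A) - 1]).prod * (φ w.prod : A) := by
          rw [List.prod_cons, map_mul, Units.val_mul, List.prod_append, List.prod_singleton]
          noncomm_ring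
        have h4 : (Cf t : ℚ) * (1 + w.length) ^ Cf t ≤ C' * (1 + w.length) ^ C' :=
          pb_mono (hle t (hw t List.mem_cons_self)) le_rfl
        have h5 : (C' : ℚ) * (1 + w.length) ^ C' ≤ C' * (1 + (t :: w).length) ^ C' := by
          refine mul_le_mul_of_nonneg_left (pow_le_pow_left₀ (by positivity) ?_ _)
            (by positivity)
          rw [List.length_cons]
          push_cast
          linarith
        have h6 : (0 : ℚ) ≤ (w.length : ℚ) := Nat.cast_nonneg _
        have h7 := mul_le_mul_of_nonneg_left h5 h6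
        rw [h3, map_add]
        refine (abs_add_le _ _).trans ?_
        have h8 : ((t :: w).length : ℚ) = w.length + 1 := by
          rw [List.length_cons]
          push_cast
          ring
        rw [h8] at h5 h7 ⊢
        linarith
    refine ⟨C' + D + 1, fun w hw => (key w hw).trans ?_⟩
    have h1 : D + w.length * (C' * (1 + w.length) ^ C') ≤
        (C' + D + 1) * (1 + w.length) ^ (C' + D + 1) := by
      have h2 : D * 1 ≤ D * (1 + w.length) ^ (C' + D + 1) :=
        Nat.mul_le_mul_left _ (Nat.one_le_pow _ _ (by omega))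
      have h3 : w.length * (C' * (1 + w.length) ^ C') ≤ C' * (1 + w.length) ^ (C' + D + 1) := by
        calc w.length * (C' * (1 + w.length) ^ C')
            ≤ (1 + w.length) * (C' * (1 + w.length) ^ C') := Nat.mul_le_mul_right _ (by omega)
          _ = C' * (1 + w.length) ^ (C' + 1) := by ring
          _ ≤ C' * (1 + w.length) ^ (C' + D + 1) :=
              Nat.mul_le_mul_left _ (Nat.pow_le_pow_right (by omega) (by omega))
      calc D + w.length * (C' * (1 + w.length) ^ C')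
          ≤ D * (1 + w.length) ^ (C' + D + 1) + C' * (1 + w.length) ^ (C' + D + 1) := by omega
        _ ≤ (C' + D + 1) * (1 + w.length) ^ (C' + D + 1) := by
            rw [← Nat.add_mul]
            exact Nat.mul_le_mul_right _ (by omega)
    exact_mod_cast h1

end GrowthAux

open GrowthAux in
theorem exists_growth {A : Type} [Ring A] [Algebra ℚ A] {G : Type*} [Group G] {S : Finset G}
    (hS : Subgroup.closure (S : Set G) = ⊤) {N : ℕ} (𝔞 : NilSub A N) (φ : G →* Aˣ)
    (hφ : ∀ g, ((φ g : A) - 1) ∈ 𝔞.S) (ℓ : A →ₗ[ℚ] ℚ) :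
    ∃ C : ℕ, ∀ g : G, |ℓ (lg (φ g : A))| ≤ (C : ℚ) * (1 + wordLen S g) ^ C := by
  classical
  obtain ⟨C, hC⟩ := growth_aux 𝔞 φ hφ (S ∪ S.image fun x => x⁻¹) N [] (by simp) (by simp) ℓ
  have hC' : ∀ g : G, |ℓ (φ g : A)| ≤ (C : ℚ) * (1 + wordLen S g) ^ C := by
    intro g
    obtain ⟨w, h1, h2, h3⟩ := Pool.Agent.MPf60e8a.wordLen_spec hS g
    have h4 := hC w (by
      intro x hx
      rw [Finset.mem_union, Finset.mem_image]
      rcases h2 x hx with h | h
      · exact Or.inl h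
      · exact Or.inr ⟨x⁻¹, h, inv_inv x⟩)
    rwa [List.prod_nil, one_mul, h3, h1] at h4
  obtain ⟨q, hq⟩ : ∃ q : Polynomial ℚ,
      q = (PowerSeries.trunc N (PowerSeries.log ℚ)).comp (Polynomial.X - 1) := ⟨_, rfl⟩
  have hlg : ∀ g : G, lg (φ g : A) = Polynomial.aeval (φ g : A) q := by
    intro g
    rw [ExpLogAux.lg_eq_aeval (ExpLogAux.pow_zero_of_mem 𝔞 (hφ g)), hq, Polynomial.aeval_comp]
    simp
  obtain ⟨d, hd⟩ : ∃ d : ℕ, d = q.natDegree := ⟨_, rfl⟩
  obtain ⟨E, hE⟩ : ∃ E : ℕ, (∑ j ∈ Finset.range (d + 1), |q.coeff j|) ≤ E :=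
    ⟨⌈∑ j ∈ Finset.range (d + 1), |q.coeff j|⌉₊, Nat.le_ceil _⟩
  refine ⟨E * (C * (1 + d) ^ C) + C, fun g => ?_⟩
  rw [hlg, Polynomial.aeval_eq_sum_range, ← hd, map_sum]
  have h1 : ∀ j ∈ Finset.range (d + 1), |ℓ (q.coeff j • (φ g : A) ^ j)| ≤
      |q.coeff j| * ((C * (1 + d) ^ C : ℕ) * (1 + wordLen S g) ^ C) := by
    intro j hj
    rw [map_smul, smul_eq_mul, abs_mul]
    refine mul_le_mul_of_nonneg_left ?_ (abs_nonneg _)
    have h2 := hC' (g ^ j)
    rw [map_pow, Units.val_pow_eq_pow_val] at h2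
    refine h2.trans ?_
    have h3 := Pool.Agent.MPf60e8a.wordLen_pow_le hS g j
    have h4 : j * wordLen S g ≤ d * wordLen S g :=
      Nat.mul_le_mul_right _ (by have := Finset.mem_range.mp hj; omega)
    have h5 : 1 + wordLen S (g ^ j) ≤ (1 + d) * (1 + wordLen S g) := by
      nlinarith
    have h6 : C * (1 + wordLen S (g ^ j)) ^ C ≤ C * (1 + d) ^ C * (1 + wordLen S g) ^ C := by
      rw [mul_assoc, ← mul_pow]
      exact Nat.mul_le_mul_left _ (Nat.pow_le_pow_left h5 _)
    exact_mod_cast h6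
  refine (Finset.abs_sum_le_sum_abs _ _).trans ((Finset.sum_le_sum h1).trans ?_)
  rw [← Finset.sum_mul]
  have h7 : (0 : ℚ) ≤ ((C * (1 + d) ^ C : ℕ) : ℚ) * (1 + wordLen S g) ^ C := by positivity
  refine (mul_le_mul_of_nonneg_right hE h7).trans ?_
  have h8 : E * ((C * (1 + d) ^ C) * (1 + wordLen S g) ^ C) ≤
      (E * (C * (1 + d) ^ C) + C) * (1 + wordLen S g) ^ (E * (C * (1 + d) ^ C) + C) := by
    rw [← mul_assoc]
    exact Nat.mul_le_mul (by omega) (Nat.pow_le_pow_right (by omega) (by omega))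
  exact_mod_cast h8

end Pool.Agent.MPf60e8aN
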