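import Mathlib
import Pool.Agent.Lib.MP_f60e8a_al.N.NDefs

/-!
# Basis and structure constants of a Lie lattice (module BASIS)
-/

open scoped BigOperators commutatorElement

namespace Pool.Agent.MPf60e8aN

open Pool.Agent.MPf60e8a (wordLen sepIndex RF PosDensity)

theorem exists_basis {A : Type} [Ring A] [Algebra ℚ A] {N M : ℕ} (𝔞 : NilSub A N)
    {L : AddSubgroup A} (hL : LieLattice 𝔞 M L) (hFG : L.FG) :
    ∃ (h : ℕ) (e : Module.Basis (Fin h) ℤ L) (𝔏 : Alg h), Describes M e 𝔏 := by
  have hfin : Module.Finite ℤ L := by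
    rw [Module.Finite.iff_addGroup_fg]
    exact (AddGroup.fg_iff_addSubgroup_fg L).2 hFG
  have hAtf : ∀ (n : ℤ) (x : A), n ≠ 0 → n • x = 0 → x = 0 := by
    intro n x hn hx
    have h1 : ((n : ℚ)) • x = 0 := by
      rw [← hx]
      exact Int.cast_smul_eq_zsmul ℚ n x
    have h2 : ((n : ℚ)⁻¹) • ((n : ℚ) • x) = 0 := by rw [h1, smul_zero]
    rw [smul_smul, inv_mul_cancel₀ (by exact_mod_cast hn), one_smul] at h2
    exact h2
  have htf : Module.IsTorsionFree ℤ L := by
    refine ⟨fun n hn x y hxy => ?_⟩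
    have hn0 : n ≠ 0 := by
      rintro rfl
      exact absurd hn.left (by
        intro h
        have := h (a₁ := 0) (a₂ := 1) (by simp)
        exact absurd this (by norm_num))
    have h1 : n • ((x : A) - y) = 0 := by
      have h2 : n • (x : A) = n • (y : A) := congrArg Subtype.val hxy
      rw [smul_sub, h2, sub_self]
    have h3 := hAtf n _ hn0 h1
    exact Subtype.ext (sub_eq_zero.1 h3)
  have hfree : Module.Free ℤ L := Module.free_of_finite_type_torsion_free'
  let e := Module.finBasis ℤ L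
  have hz : ∀ i j : Fin (Module.finrank ℤ L), ∃ z : L, (e i : A) * (e j : A) - (e j : A) * (e i : A)
      = M • (z : A) := by
    intro i j
    obtain ⟨z, hz, hz'⟩ := hL.br (e i) (e i).2 (e j) (e j).2
    exact ⟨⟨z, hz⟩, hz'⟩
  choose z hz using hz
  refine ⟨Module.finrank ℤ L, e, ⟨fun i j k => e.repr (z i j) k⟩, ?_⟩
  intro i j
  rw [hz]
  congr 1
  have h1 := e.sum_repr (z i j)
  have h2 := congrArg (L.subtype) h1
  rw [map_sum] at h2
  simpa using h2.symm

end Pool.Agent.MPf60e8aN
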