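import Mathlib
import Pool.Agent.Lib.MP_f60e8a_al.N.NDefs
import Pool.Agent.Lib.MP_f60e8a_al.N.ExpLog

/-!
# The number of the group and the number of the algebra
-/

open scoped BigOperators commutatorElement

namespace Pool.Agent.MPf60e8aN

open Pool.Agent.MPf60e8a (wordLen sepIndex RF PosDensity)

namespace Link

/-- Complexification of a rational matrix. -/
noncomputable abbrev cx {N : ℕ} (X : Matrix (Fin N) (Fin N) ℚ) : Matrix (Fin N) (Fin N) ℂ :=
  X.map (algebraMap ℚ ℂ)

lemma cx_sub {N : ℕ} (X Y : Matrix (Fin N) (Fin N) ℚ) : cx (X - Y) = cx X - cx Y := by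
  ext i j; simp [cx]

lemma cx_mul {N : ℕ} (X Y : Matrix (Fin N) (Fin N) ℚ) : cx (X * Y) = cx X * cx Y := by
  simp only [cx]
  rw [Matrix.map_mul]

lemma cx_zsmul {N : ℕ} (c : ℤ) (X : Matrix (Fin N) (Fin N) ℚ) :
    cx (c • X) = (c : ℂ) • cx X := by
  ext i j
  change algebraMap ℚ ℂ ((c • X) i j) = (c : ℂ) • algebraMap ℚ ℂ (X i j)
  rw [Matrix.smul_apply, map_zsmul, zsmul_eq_mul, smul_eq_mul]

lemma cx_nsmul {N : ℕ} (c : ℕ) (X : Matrix (Fin N) (Fin N) ℚ) :
    cx (c • X) = (c : ℂ) • cx X := by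
  ext i j
  change algebraMap ℚ ℂ ((c • X) i j) = (c : ℂ) • algebraMap ℚ ℂ (X i j)
  rw [Matrix.smul_apply, map_nsmul, nsmul_eq_mul, smul_eq_mul]

lemma cx_sum {N : ℕ} {ι : Type*} (s : Finset ι) (f : ι → Matrix (Fin N) (Fin N) ℚ) :
    cx (∑ i ∈ s, f i) = ∑ i ∈ s, cx (f i) := by
  ext i j
  simp [cx, Matrix.sum_apply]

theorem linInd_cx {N h : ℕ} (v : Fin h → Matrix (Fin N) (Fin N) ℚ) (hv : LinearIndependent ℚ v) :
    LinearIndependent ℂ (fun k => cx (v k)) := by
  have hker : LinearMap.ker (Fintype.linearCombination ℚ v) = ⊥ :=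
    linearIndependent_iff_injective_fintypeLinearCombination.1 hv |> LinearMap.ker_eq_bot.2
  obtain ⟨Ψ, hΨ⟩ := LinearMap.exists_leftInverse_of_injective (Fintype.linearCombination ℚ v) hker
  have hΨv : ∀ k, Ψ (v k) = Pi.single k 1 := by
    intro k
    have h1 : Fintype.linearCombination ℚ v (Pi.single k 1) = v k := by
      rw [Fintype.linearCombination_apply_single, one_smul]
    have h2 := LinearMap.congr_fun hΨ (Pi.single k 1)
    simpa [h1] using h2
  have hexp : ∀ (X : Matrix (Fin N) (Fin N) ℚ) (j : Fin h),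
      Ψ X j = ∑ a, ∑ b, X a b * Ψ (Matrix.single a b 1) j := by
    intro X j
    conv_lhs => rw [Matrix.matrix_eq_sum_single X]
    rw [map_sum, Finset.sum_apply]
    refine Finset.sum_congr rfl fun a _ => ?_
    rw [map_sum, Finset.sum_apply]
    refine Finset.sum_congr rfl fun b _ => ?_
    have : (Matrix.single a b (X a b) : Matrix (Fin N) (Fin N) ℚ) = X a b • Matrix.single a b 1 := by
      rw [Matrix.smul_single, smul_eq_mul, mul_one]
    rw [this, map_smul, Pi.smul_apply, smul_eq_mul]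
  rw [Fintype.linearIndependent_iff]
  intro g hg j
  have h1 : ∑ a, ∑ b, (∑ k, g k • cx (v k)) a b * ((Ψ (Matrix.single a b 1) j : ℚ) : ℂ) = 0 := by
    rw [hg]; simp
  have h2 : ∑ a, ∑ b, (∑ k, g k • cx (v k)) a b * ((Ψ (Matrix.single a b 1) j : ℚ) : ℂ) =
      ∑ k, g k * ((Ψ (v k) j : ℚ) : ℂ) := by
    have h3 : ∀ k, ((Ψ (v k) j : ℚ) : ℂ) =
        ∑ a, ∑ b, ((v k a b : ℚ) : ℂ) * ((Ψ (Matrix.single a b 1) j : ℚ) : ℂ) := by
      intro k
      rw [hexp (v k) j]
      push_cast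
      rfl
    calc ∑ a, ∑ b, (∑ k, g k • cx (v k)) a b * ((Ψ (Matrix.single a b 1) j : ℚ) : ℂ)
        = ∑ a, ∑ b, ∑ k, g k * (((v k a b : ℚ) : ℂ) * ((Ψ (Matrix.single a b 1) j : ℚ) : ℂ)) := by
          refine Finset.sum_congr rfl fun a _ => Finset.sum_congr rfl fun b _ => ?_
          rw [Matrix.sum_apply, Finset.sum_mul]
          refine Finset.sum_congr rfl fun k _ => ?_
          simp only [Matrix.smul_apply, cx, Matrix.map_apply, smul_eq_mul, eq_ratCast]
          ring
      _ = ∑ a, ∑ k, ∑ b, g k * (((v k a b : ℚ) : ℂ) * ((Ψ (Matrix.single a b 1) j : ℚ) : ℂ)) :=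
          Finset.sum_congr rfl fun a _ => Finset.sum_comm
      _ = ∑ k, ∑ a, ∑ b, g k * (((v k a b : ℚ) : ℂ) * ((Ψ (Matrix.single a b 1) j : ℚ) : ℂ)) :=
          Finset.sum_comm
      _ = ∑ k, g k * ((Ψ (v k) j : ℚ) : ℂ) := by
          refine Finset.sum_congr rfl fun k _ => ?_
          rw [h3 k, Finset.mul_sum]
          refine Finset.sum_congr rfl fun a _ => ?_
          rw [Finset.mul_sum]
  rw [h2] at h1
  simp_rw [hΨv] at h1
  rw [Finset.sum_eq_single j] at h1
  · simpa using h1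
  · intro k _ hk
    rw [Pi.single_eq_of_ne (Ne.symm hk)]
    simp
  · intro h; exact absurd (Finset.mem_univ j) h

end Link

theorem malcevNumber_eq {G : Type*} [Group G] {N M h : ℕ} (hM : 0 < M)
    (φ : G →* (Matrix (Fin N) (Fin N) ℚ)ˣ) (hφ : IsUnipotent φ)
    {L : AddSubgroup (Matrix (Fin N) (Fin N) ℚ)} (hL : LieLattice (upperNil N) M L)
    (hlog : ∀ g, lg (φ g : Matrix (Fin N) (Fin N) ℚ) ∈ L) (n : ℕ) (hn : 0 < n)
    (hin : ∀ x ∈ L, ∃ g : G, (φ g : Matrix (Fin N) (Fin N) ℚ) = IsNilpotent.exp (n • x))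
    (e : Module.Basis (Fin h) ℤ L) (𝔏 : Alg h) (h𝔏 : Describes M e 𝔏) :
    malcevNumber φ = 𝔏.dnum := by
  classical
  set v : Fin h → Matrix (Fin N) (Fin N) ℚ := fun k => (e k : Matrix (Fin N) (Fin N) ℚ) with hvdef
  set V : Fin h → Matrix (Fin N) (Fin N) ℂ := fun k => Link.cx (v k) with hVdef
  have hvZ : LinearIndependent ℤ v := by
    have := e.linearIndependent.map' (L.subtype.toIntLinearMap)
      (LinearMap.ker_eq_bot.2 (fun a b hab => Subtype.ext hab))
    exact this
  have hvQ : LinearIndependent ℚ v := (LinearIndependent.iff_fractionRing ℤ ℚ).1 hvZ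
  have hV : LinearIndependent ℂ V := Link.linInd_cx v hvQ
  set T : (Fin h → ℂ) →ₗ[ℂ] Matrix (Fin N) (Fin N) ℂ := Fintype.linearCombination ℂ V with hT
  have hTinj : Function.Injective T := linearIndependent_iff_injective_fintypeLinearCombination.1 hV
  have hTapp : ∀ x, T x = ∑ k, x k • V k := fun x => Fintype.linearCombination_apply ℂ V x
  have hrange : LinearMap.range T = logSpan φ := by
    rw [hT, Fintype.range_linearCombination]
    apply le_antisymm
    · rw [Submodule.span_le]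
      rintro _ ⟨k, rfl⟩
      obtain ⟨g, hg⟩ := hin (v k) (e k).2
      have hnil : IsNilpotent (n • v k) :=
        NilSub.isNilpotent (upperNil N) ((upperNil N).S.smul_of_tower_mem n (hL.le _ (e k).2))
      have h1 : lg (φ g : Matrix (Fin N) (Fin N) ℚ) = n • v k := by rw [hg, lg_exp hnil]
      have h2 : Link.cx (n • v k) ∈ logSpan φ := by
        rw [← h1]; exact Submodule.subset_span ⟨g, rfl⟩
      rw [Link.cx_nsmul] at h2
      have h3 := (logSpan φ).smul_mem ((n : ℂ)⁻¹) h2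
      have hn0 : (n : ℂ) ≠ 0 := by exact_mod_cast hn.ne'
      rw [smul_smul, inv_mul_cancel₀ hn0, one_smul] at h3
      exact h3
    · unfold logSpan
      rw [Submodule.span_le]
      rintro _ ⟨g, rfl⟩
      have h1 := e.sum_repr ⟨_, hlog g⟩
      have h2 : ∑ k, (e.repr ⟨_, hlog g⟩ k) • v k = lg (φ g : Matrix (Fin N) (Fin N) ℚ) := by
        have h3 := congrArg L.subtype h1
        rw [map_sum] at h3
        simp only [map_zsmul] at h3
        exact h3
      change Link.cx (lg (φ g : Matrix (Fin N) (Fin N) ℚ)) ∈ Submodule.span ℂ (Set.range V)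
      rw [← h2, Link.cx_sum]
      refine Submodule.sum_mem _ fun k _ => ?_
      rw [Link.cx_zsmul]
      exact Submodule.smul_mem _ _ (Submodule.subset_span ⟨k, rfl⟩)
  have hMC : (M : ℂ) ≠ 0 := by exact_mod_cast hM.ne'
  have hbrV : ∀ i j, V i * V j - V j * V i = (M : ℂ) • ∑ k, (𝔏.c i j k : ℂ) • V k := by
    intro i j
    have h1 := congrArg Link.cx (h𝔏 i j)
    rw [Link.cx_sub, Link.cx_mul, Link.cx_mul, Link.cx_nsmul, Link.cx_sum] at h1
    simp only [Link.cx_zsmul] at h1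
    exact h1
  have hbr : ∀ x y, T x * T y - T y * T x = (M : ℂ) • T (𝔏.mul x y) := by
    intro x y
    have h1 : T x * T y = ∑ i, ∑ j, (x i * y j) • (V i * V j) := by
      rw [hTapp, hTapp, Finset.sum_mul_sum]
      refine Finset.sum_congr rfl fun i _ => Finset.sum_congr rfl fun j _ => ?_
      rw [smul_mul_smul_comm]
    have h2 : T y * T x = ∑ i, ∑ j, (x i * y j) • (V j * V i) := by
      rw [hTapp, hTapp, Finset.sum_mul_sum, Finset.sum_comm]
      refine Finset.sum_congr rfl fun i _ => Finset.sum_congr rfl fun j _ => ?_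
      rw [smul_mul_smul_comm, mul_comm (y j)]
    calc T x * T y - T y * T x = ∑ i, ∑ j, (x i * y j) • (V i * V j - V j * V i) := by
          rw [h1, h2, ← Finset.sum_sub_distrib]
          refine Finset.sum_congr rfl fun i _ => ?_
          rw [← Finset.sum_sub_distrib]
          refine Finset.sum_congr rfl fun j _ => ?_
          rw [smul_sub]
      _ = ∑ i, ∑ j, ∑ k, ((M : ℂ) * ((𝔏.c i j k : ℂ) * x i * y j)) • V k := by
          refine Finset.sum_congr rfl fun i _ => Finset.sum_congr rfl fun j _ => ?_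
          rw [hbrV, Finset.smul_sum, Finset.smul_sum]
          refine Finset.sum_congr rfl fun k _ => ?_
          rw [smul_smul, smul_smul]
          congr 1
          ring
      _ = ∑ i, ∑ k, ∑ j, ((M : ℂ) * ((𝔏.c i j k : ℂ) * x i * y j)) • V k :=
          Finset.sum_congr rfl fun i _ => Finset.sum_comm
      _ = ∑ k, ∑ i, ∑ j, ((M : ℂ) * ((𝔏.c i j k : ℂ) * x i * y j)) • V k := Finset.sum_comm
      _ = (M : ℂ) • T (𝔏.mul x y) := by
          rw [hTapp]
          simp only [Alg.mul, Finset.sum_smul, Finset.smul_sum, smul_smul]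
  have hmulneg : ∀ x y : Fin h → ℂ, 𝔏.mul y x = - 𝔏.mul x y := by
    intro x y
    apply hTinj
    have h1 := hbr x y
    have h2 := hbr y x
    have h3 : (M : ℂ) • T (𝔏.mul y x) = (M : ℂ) • T (- 𝔏.mul x y) := by
      rw [← h2, map_neg, smul_neg, ← h1]
      abel
    exact smul_right_injective _ hMC h3
  have hfin : Module.finrank ℂ (logSpan φ) = h := by
    rw [← hrange, LinearMap.finrank_range_of_inj hTinj, Module.finrank_fin_fun]
  have hfmap : ∀ J : Submodule ℂ (Fin h → ℂ), Module.finrank ℂ (J.map T) = Module.finrank ℂ J :=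
    fun J => (LinearEquiv.finrank_eq (Submodule.equivMapOfInjective T hTinj J)).symm
  have hquot : ∀ J : Submodule ℂ (Fin h → ℂ),
      Module.finrank ℂ ((Fin h → ℂ) ⧸ J) + Module.finrank ℂ J = h := by
    intro J
    rw [Submodule.finrank_quotient_add_finrank, Module.finrank_fin_fun]
  unfold malcevNumber Alg.dnum
  congr 1
  ext d
  simp only [Set.mem_ofPred_eq]
  set S1 : Set (Submodule ℂ (Fin h → ℂ)) := {J | 𝔏.IsIdeal J ∧
    Module.finrank ℂ ((Fin h → ℂ) ⧸ J) ≤ d} with hS1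
  set S2 : Set (Submodule ℂ (Matrix (Fin N) (Fin N) ℂ)) := {J | J ≤ logSpan φ ∧
    (∀ x ∈ J, ∀ y ∈ logSpan φ, x * y - y * x ∈ J) ∧
    Module.finrank ℂ (logSpan φ) ≤ Module.finrank ℂ J + d} with hS2
  have hmap : ∀ J ∈ S1, J.map T ∈ S2 := by
    rintro J ⟨hJ, hd⟩
    refine ⟨?_, ?_, ?_⟩
    · rw [← hrange]; exact LinearMap.map_le_range
    · rintro _ ⟨a, ha, rfl⟩ y hy
      rw [← hrange] at hy
      obtain ⟨b, rfl⟩ := hy
      rw [hbr]
      exact Submodule.smul_mem _ _ ⟨_, (hJ a ha b).1, rfl⟩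
    · rw [hfin, hfmap]
      have := hquot J
      omega
  have hcomap : ∀ J ∈ S2, J.comap T ∈ S1 ∧ (J.comap T).map T = J := by
    rintro J ⟨hJ, hbrJ, hd⟩
    have h1 : (J.comap T).map T = J := by
      apply Submodule.map_comap_eq_self
      rw [hrange]; exact hJ
    refine ⟨⟨?_, ?_⟩, h1⟩
    · intro a ha b
      have h2 : T (𝔏.mul a b) ∈ J := by
        have h3 := hbrJ (T a) ha (T b) (by rw [← hrange]; exact ⟨b, rfl⟩)
        rw [hbr] at h3
        have h4 := J.smul_mem ((M : ℂ)⁻¹) h3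
        rwa [smul_smul, inv_mul_cancel₀ hMC, one_smul] at h4
      refine ⟨h2, ?_⟩
      rw [hmulneg a b]
      exact Submodule.neg_mem _ h2
    · have h2 := hfmap (J.comap T)
      rw [h1] at h2
      have h3 := hquot (J.comap T)
      rw [hfin] at hd
      omega
  have htop : (⊤ : Submodule ℂ (Fin h → ℂ)) ∈ S1 := by
    refine ⟨fun _ _ _ => ⟨trivial, trivial⟩, ?_⟩
    have := hquot ⊤
    rw [finrank_top, Module.finrank_fin_fun] at this
    omega
  constructor
  · intro hs
    rw [eq_bot_iff] at hs ⊢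
    intro x hx
    have h1 : T x ∈ sInf S2 := by
      rw [Submodule.mem_sInf] at hx ⊢
      intro J hJ
      exact hx _ (hcomap J hJ).1
    have h2 := hs h1
    rw [Submodule.mem_bot] at h2 ⊢
    exact hTinj (by rw [h2, map_zero])
  · intro hs
    rw [eq_bot_iff] at hs ⊢
    intro X hX
    rw [Submodule.mem_sInf] at hX
    obtain ⟨x, _, rfl⟩ := hX _ (hmap ⊤ htop)
    have h1 : x ∈ sInf S1 := by
      rw [Submodule.mem_sInf]
      intro J hJ
      obtain ⟨y, hy, hxy⟩ := hX _ (hmap J hJ)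
      rwa [← hTinj hxy]
    have h2 := hs h1
    rw [Submodule.mem_bot] at h2 ⊢
    rw [h2, map_zero]

end Pool.Agent.MPf60e8aN
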