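import Mathlib.GroupTheory.Nilpotent

/-!
# Finite nilpotent groups are residually `p`
-/

namespace Pool.Agent.MPf60e8aN

theorem exists_pGroup_hom {Q : Type*} [Group Q] [Finite Q] [Group.IsNilpotent Q] (x : Q)
    (hx : x ≠ 1) : ∃ (p : ℕ) (P : Subgroup Q) (f : Q →* P), p.Prime ∧ IsPGroup p P ∧
      Function.Surjective f ∧ f x ≠ 1 := by
  classical
  obtain ⟨e⟩ : Nonempty
      ((∀ p : (Nat.card Q).primeFactors, ∀ P : Sylow p Q, (↑P : Subgroup Q)) ≃* Q) :=
    (Group.isNilpotent_of_finite_tfae.out 0 4 rfl rfl).mp ‹_›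
  have hne : e.symm x ≠ 1 := fun h => hx (by
    have := congrArg e h
    rwa [MulEquiv.apply_symm_apply, map_one] at this)
  obtain ⟨p, hp⟩ : ∃ p, e.symm x p ≠ 1 := by
    by_contra hcon
    push Not at hcon
    exact hne (funext hcon)
  obtain ⟨P, hP⟩ : ∃ P, e.symm x p P ≠ 1 := by
    by_contra hcon
    push Not at hcon
    exact hp (funext hcon)
  refine ⟨p.1, (P : Subgroup Q), ((Pi.evalMonoidHom _ P).comp (Pi.evalMonoidHom _ p)).comp
    e.symm.toMonoidHom, Nat.prime_of_mem_primeFactors p.2, P.isPGroup', ?_, hP⟩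
  intro y
  refine ⟨e (Pi.mulSingle p (Pi.mulSingle P y)), ?_⟩
  simp

end Pool.Agent.MPf60e8aN
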