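import Mathlib
import Pool.Agent.Lib.MP_f60e8a_al.N.NDefs
import Pool.Agent.Lib.MP_f60e8a_al.Ultra

/-!
# Module ULTRAN: the ultraproduct argument for ideals
-/

open scoped BigOperators commutatorElement

namespace Pool.Agent.MPf60e8aN

open Pool.Agent.MPf60e8a (wordLen sepIndex RF PosDensity)
open Pool.Agent.MPf60e8a

namespace UltraN

/-- The multiplication is compatible with ring homomorphisms. -/
theorem map_mul' {h : ℕ} (𝔏 : Alg h) {R S : Type*} [CommRing R] [CommRing S] (σ : R →+* S)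
    (x y : Fin h → R) :
    (fun k => σ (𝔏.mul x y k)) = 𝔏.mul (fun i => σ (x i)) (fun i => σ (y i)) := by
  funext k
  simp only [Alg.mul, map_sum, map_mul, map_intCast]

/-- The general step. -/
theorem core {h : ℕ} (𝔏 : Alg h) (R : Type) [CommRing R] [Algebra ℚ R] [Nontrivial R] (π : R)
    (e : ℕ) (hπ : π ^ e = 0) (hunit : ∀ x : R, IsUnit x ∨ ∃ y, x = y * π)
    (I : Submodule R (Fin h → R)) (hI : 𝔏.IsIdeal I) (s : ℕ) (z : Fin h → ℤ)
    (hz : ∀ (F : Type) [Field F] [CharZero F] (J : Submodule F (Fin h → F)), 𝔏.IsIdeal J →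
      Module.finrank F ((Fin h → F) ⧸ J) < s + 1 → (fun i => (z i : F)) ∈ J)
    (w : Fin s → (Fin h → R)) (c : Fin s → Fin s → R)
    (hc : ∀ i i', ¬ i < i' → c i i' = 0) (hw : ∀ i, π • w i - ∑ i', c i i' • w i' ∈ I)
    (hspan : ∀ x : Fin h → R, ∃ d : Fin s → R, x - ∑ i, d i • w i ∈ I) :
    (fun i => (z i : R)) ∈ I := by
  classical
  -- the maximal ideal
  let M : Ideal R := Ideal.span {π}
  have hMtop : M ≠ ⊤ := by
    intro h
    have hu : IsUnit π := Ideal.span_singleton_eq_top.mp h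
    have h1 : IsUnit (π ^ e) := hu.pow e
    rw [hπ] at h1
    exact not_isUnit_zero h1
  have hMmax : M.IsMaximal := by
    refine Ideal.isMaximal_iff.mpr ⟨fun h => hMtop ((Ideal.eq_top_iff_one M).mpr h), ?_⟩
    intro J x hMJ hx hxJ
    rcases hunit x with h | ⟨y, hy⟩
    · exact (Ideal.eq_top_iff_one J).mp (Ideal.eq_top_of_isUnit_mem J hxJ h)
    · exact absurd (hy ▸ Ideal.mul_mem_left M y (Ideal.mem_span_singleton_self π)) hx
  let K := R ⧸ M
  have hKchar0 : CharZero (R ⧸ M) := by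
    have : Nontrivial (R ⧸ M) := Ideal.Quotient.nontrivial_iff.mpr hMtop
    exact algebraRat.charZero (R ⧸ M)
  have hnil : IsNilpotent M := by
    refine ⟨e, ?_⟩
    show Ideal.span {π} ^ e = 0
    rw [Ideal.span_singleton_pow, hπ]
    simp
  obtain ⟨σ, hσ'⟩ := Ultra.exists_section R M hMmax hnil
  let _ : Field K := Ideal.Quotient.field M
  have hKchar : CharZero K := hKchar0
  let _ : Algebra K R := σ.toAlgebra
  have halg : ∀ a : K, algebraMap K R a = σ a := fun a => rfl
  have hR : ∀ x : R, ∃ (a : K) (y : R), x = algebraMap K R a + y * π := by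
    intro x
    have h1 : x - σ (Ideal.Quotient.mk M x) ∈ M := by
      rw [← Ideal.Quotient.eq_zero_iff_mem, map_sub, hσ', sub_self]
    obtain ⟨y, hy⟩ := Ideal.mem_span_singleton'.mp h1
    exact ⟨Ideal.Quotient.mk M x, y, by rw [halg, hy]; ring⟩
  -- the linear map from `K ^ h` to the quotient
  let f : (Fin h → K) →ₗ[K] ((Fin h → R) ⧸ I) :=
    { toFun := fun x => I.mkQ fun i => σ (x i)
      map_add' := by
        intro x y
        rw [← map_add]
        congr 1
        funext i
        simp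
      map_smul' := by
        intro a x
        have h1 : (fun i => σ ((a • x) i)) = a • (fun i => σ (x i)) := by
          funext i
          rw [Pi.smul_apply, smul_eq_mul, map_mul, Pi.smul_apply, Algebra.smul_def, halg]
        rw [h1]
        rfl }
  have hf : ∀ x, f x = I.mkQ fun i => σ (x i) := fun x => rfl
  have hker : ∀ x, x ∈ LinearMap.ker f ↔ (fun i => σ (x i)) ∈ I := by
    intro x
    rw [LinearMap.mem_ker, hf, Submodule.mkQ_apply, Submodule.Quotient.mk_eq_zero]
  have hJ : 𝔏.IsIdeal (LinearMap.ker f) := by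
    intro x hx y
    rw [hker] at hx
    obtain ⟨h1, h2⟩ := hI _ hx (fun i => σ (y i))
    rw [← map_mul'] at h1 h2
    exact ⟨(hker _).mpr h1, (hker _).mpr h2⟩
  have hspan' : ∀ x : (Fin h → R) ⧸ I,
      x ∈ Submodule.span K (Set.range fun i => I.mkQ (w i)) := by
    intro x
    obtain ⟨x, rfl⟩ := I.mkQ_surjective x
    obtain ⟨d, hd⟩ := hspan x
    have h1 : I.mkQ x = ∑ i, d i • I.mkQ (w i) := by
      rw [← sub_eq_zero]
      simp only [← map_smul]
      rw [← map_sum, ← map_sub, Submodule.mkQ_apply, Submodule.Quotient.mk_eq_zero]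
      exact hd
    rw [h1]
    refine Ultra.mem_span_of_chain (K := K) π hR s (fun i => I.mkQ (w i)) c hc ?_ d
    intro i
    rw [← sub_eq_zero]
    simp only [← map_smul]
    rw [← map_sum, ← map_sub, Submodule.mkQ_apply, Submodule.Quotient.mk_eq_zero]
    exact hw i
  have hcodim : Module.finrank K ((Fin h → K) ⧸ LinearMap.ker f) < s + 1 := by
    have h1 : Module.finrank K ((Fin h → K) ⧸ LinearMap.ker f) =
        Module.finrank K (LinearMap.range f) := (f.quotKerEquivRange).finrank_eq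
    have h2 : LinearMap.range f ≤ Submodule.span K (Set.range fun i => I.mkQ (w i)) :=
      fun x _ => hspan' x
    have h3 : Module.finrank K (Submodule.span K (Set.range fun i => I.mkQ (w i))) ≤ s := by
      have := finrank_range_le_card (R := K) (fun i => I.mkQ (w i))
      simpa [Set.finrank] using this
    have h6 : Module.Finite K (Submodule.span K (Set.range fun i => I.mkQ (w i))) :=
      FiniteDimensional.span_of_finite K (Set.finite_range _)
    have h4 := Submodule.finrank_mono h2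
    omega
  have h5 := hz K (LinearMap.ker f) hJ hcodim
  rw [hker] at h5
  simpa using h5

/-- The reduction of a subgroup of `ℤ ^ h` modulo `q`. -/
def red {h : ℕ} (q : ℕ) (I : Submodule ℤ (Fin h → ℤ)) :
    Submodule (ZMod q) (Fin h → ZMod q) where
  carrier := {x | ∃ y ∈ I, (fun i => ((y i : ℤ) : ZMod q)) = x}
  add_mem' := by
    rintro _ _ ⟨y, hy, rfl⟩ ⟨y', hy', rfl⟩
    refine ⟨y + y', I.add_mem hy hy', ?_⟩
    funext i
    simp
  zero_mem' := ⟨0, I.zero_mem, by funext i; simp⟩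
  smul_mem' := by
    rintro a _ ⟨y, hy, rfl⟩
    obtain ⟨b, rfl⟩ := ZMod.intCast_surjective a
    refine ⟨b • y, I.smul_mem b hy, ?_⟩
    funext i
    simp

theorem mem_red {h q : ℕ} {I : Submodule ℤ (Fin h → ℤ)} {x : Fin h → ZMod q} :
    x ∈ red q I ↔ ∃ y ∈ I, (fun i => ((y i : ℤ) : ZMod q)) = x := Iff.rfl

theorem red_isIdeal {h : ℕ} (𝔏 : Alg h) (q : ℕ) {I : Submodule ℤ (Fin h → ℤ)}
    (hI : 𝔏.IsIdeal I) : 𝔏.IsIdeal (red q I) := by
  rintro _ ⟨y, hy, rfl⟩ x
  choose x' hx' using fun i => ZMod.intCast_surjective (x i)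
  obtain rfl : (fun i => ((x' i : ℤ) : ZMod q)) = x := funext hx'
  obtain ⟨h1, h2⟩ := hI y hy x'
  have e1 := map_mul' 𝔏 (Int.castRingHom (ZMod q)) y x'
  have e2 := map_mul' 𝔏 (Int.castRingHom (ZMod q)) x' y
  exact ⟨⟨_, h1, e1⟩, ⟨_, h2, e2⟩⟩

theorem mem_of_mem_red {h q : ℕ} {I : Submodule ℤ (Fin h → ℤ)}
    (hq : ∀ x : Fin h → ℤ, (q : ℤ) • x ∈ I) {z : Fin h → ℤ}
    (hz : (fun i => ((z i : ℤ) : ZMod q)) ∈ red q I) : z ∈ I := by
  obtain ⟨y, hy, hyz⟩ := hz
  have h1 : ∀ i, ∃ t : ℤ, z i = y i + q * t := by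
    intro i
    have h2 := congrFun hyz i
    rw [ZMod.intCast_eq_intCast_iff_dvd_sub] at h2
    obtain ⟨t, ht⟩ := h2
    exact ⟨t, by linear_combination ht⟩
  choose t ht using h1
  have h3 : z = y + (q : ℤ) • t := by
    funext i
    rw [ht i]
    simp
  rw [h3]
  exact I.add_mem hy (hq t)

theorem card_red_le {h q : ℕ} {I : Submodule ℤ (Fin h → ℤ)} (hI : I.toAddSubgroup.index ≠ 0) :
    Finite ((Fin h → ZMod q) ⧸ red q I) ∧
      Nat.card ((Fin h → ZMod q) ⧸ red q I) ≤ I.toAddSubgroup.index := by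
  let g : ((Fin h → ℤ) ⧸ I.toAddSubgroup) → ((Fin h → ZMod q) ⧸ red q I) :=
    Quotient.lift (fun x : Fin h → ℤ => (red q I).mkQ fun i => ((x i : ℤ) : ZMod q)) (by
      intro x y hxy
      have h1 : -x + y ∈ I.toAddSubgroup := QuotientAddGroup.leftRel_apply.mp hxy
      show (red q I).mkQ _ = (red q I).mkQ _
      rw [Submodule.mkQ_apply, Submodule.mkQ_apply, Submodule.Quotient.eq]
      refine ⟨-(-x + y), I.neg_mem h1, ?_⟩
      funext i
      simp [sub_eq_add_neg, add_comm])
  have hg : Function.Surjective g := by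
    intro x
    obtain ⟨x, rfl⟩ := (red q I).mkQ_surjective x
    choose x' hx' using fun i => ZMod.intCast_surjective (x i)
    refine ⟨QuotientAddGroup.mk x', ?_⟩
    show (red q I).mkQ (fun i => ((x' i : ℤ) : ZMod q)) = _
    congr 1
    exact funext hx'
  have hfi : I.toAddSubgroup.FiniteIndex := ⟨hI⟩
  have hfin : Finite ((Fin h → ℤ) ⧸ I.toAddSubgroup) :=
    AddSubgroup.finite_quotient_of_finiteIndex
  exact ⟨Finite.of_surjective g hg, Nat.card_le_card_of_surjective g hg⟩

end UltraN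

theorem ultraN {h : ℕ} (𝔏 : Alg h) (d : ℕ) (z : Fin h → ℤ)
    (hz : ∀ (F : Type) [Field F] [CharZero F] (J : Submodule F (Fin h → F)), 𝔏.IsIdeal J →
      Module.finrank F ((Fin h → F) ⧸ J) < d → (fun i => (z i : F)) ∈ J) :
    ∃ p₀ : ℕ, ∀ p : ℕ, p.Prime → p₀ ≤ p → ∀ I : Submodule ℤ (Fin h → ℤ), 𝔏.IsIdeal I →
      ∀ s : ℕ, s < d → I.toAddSubgroup.index = p ^ s → z ∈ I := by
  classical
  by_contra hcon
  push Not at hcon
  choose P hP hPge I hI S hS hindex hzI using hcon
  obtain ⟨s, rfl⟩ : ∃ s, d = s + 1 := ⟨d - 1, by have := hS 0; omega⟩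
  have hI0 : ∀ j, (I j).toAddSubgroup.index ≠ 0 := fun j => by
    rw [hindex j]
    exact pow_ne_zero _ (hP j).ne_zero
  have hqI : ∀ j (x : Fin h → ℤ), ((P j ^ (s + 1) : ℕ) : ℤ) • x ∈ I j := by
    intro j x
    have h1 : (I j).toAddSubgroup.index • x ∈ (I j).toAddSubgroup :=
      AddSubgroup.nsmul_index_mem _ x
    obtain ⟨k, hk⟩ : P j ^ S j ∣ P j ^ (s + 1) := pow_dvd_pow _ (hS j).le
    rw [hindex j] at h1
    have h2 : ((P j ^ (s + 1) : ℕ) : ℤ) • x = (k : ℤ) • ((P j ^ S j) • x) := by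
      rw [hk, natCast_zsmul, natCast_zsmul, mul_comm, mul_smul]
    rw [h2]
    exact (I j).smul_mem _ h1
  have hchain : ∀ j, ∃ (w : Fin s → (Fin h → ZMod (P j ^ (s + 1))))
      (c : Fin s → Fin s → ZMod (P j ^ (s + 1))),
      (∀ i i', ¬ i < i' → c i i' = 0) ∧
      (∀ i, (P j : ZMod (P j ^ (s + 1))) • w i - ∑ i', c i i' • w i' ∈
        UltraN.red (P j ^ (s + 1)) (I j)) ∧
      ∀ x, ∃ d : Fin s → ZMod (P j ^ (s + 1)), x - ∑ i, d i • w i ∈
        UltraN.red (P j ^ (s + 1)) (I j) := by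
    intro j
    obtain ⟨hfin, hcard⟩ := UltraN.card_red_le (q := P j ^ (s + 1)) (hI0 j)
    obtain ⟨w, c, hc, hw, hspan⟩ := Ultra.fin_chain (e := s + 1) (hP j)
      (V := (Fin h → ZMod (P j ^ (s + 1))) ⧸ UltraN.red (P j ^ (s + 1)) (I j)) s ⊤
      (Finite.of_equiv _ (Submodule.topEquiv (R := ZMod (P j ^ (s + 1)))).symm.toEquiv) (by
        have h1 : Nat.card (⊤ : Submodule (ZMod (P j ^ (s + 1)))
            ((Fin h → ZMod (P j ^ (s + 1))) ⧸ UltraN.red (P j ^ (s + 1)) (I j))) =
            Nat.card ((Fin h → ZMod (P j ^ (s + 1))) ⧸ UltraN.red (P j ^ (s + 1)) (I j)) :=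
          Nat.card_congr (Submodule.topEquiv (R := ZMod (P j ^ (s + 1)))).toEquiv
        rw [h1]
        refine lt_of_le_of_lt hcard ?_
        rw [hindex j]
        exact Nat.pow_lt_pow_right (hP j).one_lt (hS j))
    choose w' hw' using fun i => (UltraN.red (P j ^ (s + 1)) (I j)).mkQ_surjective (w i)
    refine ⟨w', c, hc, fun i => ?_, fun x => ?_⟩
    · rw [← Submodule.Quotient.mk_eq_zero, ← Submodule.mkQ_apply, map_sub, map_smul, map_sum]
      simp only [map_smul, hw']
      rw [hw i, sub_self]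
    · obtain ⟨d, hd⟩ := hspan ((UltraN.red (P j ^ (s + 1)) (I j)).mkQ x) trivial
      refine ⟨d, ?_⟩
      rw [← Submodule.Quotient.mk_eq_zero, ← Submodule.mkQ_apply, map_sub, map_sum]
      simp only [map_smul, hw']
      rw [hd, sub_self]
  choose w c hc hw hspan using hchain
  -- the ultraproduct
  let U : Filter ℕ := (Filter.hyperfilter ℕ : Filter ℕ)
  let q : ℕ → ℕ := fun j => P j ^ (s + 1)
  let R := (∀ j, ZMod (q j)) ⧸ Ultra.ideal U q
  let mk : (∀ j, ZMod (q j)) →+* R := Ideal.Quotient.mk (Ultra.ideal U q)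
  have hmk : ∀ x y, mk x = mk y ↔ ∀ᶠ j in U, x j = y j := Ultra.mk_eq_mk U q
  have hsurj : Function.Surjective mk := Ideal.Quotient.mk_surjective
  have hU : ∀ n : ℕ, ∀ᶠ j in U, n ≤ j := by
    intro n
    have h1 : ∀ᶠ j in Filter.cofinite, n ≤ j := by
      rw [Nat.cofinite_eq_atTop]
      exact Filter.eventually_ge_atTop n
    exact Filter.Eventually.filter_mono Filter.hyperfilter_le_cofinite h1
  have hnontriv : Nontrivial R := by
    refine ⟨⟨0, 1, fun h => ?_⟩⟩
    rw [← map_zero mk, ← map_one mk, hmk] at h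
    obtain ⟨j, hj⟩ := h.exists
    have h1 : (0 : ZMod (P j ^ (s + 1))) = 1 := hj
    have : Fact (1 < P j ^ (s + 1)) := ⟨Nat.one_lt_pow (by omega) (hP j).one_lt⟩
    exact zero_ne_one h1
  have hint : ∀ n : ℤ, n ≠ 0 → IsUnit ((n : ℤ) : R) := by
    intro n hn
    rw [← map_intCast mk]
    refine Ultra.isUnit_mk U q _ ?_
    filter_upwards [hU (n.natAbs + 1)] with j hj
    show IsUnit ((n : ZMod (P j ^ (s + 1))))
    have h1 : Nat.Coprime n.natAbs (P j ^ (s + 1)) := by
      refine Nat.Coprime.pow_right _ ?_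
      rw [Nat.coprime_comm, (hP j).coprime_iff_not_dvd]
      intro hd
      have h2 := Nat.le_of_dvd (Int.natAbs_pos.mpr hn) hd
      have h3 := hPge j
      omega
    have h2 : IsUnit ((n.natAbs : ℕ) : ZMod (P j ^ (s + 1))) :=
      (ZMod.isUnit_iff_coprime _ _).mpr h1
    rcases Int.natAbs_eq n with h | h
    · rw [h]
      simpa using h2
    · rw [h]
      simpa using h2
  let _ : Algebra ℚ R := (IsLocalization.lift (M := nonZeroDivisors ℤ) (S := ℚ)
    (g := Int.castRingHom R) (fun y => hint y.1 (nonZeroDivisors.ne_zero y.2))).toAlgebra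
  -- the limit ideal
  let J : Submodule R (Fin h → R) :=
    { carrier := {x | ∃ X : Fin h → ∀ j, ZMod (q j), (∀ i, mk (X i) = x i) ∧
        ∀ᶠ j in U, (fun i => X i j) ∈ UltraN.red (q j) (I j)}
      add_mem' := by
        rintro x y ⟨X, hX, hX'⟩ ⟨Y, hY, hY'⟩
        refine ⟨X + Y, fun i => by rw [Pi.add_apply, map_add, hX, hY, Pi.add_apply], ?_⟩
        filter_upwards [hX', hY'] with j h1 h2
        exact Submodule.add_mem _ h1 h2
      zero_mem' := ⟨0, fun i => by rw [Pi.zero_apply, map_zero]; rfl,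
        Filter.Eventually.of_forall fun j => Submodule.zero_mem _⟩
      smul_mem' := by
        rintro a x ⟨X, hX, hX'⟩
        obtain ⟨a, rfl⟩ := hsurj a
        refine ⟨fun i => a * X i, fun i => by rw [map_mul, hX]; rfl, ?_⟩
        filter_upwards [hX'] with j h1
        exact Submodule.smul_mem _ (a j) h1 }
  have hJ : ∀ X : Fin h → ∀ j, ZMod (q j), (fun i => mk (X i)) ∈ J ↔
      ∀ᶠ j in U, (fun i => X i j) ∈ UltraN.red (q j) (I j) := by
    intro X
    constructor
    · rintro ⟨Y, hY, hY'⟩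
      have h1 : ∀ i, ∀ᶠ j in U, Y i j = X i j := fun i => (hmk _ _).mp (hY i)
      filter_upwards [hY', Filter.eventually_all.mpr h1] with j h2 h3
      have h4 : (fun i => X i j) = fun i => Y i j := funext fun i => (h3 i).symm
      rw [h4]
      exact h2
    · intro h1
      exact ⟨X, fun i => rfl, h1⟩
  have hJideal : 𝔏.IsIdeal J := by
    intro x hx y
    choose X hX using fun i => hsurj (x i)
    choose Y hY using fun i => hsurj (y i)
    obtain rfl : (fun i => mk (X i)) = x := funext hX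
    obtain rfl : (fun i => mk (Y i)) = y := funext hY
    rw [hJ] at hx
    have hcomp : ∀ (X Y : Fin h → ∀ j, ZMod (q j)) (j : ℕ),
        (fun i => 𝔏.mul X Y i j) = 𝔏.mul (fun i => X i j) (fun i => Y i j) := by
      intro X Y j
      exact UltraN.map_mul' 𝔏 (Pi.evalRingHom (fun j => ZMod (q j)) j) X Y
    rw [← UltraN.map_mul', ← UltraN.map_mul', hJ, hJ]
    constructor
    · filter_upwards [hx] with j h1
      rw [hcomp]
      exact (UltraN.red_isIdeal 𝔏 (q j) (hI j) _ h1 _).1
    · filter_upwards [hx] with j h1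
      rw [hcomp]
      exact (UltraN.red_isIdeal 𝔏 (q j) (hI j) _ h1 _).2
  have hmain := UltraN.core 𝔏 R (mk fun j => (P j : ZMod (q j))) (s + 1) ?_ ?_ J hJideal s z hz
    (fun i a => mk fun j => w j i a) (fun i i' => mk fun j => c j i i') ?_ ?_ ?_
  · have h1 : (fun i => ((z i : ℤ) : R)) =
        fun i => mk ((z i : ℤ) : ∀ j, ZMod (q j)) := by
      funext i
      rw [map_intCast]
    rw [h1, hJ] at hmain
    obtain ⟨j, hj⟩ := hmain.exists
    exact hzI j (UltraN.mem_of_mem_red (hqI j) hj)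
  · rw [← map_pow, ← map_zero mk, hmk]
    refine Filter.Eventually.of_forall fun j => ?_
    show ((P j : ZMod (P j ^ (s + 1)))) ^ (s + 1) = 0
    have h1 : (((P j) ^ (s + 1) : ℕ) : ZMod (P j ^ (s + 1))) = 0 :=
      (ZMod.natCast_eq_zero_iff _ _).mpr (dvd_refl _)
    rw [Nat.cast_pow] at h1
    exact h1
  · intro x
    obtain ⟨x, rfl⟩ := hsurj x
    by_cases h : ∀ᶠ j in U, IsUnit (x j)
    · exact Or.inl (Ultra.isUnit_mk U q x h)
    · right
      have h' : ∀ᶠ j in U, ¬ IsUnit (x j) := Ultrafilter.eventually_not.mpr h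
      have h2 : ∀ j, ∃ y : ZMod (q j), ¬ IsUnit (x j) → x j = y * (P j : ZMod (q j)) := by
        intro j
        rcases Ultra.zmod_unit_or (hP j) (x j) with h3 | ⟨y, hy⟩
        · exact ⟨0, fun h4 => absurd h3 h4⟩
        · exact ⟨y, fun _ => hy⟩
      choose y hy using h2
      refine ⟨mk y, ?_⟩
      rw [← map_mul, hmk]
      filter_upwards [h'] with j hj
      exact hy j hj
  · intro i i' h
    have h1 : (fun j => c j i i') = (0 : ∀ j, ZMod (q j)) := by
      funext j
      exact hc j i i' h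
    show mk (fun j => c j i i') = 0
    rw [h1, map_zero]
  · intro i
    have h1 : ((mk fun j => (P j : ZMod (q j))) • (fun a => mk fun j => w j i a) -
        ∑ i', (mk fun j => c j i i') • (fun a => mk fun j => w j i' a)) =
        fun a => mk (fun j => (P j : ZMod (q j)) * w j i a - ∑ i', c j i i' * w j i' a) := by
      funext a
      rw [Pi.sub_apply, Finset.sum_apply]
      simp only [Pi.smul_apply, smul_eq_mul, ← map_mul]
      rw [← map_sum, ← map_sub]
      congr 1
      funext j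
      rw [Pi.sub_apply, Finset.sum_apply]
      rfl
    rw [h1, hJ]
    refine Filter.Eventually.of_forall fun j => ?_
    have h2 := hw j i
    have h3 : (fun a => (P j : ZMod (q j)) * w j i a - ∑ i', c j i i' * w j i' a) =
        (P j : ZMod (P j ^ (s + 1))) • w j i - ∑ i', c j i i' • w j i' := by
      funext a
      rw [Pi.sub_apply, Finset.sum_apply]
      rfl
    rw [h3]
    exact h2
  · intro x
    choose X hX using fun i => hsurj (x i)
    obtain rfl : (fun i => mk (X i)) = x := funext hX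
    choose d hd using fun j => hspan j (fun i => X i j)
    refine ⟨fun i => mk fun j => d j i, ?_⟩
    have h1 : ((fun i => mk (X i)) - ∑ i, (mk fun j => d j i) • (fun a => mk fun j => w j i a)) =
        fun a => mk (fun j => X a j - ∑ i, d j i * w j i a) := by
      funext a
      rw [Pi.sub_apply, Finset.sum_apply]
      simp only [Pi.smul_apply, smul_eq_mul, ← map_mul]
      rw [← map_sum, ← map_sub]
      congr 1
      funext j
      rw [Pi.sub_apply, Finset.sum_apply]
      rfl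
    rw [h1, hJ]
    refine Filter.Eventually.of_forall fun j => ?_
    have h2 := hd j
    have h3 : (fun a => X a j - ∑ i, d j i * w j i a) =
        (fun i => X i j) - ∑ i, d j i • w j i := by
      funext a
      rw [Pi.sub_apply, Finset.sum_apply]
      rfl
    rw [h3]
    exact h2

end Pool.Agent.MPf60e8aN
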