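import Mathlib
import Pool.Agent.Lib.MP_f60e8a_al.N.NDefs
import Pool.Agent.Lib.MP_f60e8a_al.N.Corr

/-!
# Unipotent groups are nilpotent
-/

open scoped BigOperators commutatorElement

namespace Pool.Agent.MPf60e8aN

open Pool.Agent.MPf60e8a (wordLen sepIndex RF PosDensity)

variable {A : Type} [Ring A] [Algebra ℚ A]

namespace UnipNilp

/-- The elements `u` with `u - 1` in the span of products of `k + 1` elements. -/
def H {N : ℕ} (𝔞 : NilSub A N) (Γ : Subgroup Aˣ) (h : ∀ u ∈ Γ, (u : A) - 1 ∈ 𝔞.S) (k : ℕ) :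
    Subgroup Γ where
  carrier := {u | ((u : Aˣ) : A) - 1 ∈ Corr.P 𝔞 (k + 1)}
  one_mem' := by simp
  mul_mem' := by
    intro u v hu hv
    simp only [Set.mem_ofPred_eq, Subgroup.coe_mul, Units.val_mul] at hu hv ⊢
    have h1 : ((u : Aˣ) : A) * ((v : Aˣ) : A) - 1 = (((u : Aˣ) : A) - 1) + (((v : Aˣ) : A) - 1) +
        (((u : Aˣ) : A) - 1) * (((v : Aˣ) : A) - 1) := by noncomm_ring
    rw [h1]
    exact Submodule.add_mem _ (Submodule.add_mem _ hu hv)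
      (Corr.P_mono 𝔞 (Nat.le_succ _) (Corr.P_left 𝔞 (h u u.2) hv))
  inv_mem' := by
    intro u hu
    simp only [Set.mem_ofPred_eq, Subgroup.coe_inv] at hu ⊢
    have h0 : ((u : Aˣ) : A) * (((u : Aˣ)⁻¹ : Aˣ) : A) = 1 := Units.mul_inv _
    have h1 : (((u : Aˣ)⁻¹ : Aˣ) : A) - 1 = -(((u : Aˣ) : A) - 1) -
        (((u : Aˣ) : A) - 1) * ((((u : Aˣ)⁻¹ : Aˣ) : A) - 1) := by
      have : (((u : Aˣ) : A) - 1) * ((((u : Aˣ)⁻¹ : Aˣ) : A) - 1) =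
        ((u : Aˣ) : A) * (((u : Aˣ)⁻¹ : Aˣ) : A) - ((u : Aˣ) : A) - (((u : Aˣ)⁻¹ : Aˣ) : A) + 1 := by
        noncomm_ring
      rw [this, h0]
      abel
    rw [h1]
    exact Submodule.sub_mem _ (Submodule.neg_mem _ hu)
      (Corr.P_mono 𝔞 (Nat.le_succ _) (Corr.P_right 𝔞 (h _ (Γ.inv_mem u.2)) hu))

end UnipNilp

theorem isNilpotent_of_unip {N : ℕ} (𝔞 : NilSub A N) (Γ : Subgroup Aˣ)
    (h : ∀ u ∈ Γ, (u : A) - 1 ∈ 𝔞.S) : Group.IsNilpotent Γ := by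
  rw [Subgroup.nilpotent_iff_finite_descending_central_series]
  refine ⟨N, UnipNilp.H 𝔞 Γ h, ⟨?_, ?_⟩, ?_⟩
  · rw [eq_top_iff]
    intro u _
    exact Submodule.subset_span ⟨[((u : Aˣ) : A) - 1], by simpa using h u u.2, by simp, by simp⟩
  · intro x k hx g
    change ((x : Aˣ) : A) - 1 ∈ Corr.P 𝔞 (k + 1) at hx
    change (((x * g * x⁻¹ * g⁻¹ : Γ) : Aˣ) : A) - 1 ∈ Corr.P 𝔞 (k + 1 + 1)
    set w : Γ := x⁻¹ * g⁻¹ with hw
    have h0 : ((g * x * w : Γ) : Aˣ) = 1 := by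
      rw [hw]; simp
    have h1 : ((g : Aˣ) : A) * ((x : Aˣ) : A) * ((w : Aˣ) : A) = 1 := by
      have := congrArg (fun z : Aˣ => (z : A)) h0
      simpa using this
    have h2 : (((x * g * x⁻¹ * g⁻¹ : Γ) : Aˣ) : A) =
        ((x : Aˣ) : A) * ((g : Aˣ) : A) * ((w : Aˣ) : A) := by
      rw [mul_assoc (x * g), ← hw]
      simp
    set c : A := (((x : Aˣ) : A) - 1) * (((g : Aˣ) : A) - 1) -
      (((g : Aˣ) : A) - 1) * (((x : Aˣ) : A) - 1) with hc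
    have h3 : (((x * g * x⁻¹ * g⁻¹ : Γ) : Aˣ) : A) - 1 = c + c * (((w : Aˣ) : A) - 1) := by
      have h4 : c + c * (((w : Aˣ) : A) - 1) =
          ((x : Aˣ) : A) * ((g : Aˣ) : A) * ((w : Aˣ) : A) -
            ((g : Aˣ) : A) * ((x : Aˣ) : A) * ((w : Aˣ) : A) := by
        rw [hc]
        noncomm_ring
      rw [h4, h2, h1]
    have hcP : c ∈ Corr.P 𝔞 (k + 1 + 1) :=
      Submodule.sub_mem _ (Corr.P_right 𝔞 (h g g.2) hx) (Corr.P_left 𝔞 (h g g.2) hx)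
    rw [h3]
    exact Submodule.add_mem _ hcP
      (Corr.P_mono 𝔞 (Nat.le_succ _) (Corr.P_right 𝔞 (h w w.2) hcP))
  · rw [eq_bot_iff]
    intro u hu
    change ((u : Aˣ) : A) - 1 ∈ Corr.P 𝔞 (N + 1) at hu
    have h1 := Corr.P_top 𝔞 (Corr.P_mono 𝔞 (Nat.le_succ N) hu)
    rw [Subgroup.mem_bot]
    apply Subtype.ext
    apply Units.ext
    simpa using sub_eq_zero.1 h1

end Pool.Agent.MPf60e8aN
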