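import Mathlib
import Pool.Agent.Lib.MP_f60e8a_al.N.NDefs
import Pool.Agent.Lib.MP_f60e8a_al.N.ExpLog
import Pool.Agent.Lib.MP_f60e8a_al.N.Corr
import Pool.Agent.Lib.MP_f60e8a_al.N.Growth

/-!
# Upper bound for the residual finiteness growth, general nilpotent case
-/

open scoped BigOperators commutatorElement

namespace Pool.Agent.MPf60e8aN

open Pool.Agent.MPf60e8a (wordLen sepIndex RF PosDensity sepIndex_le)

variable {A : Type} [Ring A] [Algebra ℚ A]

namespace UpperN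

theorem index_le_of {H : Type*} [Group H] (N : Subgroup H) {X : Type*} [Finite X] (f : H → X)
    (hf : ∀ x y, f x = f y → x⁻¹ * y ∈ N) : N.index ≠ 0 ∧ N.index ≤ Nat.card X := by
  have hinj : Function.Injective (fun q : H ⧸ N => f q.out) := by
    intro q1 q2 h
    have h2 := hf _ _ h
    rw [← QuotientGroup.out_eq' q1, ← QuotientGroup.out_eq' q2]
    exact QuotientGroup.eq.mpr h2
  have : Finite (H ⧸ N) := Finite.of_injective _ hinj
  exact ⟨Nat.card_pos.ne', Nat.card_le_card_of_injective _ hinj⟩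

/-- A good prime of logarithmic size that does not divide a given integer of polynomial size. -/
theorem exists_good_prime {good : ℕ → Prop} (h : PosDensity good) (A : ℝ) (B : ℕ) :
    ∃ C : ℝ, 0 < C ∧ ∀ n : ℕ, 1 ≤ n → ∀ z : ℤ, z ≠ 0 → |(z : ℝ)| ≤ A * (n : ℝ) ^ B →
      ∃ p : ℕ, p.Prime ∧ good p ∧ (p : ℝ) ≤ C * (1 + Real.log n) ∧ ¬ ((p : ℤ) ∣ z) := by
  classical
  obtain ⟨c, x₀, hc, hx⟩ := h
  have hA' : 1 ≤ max A 1 := le_max_right _ _
  have hlA : 0 ≤ Real.log (max A 1) := Real.log_nonneg hA'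
  refine ⟨max x₀ 0 + (Real.log (max A 1) + B) / c + 1, by positivity, ?_⟩
  intro n hn z hz hzA
  by_contra hcon
  push Not at hcon
  set C := max x₀ 0 + (Real.log (max A 1) + B) / c + 1 with hC
  have hn' : (1 : ℝ) ≤ n := by exact_mod_cast hn
  have hln : 0 ≤ Real.log n := Real.log_nonneg hn'
  set x := C * (1 + Real.log n) with hxdef
  have hCx₀ : x₀ ≤ C := by
    have h1 := le_max_left x₀ 0
    have h2 : 0 ≤ (Real.log (max A 1) + B) / c := by positivity
    linarith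
  have hC0 : 0 < C := by positivity
  have hxC : C ≤ x := by
    rw [hxdef]
    nlinarith
  have hsum := hx x (hCx₀.trans hxC)
  have hx0 : 0 ≤ x := by linarith
  set s := (Finset.range (⌊x⌋₊ + 1)).filter (fun p => p.Prime ∧ good p) with hs
  have hdvd : ∏ p ∈ s, (p : ℤ) ∣ z := by
    have h1 : ∏ p ∈ s, p ∣ z.natAbs := by
      refine Finset.prod_primes_dvd _ ?_ ?_
      · intro p hp
        rw [hs, Finset.mem_filter] at hp
        exact hp.2.1.prime
      · intro p hp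
        rw [hs, Finset.mem_filter, Finset.mem_range] at hp
        have h2 : (p : ℝ) ≤ x := by
          have h3 : p ≤ ⌊x⌋₊ := by omega
          exact (Nat.le_floor_iff hx0).mp h3
        have h3 := hcon p hp.2.1 hp.2.2 h2
        exact Int.natCast_dvd.mp h3
    have h2 := Int.natCast_dvd.mpr h1
    push_cast at h2
    exact h2
  have hle : Real.log (∏ p ∈ s, (p : ℝ)) ≤ Real.log |(z : ℝ)| := by
    refine Real.log_le_log ?_ ?_
    · refine Finset.prod_pos fun p hp => ?_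
      rw [hs, Finset.mem_filter] at hp
      exact_mod_cast hp.2.1.pos
    · have h1 := Int.le_of_dvd (abs_pos.mpr hz) ((dvd_abs _ _).mpr hdvd)
      have h2 : ((∏ p ∈ s, (p : ℤ) : ℤ) : ℝ) ≤ ((|z| : ℤ) : ℝ) := by exact_mod_cast h1
      rw [Int.cast_prod, Int.cast_abs] at h2
      simpa using h2
  have hlogprod : Real.log (∏ p ∈ s, (p : ℝ)) = ∑ p ∈ s, Real.log p := by
    refine Real.log_prod ?_
    intro p hp
    rw [hs, Finset.mem_filter] at hp
    exact_mod_cast hp.2.1.pos.ne'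
  have hzpos : 0 < |(z : ℝ)| := abs_pos.mpr (by exact_mod_cast hz)
  have hzlog : Real.log |(z : ℝ)| ≤ Real.log (max A 1) + B * Real.log n := by
    have h1 : |(z : ℝ)| ≤ max A 1 * (n : ℝ) ^ B := by
      refine hzA.trans ?_
      gcongr
      exact le_max_left _ _
    refine (Real.log_le_log hzpos h1).trans ?_
    rw [Real.log_mul (by positivity) (by positivity), Real.log_pow]
  have hfin : c * x ≤ Real.log (max A 1) + B * Real.log n := by
    have h1 : ∑ p ∈ s, Real.log (p : ℝ) ≤ Real.log (max A 1) + B * Real.log n := by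
      rw [← hlogprod]
      exact hle.trans hzlog
    exact hsum.trans h1
  have hB0 : (0 : ℝ) ≤ B := Nat.cast_nonneg B
  have hcC : Real.log (max A 1) + B + c ≤ c * C := by
    rw [hC, mul_add, mul_add, mul_div_cancel₀ _ hc.ne', mul_one]
    have : 0 ≤ c * max x₀ 0 := by
      have := le_max_right x₀ 0
      positivity
    linarith
  have hlow : (Real.log (max A 1) + B + c) * (1 + Real.log n) ≤ c * x := by
    rw [hxdef, ← mul_assoc]
    gcongr
  nlinarith [mul_nonneg hlA hln, mul_nonneg hc.le hln]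

set_option linter.unusedSectionVars false

variable {L : AddSubgroup A} {h : ℕ} (e : Module.Basis (Fin h) ℤ L)

/-- Coordinates modulo `p`. -/
noncomputable def cm (p : ℕ) : L →+ (Fin h → ZMod p) where
  toFun x := fun k => ((e.equivFun x k : ℤ) : ZMod p)
  map_zero' := by
    funext k
    simp
  map_add' x y := by
    funext k
    simp

theorem cm_apply (p : ℕ) (x : L) (k : Fin h) :
    cm e p x k = ((e.equivFun x k : ℤ) : ZMod p) := rfl

theorem coe_eq_sum (x : L) : (x : A) = ∑ i, e.equivFun x i • (e i : A) := by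
  have h1 := e.sum_equivFun x
  have h2 : (x : A) = L.subtype (∑ i, e.equivFun x i • e i) := by
    rw [h1]
    rfl
  rw [h2, map_sum]
  refine Finset.sum_congr rfl fun i _ => ?_
  rw [map_zsmul]
  rfl

/-- The divided bracket in coordinates. -/
theorem bracket_eq {M : ℕ} (𝔏 : Alg h) (h𝔏 : Describes M e 𝔏) (x y : L) :
    (x : A) * y - y * x
      = M • ((e.equivFun.symm (𝔏.mul (e.equivFun x) (e.equivFun y)) : L) : A) := by
  have hz : ((e.equivFun.symm (𝔏.mul (e.equivFun x) (e.equivFun y)) : L) : A)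
      = ∑ k, 𝔏.mul (e.equivFun x) (e.equivFun y) k • (e k : A) := by
    rw [coe_eq_sum e (e.equivFun.symm (𝔏.mul (e.equivFun x) (e.equivFun y)))]
    rw [LinearEquiv.apply_symm_apply]
  rw [hz]
  have h1 : (x : A) * y = ∑ i, ∑ j, (e.equivFun x i * e.equivFun y j) • ((e i : A) * (e j : A)) := by
    conv_lhs => rw [coe_eq_sum e x, coe_eq_sum e y]
    rw [Finset.sum_mul]
    refine Finset.sum_congr rfl fun i _ => ?_
    rw [Finset.mul_sum]
    refine Finset.sum_congr rfl fun j _ => ?_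
    rw [smul_mul_smul_comm]
  have h2 : (y : A) * x = ∑ i, ∑ j, (e.equivFun x i * e.equivFun y j) • ((e j : A) * (e i : A)) := by
    conv_lhs => rw [coe_eq_sum e x, coe_eq_sum e y]
    rw [Finset.sum_mul]
    have h3 : ∀ j : Fin h, (e.equivFun y j • (e j : A)) * ∑ i, e.equivFun x i • (e i : A)
        = ∑ i, (e.equivFun x i * e.equivFun y j) • ((e j : A) * (e i : A)) := by
      intro j
      rw [Finset.mul_sum]
      refine Finset.sum_congr rfl fun i _ => ?_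
      rw [smul_mul_smul_comm, mul_comm]
    rw [Finset.sum_congr rfl fun j _ => h3 j, Finset.sum_comm]
  have h4 : ∀ i j, (e.equivFun x i * e.equivFun y j) • ((e i : A) * (e j : A))
        - (e.equivFun x i * e.equivFun y j) • ((e j : A) * (e i : A))
      = ∑ k, M • ((𝔏.c i j k * e.equivFun x i * e.equivFun y j) • (e k : A)) := by
    intro i j
    rw [← smul_sub, h𝔏 i j, smul_comm, ← Finset.smul_sum, Finset.smul_sum]
    congr 1
    refine Finset.sum_congr rfl fun k _ => ?_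
    rw [smul_smul]
    congr 1
    ring
  rw [h1, h2, ← Finset.sum_sub_distrib]
  have h5 : ∀ i, (∑ j, (e.equivFun x i * e.equivFun y j) • ((e i : A) * (e j : A))
        - ∑ j, (e.equivFun x i * e.equivFun y j) • ((e j : A) * (e i : A)))
      = ∑ j, ∑ k, M • ((𝔏.c i j k * e.equivFun x i * e.equivFun y j) • (e k : A)) := by
    intro i
    rw [← Finset.sum_sub_distrib]
    exact Finset.sum_congr rfl fun j _ => h4 i j
  rw [Finset.sum_congr rfl fun i _ => h5 i]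
  have h6 : ∀ k, 𝔏.mul (e.equivFun x) (e.equivFun y) k • (e k : A)
      = ∑ i, ∑ j, (𝔏.c i j k * e.equivFun x i * e.equivFun y j) • (e k : A) := by
    intro k
    unfold Alg.mul
    rw [Finset.sum_smul]
    refine Finset.sum_congr rfl fun i _ => ?_
    rw [Finset.sum_smul]
    rfl
  rw [Finset.sum_congr rfl fun k _ => h6 k, Finset.smul_sum]
  simp only [Finset.smul_sum]
  conv_rhs => rw [Finset.sum_comm]
  refine Finset.sum_congr rfl fun i _ => ?_
  rw [Finset.sum_comm]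

/-- Coordinates modulo `p` are multiplicative. -/
theorem cm_mul (p : ℕ) (𝔏 : Alg h) (x y : L) :
    cm e p (e.equivFun.symm (𝔏.mul (e.equivFun x) (e.equivFun y)))
      = 𝔏.mul (cm e p x) (cm e p y) := by
  funext k
  rw [cm_apply, LinearEquiv.apply_symm_apply]
  unfold Alg.mul
  simp only [cm_apply]
  push_cast
  rfl

/-- The ideal of the lattice given by an ideal modulo `p`. -/
noncomputable def idl {p d : ℕ} (π : (Fin h → ZMod p) →ₗ[ZMod p] (Fin d → ZMod p)) :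
    AddSubgroup A :=
  (AddMonoidHom.ker (π.toAddMonoidHom.comp (cm e p))).map L.subtype

theorem mem_idl {p d : ℕ} (π : (Fin h → ZMod p) →ₗ[ZMod p] (Fin d → ZMod p)) (y : A) :
    y ∈ idl e π ↔ ∃ hy : y ∈ L, π (cm e p ⟨y, hy⟩) = 0 := by
  constructor
  · rintro ⟨z, hz, rfl⟩
    exact ⟨z.2, hz⟩
  · rintro ⟨hy, h0⟩
    exact ⟨⟨y, hy⟩, h0, rfl⟩

theorem coe_mem_idl {p d : ℕ} (π : (Fin h → ZMod p) →ₗ[ZMod p] (Fin d → ZMod p)) (y : L) :
    (y : A) ∈ idl e π ↔ π (cm e p y) = 0 := by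
  rw [mem_idl]
  exact ⟨fun ⟨_, h0⟩ => h0, fun h0 => ⟨y.2, h0⟩⟩

theorem idl_latIdeal {M p d : ℕ} (𝔏 : Alg h) (h𝔏 : Describes M e 𝔏)
    (π : (Fin h → ZMod p) →ₗ[ZMod p] (Fin d → ZMod p))
    (hπ : 𝔏.IsIdeal (LinearMap.ker π)) : LatIdeal M L (idl e π) := by
  refine ⟨?_, ?_⟩
  · intro x hx
    exact ((mem_idl e π x).mp hx).1
  · intro x hx y hy
    obtain ⟨hxL, hx0⟩ := (mem_idl e π x).mp hx
    refine ⟨((e.equivFun.symm (𝔏.mul (e.equivFun ⟨x, hxL⟩) (e.equivFun ⟨y, hy⟩)) : L) : A), ?_,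
      bracket_eq e 𝔏 h𝔏 ⟨x, hxL⟩ ⟨y, hy⟩⟩
    rw [coe_mem_idl, cm_mul]
    exact LinearMap.mem_ker.mp (hπ _ (LinearMap.mem_ker.mpr hx0) _).1

/-- Separation with an ideal modulo `p`. -/
theorem exists_sub {G : Type*} [Group G] {N M : ℕ} (𝔞 : NilSub A N) (hM : BchConst N M)
    (hL : LieLattice 𝔞 M L) (𝔏 : Alg h) (h𝔏 : Describes M e 𝔏) (φ : G →* Aˣ)
    (hφ : ∀ g, ∃ x ∈ L, (φ g : A) = IsNilpotent.exp x) {p d : ℕ} (hp : p.Prime)
    (π : (Fin h → ZMod p) →ₗ[ZMod p] (Fin d → ZMod p))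
    (hπ : 𝔏.IsIdeal (LinearMap.ker π)) (g : G) (x : L) (hx : (φ g : A) = IsNilpotent.exp (x : A))
    (hx0 : π (cm e p x) ≠ 0) :
    ∃ N' : Subgroup G, N'.Normal ∧ N'.index ≠ 0 ∧ g ∉ N' ∧ N'.index ≤ p ^ d := by
  classical
  have : Fact p.Prime := ⟨hp⟩
  have hI := idl_latIdeal e 𝔏 h𝔏 π hπ
  obtain ⟨Γ, hΓ, hconj, hdiff⟩ := corr_ideal 𝔞 hM hL hI
  choose X hXL hX using hφ
  have hidx := index_le_of (Γ.comap φ) (X := Fin d → ZMod p)
    (fun g => π (cm e p ⟨X g, hXL g⟩)) (by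
      intro a b hab
      rw [Subgroup.mem_comap, map_mul, map_inv]
      rw [hdiff (X a) (hXL a) (X b) (hXL b) (φ a) (φ b) (hX a) (hX b)]
      rw [mem_idl]
      refine ⟨L.sub_mem (hXL b) (hXL a), ?_⟩
      have h1 : (⟨X b - X a, L.sub_mem (hXL b) (hXL a)⟩ : L) = ⟨X b, hXL b⟩ - ⟨X a, hXL a⟩ := rfl
      rw [h1, map_sub, map_sub, sub_eq_zero]
      exact hab.symm)
  have hcard : Nat.card (Fin d → ZMod p) = p ^ d := by
    rw [Nat.card_fun, Nat.card_zmod, Nat.card_fin]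
  rw [hcard] at hidx
  refine ⟨Γ.comap φ, ?_, hidx.1, ?_, hidx.2⟩
  · refine ⟨fun n hn b => ?_⟩
    rw [Subgroup.mem_comap] at hn ⊢
    rw [map_mul, map_mul, map_inv]
    exact hconj (φ b) ⟨X b, hXL b, hX b⟩ (φ n) hn
  · intro hg
    rw [Subgroup.mem_comap] at hg
    have h1 := (hdiff 0 L.zero_mem (x : A) x.2 1 (φ g) (by rw [Units.val_one, IsNilpotent.exp_zero])
      hx).mp (by rwa [inv_one, one_mul])
    rw [sub_zero, coe_mem_idl] at h1
    exact hx0 h1

/-- The coordinates extend to rational functionals on `A`. -/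
theorem exists_coord (k : Fin h) : ∃ ℓ : A →ₗ[ℚ] ℚ, ∀ x : L, ℓ (x : A) = (e.equivFun x k : ℚ) := by
  have hli : LinearIndependent ℤ (fun i => (e i : A)) :=
    e.linearIndependent.map' L.subtype.toIntLinearMap
      (LinearMap.ker_eq_bot.mpr Subtype.val_injective)
  have hlq : LinearIndependent ℚ (fun i => (e i : A)) :=
    (LinearIndependent.iff_fractionRing ℤ ℚ).mp hli
  let b := Module.Basis.span hlq
  obtain ⟨ℓ, hℓ⟩ := LinearMap.exists_extend (b.coord k)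
  refine ⟨ℓ, fun x => ?_⟩
  have h1 : ∀ i, ℓ (e i : A) = if i = k then 1 else 0 := by
    intro i
    have h2 := LinearMap.congr_fun hℓ (b i)
    rw [LinearMap.comp_apply, Module.Basis.coord_apply, Module.Basis.repr_self,
      Finsupp.single_apply] at h2
    rw [← h2]
    congr 1
    exact congrArg Subtype.val (Module.Basis.span_apply hlq i).symm
  rw [coe_eq_sum e x, map_sum, Finset.sum_eq_single k]
  · rw [map_zsmul, h1, if_pos rfl, zsmul_one]
  · intro i _ hi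
    rw [map_zsmul, h1, if_neg hi, smul_zero]
  · intro hk
    exact absurd (Finset.mem_univ k) hk

theorem main {G : Type*} [Group G] {S : Finset G}
    (hS : Subgroup.closure (S : Set G) = ⊤) {N M : ℕ} (𝔞 : NilSub A N) (hM : BchConst N M)
    (hL : LieLattice 𝔞 M L) (𝔏 : Alg h) (h𝔏 : Describes M e 𝔏) {d : ℕ}
    (hgood : PosDensity (𝔏.GoodP d)) (φ : G →* Aˣ)
    (hφ : ∀ g, ∃ x ∈ L, (φ g : A) = IsNilpotent.exp x) :
    ∃ C : ℝ, 0 < C ∧ ∀ n : ℕ, 1 ≤ n → ∀ g : G, wordLen S g ≤ n → φ g ≠ 1 →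
      ∃ N' : Subgroup G, N'.Normal ∧ N'.index ≠ 0 ∧ g ∉ N' ∧
        (N'.index : ℝ) ≤ C * (1 + Real.log n) ^ d := by
  classical
  have hlog : ∀ (g : G) (x : L), (φ g : A) = IsNilpotent.exp (x : A) → lg (φ g : A) = x := by
    intro g x hx
    rw [hx]
    exact lg_exp (𝔞.isNilpotent (hL.le _ x.2))
  have hsub : ∀ g, ((φ g : A) - 1) ∈ 𝔞.S := by
    intro g
    obtain ⟨x, hx, hgx⟩ := hφ g
    rw [hgx]
    exact 𝔞.exp_sub_one_mem (hL.le _ hx)
  choose ℓ hℓ using exists_coord e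
  choose C hC using fun k => exists_growth hS 𝔞 φ hsub (ℓ k)
  set B := ∑ k, C k with hB
  have hCB : ∀ k, C k ≤ B := fun k => Finset.single_le_sum (fun _ _ => Nat.zero_le _)
    (Finset.mem_univ k)
  obtain ⟨C₂, hC₂, hp⟩ := exists_good_prime hgood ((B : ℝ) * 2 ^ B) B
  refine ⟨C₂ ^ d, by positivity, ?_⟩
  intro n hn g hg hφg
  have hn' : (1 : ℝ) ≤ n := by exact_mod_cast hn
  obtain ⟨x, hxL, hx⟩ := hφ g
  have hx0 : (⟨x, hxL⟩ : L) ≠ 0 := by
    intro h0
    have h1 : x = 0 := congrArg Subtype.val h0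
    apply hφg
    apply Units.ext
    rw [hx, h1, IsNilpotent.exp_zero, Units.val_one]
  have hc0 : e.equivFun ⟨x, hxL⟩ ≠ 0 := by
    intro h0
    exact hx0 (e.equivFun.map_eq_zero_iff.mp h0)
  obtain ⟨k, hk⟩ := Function.ne_iff.mp hc0
  rw [Pi.zero_apply] at hk
  have hsz : |((e.equivFun ⟨x, hxL⟩ k : ℤ) : ℝ)| ≤ ((B : ℝ) * 2 ^ B) * (n : ℝ) ^ B := by
    have h1 := hC k g
    rw [hlog g ⟨x, hxL⟩ hx, hℓ] at h1
    have h2 : |((e.equivFun ⟨x, hxL⟩ k : ℤ) : ℝ)| ≤ (C k : ℝ) * (1 + wordLen S g) ^ C k := by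
      exact_mod_cast h1
    have h3 : (wordLen S g : ℝ) ≤ n := by exact_mod_cast hg
    have h4 : (C k : ℝ) ≤ B := by exact_mod_cast hCB k
    calc |((e.equivFun ⟨x, hxL⟩ k : ℤ) : ℝ)| ≤ (C k : ℝ) * (1 + wordLen S g) ^ C k := h2
      _ ≤ (B : ℝ) * (1 + n) ^ C k := by gcongr
      _ ≤ (B : ℝ) * (1 + n) ^ B := by
        gcongr
        · linarith
        · exact hCB k
      _ ≤ (B : ℝ) * (2 * n) ^ B := by
        gcongr
        linarith
      _ = ((B : ℝ) * 2 ^ B) * (n : ℝ) ^ B := by rw [mul_pow]; ring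
  obtain ⟨p, hp1, ⟨r, π, hπ, hinj⟩, hp3, hp4⟩ := hp n hn _ hk hsz
  have hcm : cm e p ⟨x, hxL⟩ ≠ 0 := by
    intro h0
    have h1 := congrFun h0 k
    rw [cm_apply, Pi.zero_apply] at h1
    exact hp4 ((ZMod.intCast_zmod_eq_zero_iff_dvd _ p).mp h1)
  have hj : ∃ j, π j (cm e p ⟨x, hxL⟩) ≠ 0 := by
    by_contra hcon
    push Not at hcon
    exact hcm (hinj _ hcon)
  obtain ⟨j, hj⟩ := hj
  obtain ⟨N', h1, h2, h3, h4⟩ := exists_sub e 𝔞 hM hL 𝔏 h𝔏 φ hφ hp1 (π j) (hπ j) g ⟨x, hxL⟩ hx hj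
  refine ⟨N', h1, h2, h3, ?_⟩
  rw [← mul_pow]
  calc (N'.index : ℝ) ≤ ((p ^ d : ℕ) : ℝ) := by exact_mod_cast h4
    _ = (p : ℝ) ^ d := by push_cast; rfl
    _ ≤ (C₂ * (1 + Real.log n)) ^ d := by gcongr

end UpperN

/-- The upper bound for the residual finiteness growth. -/
theorem upperN {G : Type*} [Group G] {S : Finset G}
    (hS : Subgroup.closure (S : Set G) = ⊤) {N M h : ℕ} (𝔞 : NilSub A N) (hM : BchConst N M)
    {L : AddSubgroup A} (hL : LieLattice 𝔞 M L) (e : Module.Basis (Fin h) ℤ L) (𝔏 : Alg h)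
    (h𝔏 : Describes M e 𝔏) (hgood : PosDensity (𝔏.GoodP 𝔏.dnum)) (φ : G →* Aˣ)
    (hφ : ∀ g, ∃ x ∈ L, (φ g : A) = IsNilpotent.exp x) (hker : Finite φ.ker) :
    (∀ g : G, φ g ≠ 1 → ∃ N' : Subgroup G, N'.Normal ∧ N'.index ≠ 0 ∧ g ∉ N') ∧
    ∃ C : ℝ, 0 < C ∧ ∀ n : ℕ, 1 ≤ n → ∀ g : G, wordLen S g ≤ n →
      (sepIndex g : ℝ) ≤ C * (1 + Real.log n) ^ 𝔏.dnum := by
  classical
  obtain ⟨C, hC, hmain⟩ := UpperN.main e hS 𝔞 hM hL 𝔏 h𝔏 hgood φ hφ
  refine ⟨?_, ?_⟩
  · intro g hg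
    obtain ⟨N', h1, h2, h3, _⟩ := hmain (wordLen S g + 1) (by omega) g (by omega) hg
    exact ⟨N', h1, h2, h3⟩
  · have : Fintype φ.ker := Fintype.ofFinite _
    refine ⟨C + ∑ x : φ.ker, (sepIndex (x : G) : ℝ), by positivity, ?_⟩
    intro n hn g hg
    have hn' : (1 : ℝ) ≤ n := by exact_mod_cast hn
    have hln : 0 ≤ Real.log n := Real.log_nonneg hn'
    have hone : (1 : ℝ) ≤ (1 + Real.log n) ^ 𝔏.dnum := one_le_pow₀ (by linarith)
    have hsum0 : 0 ≤ ∑ x : φ.ker, (sepIndex (x : G) : ℝ) :=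
      Finset.sum_nonneg fun _ _ => Nat.cast_nonneg _
    by_cases hΦ : φ g = 1
    · have h1 : (sepIndex g : ℝ) ≤ ∑ x : φ.ker, (sepIndex (x : G) : ℝ) :=
        Finset.single_le_sum (f := fun x : φ.ker => (sepIndex (x : G) : ℝ))
          (fun _ _ => Nat.cast_nonneg _) (Finset.mem_univ (⟨g, hΦ⟩ : φ.ker))
      nlinarith
    · obtain ⟨N', h1, h2, h3, h4⟩ := hmain n hn g hg hΦ
      have h5 : (sepIndex g : ℝ) ≤ N'.index := by
        exact_mod_cast sepIndex_le N' h1 h2 h3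
      have h6 : C * (1 + Real.log n) ^ 𝔏.dnum
          ≤ (C + ∑ x : φ.ker, (sepIndex (x : G) : ℝ)) * (1 + Real.log n) ^ 𝔏.dnum := by
        gcongr
        linarith
      linarith

end Pool.Agent.MPf60e8aN
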