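import Mathlib
import Pool.Agent.Lib.MP_f60e8a_al.N.ExpLog
import Pool.Agent.Lib.MP_f60e8a_al.N.Bch
import Pool.Agent.Lib.MP_f60e8a_al.N.Comm
import Pool.Agent.Lib.MP_f60e8a_al.N.Corr
import Pool.Agent.Lib.MP_f60e8a_al.N.Conv
import Pool.Agent.Lib.MP_f60e8a_al.N.UnipNilp
import Pool.Agent.Lib.MP_f60e8a_al.N.SylowHom
import Pool.Agent.Lib.MP_f60e8a_al.N.EmbT
import Pool.Agent.Lib.MP_f60e8a_al.N.EmbA
import Pool.Agent.Lib.MP_f60e8a_al.N.EmbB
import Pool.Agent.Lib.MP_f60e8a_al.N.Lattice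
import Pool.Agent.Lib.MP_f60e8a_al.N.LatBasis
import Pool.Agent.Lib.MP_f60e8a_al.N.Growth
import Pool.Agent.Lib.MP_f60e8a_al.N.GoodN
import Pool.Agent.Lib.MP_f60e8a_al.N.DescN
import Pool.Agent.Lib.MP_f60e8a_al.N.UltraN
import Pool.Agent.Lib.MP_f60e8a_al.N.UpperN
import Pool.Agent.Lib.MP_f60e8a_al.N.Link
import Pool.Agent.Lib.MP_f60e8a_al.Lower
import Pool.Agent.Lib.MP_f60e8a_al.Lcm

/-!
# Lower bound for residual finiteness growth of nilpotent groups
-/

open scoped BigOperators commutatorElement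

namespace Pool.Agent.MPf60e8aN.LowerN

open Pool.Agent.MPf60e8a (wordLen sepIndex RF PosDensity)

variable {A : Type} [Ring A] [Algebra ℚ A]

/-- The coordinate map of a lattice basis. -/
noncomputable def T {L : AddSubgroup A} {h : ℕ} (e : Module.Basis (Fin h) ℤ L) :
    (Fin h → ℤ) →+ A where
  toFun x := ∑ k, x k • (e k : A)
  map_zero' := by simp
  map_add' x y := by simp [add_smul, Finset.sum_add_distrib]

omit [Algebra ℚ A] in
theorem T_apply {L : AddSubgroup A} {h : ℕ} (e : Module.Basis (Fin h) ℤ L) (x : Fin h → ℤ) :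
    T e x = ∑ k, x k • (e k : A) := rfl

omit [Algebra ℚ A] in
theorem T_eq {L : AddSubgroup A} {h : ℕ} (e : Module.Basis (Fin h) ℤ L) (x : Fin h → ℤ) :
    T e x = ((e.equivFun.symm x : L) : A) := by
  rw [T_apply, Module.Basis.equivFun_symm_apply, AddSubgroup.val_finsetSum]
  rfl

theorem T_mem {L : AddSubgroup A} {h : ℕ} (e : Module.Basis (Fin h) ℤ L) (x : Fin h → ℤ) :
    T e x ∈ L := by
  rw [T_eq]
  exact Subtype.coe_prop _

theorem exists_T {L : AddSubgroup A} {h : ℕ} (e : Module.Basis (Fin h) ℤ L) {a : A}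
    (ha : a ∈ L) : ∃ x, T e x = a := by
  refine ⟨e.equivFun ⟨a, ha⟩, ?_⟩
  rw [T_eq, LinearEquiv.symm_apply_apply]

theorem T_injective {L : AddSubgroup A} {h : ℕ} (e : Module.Basis (Fin h) ℤ L) :
    Function.Injective (T e) := by
  intro x y hxy
  rw [T_eq, T_eq] at hxy
  exact e.equivFun.symm.injective (Subtype.ext hxy)

theorem T_mul {M : ℕ} {L : AddSubgroup A} {h : ℕ} (e : Module.Basis (Fin h) ℤ L) (𝔏 : Alg h)
    (h𝔏 : Describes M e 𝔏) (x y : Fin h → ℤ) :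
    T e x * T e y - T e y * T e x = M • T e (𝔏.mul x y) := by
  have h1 : T e x * T e y - T e y * T e x =
      ∑ i, ∑ j, (x i * y j) • ((e i : A) * (e j : A) - (e j : A) * (e i : A)) := by
    simp only [T_apply, Finset.sum_mul_sum, smul_sub, Finset.sum_sub_distrib]
    congr 1
    · refine Finset.sum_congr rfl fun i _ => Finset.sum_congr rfl fun j _ => ?_
      rw [smul_mul_smul_comm]
    · rw [Finset.sum_comm]
      refine Finset.sum_congr rfl fun i _ => Finset.sum_congr rfl fun j _ => ?_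
      rw [smul_mul_smul_comm, mul_comm]
  rw [h1]
  have h2 : T e (𝔏.mul x y) = ∑ i, ∑ j, (x i * y j) • ∑ k, 𝔏.c i j k • (e k : A) := by
    rw [T_apply]
    simp only [Alg.mul, Finset.sum_smul, Finset.smul_sum, smul_smul, Int.cast_id]
    rw [Finset.sum_comm]
    refine Finset.sum_congr rfl fun i _ => ?_
    rw [Finset.sum_comm]
    refine Finset.sum_congr rfl fun j _ => Finset.sum_congr rfl fun k _ => ?_
    congr 1
    ring
  rw [h2, Finset.smul_sum]
  refine Finset.sum_congr rfl fun i _ => ?_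
  rw [Finset.smul_sum]
  refine Finset.sum_congr rfl fun j _ => ?_
  rw [h𝔏 i j, smul_comm]

theorem smul_inj {n : ℕ} (hn : 0 < n) {a b : A} (h : n • a = n • b) : a = b := by
  have h1 : (n : ℚ) • a = (n : ℚ) • b := by
    rw [Nat.cast_smul_eq_nsmul, Nat.cast_smul_eq_nsmul, h]
  have h2 : (n : ℚ) ≠ 0 := by exact_mod_cast hn.ne'
  rw [← inv_smul_smul₀ h2 a, h1, inv_smul_smul₀ h2]

/-- The core: a normal subgroup of `exp L₁`, `L₁ = n₀ L`, of small index. -/
theorem core {N M h : ℕ} (𝔞 : NilSub A N) (hM : BchConst N M)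
    {L : AddSubgroup A} (hL : LieLattice 𝔞 M L) (e : Module.Basis (Fin h) ℤ L) (𝔏 : Alg h)
    (h𝔏 : Describes M e 𝔏) (n₀ : ℕ) (hn₀ : 0 < n₀) (z : Fin h → ℤ) (d p₀ : ℕ)
    (hz : ∀ p : ℕ, p.Prime → p₀ ≤ p → ∀ I : Submodule ℤ (Fin h → ℤ), 𝔏.IsIdeal I →
      ∀ s : ℕ, s < d → I.toAddSubgroup.index = p ^ s → z ∈ I)
    (Γ : Subgroup Aˣ) (L₁ : AddSubgroup A) (hL₁ : L₁ = L.map (nsmulAddMonoidHom n₀))
    (hΓ : (Γ : Set Aˣ) = ExpSet (L₁ : Set A)) (y : Γ)
    (hy : ((y : Aˣ) : A) = IsNilpotent.exp (n₀ • T e z))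
    (n K : ℕ) (hn : max (max p₀ (N + 1)) (max (M + 1) (n₀ + 1)) ≤ n)
    (hK : ∀ p b : ℕ, p.Prime → p ≤ n → p ^ b < n ^ d → p ^ b ∣ K)
    (N₁ : Subgroup Γ) (hN₁ : N₁.Normal) (hi : N₁.index ≠ 0) (hyK : y ^ K ∉ N₁) :
    n ^ d ≤ N₁.index := by
  have hNn := hN₁
  have hfi : N₁.FiniteIndex := ⟨hi⟩
  have hfin : Finite (Γ ⧸ N₁) := inferInstance
  have hLL₁ : LieLattice 𝔞 M L₁ := by
    subst hL₁
    constructor
    · rintro _ ⟨x, hx, rfl⟩
      exact 𝔞.S.smul_of_tower_mem n₀ (hL.le x hx)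
    · rintro _ ⟨x, hx, rfl⟩ _ ⟨y, hy, rfl⟩
      obtain ⟨w, hw, hw2⟩ := hL.br x hx y hy
      refine ⟨n₀ • (n₀ • w), ⟨n₀ • w, L.nsmul_mem hw n₀, rfl⟩, ?_⟩
      show (n₀ • x) * (n₀ • y) - (n₀ • y) * (n₀ • x) = _
      rw [smul_mul_smul_comm, smul_mul_smul_comm, ← smul_sub, hw2]
      simp only [smul_smul]
      congr 1
      ring
  have hnil : Group.IsNilpotent Γ := by
    refine isNilpotent_of_unip 𝔞 Γ fun u hu => ?_
    have : u ∈ (Γ : Set Aˣ) := hu
    rw [hΓ] at this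
    obtain ⟨x, hx, hux⟩ := this
    rw [hux]
    exact 𝔞.exp_sub_one_mem (hLL₁.le x hx)
  have hnilQ : Group.IsNilpotent (Γ ⧸ N₁) := inferInstance
  have hne : (QuotientGroup.mk (y ^ K) : Γ ⧸ N₁) ≠ 1 := by
    rwa [Ne, QuotientGroup.eq_one_iff]
  obtain ⟨p, P, f, hp, hP, hf, hfy⟩ := exists_pGroup_hom _ hne
  set F : Γ →* P := f.comp (QuotientGroup.mk' N₁) with hF
  have hFs : Function.Surjective F := hf.comp (QuotientGroup.mk'_surjective N₁)
  have hFy : F y ^ K ≠ 1 := by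
    rw [← map_pow]
    exact hfy
  have hcard : Nat.card P ≤ N₁.index := by
    rw [Subgroup.index_eq_card]
    exact Nat.card_le_card_of_surjective f hf
  have hfact := Fact.mk hp
  obtain ⟨s, hs⟩ := IsPGroup.iff_card.mp hP
  by_cases hpn : p ≤ n
  · -- small primes
    have h1 : orderOf (F y) ∣ p ^ s := by
      rw [← hs]
      exact orderOf_dvd_natCard _
    obtain ⟨b, hb, hb2⟩ := (Nat.dvd_prime_pow hp).mp h1
    have h2 : ¬ p ^ b ∣ K := by
      intro hdvd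
      exact hFy (orderOf_dvd_iff_pow_eq_one.mp (hb2 ▸ hdvd))
    have h3 := mt (hK p b hp hpn) h2
    rw [not_lt] at h3
    refine h3.trans (le_trans ?_ hcard)
    rw [hs]
    exact Nat.pow_le_pow_right hp.pos hb
  · -- large primes
    push Not at hpn
    simp only [max_le_iff] at hn
    obtain ⟨⟨hn1, hn2⟩, hn3, hn4⟩ := hn
    by_cases hsd : d ≤ s
    · calc n ^ d ≤ p ^ d := Nat.pow_le_pow_left hpn.le d
        _ ≤ p ^ s := Nat.pow_le_pow_right hp.pos hsd
        _ ≤ N₁.index := by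
          rw [← hs]
          exact hcard
    · exfalso
      push Not at hsd
      have hpM : ¬ p ∣ M := fun hd => by
        have := Nat.le_of_dvd hM.1 hd
        omega
      have hpn₀ : ¬ p ∣ n₀ := fun hd => by
        have := Nat.le_of_dvd hn₀ hd
        omega
      obtain ⟨I, hI, hI2, hI3⟩ := conv 𝔞 hM hLL₁ Γ hΓ hp (by omega) hpM hP F hFs
      -- the ideal in coordinates
      let θ : (Fin h → ℤ) →+ A := (nsmulAddMonoidHom n₀).comp (T e)
      have hθ : ∀ x, θ x = n₀ • T e x := fun x => rfl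
      have hθr : θ.range = L₁ := by
        rw [hL₁]
        ext a
        constructor
        · rintro ⟨x, rfl⟩
          exact ⟨T e x, T_mem e x, rfl⟩
        · rintro ⟨b, hb, rfl⟩
          obtain ⟨x, rfl⟩ := exists_T e hb
          exact ⟨x, rfl⟩
      have hidx : (I.comap θ).index = p ^ s := by
        rw [AddSubgroup.index_comap, hθr, hI3, hs]
      -- divisibility by `n₀` in the quotient
      have hdiv : ∀ x : Fin h → ℤ, n₀ • x ∈ I.comap θ → x ∈ I.comap θ := by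
        intro x hx
        have h1 : (p ^ s) • x ∈ I.comap θ := by
          have h2 := AddSubgroup.nsmul_index_mem (I.comap θ) x
          rwa [hidx] at h2
        have hcop : Nat.Coprime n₀ (p ^ s) :=
          (Nat.Coprime.pow_left s ((Nat.Prime.coprime_iff_not_dvd hp).mpr hpn₀)).symm
        have h3 : (Int.gcd (n₀ : ℤ) (p ^ s : ℕ) : ℤ) • x ∈ I.comap θ := by
          rw [Int.gcd_eq_gcd_ab, add_smul, mul_comm, mul_smul, mul_comm, mul_smul]
          refine (I.comap θ).add_mem ?_ ?_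
          · refine (I.comap θ).zsmul_mem ?_ _
            rwa [natCast_zsmul]
          · refine (I.comap θ).zsmul_mem ?_ _
            rwa [natCast_zsmul]
        rw [Int.gcd_natCast_natCast, hcop] at h3
        simpa using h3
      have hmul : ∀ x y : Fin h → ℤ, θ x * θ y - θ y * θ x =
          M • θ (n₀ • 𝔏.mul x y) := by
        intro x y
        rw [hθ, hθ, smul_mul_smul_comm, smul_mul_smul_comm, ← smul_sub, T_mul e 𝔏 h𝔏, hθ, map_nsmul,
          ← mul_smul, ← mul_smul, ← mul_smul]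
        congr 1
        ring
      have hideal : 𝔏.IsIdeal (AddSubgroup.toIntSubmodule (I.comap θ)) := by
        intro x hx y
        have hx' : θ x ∈ I := hx
        have hyL : θ y ∈ L₁ := by
          rw [← hθr]
          exact ⟨y, rfl⟩
        obtain ⟨w, hw, hw2⟩ := hI.br _ hx' _ hyL
        constructor
        · refine hdiv _ ?_
          show θ (n₀ • 𝔏.mul x y) ∈ I
          rw [hmul] at hw2
          rw [smul_inj hM.1 hw2]
          exact hw
        · refine hdiv _ ?_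
          show θ (n₀ • 𝔏.mul y x) ∈ I
          have h1 : M • θ (n₀ • 𝔏.mul y x) = M • (-w) := by
            rw [← hmul, smul_neg, ← hw2]
            abel
          rw [smul_inj hM.1 h1]
          exact I.neg_mem hw
      have hzI := hz p hp (by omega) _ hideal s hsd (by simpa using hidx)
      have hzI' : n₀ • T e z ∈ I := hzI
      have hmem : n₀ • T e z ∈ L₁ := by
        rw [← hθr]
        exact ⟨z, rfl⟩
      have h1 := (hI2 _ hmem y hy).mpr hzI'
      exact hFy (by rw [h1, one_pow])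

theorem exp_ne_one {N : ℕ} (𝔞 : NilSub A N) {x : A} (hx : x ∈ 𝔞.S) (h : x ≠ 0) :
    IsNilpotent.exp x ≠ 1 := by
  intro h1
  apply h
  have h2 := lg_exp (𝔞.isNilpotent hx)
  have h3 := lg_exp (𝔞.isNilpotent (𝔞.S.zero_mem))
  rw [IsNilpotent.exp_zero] at h3
  rw [← h2, h1, h3]

/-- Lower bound. -/
theorem lowerN {G : Type*} [Group G] {S : Finset G}
    (hS : Subgroup.closure (S : Set G) = ⊤) {N M h : ℕ} (𝔞 : NilSub A N) (hM : BchConst N M)
    {L : AddSubgroup A} (hL : LieLattice 𝔞 M L) (e : Module.Basis (Fin h) ℤ L) (𝔏 : Alg h)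
    (h𝔏 : Describes M e 𝔏) (φ : G →* Aˣ) (hker : Finite φ.ker)
    (n₀ : ℕ) (hn₀ : 0 < n₀) (hin : ∀ x ∈ L, ∃ g : G, (φ g : A) = IsNilpotent.exp (n₀ • x))
    (hd : 0 < 𝔏.dnum) :
    ∃ C : ℝ, 0 < C ∧ ∀ n : ℕ, 1 ≤ n → ∃ g : G, φ g ≠ 1 ∧
      (wordLen S g : ℝ) ≤ Real.exp (C * n) ∧
      ∀ N' : Subgroup G, N'.Normal → N'.index ≠ 0 → g ∉ N' → n ^ 𝔏.dnum ≤ N'.index := by
  obtain ⟨z, hz0, hz⟩ := exists_zN 𝔏 hd
  obtain ⟨p₀, hp₀⟩ := ultraN 𝔏 𝔏.dnum z hz
  obtain ⟨C, hC, hK⟩ := Pool.Agent.MPf60e8a.exists_K 𝔏.dnum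
  set L₁ : AddSubgroup A := L.map (nsmulAddMonoidHom n₀) with hL₁def
  have hLL₁ : LieLattice 𝔞 M L₁ := by
    constructor
    · rintro _ ⟨x, hx, rfl⟩
      exact 𝔞.S.smul_of_tower_mem n₀ (hL.le x hx)
    · rintro _ ⟨x, hx, rfl⟩ _ ⟨y, hy, rfl⟩
      obtain ⟨w, hw, hw2⟩ := hL.br x hx y hy
      refine ⟨n₀ • (n₀ • w), ⟨n₀ • w, L.nsmul_mem hw n₀, rfl⟩, ?_⟩
      show (n₀ • x) * (n₀ • y) - (n₀ • y) * (n₀ • x) = _
      rw [smul_mul_smul_comm, smul_mul_smul_comm, ← smul_sub, hw2]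
      simp only [smul_smul]
      congr 1
      ring
  obtain ⟨Γ, hΓ⟩ := corr_group 𝔞 hM hLL₁
  obtain ⟨x₀, hx₀⟩ := hin (T e z) (T_mem e z)
  have hTz : T e z ≠ 0 := fun h0 => hz0 (T_injective e (by rw [h0, map_zero]))
  have hTzS : T e z ∈ 𝔞.S := hL.le _ (T_mem e z)
  have hφx : ∀ K : ℕ, 0 < K → φ (x₀ ^ K) ≠ 1 := by
    intro K hK0 h1
    have h2 := congrArg (fun u : Aˣ => (u : A)) h1
    simp only [map_pow, Units.val_pow_eq_pow_val, Units.val_one, hx₀] at h2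
    rw [← exp_nsmul (𝔞.isNilpotent (𝔞.S.smul_of_tower_mem n₀ hTzS)), smul_smul] at h2
    refine exp_ne_one 𝔞 (𝔞.S.smul_of_tower_mem _ hTzS) ?_ h2
    intro h3
    exact hTz (smul_inj (n := K * n₀) (by positivity) (by rw [h3, smul_zero]))
  -- the quotient by the kernel
  let ψ : G ⧸ φ.ker →* Aˣ := QuotientGroup.kerLift φ
  have hψ : Function.Injective ψ := QuotientGroup.kerLift_injective φ
  have hψmk : ∀ g : G, ψ (QuotientGroup.mk g) = φ g := fun g => rfl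
  have hΓr : ∀ u : Γ, ∃ q : G ⧸ φ.ker, ψ q = u := by
    intro u
    have hu : (u : Aˣ) ∈ (Γ : Set Aˣ) := u.2
    rw [hΓ] at hu
    obtain ⟨_, ⟨x, hx, rfl⟩, hux⟩ := hu
    obtain ⟨g, hg⟩ := hin x hx
    refine ⟨QuotientGroup.mk g, ?_⟩
    rw [hψmk]
    exact Units.ext (hg.trans hux.symm)
  let ι : Γ →* G ⧸ φ.ker :=
    { toFun := fun u => (hΓr u).choose
      map_one' := hψ (by rw [(hΓr 1).choose_spec, map_one]; rfl)
      map_mul' := fun u v => hψ (by
        rw [(hΓr (u * v)).choose_spec, map_mul, (hΓr u).choose_spec, (hΓr v).choose_spec]; rfl) }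
  have hι : ∀ u : Γ, ψ (ι u) = u := fun u => (hΓr u).choose_spec
  have hyΓ : φ x₀ ∈ Γ := by
    have : φ x₀ ∈ (Γ : Set Aˣ) := by
      rw [hΓ]
      exact ⟨n₀ • T e z, ⟨T e z, T_mem e z, rfl⟩, hx₀⟩
    exact this
  set y : Γ := ⟨φ x₀, hyΓ⟩ with hydef
  have hιy : ι y = QuotientGroup.mk x₀ := hψ (by rw [hι, hψmk])
  obtain ⟨C', hC', hl⟩ := Pool.Agent.MPf60e8a.Lower.lower_lift hS φ.ker 𝔏.dnum
    (QuotientGroup.mk x₀ : G ⧸ φ.ker) C (max (max p₀ (N + 1)) (max (M + 1) (n₀ + 1))) hC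
    (fun n hn hnn => by
      obtain ⟨K, hK0, hKe, hKd⟩ := hK n hn
      refine ⟨K, hK0, hKe, hKd, ?_, ?_⟩
      · intro h1
        rw [← QuotientGroup.mk_pow, QuotientGroup.eq_one_iff, MonoidHom.mem_ker] at h1
        exact hφx K hK0 h1
      · intro N' hN' hi hx
        have hi1 : (N'.comap ι).index ∣ N'.index := by
          rw [Subgroup.index_comap]
          exact Subgroup.relIndex_dvd_index_of_normal _ _
        have hi2 : (N'.comap ι).index ≠ 0 := fun h0 => by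
          rw [h0] at hi1
          exact hi (Nat.eq_zero_of_zero_dvd hi1)
        have hyK : y ^ K ∉ N'.comap ι := by
          rw [Subgroup.mem_comap, map_pow, hιy]
          exact hx
        have := core 𝔞 hM hL e 𝔏 h𝔏 n₀ hn₀ z 𝔏.dnum p₀ hp₀ Γ L₁ hL₁def hΓ y hx₀ n K hnn hKd
          (N'.comap ι) (hN'.comap ι) hi2 hyK
        exact this.trans (Nat.le_of_dvd (Nat.pos_of_ne_zero hi) hi1))
  refine ⟨C', hC', fun n hn => ?_⟩
  obtain ⟨g, hg1, _, hg2, hg3⟩ := hl n hn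
  refine ⟨g, ?_, hg2, hg3⟩
  intro h1
  exact hg1 ((QuotientGroup.eq_one_iff g).mpr h1)

end Pool.Agent.MPf60e8aN.LowerN
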