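import Mathlib
import Pool.Agent.Lib.MP_f60e8a_al.N.ExpLog
import Pool.Agent.Lib.MP_f60e8a_al.N.Bch
import Pool.Agent.Lib.MP_f60e8a_al.N.Comm
import Pool.Agent.Lib.MP_f60e8a_al.N.Corr
import Pool.Agent.Lib.MP_f60e8a_al.N.Conv
import Pool.Agent.Lib.MP_f60e8a_al.N.UnipNilp
import Pool.Agent.Lib.MP_f60e8a_al.N.SylowHom
import Pool.Agent.Lib.MP_f60e8a_al.N.EmbT
import Pool.Agent.Lib.MP_f60e8a_al.N.EmbA
import Pool.Agent.Lib.MP_f60e8a_al.N.EmbB
import Pool.Agent.Lib.MP_f60e8a_al.N.Lattice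
import Pool.Agent.Lib.MP_f60e8a_al.N.LatBasis
import Pool.Agent.Lib.MP_f60e8a_al.N.Growth
import Pool.Agent.Lib.MP_f60e8a_al.N.GoodN
import Pool.Agent.Lib.MP_f60e8a_al.N.DescN
import Pool.Agent.Lib.MP_f60e8a_al.N.UltraN
import Pool.Agent.Lib.MP_f60e8a_al.N.UpperN
import Pool.Agent.Lib.MP_f60e8a_al.N.Link
import Pool.Agent.Lib.MP_f60e8a_al.N.LowerN
import Pool.Agent.Lib.MP_f60e8a_al.Final

/-!
# Exact residual finiteness growth of finitely generated nilpotent groups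
-/

open scoped BigOperators commutatorElement

namespace Pool.Agent.MPf60e8aN.FinalN

open Pool.Agent.MPf60e8a

/-! ## Polylogarithmic growth functions -/

theorem RF_zero {G : Type*} [Group G] {S : Finset G}
    (hS : Subgroup.closure (S : Set G) = ⊤) : RF S 0 = 0 := by
  refine Nat.le_zero.mp (RF_le (B := 0) ?_)
  intro g hg hl
  exfalso
  apply hg
  obtain ⟨l, h1, _, h3⟩ := wordLen_spec hS g
  have : l = [] := List.eq_nil_of_length_eq_zero (by omega)
  rw [← h3, this, List.prod_nil]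

theorem upper_growth {G : Type*} [Group G] {S : Finset G}
    (hS : Subgroup.closure (S : Set G) = ⊤) (d : ℕ) (C : ℝ) (hC : 0 < C)
    (hup : ∀ n : ℕ, 1 ≤ n → ∀ g : G, wordLen S g ≤ n →
        (sepIndex g : ℝ) ≤ C * (1 + Real.log n) ^ d) :
    ∃ D : ℕ, 0 < D ∧ ∀ n, RF S n ≤ D * (Nat.log 2 (D * n)) ^ d := by
  refine ⟨⌈C⌉₊ + 4, by omega, fun n => ?_⟩
  rcases Nat.eq_zero_or_pos n with hn | hn
  · subst hn
    rw [RF_zero hS]
    exact Nat.zero_le _
  · have hL0 : 0 ≤ Real.log n := Real.log_natCast_nonneg n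
    have hn1 : (1 : ℝ) ≤ n := by exact_mod_cast hn
    -- `1 + log n ≤ log₂ (4 n)` rounded down
    have key : 1 + Real.log n ≤ (Nat.log 2 ((⌈C⌉₊ + 4) * n) : ℝ) := by
      have h1 : Nat.log 2 (4 * n) ≤ Nat.log 2 ((⌈C⌉₊ + 4) * n) :=
        Nat.log_mono_right (Nat.mul_le_mul_right n (by omega))
      have h2 : (Nat.log 2 (4 * n) : ℝ) ≤ (Nat.log 2 ((⌈C⌉₊ + 4) * n) : ℝ) := by
        exact_mod_cast h1
      refine le_trans ?_ h2
      have h3 : 4 * n < 2 ^ (Nat.log 2 (4 * n) + 1) := Nat.lt_pow_succ_log_self (by norm_num) _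
      have h4 : ((4 * n : ℕ) : ℝ) < 2 ^ (Nat.log 2 (4 * n) + 1) := by exact_mod_cast h3
      have h5 := Real.log_lt_log (by push_cast; positivity) h4
      rw [Real.log_pow] at h5
      push_cast at h5
      rw [Real.log_mul (by norm_num) (by positivity),
        show (4 : ℝ) = 2 ^ 2 by norm_num, Real.log_pow] at h5
      push_cast at h5
      have h6 : Real.log 2 < 1 := by
        have := Real.log_two_lt_d9
        linarith
      have h7 : 0 < Real.log 2 := Real.log_pos (by norm_num)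
      have h8 : (Nat.log 2 (4 * n) : ℝ) + 1 ≥ 0 := by positivity
      -- `2 log 2 + log n < (k + 1) log 2`, so `log n < (k - 1) log 2 ≤ k - 1`
      have h9 : Real.log n < ((Nat.log 2 (4 * n) : ℝ) - 1) * Real.log 2 := by linarith
      have h10 : 0 ≤ (Nat.log 2 (4 * n) : ℝ) - 1 := by
        by_contra hcon
        push Not at hcon
        have := mul_neg_of_neg_of_pos hcon h7
        linarith
      have h11 : ((Nat.log 2 (4 * n) : ℝ) - 1) * Real.log 2 ≤ (Nat.log 2 (4 * n) : ℝ) - 1 := by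
        nlinarith
      linarith
    refine RF_le fun g hg hl => ?_
    have h1 := hup n hn g hl
    have h2 : (1 + Real.log n) ^ d ≤ (Nat.log 2 ((⌈C⌉₊ + 4) * n) : ℝ) ^ d := by gcongr
    have h3 : (sepIndex g : ℝ) ≤ ((⌈C⌉₊ + 4 : ℕ) : ℝ) * (Nat.log 2 ((⌈C⌉₊ + 4) * n) : ℝ) ^ d := by
      refine h1.trans ?_
      have h4 : C ≤ ((⌈C⌉₊ + 4 : ℕ) : ℝ) := by
        have := Nat.le_ceil C
        push_cast
        linarith
      gcongr
    exact_mod_cast h3

theorem lower_growth {G : Type*} [Group G] {S : Finset G}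
    (hS : Subgroup.closure (S : Set G) = ⊤) (d : ℕ) (hd : 0 < d) (C : ℝ) (hC : 0 < C)
    (hlow : ∀ n : ℕ, 1 ≤ n → ∃ g : G, g ≠ 1 ∧ (wordLen S g : ℝ) ≤ Real.exp (C * n) ∧
        n ^ d ≤ sepIndex g) :
    ∃ D : ℕ, 0 < D ∧ ∀ n, (Nat.log 2 n) ^ d ≤ D * RF S (D * n) := by
  set E : ℕ := ⌈Real.exp C⌉₊ with hE
  set D : ℕ := ⌈(2 * (1 + 2 * C)) ^ d⌉₊ with hD
  have hE1 : 1 ≤ E := Nat.one_le_ceil_iff.mpr (Real.exp_pos _)
  refine ⟨E + D, by omega, fun n => ?_⟩
  rcases Nat.eq_zero_or_pos n with hn | hn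
  · subst hn
    simp [hd.ne']
  · have hL0 : 0 ≤ Real.log n := Real.log_natCast_nonneg n
    set j : ℕ := max 1 ⌊Real.log n / C⌋₊ with hj
    have hj1 : 1 ≤ j := le_max_left _ _
    obtain ⟨g, hg1, hg2, hg3⟩ := hlow j hj1
    have hn1 : (1 : ℝ) ≤ n := by exact_mod_cast hn
    have hjC : Real.exp (C * j) ≤ E * n := by
      have hEc : Real.exp C ≤ E := Nat.le_ceil _
      rcases le_total 1 ⌊Real.log n / C⌋₊ with hc | hc
      · rw [hj, max_eq_right hc]
        have h1 : (⌊Real.log n / C⌋₊ : ℝ) ≤ Real.log n / C := Nat.floor_le (by positivity)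
        have h2 : C * (⌊Real.log n / C⌋₊ : ℝ) ≤ Real.log n := by
          have := mul_le_mul_of_nonneg_left h1 hC.le
          rwa [mul_div_cancel₀ _ hC.ne'] at this
        calc Real.exp (C * (⌊Real.log n / C⌋₊ : ℝ)) ≤ Real.exp (Real.log n) :=
              Real.exp_le_exp.mpr h2
          _ = n := Real.exp_log (by linarith)
          _ ≤ E * n := by
            have : (1 : ℝ) ≤ E := by exact_mod_cast hE1
            nlinarith
      · rw [hj, max_eq_left hc]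
        simp only [Nat.cast_one, mul_one]
        have : (0 : ℝ) ≤ E := Nat.cast_nonneg E
        nlinarith
    have hlen : wordLen S g ≤ (E + D) * n := by
      have h1 : (wordLen S g : ℝ) ≤ E * n := hg2.trans hjC
      have h2 : wordLen S g ≤ E * n := by exact_mod_cast h1
      exact h2.trans (Nat.mul_le_mul_right n (by omega))
    have hRF : j ^ d ≤ RF S ((E + D) * n) := hg3.trans (sepIndex_le_RF hS hg1 hlen)
    have hjL : 1 + Real.log n ≤ (1 + 2 * C) * j := by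
      have h1 : Real.log n / C < ⌊Real.log n / C⌋₊ + 1 := Nat.lt_floor_add_one _
      have h2 : (⌊Real.log n / C⌋₊ : ℝ) ≤ j := by exact_mod_cast le_max_right _ _
      have h3 : (1 : ℝ) ≤ j := by exact_mod_cast hj1
      rw [div_lt_iff₀ hC] at h1
      nlinarith
    have hlog : (Nat.log 2 n : ℝ) ≤ 2 * (1 + Real.log n) := by
      have h1 : 2 ^ Nat.log 2 n ≤ n := Nat.pow_log_le_self 2 hn.ne'
      have h2 : (2 : ℝ) ^ Nat.log 2 n ≤ n := by exact_mod_cast h1
      have h3 := Real.log_le_log (by positivity) h2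
      rw [Real.log_pow] at h3
      have h4 : (1 : ℝ) / 2 ≤ Real.log 2 := by
        have := Real.log_two_gt_d9
        linarith
      have h5 : (0 : ℝ) ≤ Nat.log 2 n := Nat.cast_nonneg _
      nlinarith
    have h1 : ((Nat.log 2 n : ℝ)) ^ d ≤ ((2 * (1 + 2 * C)) * j) ^ d := by
      have h2 : (Nat.log 2 n : ℝ) ≤ (2 * (1 + 2 * C)) * j := by
        calc (Nat.log 2 n : ℝ) ≤ 2 * (1 + Real.log n) := hlog
          _ ≤ 2 * ((1 + 2 * C) * j) := by linarith
          _ = (2 * (1 + 2 * C)) * j := by ring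
      gcongr
    have h3 : ((Nat.log 2 n : ℝ)) ^ d ≤ D * (j : ℝ) ^ d := by
      calc ((Nat.log 2 n : ℝ)) ^ d ≤ ((2 * (1 + 2 * C)) * j) ^ d := h1
        _ = (2 * (1 + 2 * C)) ^ d * (j : ℝ) ^ d := mul_pow _ _ _
        _ ≤ D * (j : ℝ) ^ d := by
          have := Nat.le_ceil ((2 * (1 + 2 * C)) ^ d)
          gcongr
    have h4 : (Nat.log 2 n) ^ d ≤ D * j ^ d := by exact_mod_cast h3
    calc (Nat.log 2 n) ^ d ≤ D * j ^ d := h4
      _ ≤ (E + D) * RF S ((E + D) * n) := Nat.mul_le_mul (by omega) hRF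

/-! ## Positivity of `dnum` -/

theorem dnum_spec {h : ℕ} (𝔏 : Alg h) :
    sInf {J : Submodule ℂ (Fin h → ℂ) | 𝔏.IsIdeal J ∧
      Module.finrank ℂ ((Fin h → ℂ) ⧸ J) ≤ 𝔏.dnum} = ⊥ := by
  have hne : {d : ℕ | sInf {J : Submodule ℂ (Fin h → ℂ) | 𝔏.IsIdeal J ∧
      Module.finrank ℂ ((Fin h → ℂ) ⧸ J) ≤ d} = ⊥}.Nonempty := by
    refine ⟨h, le_bot_iff.mp (sInf_le ⟨?_, ?_⟩)⟩
    · intro x hx y
      rw [Submodule.mem_bot] at hx
      subst hx
      constructor
      · rw [Submodule.mem_bot]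
        funext k
        simp [Alg.mul]
      · rw [Submodule.mem_bot]
        funext k
        simp [Alg.mul]
    · refine (Submodule.finrank_quotient_le _).trans ?_
      simp
  exact Nat.sInf_mem hne

theorem dnum_pos {h : ℕ} (𝔏 : Alg h) (hh : 0 < h) : 0 < 𝔏.dnum := by
  by_contra hcon
  have h0 : 𝔏.dnum = 0 := by omega
  have h1 := dnum_spec 𝔏
  rw [h0] at h1
  have h2 : (⊤ : Submodule ℂ (Fin h → ℂ)) ≤ ⊥ := by
    rw [← h1]
    refine le_sInf ?_
    rintro J ⟨_, hJ⟩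
    have h3 : Module.finrank ℂ ((Fin h → ℂ) ⧸ J) = 0 := by omega
    have h4 : Subsingleton ((Fin h → ℂ) ⧸ J) := Module.finrank_zero_iff.mp h3
    intro x _
    rw [← Submodule.Quotient.mk_eq_zero]
    exact Subsingleton.elim _ _
  have h3 : (fun _ => 1 : Fin h → ℂ) ∈ (⊥ : Submodule ℂ (Fin h → ℂ)) := h2 trivial
  rw [Submodule.mem_bot] at h3
  have := congrFun h3 ⟨0, hh⟩
  simp at this

/-! ## Existence of representations -/

theorem hasRep_of_finite (G : Type*) [Group G] [Finite G] : HasRep G := by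
  refine ⟨0, 1, fun g => ?_, ?_⟩
  · intro i
    exact i.elim0
  · infer_instance

theorem hasRep (G : Type*) [Group G] [Group.FG G] [Group.IsNilpotent G] : HasRep G :=
  nilpotent_induction (fun G _ => HasRep G) (fun G _ _ => hasRep_of_finite G)
    (fun _ _ _ _ τ hτ hFG h => embed_step τ hτ hFG h) G

/-! ## The main theorem -/

theorem densities (R : Type) [CommRing R] [Algebra.FiniteType ℤ R] (h : Nonempty (R →+* ℂ)) :
    PosDensity (fun p => Nonempty (R →+* ZMod p)) :=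
  density_homs (fun K _ _ =>
      density_field K (cheb_field K) (mertens K (NumberField.RingOfIntegers.basis K)
        (ideal_count K _) (log_norm K) (cheb_field K) (box_norm K _))) R h

/-- Bounds for the residual finiteness growth of an infinite group with a unipotent
representation with finite kernel. -/
theorem bounds {G : Type*} [Group G] [Infinite G] {S : Finset G}
    (hS : Subgroup.closure (S : Set G) = ⊤) {N : ℕ}
    (φ : G →* (Matrix (Fin N) (Fin N) ℚ)ˣ) (hφ : IsUnipotent φ) (hker : Finite φ.ker) :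
    0 < malcevNumber φ ∧
    (∃ C : ℝ, 0 < C ∧ ∀ n : ℕ, 1 ≤ n → ∀ g : G, wordLen S g ≤ n →
      (sepIndex g : ℝ) ≤ C * (1 + Real.log n) ^ malcevNumber φ) ∧
    (∃ C : ℝ, 0 < C ∧ ∀ n : ℕ, 1 ≤ n → ∃ g : G, g ≠ 1 ∧
      (wordLen S g : ℝ) ≤ Real.exp (C * n) ∧ n ^ malcevNumber φ ≤ sepIndex g) := by
  have hFG : Group.FG G := ⟨⟨S, hS⟩⟩
  obtain ⟨M, hM⟩ := exists_bchConst N
  obtain ⟨L, hL, hLfg, hlog, n₀, hn₀, hin⟩ := exists_lattice (upperNil N) hM φ hφ
  obtain ⟨h, e, 𝔏, h𝔏⟩ := exists_basis (upperNil N) hL hLfg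
  have heq := malcevNumber_eq hM.1 φ hφ hL hlog n₀ hn₀ hin e 𝔏 h𝔏
  have hφ' : ∀ g, ∃ x ∈ L, (φ g : Matrix (Fin N) (Fin N) ℚ) = IsNilpotent.exp x :=
    fun g => ⟨lg _, hlog g, (exp_lg ((upperNil N).isNilpotent (hφ g))).symm⟩
  have hpos : 0 < h := by
    rcases Nat.eq_zero_or_pos h with h0 | h0
    · exfalso
      subst h0
      have hL0 : ∀ x ∈ L, x = 0 := by
        intro x hx
        obtain ⟨y, hy⟩ := LowerN.exists_T e hx
        rw [← hy, LowerN.T_apply]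
        simp
      have hker' : φ.ker = ⊤ := by
        ext g
        simp only [MonoidHom.mem_ker, Subgroup.mem_top, iff_true]
        obtain ⟨x, hx, hgx⟩ := hφ' g
        rw [hL0 x hx, IsNilpotent.exp_zero] at hgx
        exact Units.ext hgx
      rw [hker'] at hker
      have : Finite G := Finite.of_equiv _ (Subgroup.topEquiv (G := G)).toEquiv
      exact not_finite G
    · exact h0
  have hd := dnum_pos 𝔏 hpos
  obtain ⟨hres, C₁, hC₁, hup⟩ := upperN hS (upperNil N) hM hL e 𝔏 h𝔏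
    (good_densityN densities 𝔏) φ hφ' hker
  obtain ⟨C₂, hC₂, hlow⟩ := LowerN.lowerN hS (upperNil N) hM hL e 𝔏 h𝔏 φ hker n₀ hn₀ hin hd
  rw [heq]
  refine ⟨hd, ⟨C₁, hC₁, hup⟩, C₂, hC₂, fun n hn => ?_⟩
  obtain ⟨g, hg1, hg2, hg3⟩ := hlow n hn
  refine ⟨g, ?_, hg2, le_sepIndex (hres g hg1) hg3⟩
  rintro rfl
  exact hg1 (map_one φ)

theorem main {G : Type*} [Group G] [Infinite G] {S : Finset G}
    (hS : Subgroup.closure (S : Set G) = ⊤) {N : ℕ}
    (φ : G →* (Matrix (Fin N) (Fin N) ℚ)ˣ) (hφ : IsUnipotent φ) (hker : Finite φ.ker) :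
    (∃ D : ℕ, 0 < D ∧ ∀ n, RF S n ≤ D * (Nat.log 2 (D * n)) ^ malcevNumber φ) ∧
    (∃ D : ℕ, 0 < D ∧ ∀ n, (Nat.log 2 n) ^ malcevNumber φ ≤ D * RF S (D * n)) := by
  obtain ⟨hd, ⟨C₁, hC₁, hup⟩, C₂, hC₂, hlow⟩ := bounds hS φ hφ hker
  exact ⟨upper_growth hS _ C₁ hC₁ hup, lower_growth hS _ hd C₂ hC₂ hlow⟩

end Pool.Agent.MPf60e8aN.FinalN
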