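import Mathlib
import Pool.Agent.Lib.MP_f60e8a_al.N.NDefs
import Pool.Agent.Lib.MP_f60e8a_al.N.ExpLog
import Pool.Agent.Lib.MP_f60e8a_al.N.Comm
import Pool.Agent.Lib.MP_f60e8a_al.N.Corr

/-!
# The Lie lattice of a unipotent group
-/

open scoped BigOperators

namespace Pool.Agent.MPf60e8aN

set_option linter.unusedSectionVars false

namespace Lat

variable {A : Type} [Ring A] [Algebra ℚ A]

/-- The commutator bracket. -/
def cb (x y : A) : A := x * y - y * x

theorem cb_add_left (x y z : A) : cb (x + y) z = cb x z + cb y z := by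
  unfold cb; noncomm_ring

theorem cb_add_right (x y z : A) : cb x (y + z) = cb x y + cb x z := by
  unfold cb; noncomm_ring

theorem cb_neg_left (x y : A) : cb (-x) y = -cb x y := by
  unfold cb; noncomm_ring

theorem cb_neg_right (x y : A) : cb x (-y) = -cb x y := by
  unfold cb; noncomm_ring

theorem cb_zero_left (y : A) : cb 0 y = 0 := by simp [cb]

theorem cb_zero_right (x : A) : cb x 0 = 0 := by simp [cb]

theorem cb_smul_left (c : ℚ) (x y : A) : cb (c • x) y = c • cb x y := by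
  unfold cb; rw [smul_mul_assoc, mul_smul_comm, smul_sub]

theorem cb_smul_right (c : ℚ) (x y : A) : cb x (c • y) = c • cb x y := by
  unfold cb; rw [smul_mul_assoc, mul_smul_comm, smul_sub]

theorem cb_nsmul_left (c : ℕ) (x y : A) : cb (c • x) y = c • cb x y := by
  unfold cb; rw [smul_mul_assoc, mul_smul_comm, smul_sub]

theorem cb_nsmul_right (c : ℕ) (x y : A) : cb x (c • y) = c • cb x y := by
  unfold cb; rw [smul_mul_assoc, mul_smul_comm, smul_sub]

theorem cb_jacobi (x a b : A) : cb (cb x a) b = cb x (cb a b) - cb a (cb x b) := by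
  unfold cb; noncomm_ring

theorem inv_smul_nsmul {M : ℕ} (hM : 0 < M) (z : A) : (M : ℚ)⁻¹ • (M • z) = z := by
  have h : (M : ℚ) ≠ 0 := by exact_mod_cast hM.ne'
  rw [← Nat.cast_smul_eq_nsmul ℚ M z, smul_smul, inv_mul_cancel₀ h, one_smul]

theorem nsmul_inv_smul {M : ℕ} (hM : 0 < M) (z : A) : M • ((M : ℚ)⁻¹ • z) = z := by
  have h : (M : ℚ) ≠ 0 := by exact_mod_cast hM.ne'
  rw [← Nat.cast_smul_eq_nsmul ℚ M, smul_smul, mul_inv_cancel₀ h, one_smul]

/-- The divided right-normed brackets of length `k + 1`. -/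
def D (M : ℕ) (X : Set A) : ℕ → Set A
  | 0 => X
  | k + 1 => {a | ∃ x ∈ X, ∃ b ∈ D M X k, a = (M : ℚ)⁻¹ • cb x b}

/-- All divided brackets of length more than `k`. -/
def DD (M : ℕ) (X : Set A) (k : ℕ) : Set A := {a | ∃ j, k ≤ j ∧ a ∈ D M X j}

/-- The lattices. -/
def LL (M : ℕ) (X : Set A) (k : ℕ) : AddSubgroup A := AddSubgroup.closure (DD M X k)

/-- The rational spans. -/
def VV (M : ℕ) (X : Set A) (k : ℕ) : Submodule ℚ A := Submodule.span ℚ (DD M X k)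

theorem DD_anti {M : ℕ} {X : Set A} {j k : ℕ} (h : j ≤ k) : DD M X k ⊆ DD M X j := by
  rintro a ⟨i, hi, ha⟩
  exact ⟨i, h.trans hi, ha⟩

theorem LL_anti {M : ℕ} {X : Set A} {j k : ℕ} (h : j ≤ k) : LL M X k ≤ LL M X j :=
  AddSubgroup.closure_mono (DD_anti h)

theorem VV_anti {M : ℕ} {X : Set A} {j k : ℕ} (h : j ≤ k) : VV M X k ≤ VV M X j :=
  Submodule.span_mono (DD_anti h)

theorem LL_le_VV {M : ℕ} {X : Set A} (k : ℕ) {a : A} (ha : a ∈ LL M X k) : a ∈ VV M X k := by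
  have : LL M X k ≤ (VV M X k).toAddSubgroup := by
    unfold LL
    rw [AddSubgroup.closure_le]
    exact Submodule.subset_span
  exact this ha

theorem D_mem_LL {M : ℕ} {X : Set A} {j k : ℕ} (h : k ≤ j) {a : A} (ha : a ∈ D M X j) :
    a ∈ LL M X k := AddSubgroup.subset_closure ⟨j, h, ha⟩

theorem D_mem_VV {M : ℕ} {X : Set A} {j k : ℕ} (h : k ≤ j) {a : A} (ha : a ∈ D M X j) :
    a ∈ VV M X k := Submodule.subset_span ⟨j, h, ha⟩

/-- bracket of `x ∈ X` with an element of `LL`. -/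
theorem br_X_LL {M : ℕ} (hM : 0 < M) {X : Set A} {x : A} (hx : x ∈ X) {k : ℕ} {b : A}
    (hb : b ∈ LL M X k) : ∃ z ∈ LL M X (k + 1), cb x b = M • z := by
  unfold LL at hb
  induction hb using AddSubgroup.closure_induction with
  | mem b hb =>
    obtain ⟨j, hj, hb⟩ := hb
    refine ⟨(M : ℚ)⁻¹ • cb x b, D_mem_LL (Nat.succ_le_succ hj) ⟨x, hx, b, hb, rfl⟩, ?_⟩
    rw [nsmul_inv_smul hM]
  | zero => exact ⟨0, zero_mem _, by rw [cb_zero_right, smul_zero]⟩
  | add a b _ _ iha ihb =>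
    obtain ⟨z, hz, h⟩ := iha
    obtain ⟨z', hz', h'⟩ := ihb
    exact ⟨z + z', add_mem hz hz', by rw [cb_add_right, h, h', smul_add]⟩
  | neg a _ iha =>
    obtain ⟨z, hz, h⟩ := iha
    exact ⟨-z, neg_mem hz, by rw [cb_neg_right, h, smul_neg]⟩

theorem br_D_D {M : ℕ} (hM : 0 < M) {X : Set A} (i : ℕ) : ∀ (j : ℕ) (a b : A), a ∈ D M X i →
    b ∈ D M X j → ∃ z ∈ LL M X (i + j + 1), cb a b = M • z := by
  induction i with
  | zero =>
    intro j a b ha hb
    have := br_X_LL hM (X := X) ha (D_mem_LL le_rfl hb)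
    rwa [Nat.zero_add]
  | succ i ih =>
    intro j a b ha hb
    obtain ⟨x, hx, a', ha', rfl⟩ := ha
    obtain ⟨z, hz, h⟩ := ih j a' b ha' hb
    obtain ⟨z', hz', h'⟩ := br_X_LL hM hx hz
    have hb' : (M : ℚ)⁻¹ • cb x b ∈ D M X (j + 1) := ⟨x, hx, b, hb, rfl⟩
    obtain ⟨z'', hz'', h''⟩ := ih (j + 1) a' _ ha' hb'
    refine ⟨z' - z'', sub_mem ?_ ?_, ?_⟩
    · have e : i + 1 + j + 1 = i + j + 1 + 1 := by omega
      rw [e]; exact hz'
    · have e : i + 1 + j + 1 = i + (j + 1) + 1 := by omega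
      rw [e]; exact hz''
    · rw [cb_smul_left, cb_jacobi, smul_sub, h, cb_nsmul_right, inv_smul_nsmul hM, h',
        smul_sub, ← h'', cb_smul_right]

theorem br_D_LL {M : ℕ} (hM : 0 < M) {X : Set A} {i j : ℕ} {a b : A} (ha : a ∈ DD M X i)
    (hb : b ∈ LL M X j) : ∃ z ∈ LL M X (i + j + 1), cb a b = M • z := by
  unfold LL at hb
  induction hb using AddSubgroup.closure_induction with
  | mem b hb =>
    obtain ⟨i', hi, ha⟩ := ha
    obtain ⟨j', hj, hb⟩ := hb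
    obtain ⟨z, hz, h⟩ := br_D_D hM i' j' a b ha hb
    exact ⟨z, LL_anti (by omega) hz, h⟩
  | zero => exact ⟨0, zero_mem _, by rw [cb_zero_right, smul_zero]⟩
  | add a b _ _ iha ihb =>
    obtain ⟨z, hz, h⟩ := iha
    obtain ⟨z', hz', h'⟩ := ihb
    exact ⟨z + z', add_mem hz hz', by rw [cb_add_right, h, h', smul_add]⟩
  | neg a _ iha =>
    obtain ⟨z, hz, h⟩ := iha
    exact ⟨-z, neg_mem hz, by rw [cb_neg_right, h, smul_neg]⟩

theorem br_LL_LL {M : ℕ} (hM : 0 < M) {X : Set A} {i j : ℕ} {a b : A} (ha : a ∈ LL M X i)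
    (hb : b ∈ LL M X j) : ∃ z ∈ LL M X (i + j + 1), cb a b = M • z := by
  unfold LL at ha
  induction ha using AddSubgroup.closure_induction with
  | mem a ha => exact br_D_LL hM ha hb
  | zero => exact ⟨0, zero_mem _, by rw [cb_zero_left, smul_zero]⟩
  | add a b _ _ iha ihb =>
    obtain ⟨z, hz, h⟩ := iha
    obtain ⟨z', hz', h'⟩ := ihb
    exact ⟨z + z', add_mem hz hz', by rw [cb_add_left, h, h', smul_add]⟩
  | neg a _ iha =>
    obtain ⟨z, hz, h⟩ := iha
    exact ⟨-z, neg_mem hz, by rw [cb_neg_left, h, smul_neg]⟩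

theorem br_VV_VV {M : ℕ} (hM : 0 < M) {X : Set A} {i j : ℕ} {a b : A} (ha : a ∈ VV M X i)
    (hb : b ∈ VV M X j) : cb a b ∈ VV M X (i + j + 1) := by
  unfold VV at ha
  induction ha using Submodule.span_induction with
  | mem a ha =>
    unfold VV at hb
    induction hb using Submodule.span_induction with
    | mem b hb =>
      obtain ⟨z, hz, h⟩ := br_LL_LL hM (AddSubgroup.subset_closure ha)
        (AddSubgroup.subset_closure hb)
      rw [h]
      exact (VV M X _).smul_of_tower_mem M (LL_le_VV _ hz)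
    | zero => rw [cb_zero_right]; exact zero_mem _
    | add x y _ _ ihx ihy => rw [cb_add_right]; exact add_mem ihx ihy
    | smul c x _ ih => rw [cb_smul_right]; exact (VV M X _).smul_mem c ih
  | zero => rw [cb_zero_left]; exact zero_mem _
  | add x y _ _ ihx ihy => rw [cb_add_left]; exact add_mem ihx ihy
  | smul c x _ ih => rw [cb_smul_left]; exact (VV M X _).smul_mem c ih

/-- Elements of the rational span have a multiple in the lattice. -/
theorem exists_mul_mem {M : ℕ} {X : Set A} {k : ℕ} {a : A} (ha : a ∈ VV M X k) :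
    ∃ n : ℕ, 0 < n ∧ n • a ∈ LL M X k := by
  unfold VV at ha
  induction ha using Submodule.span_induction with
  | mem a ha => exact ⟨1, one_pos, by rw [one_smul]; exact AddSubgroup.subset_closure ha⟩
  | zero => exact ⟨1, one_pos, by rw [smul_zero]; exact zero_mem _⟩
  | add x y _ _ ihx ihy =>
    obtain ⟨n, hn, h⟩ := ihx
    obtain ⟨m, hm, h'⟩ := ihy
    refine ⟨n * m, Nat.mul_pos hn hm, ?_⟩
    rw [smul_add]
    refine add_mem ?_ ?_
    · rw [mul_comm, mul_smul]; exact nsmul_mem h m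
    · rw [mul_smul]; exact nsmul_mem h' n
  | smul c x _ ih =>
    obtain ⟨n, hn, h⟩ := ih
    refine ⟨c.den * n, Nat.mul_pos c.den_pos hn, ?_⟩
    have e : (c.den * n) • (c • x) = c.num • (n • x) := by
      rw [← Nat.cast_smul_eq_nsmul ℚ, ← Nat.cast_smul_eq_nsmul ℚ, ← Int.cast_smul_eq_zsmul ℚ,
        smul_smul, smul_smul]
      congr 1
      have := Rat.den_mul_eq_num c
      push_cast
      rw [mul_right_comm, this]
    rw [e]
    exact zsmul_mem h _

/-- A uniform multiple for finitely generated subgroups. -/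
theorem exists_unif {S K : AddSubgroup A} (hS : S.FG)
    (h : ∀ a ∈ S, ∃ n : ℕ, 0 < n ∧ n • a ∈ K) : ∃ q : ℕ, 0 < q ∧ ∀ a ∈ S, q • a ∈ K := by
  classical
  obtain ⟨T, hT⟩ := hS
  have hTS : ∀ t ∈ T, t ∈ S := fun t ht => by
    rw [← hT]; exact AddSubgroup.subset_closure ht
  choose! n hn hn' using fun t (ht : t ∈ T) => h t (hTS t ht)
  refine ⟨∏ t ∈ T, n t, Finset.prod_pos hn, ?_⟩
  intro a ha
  rw [← hT] at ha
  induction ha using AddSubgroup.closure_induction with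
  | mem t ht =>
    obtain ⟨m, hm⟩ := Finset.dvd_prod_of_mem n ht
    rw [hm, mul_comm, mul_smul]
    exact nsmul_mem (hn' t ht) m
  | zero => rw [smul_zero]; exact zero_mem _
  | add a b _ _ iha ihb => rw [smul_add]; exact add_mem iha ihb
  | neg a _ iha => rw [smul_neg]; exact neg_mem iha

theorem fg_of_le {S L : AddSubgroup A} (hL : L.FG) (h : S ≤ L) : S.FG := by
  have hL' : (AddSubgroup.toIntSubmodule L).FG := by
    rw [Submodule.fg_iff_addSubgroup_fg]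
    exact hL
  haveI : IsNoetherian ℤ (AddSubgroup.toIntSubmodule L) :=
    isNoetherian_of_fg_of_noetherian _ hL'
  have := isNoetherian_submodule.mp this (AddSubgroup.toIntSubmodule S) h
  rw [Submodule.fg_iff_addSubgroup_fg] at this
  exact this

theorem pow_bot {N : ℕ} (𝔞 : NilSub A N) {n : ℕ} (h : N ≤ n) : 𝔞.S ^ n = ⊥ := by
  rw [Submodule.pow_eq_span_pow_set, Submodule.span_eq_bot]
  intro x hx
  rw [Set.mem_pow] at hx
  obtain ⟨f, rfl⟩ := hx
  apply 𝔞.nil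
  · intro y hy
    rw [List.mem_ofFn] at hy
    obtain ⟨i, rfl⟩ := hy
    exact (f i).2
  · rw [List.length_ofFn]; exact h

theorem D_pow {N M : ℕ} (𝔞 : NilSub A N) {X : Set A} (hX : X ⊆ 𝔞.S) (k : ℕ) :
    ∀ a ∈ D M X k, a ∈ 𝔞.S ^ (k + 1) := by
  induction k with
  | zero =>
    intro a ha
    rw [Nat.zero_add, pow_one]
    exact hX ha
  | succ k ih =>
    rintro a ⟨x, hx, b, hb, rfl⟩
    refine Submodule.smul_mem _ _ (sub_mem ?_ ?_)
    · rw [pow_succ']; exact Submodule.mul_mem_mul (hX hx) (ih b hb)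
    · rw [pow_succ]; exact Submodule.mul_mem_mul (ih b hb) (hX hx)

theorem pow_le {N : ℕ} (𝔞 : NilSub A N) (n : ℕ) : 𝔞.S ^ (n + 1) ≤ 𝔞.S := by
  induction n with
  | zero => rw [Nat.zero_add, pow_one]
  | succ n ih =>
    rw [pow_succ, Submodule.mul_le]
    intro a ha b hb
    exact 𝔞.mul_mem a (ih ha) b hb

theorem VV_le {N M : ℕ} (𝔞 : NilSub A N) {X : Set A} (hX : X ⊆ 𝔞.S) (k : ℕ) :
    VV M X k ≤ 𝔞.S := by
  unfold VV
  rw [Submodule.span_le]
  rintro a ⟨j, _, ha⟩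
  exact pow_le 𝔞 j (D_pow 𝔞 hX j a ha)

theorem VV_bot {N M : ℕ} (𝔞 : NilSub A N) {X : Set A} (hX : X ⊆ 𝔞.S) {k : ℕ} (hk : N ≤ k) :
    VV M X k = ⊥ := by
  unfold VV
  rw [Submodule.span_eq_bot]
  rintro a ⟨j, hj, ha⟩
  have := D_pow 𝔞 hX j a ha
  rw [pow_bot 𝔞 (by omega)] at this
  exact (Submodule.mem_bot ℚ).mp this

theorem D_finite {M : ℕ} {X : Set A} (hX : X.Finite) (k : ℕ) : (D M X k).Finite := by
  induction k with
  | zero => exact hX
  | succ k ih =>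
    have : D M X (k + 1) = Set.image2 (fun x b => (M : ℚ)⁻¹ • cb x b) X (D M X k) := by
      ext a
      constructor
      · rintro ⟨x, hx, b, hb, rfl⟩
        exact ⟨x, hx, b, hb, rfl⟩
      · rintro ⟨x, hx, b, hb, rfl⟩
        exact ⟨x, hx, b, hb, rfl⟩
    rw [this]
    exact Set.Finite.image2 _ hX ih

theorem LL_fg {N M : ℕ} (𝔞 : NilSub A N) {X : Set A} (hX : X ⊆ 𝔞.S) (hf : X.Finite) :
    (LL M X 0).FG := by
  classical
  have hfin : (⋃ j ∈ Finset.range N, D M X j).Finite :=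
    Set.Finite.biUnion (Finset.finite_toSet _) fun j _ => D_finite hf j
  refine ⟨hfin.toFinset, ?_⟩
  rw [Set.Finite.coe_toFinset]
  apply le_antisymm
  · rw [AddSubgroup.closure_le]
    intro a ha
    simp only [Set.mem_iUnion] at ha
    obtain ⟨j, _, ha⟩ := ha
    exact D_mem_LL (Nat.zero_le j) ha
  · unfold LL
    rw [AddSubgroup.closure_le]
    rintro a ⟨j, _, ha⟩
    by_cases hj : j < N
    · apply AddSubgroup.subset_closure
      simp only [Set.mem_iUnion]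
      exact ⟨j, Finset.mem_range.mpr hj, ha⟩
    · have h1 := D_pow 𝔞 hX j a ha
      rw [pow_bot 𝔞 (by omega), Submodule.mem_bot] at h1
      rw [h1]; exact zero_mem _

theorem lieLattice {N M : ℕ} (hM : 0 < M) (𝔞 : NilSub A N) {X : Set A} (hX : X ⊆ 𝔞.S) :
    LieLattice 𝔞 M (LL M X 0) where
  le x hx := VV_le 𝔞 hX 0 (LL_le_VV 0 hx)
  br x hx y hy := by
    obtain ⟨z, hz, h⟩ := br_LL_LL hM hx hy
    exact ⟨z, LL_anti (Nat.zero_le _) hz, h⟩

/-- torsion-freeness -/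
theorem mem_of_nsmul {V : Submodule ℚ A} {n : ℕ} (hn : 0 < n) {a : A} (h : n • a ∈ V) :
    a ∈ V := by
  rw [← inv_smul_nsmul hn a]
  exact V.smul_mem _ h

/-- Product of exponentials modulo the next term. -/
theorem exp_mul_mod {N M : ℕ} (𝔞 : NilSub A N) (hM : BchConst N M) {X : Set A}
    (hX : X ⊆ 𝔞.S) {k : ℕ} {a b : A} (ha : a ∈ VV M X k) (hb : b ∈ VV M X k) :
    ∃ w ∈ VV M X (k + 1),
      IsNilpotent.exp a * IsNilpotent.exp b = IsNilpotent.exp (a + b + w) := by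
  obtain ⟨w, _, hw, h⟩ := hM.2 A 𝔞 a b (VV_le 𝔞 hX k ha) (VV_le 𝔞 hX k hb)
    (VV M X (k + 1)).toAddSubgroup
    (VV_anti (by omega) (br_VV_VV hM.1 ha hb))
    (fun e he => VV_anti (by omega) (br_VV_VV hM.1 ha he))
    (fun e he => VV_anti (by omega) (br_VV_VV hM.1 hb he))
  exact ⟨w, mem_of_nsmul hM.1 hw, h⟩

section group

variable {G : Type*} [Group G] {N M : ℕ} (𝔞 : NilSub A N) (hM : BchConst N M) (φ : G →* Aˣ)
  {X : Set A} (hX : X ⊆ 𝔞.S)

include 𝔞 hX in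
theorem phi_inv {a : A} {k : ℕ} (ha : a ∈ VV M X k) {g : G}
    (h : (φ g : A) = IsNilpotent.exp a) : (φ g⁻¹ : A) = IsNilpotent.exp (-a) := by
  have hn : IsNilpotent a := 𝔞.isNilpotent (VV_le 𝔞 hX k ha)
  have h1 : IsNilpotent.exp (-a) * (φ g : A) = 1 := by
    rw [h]; exact IsNilpotent.exp_neg_mul_exp_self hn
  rw [map_inv]
  calc ((φ g)⁻¹ : Aˣ).val = (IsNilpotent.exp (-a) * (φ g : A)) * ((φ g)⁻¹ : Aˣ).val := by
        rw [h1, one_mul]
    _ = IsNilpotent.exp (-a) := by rw [mul_assoc, Units.mul_inv, mul_one]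

/-- The elements of `V_k` which are realized modulo `V_{k+1}`. -/
def HH (k : ℕ) : AddSubgroup A where
  carrier := {a | a ∈ VV M X k ∧ ∃ r ∈ VV M X (k + 1), ∃ g : G,
    (φ g : A) = IsNilpotent.exp (a + r)}
  zero_mem' := ⟨zero_mem _, 0, zero_mem _, 1, by simp⟩
  add_mem' := by
    rintro a b ⟨ha, r, hr, g, hg⟩ ⟨hb, s, hs, g', hg'⟩
    have h1 : a + r ∈ VV M X k := add_mem ha (VV_anti (Nat.le_succ k) hr)
    have h2 : b + s ∈ VV M X k := add_mem hb (VV_anti (Nat.le_succ k) hs)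
    obtain ⟨w, hw, h⟩ := exp_mul_mod 𝔞 hM hX h1 h2
    refine ⟨add_mem ha hb, r + s + w, add_mem (add_mem hr hs) hw, g * g', ?_⟩
    rw [map_mul, Units.val_mul, hg, hg', h]
    congr 1
    abel
  neg_mem' := by
    rintro a ⟨ha, r, hr, g, hg⟩
    have h1 : a + r ∈ VV M X k := add_mem ha (VV_anti (Nat.le_succ k) hr)
    refine ⟨neg_mem ha, -r, neg_mem hr, g⁻¹, ?_⟩
    rw [phi_inv 𝔞 φ hX h1 hg, neg_add]

theorem VV_le_HH {k : ℕ} {a : A} (ha : a ∈ VV M X (k + 1)) : a ∈ HH 𝔞 hM φ hX k :=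
  ⟨VV_anti (Nat.le_succ k) ha, -a, neg_mem ha, 1, by simp⟩

/-- Iterated commutators. -/
theorem D_HH (hφX : ∀ x ∈ X, ∃ g : G, (φ g : A) = IsNilpotent.exp x) (k : ℕ) :
    ∀ a ∈ D M X k, (M ^ k) • a ∈ HH 𝔞 hM φ hX k := by
  induction k with
  | zero =>
    intro a ha
    rw [pow_zero, one_smul]
    obtain ⟨g, hg⟩ := hφX a ha
    exact ⟨D_mem_VV le_rfl ha, 0, zero_mem _, g, by rw [add_zero, hg]⟩
  | succ k ih =>
    rintro a ⟨x, hx, b, hb, rfl⟩
    obtain ⟨hb1, r, hr, g, hg⟩ := ih b hb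
    obtain ⟨s, hs⟩ := hφX x hx
    have e : (M ^ (k + 1)) • ((M : ℚ)⁻¹ • cb x b) = cb x ((M ^ k) • b) := by
      rw [pow_succ, mul_smul, nsmul_inv_smul hM.1, cb_nsmul_right]
    rw [e]
    set m : A := (M ^ k) • b with hm
    have hxV : x ∈ VV M X 0 := D_mem_VV (j := 0) le_rfl hx
    have hv : m + r ∈ VV M X k := add_mem hb1 (VV_anti (Nat.le_succ k) hr)
    have hc : cb x (m + r) ∈ VV M X (k + 1) := by
      have := br_VV_VV hM.1 hxV hv
      rwa [Nat.zero_add] at this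
    obtain ⟨w, _, ⟨j, hj⟩, h⟩ := exists_comm 𝔞 hM x (m + r) (hX hx) (VV_le 𝔞 hX k hv)
      (VV M X (k + 1 + 1)).toAddSubgroup
      (VV_anti (by omega) (br_VV_VV hM.1 hxV hc))
      (VV_anti (by omega) (br_VV_VV hM.1 hv hc))
      (fun e he => VV_anti (by omega) (br_VV_VV hM.1 hxV he))
      (fun e he => VV_anti (by omega) (br_VV_VV hM.1 hv he))
    have hw : w ∈ VV M X (k + 1 + 1) :=
      mem_of_nsmul (pow_pos (Nat.mul_pos (Nat.factorial_pos N) hM.1) j) hj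
    have hcr : cb x r ∈ VV M X (k + 1 + 1) := by
      have := br_VV_VV hM.1 hxV hr
      rwa [Nat.zero_add] at this
    have hcm : cb x m ∈ VV M X (k + 1) := by
      have := br_VV_VV hM.1 hxV hb1
      rwa [Nat.zero_add] at this
    refine ⟨hcm, cb x r + w, add_mem hcr hw, s * g * s⁻¹ * g⁻¹, ?_⟩
    rw [map_mul, map_mul, map_mul, Units.val_mul, Units.val_mul, Units.val_mul,
      phi_inv 𝔞 φ hX hxV hs, phi_inv 𝔞 φ hX hv hg, hs, hg, h]
    congr 1
    change cb x (m + r) + w = _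
    rw [cb_add_right]
    abel

theorem LL_HH (hφX : ∀ x ∈ X, ∃ g : G, (φ g : A) = IsNilpotent.exp x) {k : ℕ} {a : A}
    (ha : a ∈ LL M X k) : (M ^ k) • a ∈ HH 𝔞 hM φ hX k := by
  unfold LL at ha
  induction ha using AddSubgroup.closure_induction with
  | mem a ha =>
    obtain ⟨j, hj, ha⟩ := ha
    rcases hj.eq_or_lt with rfl | hj
    · exact D_HH 𝔞 hM φ hX hφX k a ha
    · exact VV_le_HH 𝔞 hM φ hX ((VV M X _).smul_of_tower_mem _ (D_mem_VV hj ha))
  | zero => rw [smul_zero]; exact zero_mem _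
  | add a b _ _ iha ihb => rw [smul_add]; exact add_mem iha ihb
  | neg a _ iha => rw [smul_neg]; exact neg_mem iha

include hM hX in
/-- The descending induction. -/
theorem claim (hf : X.Finite) (hφX : ∀ x ∈ X, ∃ g : G, (φ g : A) = IsNilpotent.exp x)
    (hφL : ∀ g : G, ∃ x ∈ LL M X 0, (φ g : A) = IsNilpotent.exp x) (j : ℕ) :
    ∀ k : ℕ, N ≤ k + j → ∃ n : ℕ, 0 < n ∧ ∀ x ∈ LL M X 0, x ∈ VV M X k →
      ∃ g : G, (φ g : A) = IsNilpotent.exp (n • x) := by
  induction j with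
  | zero =>
    intro k hk
    refine ⟨1, one_pos, ?_⟩
    intro x _ hx
    rw [VV_bot 𝔞 hX (by omega), Submodule.mem_bot] at hx
    exact ⟨1, by simp [hx]⟩
  | succ j ih =>
    intro k hk
    obtain ⟨s, hs, hsx⟩ := ih (k + 1) (by omega)
    have hM0 := hM.1
    -- uniform multiple
    obtain ⟨q, hq, hqx⟩ : ∃ q : ℕ, 0 < q ∧
        ∀ a ∈ LL M X 0 ⊓ (VV M X k).toAddSubgroup, q • a ∈ LL M X k :=
      exists_unif (fg_of_le (LL_fg 𝔞 hX hf) inf_le_left)
        (fun a ha => exists_mul_mem ha.2)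
    refine ⟨s * (M ^ k * q), Nat.mul_pos hs (Nat.mul_pos (pow_pos hM0 k) hq), ?_⟩
    intro x hxL hxV
    have h1 : (M ^ k * q) • x ∈ HH 𝔞 hM φ hX k := by
      rw [mul_smul]
      exact LL_HH 𝔞 hM φ hX hφX (hqx x ⟨hxL, hxV⟩)
    rw [mul_smul]
    set a : A := (M ^ k * q) • x with ha
    have haL : a ∈ LL M X 0 := nsmul_mem hxL _
    obtain ⟨haV, r, hr, g, hg⟩ := h1
    have harV : a + r ∈ VV M X k := add_mem haV (VV_anti (Nat.le_succ k) hr)
    have harL : a + r ∈ LL M X 0 := by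
      obtain ⟨y, hy, hgy⟩ := hφL g
      have e1 : lg (φ g : A) = a + r := by
        rw [hg]; exact lg_exp (𝔞.isNilpotent (VV_le 𝔞 hX k harV))
      have e2 : lg (φ g : A) = y := by
        rw [hgy]
        exact lg_exp (𝔞.isNilpotent (VV_le 𝔞 hX 0 (LL_le_VV 0 hy)))
      rw [← e1, e2]; exact hy
    have hrL : r ∈ LL M X 0 := by
      have : r = (a + r) - a := by abel
      rw [this]; exact sub_mem harL haL
    -- brackets of elements of `L ∩ V_k` and `L ∩ V_{k+1}` are in `M (L ∩ V_{k+1})`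
    set K : AddSubgroup A := LL M X 0 ⊓ (VV M X (k + 1)).toAddSubgroup with hK
    have hbr : ∀ u ∈ LL M X 0, u ∈ VV M X k → ∀ e ∈ K, ∃ z ∈ K, cb u e = M • z := by
      intro u hu hu' e he
      obtain ⟨z, hz, h⟩ := br_LL_LL hM0 hu he.1
      refine ⟨z, ⟨LL_anti (Nat.zero_le _) hz, ?_⟩, h⟩
      have h2 : cb u e ∈ VV M X (k + 1) := VV_anti (by omega) (br_VV_VV hM0 hu' he.2)
      rw [h] at h2
      exact mem_of_nsmul hM0 h2
    set u : A := -(s • (a + r)) with hu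
    set v : A := s • a with hv
    have huL : u ∈ LL M X 0 := neg_mem (nsmul_mem harL s)
    have huV : u ∈ VV M X k := neg_mem ((VV M X k).smul_of_tower_mem s harV)
    have hvL : v ∈ LL M X 0 := nsmul_mem haL s
    have hvV : v ∈ VV M X k := (VV M X k).smul_of_tower_mem s haV
    let E : AddSubgroup A := K.map (nsmulAddMonoidHom (s * M))
    have hE : ∀ z ∈ K, (s * M) • z ∈ E := fun z hz => ⟨z, hz, rfl⟩
    have hstab : ∀ y ∈ LL M X 0, y ∈ VV M X k → ∀ e ∈ E, cb y e ∈ E := by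
      rintro y hy hy' e ⟨z, hz, rfl⟩
      obtain ⟨z', hz', h'⟩ := hbr y hy hy' z hz
      change cb y ((s * M) • z) ∈ E
      rw [cb_nsmul_right, h']
      exact hE _ (nsmul_mem hz' M)
    have huv : cb u v ∈ E := by
      -- [u, v] = -s^2 [r, a] = s^2 [a, r]
      obtain ⟨z, hz, h⟩ := hbr a haL haV r ⟨hrL, hr⟩
      have e : cb u v = (s * M) • (s • z) := by
        rw [hu, hv, cb_neg_left, cb_nsmul_left, cb_nsmul_right, cb_add_left]
        have e1 : cb a a = 0 := by simp [cb]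
        have e2 : cb r a = - cb a r := by simp [cb]
        rw [e1, e2, h, zero_add, smul_neg, smul_neg, neg_neg]
        rw [smul_smul, smul_smul, smul_smul]
        congr 1
        ring
      rw [e]
      exact hE _ (nsmul_mem hz s)
    obtain ⟨w, _, hw, h⟩ := hM.2 A 𝔞 u v (VV_le 𝔞 hX k huV) (VV_le 𝔞 hX k hvV) E huv
      (hstab u huL huV) (hstab v hvL hvV)
    obtain ⟨w', hw', hww⟩ := hw
    have hww' : w = s • w' := by
      have e1 : M • w = M • (s • w') := by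
        rw [← hww]
        change (s * M) • w' = _
        rw [mul_comm, mul_smul]
      calc w = (M : ℚ)⁻¹ • (M • w) := (inv_smul_nsmul hM0 w).symm
        _ = s • w' := by rw [e1, inv_smul_nsmul hM0]
    have hρ : u + v + w = s • (w' - r) := by
      rw [hu, hv, hww', smul_add, smul_sub]
      abel
    obtain ⟨g', hg'⟩ := hsx (w' - r) (sub_mem hw'.1 hrL) (sub_mem hw'.2 hr)
    refine ⟨g ^ s * g', ?_⟩
    have hnil : IsNilpotent (s • (a + r)) :=
      𝔞.isNilpotent (VV_le 𝔞 hX k ((VV M X k).smul_of_tower_mem s harV))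
    rw [map_mul, map_pow, Units.val_mul, Units.val_pow_eq_pow_val, hg, hg',
      ← exp_nsmul (𝔞.isNilpotent (VV_le 𝔞 hX k harV)), ← hρ, ← h, ← mul_assoc, hu,
      IsNilpotent.exp_mul_exp_neg_self hnil, one_mul]

end group

end Lat

theorem exists_lattice {A : Type} [Ring A] [Algebra ℚ A] {G : Type*} [Group G] [Group.FG G]
    {N M : ℕ} (𝔞 : NilSub A N)
    (hM : BchConst N M) (φ : G →* Aˣ) (hφ : ∀ g, ((φ g : A) - 1) ∈ 𝔞.S) :
    ∃ L : AddSubgroup A, LieLattice 𝔞 M L ∧ L.FG ∧ (∀ g, lg (φ g : A) ∈ L) ∧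
      ∃ n : ℕ, 0 < n ∧ ∀ x ∈ L, ∃ g : G, (φ g : A) = IsNilpotent.exp (n • x) := by
  classical
  obtain ⟨T, hT⟩ := (Group.FG.out : (⊤ : Subgroup G).FG)
  let X : Set A := (fun g => lg (φ g : A)) '' (T : Set G)
  have hX : X ⊆ 𝔞.S := by
    rintro _ ⟨g, _, rfl⟩
    exact 𝔞.lg_mem (hφ g)
  have hf : X.Finite := (Finset.finite_toSet T).image _
  have hL : LieLattice 𝔞 M (Lat.LL M X 0) := Lat.lieLattice hM.1 𝔞 hX
  have hexp : ∀ g : G, (φ g : A) = IsNilpotent.exp (lg (φ g : A)) := fun g =>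
    (exp_lg (𝔞.isNilpotent (hφ g))).symm
  have hφX : ∀ x ∈ X, ∃ g : G, (φ g : A) = IsNilpotent.exp x := by
    rintro _ ⟨g, _, rfl⟩
    exact ⟨g, hexp g⟩
  obtain ⟨Γ, hΓ⟩ := corr_group 𝔞 hM hL
  have hφL : ∀ g : G, ∃ x ∈ Lat.LL M X 0, (φ g : A) = IsNilpotent.exp x := by
    intro g
    have h1 : g ∈ Subgroup.closure (T : Set G) := by rw [hT]; trivial
    have h2 : Subgroup.closure (T : Set G) ≤ Γ.comap φ := by
      rw [Subgroup.closure_le]
      intro t ht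
      change φ t ∈ (Γ : Set Aˣ)
      rw [hΓ]
      exact ⟨lg (φ t : A), Lat.D_mem_LL (j := 0) le_rfl ⟨t, ht, rfl⟩, hexp t⟩
    have h3 : φ g ∈ (Γ : Set Aˣ) := h2 h1
    rw [hΓ] at h3
    exact h3
  refine ⟨Lat.LL M X 0, hL, Lat.LL_fg 𝔞 hX hf, ?_, ?_⟩
  · intro g
    obtain ⟨x, hx, h⟩ := hφL g
    rw [h, lg_exp (𝔞.isNilpotent (hL.le x hx))]
    exact hx
  · obtain ⟨n, hn, h⟩ := Lat.claim 𝔞 hM φ hX hf hφX hφL N 0 (by omega)
    exact ⟨n, hn, fun x hx => h x hx (Lat.LL_le_VV 0 hx)⟩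

end Pool.Agent.MPf60e8aN
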